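import Pool.Agent.H181R2.Stubs

set_option autoImplicit false

namespace Pool.Agent.H181R2

/-- symbolic cell `(a + b N, c + d N)` -/
structure Sc where
  a : Int
  b : Int
  c : Int
  d : Int

/-- symbolic placement -/
structure Sp where
  g : Nat
  c : Sc

/-- `a + b N ≥ 0` for all `N ≥ 5` -/
def nn (a b : Int) : Bool :=
  match b with
  | .negSucc _ => false
  | .ofNat _ => match a + 5 * b with
    | .ofNat _ => true
    | .negSucc _ => false

def ieq (a b : Int) : Bool := nn (a - b) 0 && nn (b - a) 0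

def inS (p : Sc) : Bool :=
  (ieq p.a p.c && ieq p.b p.d && nn p.a (p.b + 1) && nn (-1 - p.a) (-p.b)) ||
  (nn p.a p.b && nn (-1 - p.a) (1 - p.b) && nn p.c p.d && nn (-1 - p.c) (1 - p.d)) ||
  (nn p.a (p.b - 1) && nn (-2 - p.a) (2 - p.b) && nn p.c (p.d - 1) && nn (-1 - p.c) (2 - p.d))

def outS (p : Sc) : Bool :=
  (nn (p.a - p.c - 1) (p.b - p.d) || nn (p.c - p.a - 1) (p.d - p.b) ||
    nn (-1 - p.a) (-1 - p.b) || nn p.a p.b) &&
  (nn (-1 - p.a) (-p.b) || nn p.a (p.b - 1) || nn (-1 - p.c) (-p.d) || nn p.c (p.d - 1)) &&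
  (nn (-1 - p.a) (1 - p.b) || nn (p.a + 1) (p.b - 2) || nn (-1 - p.c) (1 - p.d) ||
    nn p.c (p.d - 2))

def lN : Nat → Int → Int → Int × Int
  | 0, x, y => (x, y)
  | 1, x, y => (y, y - x)
  | 2, x, y => (y - x, -x)
  | 3, x, y => (-x, -y)
  | 4, x, y => (-y, x - y)
  | 5, x, y => (x - y, x)
  | 6, x, y => (y, x)
  | 7, x, y => (x, x - y)
  | 8, x, y => (x - y, -y)
  | 9, x, y => (-y, -x)
  | 10, x, y => (-x, y - x)
  | _, x, y => (y - x, y)

def fin12 : Nat → Fin 12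
  | 0 => 0
  | 1 => 1
  | 2 => 2
  | 3 => 3
  | 4 => 4
  | 5 => 5
  | 6 => 6
  | 7 => 7
  | 8 => 8
  | 9 => 9
  | 10 => 10
  | _ => 11

def lNi : Nat → Nat
  | 0 => 0
  | 1 => 5
  | 2 => 4
  | 3 => 3
  | 4 => 2
  | 5 => 1
  | 6 => 6
  | 7 => 7
  | 8 => 8
  | 9 => 9
  | 10 => 10
  | _ => 11

def linSc (g : Nat) (c : Sc) : Sc :=
  match lN g c.a c.c, lN g c.b c.d with
  | (x, y), (x', y') => ⟨x, x', y, y'⟩

def invS (p : Sp) (c : Sc) : Sc :=
  linSc (lNi p.g) ⟨c.a - p.c.a, c.b - p.c.b, c.c - p.c.c, c.d - p.c.d⟩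

def appS (p : Sp) (c : Sc) : Sc :=
  match linSc p.g c with
  | ⟨x, x', y, y'⟩ => ⟨x + p.c.a, x' + p.c.b, y + p.c.c, y' + p.c.d⟩

def dirN : Nat → Int × Int
  | 0 => (1, 0)
  | 1 => (1, 1)
  | 2 => (0, 1)
  | 3 => (-1, 0)
  | 4 => (-1, -1)
  | 5 => (0, -1)
  | 6 => (1, 0)
  | 7 => (1, 1)
  | _ => (0, 0)

def addDir (c : Sc) (s : Nat) : Sc := ⟨c.a + (dirN s).1, c.b, c.c + (dirN s).2, c.d⟩

def tab : Nat → List Sc
  | 0 => [⟨-2, 2, -1, 2⟩]
  | 1 => [⟨0, 0, -1, 1⟩, ⟨0, 1, -1, 2⟩]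
  | 2 => [⟨0, -1, 0, -1⟩, ⟨0, 0, -1, 1⟩, ⟨0, 1, -1, 2⟩]
  | 3 => [⟨0, -1, 0, -1⟩]
  | 4 => [⟨0, -1, 0, -1⟩, ⟨-1, 1, 0, 0⟩, ⟨-2, 2, 0, 1⟩]
  | 5 => [⟨-1, 1, 0, 0⟩, ⟨-2, 2, 0, 1⟩]
  | _ => []

def spr (g s : Nat) : Nat := if g < 6 then (s + g) % 6 else (24 - s - g) % 6

def cand (cell : Sc) (g : Nat) (t : Sc) : Sp :=
  match linSc g t with
  | ⟨x, x', y, y'⟩ => ⟨g, ⟨cell.a - x, cell.b - x', cell.c - y, cell.d - y'⟩⟩

def cands (cell : Sc) (s : Nat) : List Sp :=
  [0, 1, 2, 3, 4, 5, 6, 7, 8, 9, 10, 11].flatMap fun g => (tab (spr g s)).map (cand cell g)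

def spEq (p q : Sp) : Bool :=
  Nat.beq p.g q.g && ieq p.c.a q.c.a && ieq p.c.b q.c.b && ieq p.c.c q.c.c && ieq p.c.d q.c.d

def memSp (q : Sp) : List Sp → Bool
  | [] => false
  | p :: l => spEq p q || memSp q l

inductive Tr where
  | nd (a b c d : Int) (s k0 k1 k2 : Nat) (br : Tr)
  | gl
  | ki (k w : Nat) (rest : Tr)
  | su (t rest : Tr)
  | dn

def getk : List Sp → Nat → Option Sp
  | [], _ => none
  | p :: _, 0 => some p
  | _ :: l, k + 1 => getk l k

def getc : List Sc → Nat → Option Sc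
  | [], _ => none
  | p :: _, 0 => some p
  | _ :: l, k + 1 => getc l k

def covd (P : List Sp) (k : Nat) (cell : Sc) (s : Nat) : Bool :=
  match getk P k with
  | none => false
  | some p => inS (invS p (addDir cell s)) && outS (invS p cell)

def killd (K : List Sc) (P : List Sp) (k w : Nat) (q : Sp) (cell : Sc) : Bool :=
  match getk P k, getc K w with
  | some p, some t => inS t && inS (invS p (appS q t)) && outS (invS p cell)
  | _, _ => false

def isNode : Tr → Bool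
  | .nd _ _ _ _ _ _ _ _ _ => true
  | .gl => true
  | _ => false

def chk (K : List Sc) (goals : List Sp) : Tr → List Sp → List Sp → Sc → Bool
  | .nd a b c d s k0 k1 k2 br, P, _, _ =>
      Nat.blt s 6 && covd P k0 ⟨a, b, c, d⟩ s && covd P k1 ⟨a, b, c, d⟩ (s + 1) &&
        covd P k2 ⟨a, b, c, d⟩ (s + 2) && chk K goals br P (cands ⟨a, b, c, d⟩ s) ⟨a, b, c, d⟩
  | .gl, P, _, _ => match P with
    | [] => false
    | q :: _ => memSp q goals
  | .ki k w rest, P, cs, cell => match cs with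
    | [] => false
    | q :: cs' => killd K P k w q cell && chk K goals rest P cs' cell
  | .su t rest, P, cs, cell => match cs with
    | [] => false
    | q :: cs' => isNode t && chk K goals t (q :: P) [] cell && chk K goals rest P cs' cell
  | .dn, _, cs, _ => cs.isEmpty

/-! ### Soundness -/

def ev (N : ℤ) (c : Sc) : Cell := (c.a + c.b * N, c.c + c.d * N)

def evp (N : ℤ) (p : Sp) : Equiv.Perm Cell := pl (fin12 p.g) (ev N p.c).1 (ev N p.c).2

theorem nn_sound {N a b : ℤ} (hN : 5 ≤ N) (h : nn a b = true) : 0 ≤ a + b * N := by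
  unfold nn at h
  split at h
  · exact absurd h (by simp)
  · rename_i n
    split at h
    · rename_i m hm
      have h1 : (0 : ℤ) ≤ a + 5 * Int.ofNat n := by rw [hm]; exact Int.natCast_nonneg m
      have h2 : (0 : ℤ) ≤ Int.ofNat n := Int.natCast_nonneg n
      nlinarith
    · exact absurd h (by simp)

theorem ieq_sound {a b : ℤ} (h : ieq a b = true) : a = b := by
  unfold ieq at h
  rw [Bool.and_eq_true] at h
  have h1 := nn_sound (N := 5) (by norm_num) h.1
  have h2 := nn_sound (N := 5) (by norm_num) h.2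
  omega

theorem inS_sound {N : ℤ} (hN : 5 ≤ N) {p : Sc} (h : inS p = true) : InT N (ev N p) := by
  obtain ⟨a, b, c, d⟩ := p
  simp only [inS, Bool.or_eq_true, Bool.and_eq_true] at h
  unfold InT ev
  simp only
  rcases h with (⟨⟨⟨h1, h2⟩, h3⟩, h4⟩ | ⟨⟨⟨h1, h2⟩, h3⟩, h4⟩) | ⟨⟨⟨h1, h2⟩, h3⟩, h4⟩
  · left
    have e1 := ieq_sound h1
    have e2 := ieq_sound h2
    have e3 := nn_sound hN h3
    have e4 := nn_sound hN h4
    subst e1 e2
    refine ⟨rfl, by linarith, by linarith⟩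
  · right; left
    have e1 := nn_sound hN h1
    have e2 := nn_sound hN h2
    have e3 := nn_sound hN h3
    have e4 := nn_sound hN h4
    refine ⟨by linarith, by linarith, by linarith, by linarith⟩
  · right; right
    have e1 := nn_sound hN h1
    have e2 := nn_sound hN h2
    have e3 := nn_sound hN h3
    have e4 := nn_sound hN h4
    refine ⟨by linarith, by linarith, by linarith, by linarith⟩

theorem outS_sound {N : ℤ} (hN : 5 ≤ N) {p : Sc} (h : outS p = true) : ¬ InT N (ev N p) := by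
  obtain ⟨a, b, c, d⟩ := p
  simp only [outS, Bool.or_eq_true, Bool.and_eq_true] at h
  unfold InT ev
  simp only
  obtain ⟨⟨hA, hB⟩, hC⟩ := h
  rintro (⟨h1, h2, h3⟩ | ⟨h1, h2, h3, h4⟩ | ⟨h1, h2, h3, h4⟩)
  · rcases hA with ((hA | hA) | hA) | hA <;> have e := nn_sound hN hA <;> linarith
  · rcases hB with ((hA | hA) | hA) | hA <;> have e := nn_sound hN hA <;> linarith
  · rcases hC with ((hA | hA) | hA) | hA <;> have e := nn_sound hN hA <;> linarith

theorem lN_eq : ∀ (g : Nat) (x y : ℤ), lN g x y = lin (fin12 g) x y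
  | 0, _, _ => rfl
  | 1, _, _ => rfl
  | 2, _, _ => rfl
  | 3, _, _ => rfl
  | 4, _, _ => rfl
  | 5, _, _ => rfl
  | 6, _, _ => rfl
  | 7, _, _ => rfl
  | 8, _, _ => rfl
  | 9, _, _ => rfl
  | 10, _, _ => rfl
  | (_ + 11), _, _ => rfl

theorem lNi_eq : ∀ (g : Nat), fin12 (lNi g) = lindex (fin12 g)
  | 0 => rfl
  | 1 => rfl
  | 2 => rfl
  | 3 => rfl
  | 4 => rfl
  | 5 => rfl
  | 6 => rfl
  | 7 => rfl
  | 8 => rfl
  | 9 => rfl
  | 10 => rfl
  | (_ + 11) => rfl

theorem lin_lin (g : Fin 12) (x x' y y' N : ℤ) :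
    lin g (x + x' * N) (y + y' * N) =
      ((lin g x y).1 + (lin g x' y').1 * N, (lin g x y).2 + (lin g x' y').2 * N) := by
  fin_cases g <;> simp [lin] <;> (try constructor) <;> ring

theorem linSc_sound (N : ℤ) (g : Nat) (c : Sc) :
    ev N (linSc g c) = lin (fin12 g) (ev N c).1 (ev N c).2 := by
  unfold linSc ev
  simp only [lN_eq]
  rw [lin_lin]

theorem invS_sound (N : ℤ) (p : Sp) (c : Sc) : (evp N p)⁻¹ (ev N c) = ev N (invS p c) := by
  unfold invS evp
  rw [linSc_sound, lNi_eq, pl_inv_apply]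
  congr 1 <;> simp only [ev] <;> ring

theorem appS_sound (N : ℤ) (p : Sp) (c : Sc) : evp N p (ev N c) = ev N (appS p c) := by
  unfold appS evp
  rw [pl_apply, ← linSc_sound]
  ext <;> simp only [ev] <;> ring

theorem addDir_sound (N : ℤ) (c : Sc) (s : Nat) :
    ev N (addDir c s) = ((ev N c).1 + (dirN s).1, (ev N c).2 + (dirN s).2) := by
  ext <;> simp only [ev, addDir] <;> ring

/-! ### The filling lemma -/

theorem fill0 {N : ℤ} (hN : 5 ≤ N) (x y : ℤ) (h : InT N (x, y)) (h0 : ¬ InT N (x + 1, y + 0))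
    (h1 : ¬ InT N (x + 1, y + 1)) (h2 : ¬ InT N (x + 0, y + 1)) :
    x = -2 + 2 * N ∧ y = -1 + 2 * N := by
  simp only [InT] at *
  rcases h with h | h | h
  · exfalso; omega
  · exfalso; omega
  · omega

theorem fill1 {N : ℤ} (hN : 5 ≤ N) (x y : ℤ) (h : InT N (x, y)) (h0 : ¬ InT N (x + 1, y + 1))
    (h1 : ¬ InT N (x + 0, y + 1)) (h2 : ¬ InT N (x + -1, y + 0)) :
    (x = 0 + 0 * N ∧ y = -1 + 1 * N) ∨ (x = 0 + 1 * N ∧ y = -1 + 2 * N) := by
  simp only [InT] at *
  rcases h with h | h | h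
  · exfalso; omega
  · left; omega
  · right; omega

theorem fill2 {N : ℤ} (hN : 5 ≤ N) (x y : ℤ) (h : InT N (x, y)) (h0 : ¬ InT N (x + 0, y + 1))
    (h1 : ¬ InT N (x + -1, y + 0)) (h2 : ¬ InT N (x + -1, y + -1)) :
    (x = 0 + -1 * N ∧ y = 0 + -1 * N) ∨
    (x = 0 + 0 * N ∧ y = -1 + 1 * N) ∨ (x = 0 + 1 * N ∧ y = -1 + 2 * N) := by
  simp only [InT] at *
  rcases h with h | h | h
  · left; omega
  · right; left; omega
  · right; right; omega

theorem fill3 {N : ℤ} (hN : 5 ≤ N) (x y : ℤ) (h : InT N (x, y)) (h0 : ¬ InT N (x + -1, y + 0))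
    (h1 : ¬ InT N (x + -1, y + -1)) (h2 : ¬ InT N (x + 0, y + -1)) :
    (x = 0 + -1 * N ∧ y = 0 + -1 * N) := by
  simp only [InT] at *
  rcases h with h | h | h
  · omega
  · exfalso; omega
  · exfalso; omega

theorem fill4 {N : ℤ} (hN : 5 ≤ N) (x y : ℤ) (h : InT N (x, y)) (h0 : ¬ InT N (x + -1, y + -1))
    (h1 : ¬ InT N (x + 0, y + -1)) (h2 : ¬ InT N (x + 1, y + 0)) :
    (x = 0 + -1 * N ∧ y = 0 + -1 * N) ∨
    (x = -1 + 1 * N ∧ y = 0 + 0 * N) ∨ (x = -2 + 2 * N ∧ y = 0 + 1 * N) := by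
  simp only [InT] at *
  rcases h with h | h | h
  · left; omega
  · right; left; omega
  · right; right; omega

theorem fill5 {N : ℤ} (hN : 5 ≤ N) (x y : ℤ) (h : InT N (x, y)) (h0 : ¬ InT N (x + 0, y + -1))
    (h1 : ¬ InT N (x + 1, y + 0)) (h2 : ¬ InT N (x + 1, y + 1)) :
    (x = -1 + 1 * N ∧ y = 0 + 0 * N) ∨ (x = -2 + 2 * N ∧ y = 0 + 1 * N) := by
  simp only [InT] at *
  rcases h with h | h | h
  · exfalso; omega
  · left; omega
  · right; omega

theorem fill_all {N : ℤ} (hN : 5 ≤ N) (s : Fin 6) (t : Cell) (h : InT N t)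
    (h0 : ¬ InT N (t.1 + (dirN s).1, t.2 + (dirN s).2))
    (h1 : ¬ InT N (t.1 + (dirN (s + 1 : ℕ)).1, t.2 + (dirN (s + 1 : ℕ)).2))
    (h2 : ¬ InT N (t.1 + (dirN (s + 2 : ℕ)).1, t.2 + (dirN (s + 2 : ℕ)).2)) :
    ∃ u ∈ tab s, t = ev N u := by
  obtain ⟨x, y⟩ := t
  fin_cases s
  · obtain ⟨a, b⟩ := fill0 hN x y h h0 h1 h2
    exact ⟨_, List.mem_cons_self, by simp only [ev, a, b]⟩
  · rcases fill1 hN x y h h0 h1 h2 with ⟨a, b⟩ | ⟨a, b⟩
    · exact ⟨⟨0, 0, -1, 1⟩, by simp [tab], by simp only [ev, a, b]⟩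
    · exact ⟨⟨0, 1, -1, 2⟩, by simp [tab], by simp only [ev, a, b]⟩
  · rcases fill2 hN x y h h0 h1 h2 with ⟨a, b⟩ | ⟨a, b⟩ | ⟨a, b⟩
    · exact ⟨⟨0, -1, 0, -1⟩, by simp [tab], by simp only [ev, a, b]⟩
    · exact ⟨⟨0, 0, -1, 1⟩, by simp [tab], by simp only [ev, a, b]⟩
    · exact ⟨⟨0, 1, -1, 2⟩, by simp [tab], by simp only [ev, a, b]⟩
  · obtain ⟨a, b⟩ := fill3 hN x y h h0 h1 h2
    exact ⟨⟨0, -1, 0, -1⟩, by simp [tab], by simp only [ev, a, b]⟩
  · rcases fill4 hN x y h h0 h1 h2 with ⟨a, b⟩ | ⟨a, b⟩ | ⟨a, b⟩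
    · exact ⟨⟨0, -1, 0, -1⟩, by simp [tab], by simp only [ev, a, b]⟩
    · exact ⟨⟨-1, 1, 0, 0⟩, by simp [tab], by simp only [ev, a, b]⟩
    · exact ⟨⟨-2, 2, 0, 1⟩, by simp [tab], by simp only [ev, a, b]⟩
  · rcases fill5 hN x y h h0 h1 h2 with ⟨a, b⟩ | ⟨a, b⟩
    · exact ⟨⟨-1, 1, 0, 0⟩, by simp [tab], by simp only [ev, a, b]⟩
    · exact ⟨⟨-2, 2, 0, 1⟩, by simp [tab], by simp only [ev, a, b]⟩

theorem dir_rot : ∀ (g : Fin 12) (s : Fin 6),
    spr g.val s.val < 6 ∧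
    ((lin (lindex g) (dirN s).1 (dirN s).2 = dirN (spr g.val s.val) ∧
      lin (lindex g) (dirN (s + 1 : ℕ)).1 (dirN (s + 1 : ℕ)).2 = dirN (spr g.val s.val + 1) ∧
      lin (lindex g) (dirN (s + 2 : ℕ)).1 (dirN (s + 2 : ℕ)).2 = dirN (spr g.val s.val + 2)) ∨
     (lin (lindex g) (dirN s).1 (dirN s).2 = dirN (spr g.val s.val + 2) ∧
      lin (lindex g) (dirN (s + 1 : ℕ)).1 (dirN (s + 1 : ℕ)).2 = dirN (spr g.val s.val + 1) ∧
      lin (lindex g) (dirN (s + 2 : ℕ)).1 (dirN (s + 2 : ℕ)).2 = dirN (spr g.val s.val))) := by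
  decide

theorem fin12_val (g : Fin 12) : fin12 g.val = g := by
  fin_cases g <;> rfl

theorem lin_add (g : Fin 12) (x y x' y' : ℤ) :
    lin g (x + x') (y + y') = ((lin g x y).1 + (lin g x' y').1, (lin g x y).2 + (lin g x' y').2) := by
  fin_cases g <;> simp [lin] <;> (try constructor) <;> ring

/-- every placement covering a cell three consecutive neighbours of which are not covered by it
is one of the 24 candidates -/
theorem mem_cands {N : ℤ} (hN : 5 ≤ N) (g : Fin 12) (a b : ℤ) (cell : Sc) (s : Nat) (hs : s < 6)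
    (h : InT N ((pl g a b)⁻¹ (ev N cell)))
    (h0 : ¬ InT N ((pl g a b)⁻¹ (ev N (addDir cell s))))
    (h1 : ¬ InT N ((pl g a b)⁻¹ (ev N (addDir cell (s + 1)))))
    (h2 : ¬ InT N ((pl g a b)⁻¹ (ev N (addDir cell (s + 2))))) :
    ∃ q ∈ cands cell s, pl g a b = evp N q := by
  have key : ∀ j, (pl g a b)⁻¹ (ev N (addDir cell j)) =
      (((pl g a b)⁻¹ (ev N cell)).1 + (lin (lindex g) (dirN j).1 (dirN j).2).1,
       ((pl g a b)⁻¹ (ev N cell)).2 + (lin (lindex g) (dirN j).1 (dirN j).2).2) := by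
    intro j
    rw [addDir_sound, pl_inv_apply, pl_inv_apply, ← lin_add]
    congr 1 <;> ring
  rw [key] at h0 h1 h2
  set t := (pl g a b)⁻¹ (ev N cell) with ht
  obtain ⟨hsp, hd⟩ := dir_rot g ⟨s, hs⟩
  have hu : ∃ u ∈ tab (spr g.val s), t = ev N u := by
    rcases hd with ⟨e0, e1, e2⟩ | ⟨e0, e1, e2⟩
    · simp only at e0 e1 e2 hsp
      rw [e0] at h0; rw [e1] at h1; rw [e2] at h2
      exact fill_all hN ⟨spr g.val s, hsp⟩ t h h0 h1 h2
    · simp only at e0 e1 e2 hsp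
      rw [e0] at h0; rw [e1] at h1; rw [e2] at h2
      exact fill_all hN ⟨spr g.val s, hsp⟩ t h h2 h1 h0
  obtain ⟨u, hu, htu⟩ := hu
  refine ⟨cand cell g.val u, ?_, ?_⟩
  · unfold cands
    rw [List.mem_flatMap]
    refine ⟨g.val, ?_, List.mem_map.2 ⟨u, hu, rfl⟩⟩
    have := g.isLt
    have h12 : ∀ g : Fin 12, g.val ∈ [0, 1, 2, 3, 4, 5, 6, 7, 8, 9, 10, 11] := by decide
    exact h12 g
  · have hc : pl g a b t = ev N cell := (pl g a b).apply_symm_apply (ev N cell)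
    rw [htu, pl_apply] at hc
    have hl := linSc_sound N g.val u
    rw [fin12_val] at hl
    rw [← hl] at hc
    unfold evp cand
    simp only [fin12_val]
    have e1 := congrArg Prod.fst hc
    have e2 := congrArg Prod.snd hc
    simp only [ev] at e1 e2 ⊢
    congr 1
    · linear_combination e1
    · linear_combination e2

theorem getk_mem : ∀ (P : List Sp) (k : Nat) (p : Sp), getk P k = some p → p ∈ P
  | [], k, p, h => by cases k <;> simp [getk] at h
  | q :: l, 0, p, h => by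
      simp only [getk, Option.some.injEq] at h
      rw [h]; exact List.mem_cons_self
  | q :: l, k + 1, p, h => by
      simp only [getk] at h
      exact List.mem_cons_of_mem _ (getk_mem l k p h)

theorem spEq_sound {p q : Sp} (N : ℤ) (h : spEq p q = true) : evp N p = evp N q := by
  obtain ⟨g, a, b, c, d⟩ := p
  obtain ⟨g', a', b', c', d'⟩ := q
  simp only [spEq, Bool.and_eq_true] at h
  obtain ⟨⟨⟨⟨h1, h2⟩, h3⟩, h4⟩, h5⟩ := h
  have e1 := Nat.eq_of_beq_eq_true h1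
  have e2 := ieq_sound h2
  have e3 := ieq_sound h3
  have e4 := ieq_sound h4
  have e5 := ieq_sound h5
  subst e1 e2 e3 e4 e5
  rfl

theorem memSp_sound {q : Sp} (N : ℤ) : ∀ l : List Sp, memSp q l = true → ∃ p ∈ l, evp N p = evp N q
  | [], h => by simp [memSp] at h
  | p :: l, h => by
      simp only [memSp, Bool.or_eq_true] at h
      rcases h with h | h
      · exact ⟨p, List.mem_cons_self, spEq_sound N h⟩
      · obtain ⟨p', hp', he⟩ := memSp_sound N l h
        exact ⟨p', List.mem_cons_of_mem _ hp', he⟩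

theorem chk_sound (hMG : S_MG) {N : ℤ} (hN : 5 ≤ N) {𝒯 : Set (Equiv.Perm Cell)} (hT : Til N 𝒯)
    (K : List Sc) (goals : List Sp) : ∀ (t : Tr) (P cs : List Sp) (cell : Sc),
    chk K goals t P cs cell = true → (∀ p ∈ P, evp N p ∈ 𝒯) →
    (isNode t = true → ∃ q ∈ goals, evp N q ∈ 𝒯) ∧
    (isNode t = false → ∀ q ∈ cs, evp N q ∈ 𝒯 → InT N ((evp N q)⁻¹ (ev N cell)) →
      ∃ q ∈ goals, evp N q ∈ 𝒯) := by
  have hcov : ∀ (P : List Sp) (k : Nat) (cell : Sc) (s : Nat), covd P k cell s = true →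
      (∀ p ∈ P, evp N p ∈ 𝒯) → ∀ q ∈ 𝒯, InT N (q⁻¹ (ev N cell)) →
      ¬ InT N (q⁻¹ (ev N (addDir cell s))) := by
    intro P k cell s h hP q hq hqc hqd
    unfold covd at h
    split at h
    · exact absurd h (by simp)
    · rename_i p hp
      rw [Bool.and_eq_true] at h
      have hpm := hP p (getk_mem P k p hp)
      have h1 := inS_sound hN h.1
      have h2 := outS_sound hN h.2
      rw [← invS_sound] at h1 h2
      have := hT.dis _ hpm q hq _ h1 hqd
      rw [this] at h2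
      exact h2 hqc
  intro t
  induction t with
  | nd a b c d s k0 k1 k2 br ih =>
    intro P cs cell h hP
    refine ⟨fun _ => ?_, fun h' => by simp [isNode] at h'⟩
    simp only [chk, Bool.and_eq_true] at h
    obtain ⟨⟨⟨⟨hs, c0⟩, c1⟩, c2⟩, hbr⟩ := h
    have hs' : s < 6 := by
      have := Nat.le_of_ble_eq_true hs
      omega
    obtain ⟨q, hq, hqc⟩ := hT.cov (ev N ⟨a, b, c, d⟩)
    obtain ⟨g, va, vb, hg⟩ := (hMG q).1 (hT.sub q hq)
    have n0 := hcov P k0 _ s c0 hP q hq hqc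
    have n1 := hcov P k1 _ (s + 1) c1 hP q hq hqc
    have n2 := hcov P k2 _ (s + 2) c2 hP q hq hqc
    rw [hg] at n0 n1 n2 hqc hq
    obtain ⟨q', hq', he⟩ := mem_cands hN g va vb ⟨a, b, c, d⟩ s hs' hqc n0 n1 n2
    rw [he] at hqc hq
    cases hb : isNode br with
    | true => exact (ih P _ _ hbr hP).1 hb
    | false => exact (ih P _ _ hbr hP).2 hb q' hq' hq hqc
  | gl =>
    intro P cs cell h hP
    refine ⟨fun _ => ?_, fun h' => by simp [isNode] at h'⟩
    cases P with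
    | nil => simp [chk] at h
    | cons p P =>
      simp only [chk] at h
      obtain ⟨p', hp', he⟩ := memSp_sound N goals h
      exact ⟨p', hp', by rw [he]; exact hP p List.mem_cons_self⟩
  | ki k w rest ih =>
    intro P cs cell h hP
    refine ⟨fun h' => by simp [isNode] at h', fun _ => ?_⟩
    cases cs with
    | nil => simp [chk] at h
    | cons q0 cs =>
      simp only [chk, Bool.and_eq_true] at h
      obtain ⟨hk, hr⟩ := h
      intro q hq hq1 hq2
      rcases List.mem_cons.1 hq with rfl | hq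
      · exfalso
        unfold killd at hk
        split at hk
        · rename_i p t hp ht
          rw [Bool.and_eq_true, Bool.and_eq_true] at hk
          obtain ⟨⟨k1, k2⟩, k3⟩ := hk
          have e1 := inS_sound hN k1
          have e2 := inS_sound hN k2
          have e3 := outS_sound hN k3
          rw [← invS_sound] at e2 e3
          rw [← appS_sound] at e2
          have hpm := hP p (getk_mem P k p hp)
          have := hT.dis _ hpm _ hq1 _ e2 (by
            have e4 : (evp N q)⁻¹ (evp N q (ev N t)) = ev N t := (evp N q).symm_apply_apply _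
            rw [e4]; exact e1)
          rw [this] at e3
          exact e3 hq2
        · exact absurd hk (by simp)
      · cases hb : isNode rest with
        | true => exact (ih P _ _ hr hP).1 hb
        | false => exact (ih P _ _ hr hP).2 hb q hq hq1 hq2
  | su t rest iht ihr =>
    intro P cs cell h hP
    refine ⟨fun h' => by simp [isNode] at h', fun _ => ?_⟩
    cases cs with
    | nil => simp [chk] at h
    | cons q0 cs =>
      simp only [chk, Bool.and_eq_true] at h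
      obtain ⟨⟨hb, ht⟩, hr⟩ := h
      intro q hq hq1 hq2
      rcases List.mem_cons.1 hq with rfl | hq
      · have hP' : ∀ p ∈ q :: P, evp N p ∈ 𝒯 := by
          intro p hp
          rcases List.mem_cons.1 hp with rfl | hp
          · exact hq1
          · exact hP p hp
        exact (iht _ _ _ ht hP').1 hb
      · cases hb : isNode rest with
        | true => exact (ihr P _ _ hr hP).1 hb
        | false => exact (ihr P _ _ hr hP).2 hb q hq hq1 hq2
  | dn =>
    intro P cs cell h hP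
    refine ⟨fun h' => by simp [isNode] at h', fun _ => ?_⟩
    intro q hq
    simp only [chk, List.isEmpty_iff] at h
    rw [h] at hq
    exact absurd hq (by simp)

end Pool.Agent.H181R2
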