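import Mathlib

set_option autoImplicit false

namespace Pool.Agent.H181R2

/-- Cells of the hexagonal lattice; the six neighbours of `c` are `c ± (1,0)`, `c ± (0,1)`,
`c ± (1,1)`. -/
abbrev Cell := ℤ × ℤ

/-- The polyhex tile with parameter `N`: an arm, an `N × N` rhombus and an `(N-1) × N` rhombus. -/
def InT (N : ℤ) (c : Cell) : Prop :=
  (c.1 = c.2 ∧ -N ≤ c.1 ∧ c.1 < 0) ∨
  (0 ≤ c.1 ∧ c.1 < N ∧ 0 ≤ c.2 ∧ c.2 < N) ∨
  (N ≤ c.1 ∧ c.1 < 2 * N - 1 ∧ N ≤ c.2 ∧ c.2 < 2 * N)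

/-- The squared length in the lattice (the centre of the cell `(x,y)` is `x + y ω`). -/
def Q (c : Cell) : ℤ := c.1 * c.1 - c.1 * c.2 + c.2 * c.2

/-- The group of the isometries of the lattice. -/
def G : Subgroup (Equiv.Perm Cell) where
  carrier := {σ | ∀ c d, Q (σ c - σ d) = Q (c - d)}
  mul_mem' := by
    intro a b ha hb c d
    simp only [Equiv.Perm.coe_mul, Function.comp]
    rw [ha, hb]
  one_mem' := by intro c d; rfl
  inv_mem' := by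
    intro a ha c d
    rw [← ha (a⁻¹ c) (a⁻¹ d)]
    simp

/-- The twelve linear isometries. -/
def lin : Fin 12 → ℤ → ℤ → Cell
  | 0, x, y => (x, y)
  | 1, x, y => (y, y - x)
  | 2, x, y => (y - x, -x)
  | 3, x, y => (-x, -y)
  | 4, x, y => (-y, x - y)
  | 5, x, y => (x - y, x)
  | 6, x, y => (y, x)
  | 7, x, y => (x, x - y)
  | 8, x, y => (x - y, -y)
  | 9, x, y => (-y, -x)
  | 10, x, y => (-x, y - x)
  | 11, x, y => (y - x, y)

/-- The index of the inverse. -/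
def lindex : Fin 12 → Fin 12
  | 0 => 0
  | 1 => 5
  | 2 => 4
  | 3 => 3
  | 4 => 2
  | 5 => 1
  | 6 => 6
  | 7 => 7
  | 8 => 8
  | 9 => 9
  | 10 => 10
  | 11 => 11

theorem lin_left (g : Fin 12) (x y : ℤ) :
    lin (lindex g) (lin g x y).1 (lin g x y).2 = (x, y) := by
  fin_cases g <;> simp [lin, lindex]

theorem lin_right (g : Fin 12) (x y : ℤ) :
    lin g (lin (lindex g) x y).1 (lin (lindex g) x y).2 = (x, y) := by
  fin_cases g <;> simp [lin, lindex]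

/-- The lattice isometry with linear part number `g` and translation part `(a,b)`. -/
def pl (g : Fin 12) (a b : ℤ) : Equiv.Perm Cell where
  toFun c := ((lin g c.1 c.2).1 + a, (lin g c.1 c.2).2 + b)
  invFun c := lin (lindex g) (c.1 - a) (c.2 - b)
  left_inv c := by
    have := lin_left g c.1 c.2
    simp only [add_sub_cancel_right]
    exact this
  right_inv c := by
    have := lin_right g (c.1 - a) (c.2 - b)
    simp only [this]
    ext <;> simp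

@[simp] theorem pl_apply (g : Fin 12) (a b : ℤ) (c : Cell) :
    pl g a b c = ((lin g c.1 c.2).1 + a, (lin g c.1 c.2).2 + b) := rfl

@[simp] theorem pl_inv_apply (g : Fin 12) (a b : ℤ) (c : Cell) :
    (pl g a b)⁻¹ c = lin (lindex g) (c.1 - a) (c.2 - b) := rfl

/-- `𝒯` is a tiling of the lattice by placements of the tile. -/
structure Til (N : ℤ) (𝒯 : Set (Equiv.Perm Cell)) : Prop where
  sub : ∀ p ∈ 𝒯, p ∈ G
  cov : ∀ c : Cell, ∃ p ∈ 𝒯, InT N (p⁻¹ c)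
  dis : ∀ p ∈ 𝒯, ∀ q ∈ 𝒯, ∀ c : Cell, InT N (p⁻¹ c) → InT N (q⁻¹ c) → p = q

/-- The tiling `𝒯` seen in the frame `g`, i.e. `g⁻¹ 𝒯`. -/
def fr (g : Equiv.Perm Cell) (𝒯 : Set (Equiv.Perm Cell)) : Set (Equiv.Perm Cell) :=
  {p | g * p ∈ 𝒯}

/-- The half `{h^j ∘ (kN,0) : j ≥ 0}` of the periodic tiling. -/
def Pp (N : ℤ) : Set (Equiv.Perm Cell) :=
  {p | (∃ (i : ℕ) (k : ℤ), p = pl 0 (k * N) (-4 * i * N)) ∨
       (∃ (i : ℕ) (k : ℤ), p = pl 11 (k * N - 1) (-4 * i * N - 2 * N))}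

/-- The periodic tiling. -/
def PP (N : ℤ) : Set (Equiv.Perm Cell) :=
  {p | (∃ (i : ℤ) (k : ℤ), p = pl 0 (k * N) (-4 * i * N)) ∨
       (∃ (i : ℤ) (k : ℤ), p = pl 11 (k * N - 1) (-4 * i * N - 2 * N))}

/-- The half plane `{x ≤ 2N-2}` tiled by a vertical strip and rotated half of the periodic
tiling. -/
def HH (N : ℤ) : Set (Equiv.Perm Cell) :=
  {p | (∃ k : ℤ, p = pl 0 0 (k * N)) ∨
       (∃ (i : ℕ) (k : ℤ), p = pl 1 (-4 * i * N - 2 * N) (k * N - 1)) ∨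
       (∃ (i : ℕ) (k : ℤ), p = pl 6 (-4 * i * N - 4 * N) (k * N))}

/-- The wall tiling with the transition isometry `φ`. -/
def Wall (N : ℤ) (φ : Equiv.Perm Cell) : Set (Equiv.Perm Cell) :=
  {p | p ∈ HH N ∨ φ⁻¹ * p ∈ HH N}

/-- The point reflections `(x,y) ↦ (4N-3-x, c-y)`. -/
def rW (N c : ℤ) : Equiv.Perm Cell := pl 3 (4 * N - 3) c

/-- The (glide) reflections `(x,y) ↦ (4N-3-x, y-x+c)`. -/
def gW (N c : ℤ) : Equiv.Perm Cell := pl 10 (4 * N - 3) c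

/-- `p` is of type A in `𝒯`: all its translates in its own direction `(N,0)` are in `𝒯`. -/
def TyA (N : ℤ) (𝒯 : Set (Equiv.Perm Cell)) (p : Equiv.Perm Cell) : Prop :=
  ∀ k : ℤ, p * pl 0 (k * N) 0 ∈ 𝒯

/-- `p` is of type B in `𝒯`. -/
def TyB (N : ℤ) (𝒯 : Set (Equiv.Perm Cell)) (p : Equiv.Perm Cell) : Prop :=
  ∀ k : ℤ, p * pl 0 0 (k * N) ∈ 𝒯

/-- Equivalence of lattice tilings. -/
def Eqv (𝒯 𝒯' : Set (Equiv.Perm Cell)) : Prop := ∃ g ∈ G, fr g 𝒯 = 𝒯'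

/-! ### Geometry, in `ℂ` -/

/-- The centre of a cell: `x + y ω`, `ω = -1/2 + (√3/2) i`. -/
noncomputable def ctr (c : Cell) : ℂ := ⟨(c.1 : ℝ) - (c.2 : ℝ) / 2, Real.sqrt 3 / 2 * (c.2 : ℝ)⟩

/-- The closed regular hexagon around `0`, with inradius `1/2`. -/
def Hx : Set ℂ := {z | |z.re| ≤ 1 / 2 ∧ |z.re| + Real.sqrt 3 * |z.im| ≤ 1}

/-- The closed hexagon of a cell. -/
def hexAt (c : Cell) : Set ℂ := {z | z - ctr c ∈ Hx}

/-- The real tile of a placement. -/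
def plR (N : ℤ) (p : Equiv.Perm Cell) : Set ℂ := {z | ∃ c, InT N (p⁻¹ c) ∧ z ∈ hexAt c}

/-- The real tile. -/
def TR (N : ℤ) : Set ℂ := {z | ∃ c, InT N c ∧ z ∈ hexAt c}

/-- `S` is a monohedral tiling with prototile `T`. -/
def IsTil {X : Type*} [MetricSpace X] (T : Set X) (S : Set (Set X)) : Prop :=
  (∀ A ∈ S, ∃ g : X ≃ᵢ X, A = g '' T) ∧ (⋃₀ S) = Set.univ ∧
  (∀ A ∈ S, ∀ B ∈ S, A ≠ B → Disjoint (interior A) (interior B))

/-- There is a disk `T` in `X` with exactly `r` monohedral tilings. -/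
def Morphic (X : Type*) [MetricSpace X] (r : ℕ) : Prop :=
  ∃ T : Set X, Nonempty (T ≃ₜ Metric.closedBall (0 : EuclideanSpace ℝ (Fin 2)) 1) ∧
    ∃ S : Fin r → Set (Set X), (∀ i, IsTil T (S i)) ∧
      (∀ i j : Fin r, i ≠ j → ¬ ∃ g : X ≃ᵢ X, Set.image (fun A : Set X => g '' A) (S i) = S j) ∧
      (∀ S' : Set (Set X), IsTil T S' →
        ∃ i : Fin r, ∃ g : X ≃ᵢ X, Set.image (fun A : Set X => g '' A) (S i) = S')

end Pool.Agent.H181R2
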