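import Pool.Agent.H181R2.Stubs

set_option autoImplicit false

namespace Pool.Agent.H181R2

theorem AS_bd {N x y : ℤ} (_hN : 5 ≤ N) (h : InT N (x, y)) :
    -N ≤ x ∧ x ≤ 2 * N - 2 ∧ -N ≤ y ∧ y ≤ 2 * N - 1 ∧ -N < x - y ∧ x - y < N := by
  unfold InT at h
  simp only at h
  omega

theorem AS_neg {N : ℤ} (hN : 5 ≤ N) : ¬ InT N (-N, -1) := by
  unfold InT
  simp only
  omega

theorem T_AS (h1 : S_MG) : S_AS := by
  intro N σ hN hσ h
  obtain ⟨g, a, b, rfl⟩ := (h1 σ).1 hσ
  have hA := (h (-N, -N)).2 (Or.inl ⟨rfl, le_refl _, by show -N < 0; omega⟩)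
  have hD := (h (2 * N - 2, N)).2 (by unfold InT; simp only; omega)
  have hE := (h (N, 2 * N - 1)).2 (by unfold InT; simp only; omega)
  have hF := (h (2 * N - 2, 2 * N - 1)).2 (by unfold InT; simp only; omega)
  rw [pl_inv_apply] at hA hD hE hF
  have hD' := hD
  fin_cases g <;> simp only [lindex, lin] at hA hD hD' hE hF <;>
    replace hA := AS_bd hN hA <;> replace hD := AS_bd hN hD <;>
    replace hE := AS_bd hN hE <;> replace hF := AS_bd hN hF <;>
    first
      | (exfalso; omega)
      | (have ha : a = 0 := by omega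
         have hb : b = 0 := by omega
         subst ha; subst hb
         ext c <;> simp [lin])
      | (exfalso
         have ha : a = N - 2 := by omega
         have hb : b = N - 1 := by omega
         apply AS_neg hN
         have e : (-(2 * N - 2 - a), -(N - b)) = (-N, (-1 : ℤ)) := by
           ext <;> simp <;> omega
         rw [e] at hD'
         exact hD')

end Pool.Agent.H181R2
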