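import Pool.Agent.H181R2.Stubs

set_option autoImplicit false

namespace Pool.Agent.H181R2

theorem CC_fr_fr (g k : Equiv.Perm Cell) (𝒯 : Set (Equiv.Perm Cell)) :
    fr k (fr g 𝒯) = fr (g * k) 𝒯 := by
  ext p
  simp only [fr, Set.mem_ofPred_eq, mul_assoc]

theorem CC_fr_one (𝒯 : Set (Equiv.Perm Cell)) : fr 1 𝒯 = 𝒯 := by
  ext p
  simp only [fr, Set.mem_ofPred_eq, one_mul]

theorem CC_symm {𝒯 𝒯' : Set (Equiv.Perm Cell)} (h : Eqv 𝒯 𝒯') : Eqv 𝒯' 𝒯 := by
  obtain ⟨g, hg, rfl⟩ := h
  exact ⟨g⁻¹, G.inv_mem hg, by rw [CC_fr_fr, mul_inv_cancel, CC_fr_one]⟩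

theorem CC_trans {𝒯 𝒯' 𝒯'' : Set (Equiv.Perm Cell)} (h : Eqv 𝒯 𝒯') (h' : Eqv 𝒯' 𝒯'') :
    Eqv 𝒯 𝒯'' := by
  obtain ⟨g, hg, rfl⟩ := h
  obtain ⟨k, hk, rfl⟩ := h'
  exact ⟨g * k, G.mul_mem hg hk, by rw [CC_fr_fr]⟩

/-- The list of the tilings. -/
def CC_S (n i : ℕ) : Set (Equiv.Perm Cell) :=
  if i = 0 then PP n else if i ≤ n then Wall n (rW n ((i : ℤ) - 1))
    else Wall n (gW n ((i : ℤ) - n - 2))

theorem T_CC (h1 : S_CL) (h2 : S_TP) (h3 : S_TW) (h4 : S_WE) (h5 : S_NP) (h6 : S_NW) : S_CC := by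
  intro n hn
  have hN : (5 : ℤ) ≤ (n : ℤ) := by exact_mod_cast hn
  refine ⟨fun i => CC_S n i, ?_, ?_, ?_⟩
  · intro i
    show Til n (CC_S n i)
    unfold CC_S
    split_ifs with a b
    · exact h2 n hN
    · exact (h3 n _ hN).1
    · exact (h3 n _ hN).2
  · rintro ⟨i, hi⟩ ⟨j, hj⟩ hij hE
    have hij' : i ≠ j := fun h => hij (by simp only [h])
    change Eqv (CC_S n i) (CC_S n j) at hE
    unfold CC_S at hE
    split_ifs at hE with a b c d e f g k
    · omega
    · exact (h5 n _ hN).1 hE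
    · exact (h5 n _ hN).2.1 hE
    · exact (h5 n _ hN).2.2.1 hE
    · have h := (h6 n _ _ hN).1 hE
      obtain ⟨m, hm⟩ := h
      have hm' : ((i : ℤ) - 1 - ((j : ℤ) - 1)) = (n : ℤ) * m := hm
      rcases lt_trichotomy m 0 with h0 | h0 | h0
      · have : (n : ℤ) * m ≤ -n := by nlinarith
        omega
      · subst h0; omega
      · have : (n : ℤ) ≤ (n : ℤ) * m := by nlinarith
        omega
    · exact (h6 n _ _ hN).2.1 hE
    · exact (h5 n _ hN).2.2.2 hE
    · exact (h6 n _ _ hN).2.2.1 hE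
    · rcases (h6 n _ _ hN).2.2.2 hE with h | h
      · obtain ⟨m, hm⟩ := h
        rcases lt_trichotomy m 0 with h0 | h0 | h0
        · have : (n : ℤ) * m ≤ -n := by nlinarith
          omega
        · subst h0; omega
        · have : (n : ℤ) ≤ (n : ℤ) * m := by nlinarith
          omega
      · obtain ⟨m, hm⟩ := h
        rcases lt_trichotomy m 1 with h0 | h0 | h0
        · have : (n : ℤ) * m ≤ 0 := by nlinarith
          omega
        · subst h0; omega
        · have : 2 * (n : ℤ) ≤ (n : ℤ) * m := by nlinarith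
          omega
  · intro 𝒯 hT
    obtain ⟨g, hg, hgT⟩ := h1 n 𝒯 hN hT
    have key : ∀ i : ℕ, i < 1 + n + (n + 1) / 2 → Eqv (fr g 𝒯) (CC_S n i) →
        ∃ i : Fin (1 + n + (n + 1) / 2), Eqv ((fun i : Fin (1 + n + (n + 1) / 2) => CC_S n i) i) 𝒯 := by
      intro i hi hE
      refine ⟨⟨i, hi⟩, ?_⟩
      exact CC_symm (CC_trans ⟨g, hg, rfl⟩ hE)
    have hrefl : ∀ 𝒯 : Set (Equiv.Perm Cell), Eqv 𝒯 𝒯 := fun 𝒯 => ⟨1, G.one_mem, CC_fr_one 𝒯⟩
    rcases hgT with hP | ⟨c, hr | hgl⟩
    · refine key 0 (by omega) ?_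
      rw [hP]
      exact hrefl _
    · have hm0 := Int.emod_nonneg c (show (n : ℤ) ≠ 0 by omega)
      have hm1 := Int.emod_lt_of_pos c (show (0 : ℤ) < n by omega)
      have hdm := Int.emod_add_mul_ediv c n
      obtain ⟨m, hm⟩ := Int.eq_ofNat_of_zero_le hm0
      refine key (m + 1) (by omega) ?_
      rw [hr]
      have e : CC_S n (m + 1) = Wall n (rW n c) := by
        unfold CC_S
        rw [if_neg (by omega), if_pos (by omega)]
        have := (h4 n (c % n) (c / n) hN).1
        rw [show c % (n : ℤ) + c / n * n = c by linarith [mul_comm (c / (n : ℤ)) n]] at this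
        rw [this]
        congr 2
        push_cast
        omega
      rw [e]
      exact hrefl _
    · have hm0 := Int.emod_nonneg (c + 1) (show (n : ℤ) ≠ 0 by omega)
      have hm1 := Int.emod_lt_of_pos (c + 1) (show (0 : ℤ) < n by omega)
      have hdm := Int.emod_add_mul_ediv (c + 1) n
      obtain ⟨m, hm⟩ := Int.eq_ofNat_of_zero_le hm0
      by_cases hlt : m < (n + 1) / 2
      · refine key (n + 1 + m) (by omega) ?_
        rw [hgl]
        have e : CC_S n (n + 1 + m) = Wall n (gW n c) := by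
          unfold CC_S
          rw [if_neg (by omega), if_neg (by omega)]
          have := (h4 n ((c + 1) % n - 1) ((c + 1) / n) hN).2.1
          rw [show (c + 1) % (n : ℤ) - 1 + (c + 1) / n * n = c by
            linarith [mul_comm ((c + 1) / (n : ℤ)) n]] at this
          rw [this]
          congr 2
          push_cast
          omega
        rw [e]
        exact hrefl _
      · refine key (n + 1 + (n - 1 - m)) (by omega) ?_
        rw [hgl]
        have e : CC_S n (n + 1 + (n - 1 - m)) = Wall n (gW n (4 * n - 3 - c)) := by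
          unfold CC_S
          rw [if_neg (by omega), if_neg (by omega)]
          have := (h4 n ((n : ℤ) - 2 - (c + 1) % n) (3 - (c + 1) / n) hN).2.1
          rw [show (n : ℤ) - 2 - (c + 1) % n + (3 - (c + 1) / n) * n = 4 * n - 3 - c by
            linarith [mul_comm ((c + 1) / (n : ℤ)) n]] at this
          rw [this]
          congr 2
          push_cast
          omega
        rw [e]
        exact (h4 n c 0 hN).2.2

end Pool.Agent.H181R2
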