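import Pool.Agent.H181R2.Stubs

set_option autoImplicit false

namespace Pool.Agent.H181R2

theorem T_CE : S_CE := by
  intro x₁ y₁ x₂ y₂ h hh h3 h1 h2 h12 ha hb
  have hid : 3 * (h ^ 2 + (x₁ ^ 2 + (y₁ - h) ^ 2) + (x₂ ^ 2 + (y₂ - h) ^ 2)) =
      (x₁ ^ 2 + y₁ ^ 2) + (x₂ ^ 2 + y₂ ^ 2) + ((x₁ - x₂) ^ 2 + (y₁ - y₂) ^ 2) +
      ((x₁ + x₂) ^ 2 + (y₁ + y₂ - 3 * h) ^ 2) := by ring
  have hp := sq_nonneg (x₁ + x₂)
  have hq := sq_nonneg (y₁ + y₂ - 3 * h)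
  have hx : x₁ + x₂ = 0 := by
    refine pow_eq_zero_iff (two_ne_zero) |>.mp (le_antisymm ?_ hp)
    linarith
  have hy : y₁ + y₂ - 3 * h = 0 := by
    refine pow_eq_zero_iff (two_ne_zero) |>.mp (le_antisymm ?_ hq)
    linarith
  have e1 : x₁ ^ 2 + y₁ ^ 2 = 1 := by linarith
  have e2 : x₂ ^ 2 + y₂ ^ 2 = 1 := by linarith
  obtain rfl : x₂ = -x₁ := by linarith
  obtain rfl : y₂ = 3 * h - y₁ := by linarith
  have e3 : h * (2 * y₁ - 3 * h) = 0 := by linarith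
  have e4 : 2 * y₁ - 3 * h = 0 := (mul_eq_zero.mp e3).resolve_left hh.ne'
  have e5 : y₁ = 3 * h / 2 := by linarith
  have e6 : (x₁ - 1 / 2) * (x₁ + 1 / 2) = 0 := by
    rw [e5] at e1
    linarith
  refine ⟨e5, by linarith, ?_⟩
  rcases mul_eq_zero.mp e6 with h7 | h7
  · left; constructor <;> linarith
  · right; constructor <;> linarith

end Pool.Agent.H181R2
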