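import Pool.Agent.H181R2.Stubs

set_option autoImplicit false

namespace Pool.Agent.H181R2

theorem T_CL (h1 : S_FR) (h2 : S_P1) (h3 : S_P5) (h4 : S_P6) : S_CL := by
  intro N 𝒯 hN hT
  by_cases hA : ∀ p ∈ 𝒯, TyA N 𝒯 p
  · obtain ⟨p, hp, -⟩ := hT.cov (0, 0)
    have hpG := hT.sub p hp
    refine ⟨p, hpG, Or.inl ?_⟩
    refine h3 N (fr p 𝒯) hN (h1 N 𝒯 p hT hpG) ?_ ?_
    · show p * 1 ∈ 𝒯
      rwa [mul_one]
    · intro q hq k
      show p * (q * pl 0 (k * N) 0) ∈ 𝒯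
      rw [← mul_assoc]
      exact hA (p * q) hq k
  · push Not at hA
    obtain ⟨p, hp, hpA⟩ := hA
    have hpG := hT.sub p hp
    have hB : TyB N 𝒯 p := by
      rcases (h2 N 𝒯 p hN hT hp).1 with h | h
      · exact absurd h hpA
      · exact h
    refine ⟨p, hpG, Or.inr ?_⟩
    refine h4 N (fr p 𝒯) hN (h1 N 𝒯 p hT hpG) ?_
    intro k
    show p * (1 * pl 0 0 (k * N)) ∈ 𝒯
    rw [one_mul]
    exact hB k

end Pool.Agent.H181R2
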