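import Pool.Agent.H181R2.Stubs

/-! Task CP (helper702): `Pp` covers the lower half plane. -/

set_option autoImplicit false

namespace Pool.Agent.H181R2

theorem CP_mem0 (N i k a b : ℤ) (hi : 0 ≤ i) (ha : a = k * N) (hb : b = -4 * i * N) :
    pl 0 a b ∈ Pp N := by
  left
  refine ⟨i.toNat, k, ?_⟩
  have : ((i.toNat : ℕ) : ℤ) = i := Int.toNat_of_nonneg hi
  rw [this, ha, hb]

theorem CP_mem11 (N i k a b : ℤ) (hi : 0 ≤ i) (ha : a = k * N - 1) (hb : b = -4 * i * N - 2 * N) :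
    pl 11 a b ∈ Pp N := by
  right
  refine ⟨i.toNat, k, ?_⟩
  have : ((i.toNat : ℕ) : ℤ) = i := Int.toNat_of_nonneg hi
  rw [this, ha, hb]

theorem T_CP : S_CP := by
  intro N c hN hc
  obtain ⟨x, y⟩ := c
  simp only at hc
  have hN0 : (0:ℤ) < N := by omega
  have h4 : (0:ℤ) < 4 * N := by omega
  -- the level
  obtain ⟨i, y', hi, hy', hl, hu⟩ : ∃ i y' : ℤ, 0 ≤ i ∧ y' = y + 4 * i * N ∧ -3 * N ≤ y' ∧ y' ≤ N - 1 := by
    refine ⟨(N - 1 - y) / (4 * N), y + 4 * ((N - 1 - y) / (4 * N)) * N, ?_, rfl, ?_, ?_⟩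
    · exact Int.ediv_nonneg (by omega) (by omega)
    · have h1 := Int.emod_lt_of_pos (N - 1 - y) h4
      have h2 := Int.emod_add_mul_ediv (N - 1 - y) (4 * N)
      have h3 : 4 * N * ((N - 1 - y) / (4 * N)) = 4 * ((N - 1 - y) / (4 * N)) * N := by ring
      rw [h3] at h2
      linarith
    · have h1 := Int.emod_nonneg (N - 1 - y) (by omega : (4 * N) ≠ 0)
      have h2 := Int.emod_add_mul_ediv (N - 1 - y) (4 * N)
      have h3 : 4 * N * ((N - 1 - y) / (4 * N)) = 4 * ((N - 1 - y) / (4 * N)) * N := by ring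
      rw [h3] at h2
      linarith
  have div : ∀ z : ℤ, ∃ k m : ℤ, z = k * N + m ∧ 0 ≤ m ∧ m < N := by
    intro z
    refine ⟨z / N, z % N, ?_, Int.emod_nonneg _ (by omega), Int.emod_lt_of_pos _ hN0⟩
    have h2 := Int.emod_add_mul_ediv z N
    linarith [mul_comm N (z / N)]
  by_cases ha : 0 ≤ y'
  · obtain ⟨k, m, hz, hm0, hm1⟩ := div x
    refine ⟨pl 0 (k * N) (-4 * i * N), CP_mem0 N i k _ _ hi rfl rfl, ?_⟩
    rw [pl_inv_apply]
    right; left
    simp only [lindex, lin]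
    refine ⟨by linarith, by linarith, by linarith, by linarith⟩
  by_cases hb : -N ≤ y'
  · obtain ⟨k, m, hz, hm0, hm1⟩ := div (x - y')
    by_cases hm : m = 0
    · refine ⟨pl 0 (k * N) (-4 * i * N), CP_mem0 N i k _ _ hi rfl rfl, ?_⟩
      rw [pl_inv_apply]
      left
      simp only [lindex, lin]
      refine ⟨by linarith, by linarith, by linarith⟩
    · have hm2 : 1 ≤ m := by omega
      refine ⟨pl 11 (k * N - 1) (-4 * i * N - 2 * N), CP_mem11 N i k _ _ hi rfl rfl, ?_⟩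
      rw [pl_inv_apply]
      right; right
      simp only [lindex, lin]
      refine ⟨by linarith, by linarith, by linarith, by linarith⟩
  by_cases hcc : -2 * N ≤ y'
  · obtain ⟨k, m, hz, hm0, hm1⟩ := div (y' + 2 * N - x - 1)
    refine ⟨pl 11 (-k * N - 1) (-4 * i * N - 2 * N), CP_mem11 N i (-k) _ _ hi rfl rfl, ?_⟩
    rw [pl_inv_apply]
    right; left
    simp only [lindex, lin]
    refine ⟨by linarith, by linarith, by linarith, by linarith⟩
  · obtain ⟨k, m, hz, hm0, hm1⟩ := div (x + 1)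
    by_cases hm : m = 0
    · refine ⟨pl 11 (k * N - 1) (-4 * i * N - 2 * N), CP_mem11 N i k _ _ hi rfl rfl, ?_⟩
      rw [pl_inv_apply]
      left
      simp only [lindex, lin]
      refine ⟨by linarith, by linarith, by linarith⟩
    · have hm2 : 1 ≤ m := by omega
      refine ⟨pl 0 ((k - 1) * N) (-4 * (i + 1) * N), CP_mem0 N (i + 1) (k - 1) _ _ (by omega) rfl rfl, ?_⟩
      rw [pl_inv_apply]
      right; right
      simp only [lindex, lin]
      refine ⟨by linarith, by linarith, by linarith, by linarith⟩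

end Pool.Agent.H181R2
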