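import Pool.Agent.H181R2.Stubs

set_option autoImplicit false

namespace Pool.Agent.H181R2

theorem T_DK (h1 : S_K3) (h2 : S_K4) (h3 : S_K5) : S_DK := by
  intro N hN
  obtain ⟨g, L, R, n, a, b, c, d, ⟨e1⟩⟩ := h2 N hN
  obtain ⟨e2, -⟩ := h1 g L R n a b c d
  obtain ⟨e3⟩ := h3
  exact ⟨(e1.trans e2).trans e3⟩

end Pool.Agent.H181R2
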