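import Pool.Agent.H181R2.Stubs

set_option autoImplicit false

namespace Pool.Agent.H181R2

theorem EXT_mem (z : ℂ) : z ∈ Hx ↔ |z.re| ≤ 1 / 2 ∧ |z.re| + |Real.sqrt 3 * z.im| ≤ 1 := by
  rw [abs_mul, abs_of_nonneg (Real.sqrt_nonneg 3)]; rfl

theorem EXT_comp {F F' : ℂ ≃ᵢ ℂ} {σ τ : Equiv.Perm Cell} (h : LatIso F σ) (h' : LatIso F' τ) :
    LatIso (F.trans F') (τ * σ) := by
  refine ⟨fun c => ?_, fun c => ?_⟩
  · rw [IsometryEquiv.trans_apply, h.1, h'.1]; rfl
  · have : (F.trans F' : ℂ → ℂ) = F' ∘ F := rfl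
    rw [this, Set.image_comp, h.2, h'.2]; rfl

theorem EXT_lin (L : ℂ ≃ₗᵢ[ℝ] ℂ) (σ : Equiv.Perm Cell) (h : ∀ c, L (ctr c) = ctr (σ c))
    (hx : ∀ z, L z ∈ Hx ↔ z ∈ Hx) : LatIso L.toIsometryEquiv σ := by
  refine ⟨h, fun c => ?_⟩
  ext z
  constructor
  · rintro ⟨w, hw, rfl⟩
    change L w - ctr (σ c) ∈ Hx
    rw [← h, ← map_sub, hx]
    exact hw
  · intro hz
    refine ⟨L.symm z, ?_, L.apply_symm_apply z⟩
    change L.symm z - ctr c ∈ Hx
    rw [← hx, map_sub, L.apply_symm_apply, h]
    exact hz

theorem EXT_s3 : Real.sqrt 3 * Real.sqrt 3 = 3 := Real.mul_self_sqrt (by norm_num)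

noncomputable def EXT_A : Circle := ⟨⟨1 / 2, -(Real.sqrt 3 / 2)⟩, by
  refine mem_sphere_zero_iff_norm.2 ?_
  rw [Complex.norm_def, Complex.normSq_mk, Real.sqrt_eq_one]
  nlinarith [EXT_s3]⟩

noncomputable def EXT_om : Circle := ⟨⟨-1 / 2, Real.sqrt 3 / 2⟩, by
  refine mem_sphere_zero_iff_norm.2 ?_
  rw [Complex.norm_def, Complex.normSq_mk, Real.sqrt_eq_one]
  nlinarith [EXT_s3]⟩

theorem EXT_rotA (z : ℂ) : (rotation EXT_A z).re = z.re / 2 + Real.sqrt 3 * z.im / 2 ∧
    (rotation EXT_A z).im = z.im / 2 - Real.sqrt 3 * z.re / 2 := by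
  rw [rotation_apply]
  constructor
  · rw [Complex.mul_re]
    change (1 / 2 : ℝ) * z.re - -(Real.sqrt 3 / 2) * z.im = _
    ring
  · rw [Complex.mul_im]
    change (1 / 2 : ℝ) * z.im + -(Real.sqrt 3 / 2) * z.re = _
    ring

theorem EXT_rotO (z : ℂ) : (rotation EXT_om z).re = -z.re / 2 - Real.sqrt 3 * z.im / 2 ∧
    (rotation EXT_om z).im = -z.im / 2 + Real.sqrt 3 * z.re / 2 := by
  rw [rotation_apply]
  constructor
  · rw [Complex.mul_re]
    change (-1 / 2 : ℝ) * z.re - (Real.sqrt 3 / 2) * z.im = _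
    ring
  · rw [Complex.mul_im]
    change (-1 / 2 : ℝ) * z.im + (Real.sqrt 3 / 2) * z.re = _
    ring

/-- the rotation -/
theorem EXT_one : ∃ F, LatIso F (pl 1 0 0) := by
  refine ⟨_, EXT_lin (rotation EXT_A) _ (fun c => ?_) (fun z => ?_)⟩
  · apply Complex.ext
    · rw [(EXT_rotA _).1]
      simp only [ctr, pl_apply, lin]
      push_cast
      linear_combination (c.2 : ℝ) / 4 * EXT_s3
    · rw [(EXT_rotA _).2]
      simp only [ctr, pl_apply, lin]
      push_cast
      ring
  · rw [EXT_mem, EXT_mem, (EXT_rotA _).1, (EXT_rotA _).2]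
    have e : Real.sqrt 3 * (z.im / 2 - Real.sqrt 3 * z.re / 2) =
        (Real.sqrt 3 * z.im - 3 * z.re) / 2 := by
      linear_combination (-z.re / 2) * EXT_s3
    rw [e]
    generalize Real.sqrt 3 * z.im = t
    generalize z.re = x
    constructor
    · rintro ⟨h1, h2⟩
      constructor
      · rcases abs_cases x with h | h <;> rcases abs_cases (x / 2 + t / 2) with h' | h' <;>
          rcases abs_cases ((t - 3 * x) / 2) with h'' | h'' <;> linarith
      · rcases abs_cases x with h | h <;> rcases abs_cases (x / 2 + t / 2) with h' | h' <;>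
          rcases abs_cases ((t - 3 * x) / 2) with h'' | h'' <;>
          rcases abs_cases t with h3 | h3 <;> linarith
    · rintro ⟨h1, h2⟩
      constructor
      · rcases abs_cases x with h | h <;> rcases abs_cases (x / 2 + t / 2) with h' | h' <;>
          rcases abs_cases t with h'' | h'' <;> linarith
      · rcases abs_cases x with h | h <;> rcases abs_cases (x / 2 + t / 2) with h' | h' <;>
          rcases abs_cases ((t - 3 * x) / 2) with h'' | h'' <;>
          rcases abs_cases t with h3 | h3 <;> linarith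

/-- the reflection -/
theorem EXT_six : ∃ F, LatIso F (pl 6 0 0) := by
  refine ⟨_, EXT_lin (Complex.conjLIE.trans (rotation EXT_om)) _ (fun c => ?_) (fun z => ?_)⟩
  · rw [LinearIsometryEquiv.trans_apply, Complex.conjLIE_apply]
    apply Complex.ext
    · rw [(EXT_rotO _).1]
      simp only [ctr, pl_apply, lin, Complex.conj_re, Complex.conj_im]
      push_cast
      linear_combination (c.2 : ℝ) / 4 * EXT_s3
    · rw [(EXT_rotO _).2]
      simp only [ctr, pl_apply, lin, Complex.conj_re, Complex.conj_im]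
      push_cast
      ring
  · rw [LinearIsometryEquiv.trans_apply, Complex.conjLIE_apply, EXT_mem, EXT_mem,
      (EXT_rotO _).1, (EXT_rotO _).2, Complex.conj_re, Complex.conj_im]
    have e : Real.sqrt 3 * (-(-z.im) / 2 + Real.sqrt 3 * z.re / 2) =
        (Real.sqrt 3 * z.im + 3 * z.re) / 2 := by
      linear_combination (z.re / 2) * EXT_s3
    have e' : -z.re / 2 - Real.sqrt 3 * (-z.im) / 2 = -z.re / 2 + (Real.sqrt 3 * z.im) / 2 := by
      ring
    rw [e, e']
    generalize Real.sqrt 3 * z.im = t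
    generalize z.re = x
    constructor
    · rintro ⟨h1, h2⟩
      constructor
      · rcases abs_cases x with h | h <;> rcases abs_cases (-x / 2 + t / 2) with h' | h' <;>
          rcases abs_cases ((t + 3 * x) / 2) with h'' | h'' <;> linarith
      · rcases abs_cases x with h | h <;> rcases abs_cases (-x / 2 + t / 2) with h' | h' <;>
          rcases abs_cases ((t + 3 * x) / 2) with h'' | h'' <;>
          rcases abs_cases t with h3 | h3 <;> linarith
    · rintro ⟨h1, h2⟩
      constructor
      · rcases abs_cases x with h | h <;> rcases abs_cases (-x / 2 + t / 2) with h' | h' <;>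
          rcases abs_cases t with h'' | h'' <;> linarith
      · rcases abs_cases x with h | h <;> rcases abs_cases (-x / 2 + t / 2) with h' | h' <;>
          rcases abs_cases ((t + 3 * x) / 2) with h'' | h'' <;>
          rcases abs_cases t with h3 | h3 <;> linarith

/-- the translations -/
theorem EXT_tr (a b : ℤ) : ∃ F, LatIso F (pl 0 a b) := by
  refine ⟨IsometryEquiv.addRight (ctr (a, b)), fun c => ?_, fun c => ?_⟩
  · rw [IsometryEquiv.addRight_apply]
    apply Complex.ext
    · simp only [ctr, pl_apply, lin, Complex.add_re]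
      push_cast
      ring
    · simp only [ctr, pl_apply, lin, Complex.add_im]
      push_cast
      ring
  · have key : ctr (pl 0 a b c) = ctr c + ctr (a, b) := by
      apply Complex.ext
      · simp only [ctr, pl_apply, lin, Complex.add_re]
        push_cast
        ring
      · simp only [ctr, pl_apply, lin, Complex.add_im]
        push_cast
        ring
    ext z
    constructor
    · rintro ⟨w, hw, rfl⟩
      change w + ctr (a, b) - ctr (pl 0 a b c) ∈ Hx
      rw [key, add_sub_add_right_eq_sub]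
      exact hw
    · intro hz
      refine ⟨z - ctr (a, b), ?_, by rw [IsometryEquiv.addRight_apply, sub_add_cancel]⟩
      change z - ctr (a, b) - ctr c ∈ Hx
      change z - ctr (pl 0 a b c) ∈ Hx at hz
      rw [key] at hz
      rwa [sub_sub, add_comm (ctr (a, b))]

theorem T_EXT (h1 : S_MG) : S_EXT := by
  intro σ hσ
  obtain ⟨g, a, b, rfl⟩ := (h1 σ).1 hσ
  have comp : ∀ {σ τ : Equiv.Perm Cell}, (∃ F, LatIso F σ) → (∃ F, LatIso F τ) →
      ∃ F, LatIso F (τ * σ) := by
    rintro σ τ ⟨F, hF⟩ ⟨F', hF'⟩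
    exact ⟨_, EXT_comp hF hF'⟩
  have h0 : ∃ F, LatIso F (pl 0 0 0) := EXT_tr 0 0
  have e1 := EXT_one
  have e2 := comp e1 e1
  have e3 := comp e2 e1
  have e4 := comp e3 e1
  have e5 := comp e4 e1
  have e6 := EXT_six
  have e7 := comp e6 e1
  have e8 := comp e6 e2
  have e9 := comp e6 e3
  have e10 := comp e6 e4
  have e11 := comp e6 e5
  have fin : ∀ g, (∃ F, LatIso F (pl g 0 0)) := by
    intro g
    fin_cases g
    · exact h0
    · exact e1
    · convert e2 using 3; ext c <;> simp [lin] <;> ring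
    · convert e3 using 3; ext c <;> simp [lin] <;> ring
    · convert e4 using 3; ext c <;> simp [lin] <;> ring
    · convert e5 using 3; ext c <;> simp [lin] <;> ring
    · exact e6
    · convert e7 using 3; ext c <;> simp [lin] <;> ring
    · convert e8 using 3; ext c <;> simp [lin] <;> ring
    · convert e9 using 3; ext c <;> simp [lin] <;> ring
    · convert e10 using 3; ext c <;> simp [lin] <;> ring
    · convert e11 using 3; ext c <;> simp [lin] <;> ring
  have := comp (fin g) (EXT_tr a b)
  convert this using 3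
  ext c <;> simp [lin]

end Pool.Agent.H181R2
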