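import Pool.Agent.H181R2.Stubs

/-! HB: basic geometry of the hexagon -/

namespace Pool.Agent.H181R2

theorem HB_strict_open :
    IsOpen {z : ℂ | |z.re| < 1 / 2 ∧ |z.re| + Real.sqrt 3 * |z.im| < 1} := by
  have c1 : Continuous fun z : ℂ => |z.re| := Complex.continuous_re.abs
  have c2 : Continuous fun z : ℂ => |z.re| + Real.sqrt 3 * |z.im| :=
    c1.add (continuous_const.mul Complex.continuous_im.abs)
  exact (isOpen_lt c1 continuous_const).inter (isOpen_lt c2 continuous_const)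

theorem HB_closed : IsClosed Hx := by
  have c1 : Continuous fun z : ℂ => |z.re| := Complex.continuous_re.abs
  have c2 : Continuous fun z : ℂ => |z.re| + Real.sqrt 3 * |z.im| :=
    c1.add (continuous_const.mul Complex.continuous_im.abs)
  exact (isClosed_le c1 continuous_const).inter (isClosed_le c2 continuous_const)

theorem HB_interior :
    interior Hx = {z | |z.re| < 1 / 2 ∧ |z.re| + Real.sqrt 3 * |z.im| < 1} := by
  apply Set.Subset.antisymm
  · intro z hz
    rw [mem_interior_iff_mem_nhds, Metric.mem_nhds_iff] at hz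
    obtain ⟨ε, hε, hb⟩ := hz
    set δ : ℝ := ε / (2 * (‖z‖ + 1)) with hδ
    have hn := norm_nonneg z
    have hδ0 : 0 < δ := by positivity
    have hmem : ((1 + δ : ℝ) : ℂ) * z ∈ Metric.ball z ε := by
      rw [Metric.mem_ball, dist_eq_norm]
      have e1 : ((1 + δ : ℝ) : ℂ) * z - z = (δ : ℂ) * z := by
        push_cast; ring
      rw [e1, norm_mul, Complex.norm_real, Real.norm_eq_abs, abs_of_pos hδ0, hδ,
        div_mul_eq_mul_div, div_lt_iff₀ (by positivity)]
      nlinarith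
    obtain ⟨h1, h2⟩ := hb hmem
    have e1 : (((1 + δ : ℝ) : ℂ) * z).re = (1 + δ) * z.re := by
      rw [Complex.re_ofReal_mul]
    have e2 : (((1 + δ : ℝ) : ℂ) * z).im = (1 + δ) * z.im := by
      rw [Complex.im_ofReal_mul]
    rw [e1, abs_mul, abs_of_pos (by linarith : (0:ℝ) < 1 + δ)] at h1 h2
    rw [e2, abs_mul, abs_of_pos (by linarith : (0:ℝ) < 1 + δ)] at h2
    have ha := abs_nonneg z.re
    have hb := abs_nonneg z.im
    have h3 := Real.sqrt_nonneg 3
    have h4 : 0 ≤ Real.sqrt 3 * |z.im| := mul_nonneg h3 hb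
    constructor
    · by_contra hcon
      push Not at hcon
      nlinarith
    · by_contra hcon
      push Not at hcon
      have h5 : (1 + δ) * (|z.re| + Real.sqrt 3 * |z.im|) ≤ 1 := by
        calc _ = (1 + δ) * |z.re| + Real.sqrt 3 * ((1 + δ) * |z.im|) := by ring
          _ ≤ 1 := h2
      nlinarith
  · apply interior_maximal _ HB_strict_open
    rintro z ⟨h1, h2⟩
    exact ⟨h1.le, h2.le⟩

theorem HB_norm {z : ℂ} (hz : z ∈ Hx) : ‖z‖ ≤ 1 / Real.sqrt 3 := by
  obtain ⟨h1, h2⟩ := hz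
  have h3 : Real.sqrt 3 ^ 2 = 3 := Real.sq_sqrt (by norm_num)
  have h30 : 0 < Real.sqrt 3 := Real.sqrt_pos.2 (by norm_num)
  have ha := abs_nonneg z.re
  have hb := abs_nonneg z.im
  have hsq : ‖z‖ ^ 2 = |z.re| ^ 2 + |z.im| ^ 2 := by
    rw [Complex.sq_norm, Complex.normSq_apply, sq_abs, sq_abs]; ring
  have h4 : 3 * |z.im| ^ 2 ≤ (1 - |z.re|) ^ 2 := by
    calc 3 * |z.im| ^ 2 = (Real.sqrt 3 * |z.im|) ^ 2 := by rw [mul_pow, h3]
      _ ≤ (1 - |z.re|) ^ 2 := by
        apply pow_le_pow_left₀ (by positivity)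
        linarith
  have h5 : ‖z‖ ^ 2 ≤ (1 / Real.sqrt 3) ^ 2 := by
    rw [hsq, div_pow, h3, one_pow]
    nlinarith
  exact (pow_le_pow_iff_left₀ (norm_nonneg z) (by positivity) two_ne_zero).1 h5

theorem HB_convex : Convex ℝ Hx := by
  intro x hx y hy a b ha hb hab
  obtain ⟨h1, h2⟩ := hx
  obtain ⟨h3, h4⟩ := hy
  have e1 : (a • x + b • y).re = a * x.re + b * y.re := by simp
  have e2 : (a • x + b • y).im = a * x.im + b * y.im := by simp
  have f1 : |a * x.re + b * y.re| ≤ a * |x.re| + b * |y.re| := by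
    refine (abs_add_le _ _).trans ?_
    rw [abs_mul, abs_mul, abs_of_nonneg ha, abs_of_nonneg hb]
  have f2 : |a * x.im + b * y.im| ≤ a * |x.im| + b * |y.im| := by
    refine (abs_add_le _ _).trans ?_
    rw [abs_mul, abs_mul, abs_of_nonneg ha, abs_of_nonneg hb]
  have h30 : 0 ≤ Real.sqrt 3 := Real.sqrt_nonneg 3
  constructor
  · rw [e1]
    calc _ ≤ a * |x.re| + b * |y.re| := f1
      _ ≤ a * (1 / 2) + b * (1 / 2) := by gcongr
      _ = 1 / 2 := by rw [← add_mul, hab, one_mul]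
  · rw [e1, e2]
    calc _ ≤ (a * |x.re| + b * |y.re|) + Real.sqrt 3 * (a * |x.im| + b * |y.im|) :=
          add_le_add f1 (mul_le_mul_of_nonneg_left f2 h30)
      _ = a * (|x.re| + Real.sqrt 3 * |x.im|) + b * (|y.re| + Real.sqrt 3 * |y.im|) := by ring
      _ ≤ a * 1 + b * 1 := by gcongr
      _ = 1 := by rw [mul_one, mul_one, hab]

theorem HB_ball : Metric.ball (0 : ℂ) (1 / 2) ⊆ interior Hx := by
  rw [HB_interior]
  intro z hz
  rw [Metric.mem_ball, dist_zero_right] at hz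
  have h3 : Real.sqrt 3 ^ 2 = 3 := Real.sq_sqrt (by norm_num)
  have h30 : 0 < Real.sqrt 3 := Real.sqrt_pos.2 (by norm_num)
  have ha := abs_nonneg z.re
  have hb := abs_nonneg z.im
  have hsq : ‖z‖ ^ 2 = |z.re| ^ 2 + |z.im| ^ 2 := by
    rw [Complex.sq_norm, Complex.normSq_apply, sq_abs, sq_abs]; ring
  refine ⟨(Complex.abs_re_le_norm z).trans_lt hz, ?_⟩
  have h4 : ‖z‖ ^ 2 < (1 / 2) ^ 2 := pow_lt_pow_left₀ hz (norm_nonneg z) two_ne_zero
  have h5 : (|z.re| + Real.sqrt 3 * |z.im|) ^ 2 < 1 ^ 2 := by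
    have h6 := sq_nonneg (Real.sqrt 3 * |z.re| - |z.im|)
    nlinarith
  exact (pow_lt_pow_iff_left₀ (by positivity) (by norm_num) two_ne_zero).1 h5

theorem T_HB : S_HB := by
  refine ⟨HB_ball, ?_, ?_, HB_convex, ?_, HB_interior⟩
  · intro z hz
    rw [Metric.mem_closedBall, dist_zero_right]
    exact HB_norm hz
  · apply Metric.isCompact_of_isClosed_isBounded HB_closed
    rw [isBounded_iff_forall_norm_le]
    exact ⟨_, fun z hz => HB_norm hz⟩
  · have hne : (interior Hx).Nonempty := ⟨0, HB_ball (by simp)⟩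
    rw [HB_convex.closure_interior_eq_closure_of_nonempty_interior hne]
    exact HB_closed.closure_eq

end Pool.Agent.H181R2
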