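import Pool.Agent.H181R2.Stubs

set_option autoImplicit false

namespace Pool.Agent.H181R2

lemma HC_1 (N k x y : ℤ) : InT N ((pl 0 0 (k * N))⁻¹ (x, y)) ↔
    (x = y - k * N ∧ -N ≤ x ∧ x < 0) ∨ (0 ≤ x ∧ x < N ∧ 0 ≤ y - k * N ∧ y - k * N < N) ∨
    (N ≤ x ∧ x < 2 * N - 1 ∧ N ≤ y - k * N ∧ y - k * N < 2 * N) := by
  rw [pl_inv_apply]
  simp only [lindex, lin, InT, sub_zero]

lemma HC_2 (N k x y i : ℤ) : InT N ((pl 1 (-4 * i * N - 2 * N) (k * N - 1))⁻¹ (x, y)) ↔
    (y = k * N - 1 ∧ -N ≤ x + 4 * (i * N) + 2 * N ∧ x + 4 * (i * N) + 2 * N < 0) ∨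
    (0 ≤ x + 4 * (i * N) + 2 * N - y + k * N - 1 ∧ x + 4 * (i * N) + 2 * N - y + k * N - 1 < N ∧
      0 ≤ x + 4 * (i * N) + 2 * N ∧ x + 4 * (i * N) + 2 * N < N) ∨
    (N ≤ x + 4 * (i * N) + 2 * N - y + k * N - 1 ∧
      x + 4 * (i * N) + 2 * N - y + k * N - 1 < 2 * N - 1 ∧
      N ≤ x + 4 * (i * N) + 2 * N ∧ x + 4 * (i * N) + 2 * N < 2 * N) := by
  rw [pl_inv_apply]
  have e : -4 * i * N = -(4 * (i * N)) := by ring
  simp only [lindex, lin, InT, e]
  generalize i * N = I
  generalize k * N = K
  constructor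
  · rintro (h | h | h)
    · left; omega
    · right; left; omega
    · right; right; omega
  · rintro (h | h | h)
    · left; omega
    · right; left; omega
    · right; right; omega

lemma HC_3 (N k x y i : ℤ) : InT N ((pl 6 (-4 * i * N - 4 * N) (k * N))⁻¹ (x, y)) ↔
    (y - k * N = x + 4 * (i * N) + 4 * N ∧ -N ≤ x + 4 * (i * N) + 4 * N ∧
      x + 4 * (i * N) + 4 * N < 0) ∨
    (0 ≤ y - k * N ∧ y - k * N < N ∧
      0 ≤ x + 4 * (i * N) + 4 * N ∧ x + 4 * (i * N) + 4 * N < N) ∨
    (N ≤ y - k * N ∧ y - k * N < 2 * N - 1 ∧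
      N ≤ x + 4 * (i * N) + 4 * N ∧ x + 4 * (i * N) + 4 * N < 2 * N) := by
  rw [pl_inv_apply]
  have e : -4 * i * N = -(4 * (i * N)) := by ring
  simp only [lindex, lin, InT, e]
  generalize i * N = I
  generalize k * N = K
  constructor
  · rintro (h | h | h)
    · left; omega
    · right; left; omega
    · right; right; omega
  · rintro (h | h | h)
    · left; omega
    · right; left; omega
    · right; right; omega

lemma HC_div (N : ℤ) (hN : 5 ≤ N) (y : ℤ) : ∃ q s : ℤ, y = q * N + s ∧ 0 ≤ s ∧ s < N :=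
  ⟨y / N, y % N, by rw [mul_comm]; exact (Int.mul_ediv_add_emod y N).symm,
    Int.emod_nonneg _ (by omega), Int.emod_lt_of_pos _ (by omega)⟩

lemma HC_eq (N : ℤ) (hN : 5 ≤ N) (k k' : ℤ) (h1 : k * N - k' * N < N) (h2 : k' * N - k * N < N) :
    k = k' := by
  have h3 : k - k' < 1 := lt_of_mul_lt_mul_right (a := N) (by rw [sub_mul]; linarith) (by omega)
  have h4 : k' - k < 1 := lt_of_mul_lt_mul_right (a := N) (by rw [sub_mul]; linarith) (by omega)
  omega

/-- no multiple strictly between `a N` and `(a+1) N` -/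
lemma HC_no (N : ℤ) (hN : 5 ≤ N) (a k k' : ℤ) (h1 : a * N < k * N - k' * N)
    (h2 : k * N - k' * N < a * N + N) : False := by
  have h3 : k - k' < a + 1 :=
    lt_of_mul_lt_mul_right (a := N) (by rw [sub_mul, add_mul, one_mul]; linarith) (by omega)
  have h4 : a < k - k' := lt_of_mul_lt_mul_right (a := N) (by rw [sub_mul]; linarith) (by omega)
  omega

lemma HC_cov (N : ℤ) (hN : 5 ≤ N) (x y : ℤ) (hx : x ≤ 2 * N - 2) :
    ∃ p ∈ HH N, InT N (p⁻¹ (x, y)) := by
  obtain ⟨q, s, hy, hs0, hs1⟩ := HC_div N hN y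
  rcases le_or_gt N x with h | h
  · refine ⟨_, Or.inl ⟨q - 1, rfl⟩, ?_⟩
    rw [HC_1, sub_mul, one_mul]
    right; right
    generalize q * N = Q at *
    omega
  rcases le_or_gt 0 x with h0 | h0
  · refine ⟨_, Or.inl ⟨q, rfl⟩, ?_⟩
    rw [HC_1]
    right; left
    generalize q * N = Q at *
    omega
  rcases le_or_gt (-N) x with h1 | h1
  · obtain ⟨q', s', hy', hs0', hs1'⟩ := HC_div N hN (y - x)
    rcases eq_or_ne s' 0 with h2 | h2
    · refine ⟨_, Or.inl ⟨q', rfl⟩, ?_⟩
      rw [HC_1]
      left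
      generalize q' * N = Q at *
      omega
    · refine ⟨_, Or.inr (Or.inl ⟨0, q', rfl⟩), ?_⟩
      rw [HC_2, Nat.cast_zero, zero_mul]
      right; right
      generalize q' * N = Q at *
      omega
  -- `x < -N`
  obtain ⟨i, hi1, hi2⟩ : ∃ i : ℕ, -5 * N ≤ x + 4 * (i * N) ∧ x + 4 * (i * N) < -N := by
    have hd := Int.mul_ediv_add_emod (-x - N - 1) (4 * N)
    have hr0 := Int.emod_nonneg (-x - N - 1) (b := 4 * N) (by omega)
    have hr1 := Int.emod_lt_of_pos (-x - N - 1) (b := 4 * N) (by omega)
    have hq0 : 0 ≤ (-x - N - 1) / (4 * N) := Int.ediv_nonneg (by omega) (by omega)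
    refine ⟨((-x - N - 1) / (4 * N)).toNat, ?_⟩
    rw [Int.toNat_of_nonneg hq0]
    have e : 4 * ((-x - N - 1) / (4 * N) * N) = 4 * N * ((-x - N - 1) / (4 * N)) := by ring
    rw [e]
    generalize 4 * N * ((-x - N - 1) / (4 * N)) = D at *
    generalize (-x - N - 1) % (4 * N) = R at *
    omega
  rcases le_or_gt (-2 * N) (x + 4 * (i * N)) with h2 | h2
  · obtain ⟨q', s', hy', hs0', hs1'⟩ := HC_div N hN (x + 4 * (i * N) - y - 1)
    refine ⟨_, Or.inr (Or.inl ⟨i, -q' - 2, rfl⟩), ?_⟩
    rw [HC_2, sub_mul, neg_mul]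
    right; left
    generalize q' * N = Q at *
    generalize (i : ℤ) * N = J at *
    omega
  rcases le_or_gt (-3 * N) (x + 4 * (i * N)) with h3 | h3
  · obtain ⟨q', s', hy', hs0', hs1'⟩ := HC_div N hN (y + 1)
    rcases eq_or_ne s' 0 with h4 | h4
    · refine ⟨_, Or.inr (Or.inl ⟨i, q', rfl⟩), ?_⟩
      rw [HC_2]
      left
      generalize q' * N = Q at *
      generalize (i : ℤ) * N = J at *
      omega
    · refine ⟨_, Or.inr (Or.inr ⟨i, q' - 1, rfl⟩), ?_⟩
      rw [HC_3, sub_mul, one_mul]
      right; right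
      generalize q' * N = Q at *
      generalize (i : ℤ) * N = J at *
      omega
  rcases le_or_gt (-4 * N) (x + 4 * (i * N)) with h4 | h4
  · refine ⟨_, Or.inr (Or.inr ⟨i, q, rfl⟩), ?_⟩
    rw [HC_3]
    right; left
    generalize q * N = Q at *
    generalize (i : ℤ) * N = J at *
    omega
  · obtain ⟨q', s', hy', hs0', hs1'⟩ := HC_div N hN (y - (x + 4 * (i * N)))
    rcases eq_or_ne s' 0 with h5 | h5
    · refine ⟨_, Or.inr (Or.inr ⟨i, q' - 4, rfl⟩), ?_⟩
      rw [HC_3, sub_mul]
      left
      generalize q' * N = Q at *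
      generalize (i : ℤ) * N = J at *
      omega
    · refine ⟨_, Or.inr (Or.inl ⟨i + 1, q' - 4, rfl⟩), ?_⟩
      rw [HC_2, sub_mul, Nat.cast_add, Nat.cast_one, add_mul, one_mul]
      right; right
      generalize q' * N = Q at *
      generalize (i : ℤ) * N = J at *
      omega

lemma HC_half (N : ℤ) (hN : 5 ≤ N) (x y : ℤ) (p : Equiv.Perm Cell) (hp : p ∈ HH N)
    (h : InT N (p⁻¹ (x, y))) : x ≤ 2 * N - 2 := by
  rcases hp with ⟨k, rfl⟩ | ⟨i, k, rfl⟩ | ⟨i, k, rfl⟩
  · rw [HC_1] at h
    generalize k * N = K at *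
    omega
  · rw [HC_2] at h
    have hi : 0 ≤ (i : ℤ) * N := mul_nonneg (Int.natCast_nonneg i) (by omega)
    generalize k * N = K at *
    generalize (i : ℤ) * N = J at *
    omega
  · rw [HC_3] at h
    have hi : 0 ≤ (i : ℤ) * N := mul_nonneg (Int.natCast_nonneg i) (by omega)
    generalize k * N = K at *
    generalize (i : ℤ) * N = J at *
    omega

lemma HC_12 (N : ℤ) (hN : 5 ≤ N) (x y k k' : ℤ) (i : ℕ)
    (h1 : InT N ((pl 0 0 (k * N))⁻¹ (x, y)))
    (h2 : InT N ((pl 1 (-4 * i * N - 2 * N) (k' * N - 1))⁻¹ (x, y))) : False := by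
  rw [HC_1] at h1
  rw [HC_2] at h2
  have hi : 0 ≤ (i : ℤ) * N := mul_nonneg (Int.natCast_nonneg i) (by omega)
  have e : (i : ℤ) = 0 := by
    have : (i : ℤ) < 1 := lt_of_mul_lt_mul_right (a := N)
      (by rw [one_mul]; generalize (i : ℤ) * N = J at *; generalize k * N = K at *
          generalize k' * N = K' at *; omega) (by omega)
    omega
  rw [e, zero_mul] at h2
  refine HC_no N hN (-1) k' k ?_ ?_
  · generalize k * N = K at *; generalize k' * N = K' at *; omega
  · generalize k * N = K at *; generalize k' * N = K' at *; omega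

lemma HC_13 (N : ℤ) (hN : 5 ≤ N) (x y k k' : ℤ) (i : ℕ)
    (h1 : InT N ((pl 0 0 (k * N))⁻¹ (x, y)))
    (h2 : InT N ((pl 6 (-4 * i * N - 4 * N) (k' * N))⁻¹ (x, y))) : False := by
  rw [HC_1] at h1
  rw [HC_3] at h2
  have hi : 0 ≤ (i : ℤ) * N := mul_nonneg (Int.natCast_nonneg i) (by omega)
  generalize k * N = K at *
  generalize k' * N = K' at *
  generalize (i : ℤ) * N = J at *
  omega

lemma HC_23 (N : ℤ) (hN : 5 ≤ N) (x y k k' : ℤ) (i j : ℕ)
    (h1 : InT N ((pl 1 (-4 * i * N - 2 * N) (k * N - 1))⁻¹ (x, y)))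
    (h2 : InT N ((pl 6 (-4 * j * N - 4 * N) (k' * N))⁻¹ (x, y))) : False := by
  rw [HC_2] at h1
  rw [HC_3] at h2
  have e1 : 4 * ((j : ℤ) - i) < 1 := lt_of_mul_lt_mul_right (a := N)
    (by
      have : 4 * ((j : ℤ) - i) * N = 4 * (j * N) - 4 * (i * N) := by ring
      rw [this, one_mul]
      generalize (i : ℤ) * N = I at *
      generalize (j : ℤ) * N = J at *
      generalize k * N = K at *
      generalize k' * N = K' at *
      omega) (by omega)
  have e2 : -5 < 4 * ((j : ℤ) - i) := lt_of_mul_lt_mul_right (a := N)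
    (by
      have : 4 * ((j : ℤ) - i) * N = 4 * (j * N) - 4 * (i * N) := by ring
      rw [this]
      generalize (i : ℤ) * N = I at *
      generalize (j : ℤ) * N = J at *
      generalize k * N = K at *
      generalize k' * N = K' at *
      omega) (by omega)
  have e3 : (j : ℤ) = i ∨ (j : ℤ) = i - 1 := by omega
  rcases e3 with e3 | e3
  · rw [e3] at h2
    refine HC_no N hN 1 k k' ?_ ?_
    · generalize (i : ℤ) * N = I at *
      generalize k * N = K at *; generalize k' * N = K' at *; omega
    · generalize (i : ℤ) * N = I at *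
      generalize k * N = K at *; generalize k' * N = K' at *; omega
  · rw [e3, sub_mul, one_mul] at h2
    refine HC_no N hN (-1) k k' ?_ ?_
    · generalize (i : ℤ) * N = I at *
      generalize k * N = K at *; generalize k' * N = K' at *; omega
    · generalize (i : ℤ) * N = I at *
      generalize k * N = K at *; generalize k' * N = K' at *; omega

theorem T_HC : S_HC := by
  intro N hN
  refine ⟨?_, ?_, ?_⟩
  · rintro ⟨x, y⟩ hx
    exact HC_cov N hN x y hx
  · rintro ⟨x, y⟩ p hp h
    exact HC_half N hN x y p hp h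
  · rintro ⟨x, y⟩ p hp q hq h1 h2
    rcases hp with ⟨k, rfl⟩ | ⟨i, k, rfl⟩ | ⟨i, k, rfl⟩ <;>
      rcases hq with ⟨k', rfl⟩ | ⟨j, k', rfl⟩ | ⟨j, k', rfl⟩
    · rw [HC_1] at h1 h2
      have : k = k' := by
        refine HC_eq N hN k k' ?_ ?_
        · generalize k * N = K at *; generalize k' * N = K' at *; omega
        · generalize k * N = K at *; generalize k' * N = K' at *; omega
      rw [this]
    · exact (HC_12 N hN x y k k' j h1 h2).elim
    · exact (HC_13 N hN x y k k' j h1 h2).elim
    · exact (HC_12 N hN x y k' k i h2 h1).elim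
    · rw [HC_2] at h1 h2
      have hij : 4 * (i : ℤ) = 4 * j := by
        refine le_antisymm ?_ ?_
        · have : 4 * (i : ℤ) - 4 * j < 3 := lt_of_mul_lt_mul_right (a := N) (by
            rw [sub_mul, mul_assoc, mul_assoc]
            generalize (i : ℤ) * N = I at *
            generalize (j : ℤ) * N = J at *
            generalize k * N = K at *
            generalize k' * N = K' at *
            omega) (by omega)
          omega
        · have : 4 * (j : ℤ) - 4 * i < 3 := lt_of_mul_lt_mul_right (a := N) (by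
            rw [sub_mul, mul_assoc, mul_assoc]
            generalize (i : ℤ) * N = I at *
            generalize (j : ℤ) * N = J at *
            generalize k * N = K at *
            generalize k' * N = K' at *
            omega) (by omega)
          omega
      have hij' : i = j := by omega
      subst hij'
      have : k = k' := by
        refine HC_eq N hN k k' ?_ ?_
        · generalize (i : ℤ) * N = I at *
          generalize k * N = K at *; generalize k' * N = K' at *; omega
        · generalize (i : ℤ) * N = I at *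
          generalize k * N = K at *; generalize k' * N = K' at *; omega
      rw [this]
    · exact (HC_23 N hN x y k k' i j h1 h2).elim
    · exact (HC_13 N hN x y k' k i h2 h1).elim
    · exact (HC_23 N hN x y k' k j i h2 h1).elim
    · rw [HC_3] at h1 h2
      have hij : 4 * (i : ℤ) = 4 * j := by
        refine le_antisymm ?_ ?_
        · have : 4 * (i : ℤ) - 4 * j < 3 := lt_of_mul_lt_mul_right (a := N) (by
            rw [sub_mul, mul_assoc, mul_assoc]
            generalize (i : ℤ) * N = I at *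
            generalize (j : ℤ) * N = J at *
            generalize k * N = K at *
            generalize k' * N = K' at *
            omega) (by omega)
          omega
        · have : 4 * (j : ℤ) - 4 * i < 3 := lt_of_mul_lt_mul_right (a := N) (by
            rw [sub_mul, mul_assoc, mul_assoc]
            generalize (i : ℤ) * N = I at *
            generalize (j : ℤ) * N = J at *
            generalize k * N = K at *
            generalize k' * N = K' at *
            omega) (by omega)
          omega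
      have hij' : i = j := by omega
      subst hij'
      have : k = k' := by
        refine HC_eq N hN k k' ?_ ?_
        · generalize (i : ℤ) * N = I at *
          generalize k * N = K at *; generalize k' * N = K' at *; omega
        · generalize (i : ℤ) * N = I at *
          generalize k * N = K at *; generalize k' * N = K' at *; omega
      rw [this]

end Pool.Agent.H181R2
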