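import Pool.Agent.H181R2.Stubs

set_option autoImplicit false

namespace Pool.Agent.H181R2

theorem HU_hex0 : hexAt (0, 0) = Hx := by
  ext z
  have h : ctr (0, 0) = 0 := by
    apply Complex.ext <;> simp [ctr]
  simp only [hexAt, Set.mem_setOf_eq, h, sub_zero]

theorem HU_img (ℋ : Set (Set ℂ)) (hH : HexFam ℋ) (F : ℂ ≃ᵢ ℂ) :
    HexFam ((fun A : Set ℂ => F '' A) '' ℋ) := by
  obtain ⟨h1, h2, h3⟩ := hH
  refine ⟨?_, ?_, ?_⟩
  · rintro _ ⟨A, hA, rfl⟩
    obtain ⟨g, rfl⟩ := h1 A hA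
    refine ⟨g.trans F, ?_⟩
    exact (Set.image_comp F g Hx).symm
  · rw [Set.eq_univ_iff_forall]
    intro z
    have hz : F.symm z ∈ ⋃₀ ℋ := by rw [h2]; trivial
    obtain ⟨A, hA, hzA⟩ := hz
    refine ⟨F '' A, ⟨A, hA, rfl⟩, F.symm z, hzA, F.apply_symm_apply z⟩
  · rintro _ ⟨A, hA, rfl⟩ _ ⟨B, hB, rfl⟩ hne
    have hAB : A ≠ B := fun h => hne (by rw [h])
    have hd := h3 A hA B hB hAB
    have e1 : interior (F '' A) = F '' interior A := (F.toHomeomorph.image_interior A).symm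
    have e2 : interior (F '' B) = F '' interior B := (F.toHomeomorph.image_interior B).symm
    simp only [e1, e2]
    exact (Set.disjoint_image_iff F.injective).2 hd

theorem HU_step (h1 : S_N2) (h2 : S_EXT) (h3 : S_MG) (ℋ : Set (Set ℂ)) (hH : HexFam ℋ)
    (g : Fin 12) (c : Cell) (hc : hexAt c ∈ ℋ) :
    hexAt ((lin g 0 1).1 + c.1, (lin g 0 1).2 + c.2) ∈ ℋ := by
  have hσ : pl g c.1 c.2 ∈ G := (h3 _).2 ⟨g, c.1, c.2, rfl⟩
  obtain ⟨F, hF1, hF2⟩ := h2 _ hσ
  have h0 : pl g c.1 c.2 (0, 0) = c := by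
    rw [pl_apply]
    have : lin g 0 0 = (0, 0) := by fin_cases g <;> simp [lin]
    simp only [this, zero_add]
  have hc' : F '' Hx = hexAt c := by
    have := hF2 (0, 0)
    rw [h0, HU_hex0] at this
    exact this
  have hfam := HU_img ℋ hH F.symm
  have hHx : Hx ∈ (fun A : Set ℂ => F.symm '' A) '' ℋ := by
    refine ⟨hexAt c, hc, ?_⟩
    simp only [← hc', ← Set.image_comp]
    have : (⇑F.symm ∘ ⇑F) = id := by funext z; exact F.symm_apply_apply z
    rw [this, Set.image_id]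
  obtain ⟨A, hA, hA2⟩ := (h1 _ hfam hHx).2
  have h4 : F '' hexAt (0, 1) = A := by
    rw [← hA2]
    simp only [← Set.image_comp]
    have : (⇑F ∘ ⇑F.symm) = id := by funext z; exact F.apply_symm_apply z
    rw [this, Set.image_id]
  have h5 := hF2 (0, 1)
  rw [h4, pl_apply] at h5
  simp only at h5
  rw [← h5]
  exact hA

theorem HU_all (h1 : S_N2) (h2 : S_EXT) (h3 : S_MG) (ℋ : Set (Set ℂ)) (hH : HexFam ℋ)
    (c : Cell) (hc : hexAt c ∈ ℋ) (d : Cell) : hexAt d ∈ ℋ := by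
  have s0 : ∀ x y : ℤ, hexAt (x, y) ∈ ℋ → hexAt (x, y + 1) ∈ ℋ := by
    intro x y h
    have := HU_step h1 h2 h3 ℋ hH 0 (x, y) h
    simp only [lin] at this
    rwa [show (0 : ℤ) + x = x by ring, show (1 : ℤ) + y = y + 1 by ring] at this
  have s1 : ∀ x y : ℤ, hexAt (x, y) ∈ ℋ → hexAt (x, y - 1) ∈ ℋ := by
    intro x y h
    have := HU_step h1 h2 h3 ℋ hH 3 (x, y) h
    simp only [lin] at this
    rwa [show -(0 : ℤ) + x = x by ring, show -(1 : ℤ) + y = y - 1 by ring] at this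
  have s2 : ∀ x y : ℤ, hexAt (x, y) ∈ ℋ → hexAt (x + 1, y) ∈ ℋ := by
    intro x y h
    have := HU_step h1 h2 h3 ℋ hH 6 (x, y) h
    simp only [lin] at this
    rwa [show (0 : ℤ) + y = y by ring, show (1 : ℤ) + x = x + 1 by ring] at this
  have s3 : ∀ x y : ℤ, hexAt (x, y) ∈ ℋ → hexAt (x - 1, y) ∈ ℋ := by
    intro x y h
    have := HU_step h1 h2 h3 ℋ hH 9 (x, y) h
    simp only [lin] at this
    rwa [show -(0 : ℤ) + y = y by ring, show -(1 : ℤ) + x = x - 1 by ring] at this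
  have t1 : ∀ n : ℤ, hexAt (c.1 + n, c.2) ∈ ℋ := by
    intro n
    induction n using Int.induction_on with
    | zero => rw [add_zero]; exact hc
    | succ i ih => rw [← add_assoc]; exact s2 _ _ ih
    | pred i ih =>
      rw [show c.1 + (-(i : ℤ) - 1) = c.1 + -(i : ℤ) - 1 by ring]
      exact s3 _ _ ih
  have t2 : ∀ n m : ℤ, hexAt (c.1 + n, c.2 + m) ∈ ℋ := by
    intro n m
    induction m using Int.induction_on with
    | zero => rw [add_zero]; exact t1 n
    | succ i ih => rw [← add_assoc]; exact s0 _ _ ih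
    | pred i ih =>
      rw [show c.2 + (-(i : ℤ) - 1) = c.2 + -(i : ℤ) - 1 by ring]
      exact s1 _ _ ih
  have := t2 (d.1 - c.1) (d.2 - c.2)
  rwa [add_sub_cancel, add_sub_cancel] at this

theorem HU_cl (h5 : S_HB) (d : Cell) : closure (interior (hexAt d)) = hexAt d := by
  have e : hexAt d = (Homeomorph.addRight (ctr d)) '' Hx := by
    ext z
    constructor
    · intro hz
      exact ⟨z - ctr d, hz, by simp⟩
    · rintro ⟨w, hw, rfl⟩
      simpa [hexAt] using hw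
  rw [e, ← Homeomorph.image_interior, ← Homeomorph.image_closure, h5.2.2.2.2.1]

theorem T_HU (h1 : S_N2) (h2 : S_EXT) (h3 : S_MG) (h4 : S_UI) (h5 : S_HB) : S_HU := by
  intro ℋ c hH hc
  have hall := HU_all h1 h2 h3 ℋ hH c hc
  apply Set.Subset.antisymm
  · intro A hA
    obtain ⟨g, hg⟩ := hH.1 A hA
    have h0 : (0 : ℂ) ∈ interior Hx := h5.1 (Metric.mem_ball_self (by norm_num))
    have hz : g 0 ∈ interior A := by
      rw [hg]
      have e1 : interior (g '' Hx) = g '' interior Hx := (g.toHomeomorph.image_interior Hx).symm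
      rw [e1]
      exact ⟨0, h0, rfl⟩
    have hz2 : g 0 ∈ ⋃₀ Set.range hexAt := by rw [h4.1]; trivial
    obtain ⟨_, ⟨d, rfl⟩, hzd⟩ := hz2
    rw [← HU_cl h5 d] at hzd
    obtain ⟨w, hw1, hw2⟩ := mem_closure_iff.1 hzd (interior A) isOpen_interior hz
    refine ⟨d, ?_⟩
    by_contra hne
    exact Set.disjoint_left.1 (hH.2.2 (hexAt d) (hall d) A hA hne) hw2 hw1
  · rintro _ ⟨d, rfl⟩
    exact hall d

end Pool.Agent.H181R2
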