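import Pool.Agent.H181R2.Stubs

set_option autoImplicit false

namespace Pool.Agent.H181R2

noncomputable def K1_f (s : ℝ) (p : ℝ × ℝ) : ℝ × ℝ :=
  (max p.1 (min p.2 (p.1 / s)), (2 * p.2 - max (min p.1 p.2) (s * p.2)) / (2 - s))

noncomputable def K1_g (s : ℝ) (p : ℝ × ℝ) : ℝ × ℝ :=
  (min p.1 (max (2 * p.1 - (2 - s) * p.2) (s * p.1)), max p.2 (min ((2 - s) * p.2) p.1))

theorem K1_f1 {s x y : ℝ} (hs : 0 < s) (hs1 : s ≤ 1) (hx : 0 ≤ x) (hy : 0 ≤ y) (h : y ≤ x) :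
    K1_f s (x, y) = (x, y / (2 - s)) := by
  have h1 : x ≤ x / s := by rw [le_div_iff₀ hs]; nlinarith
  have h2 : s * y ≤ y := by nlinarith
  unfold K1_f
  simp only
  rw [min_eq_left (h.trans h1), max_eq_left h, min_eq_right h, max_eq_left h2]
  congr 1
  ring

theorem K1_f2 {s x y : ℝ} (hs : 0 < s) (h : x ≤ y) (h' : s * y ≤ x) :
    K1_f s (x, y) = (y, (2 * y - x) / (2 - s)) := by
  have h1 : y ≤ x / s := by rw [le_div_iff₀ hs]; linarith
  unfold K1_f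
  simp only
  rw [min_eq_left h1, max_eq_right h, min_eq_left h, max_eq_left h']

theorem K1_f3 {s x y : ℝ} (hs : 0 < s) (hs1 : s ≤ 1) (hx : 0 ≤ x) (hy : 0 ≤ y) (h : x ≤ s * y) :
    K1_f s (x, y) = (x / s, y) := by
  have h1 : x / s ≤ y := by rw [div_le_iff₀ hs]; linarith
  have h2 : x ≤ y := by nlinarith
  have h3 : x ≤ x / s := by rw [le_div_iff₀ hs]; nlinarith
  unfold K1_f
  simp only
  rw [min_eq_right h1, max_eq_right h3, min_eq_left h2, max_eq_right h]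
  congr 1
  have : 2 - s ≠ 0 := by linarith
  field_simp

theorem K1_g1 {s x y : ℝ} (hs : 0 < s) (hs1 : s ≤ 1) (hx : 0 ≤ x) (hy : 0 ≤ y)
    (h : (2 - s) * y ≤ x) : K1_g s (x, y) = (x, (2 - s) * y) := by
  have h1 : x ≤ 2 * x - (2 - s) * y := by linarith
  have h2 : y ≤ (2 - s) * y := by nlinarith
  unfold K1_g
  simp only
  rw [min_eq_left (h1.trans (le_max_left _ _)), min_eq_left h, max_eq_right h2]

theorem K1_g2 {s x y : ℝ} (hs1 : s ≤ 1) (h : x ≤ (2 - s) * y) (h' : y ≤ x) :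
    K1_g s (x, y) = (2 * x - (2 - s) * y, x) := by
  have h1 : s * x ≤ 2 * x - (2 - s) * y := by nlinarith
  unfold K1_g
  simp only
  rw [max_eq_left h1, min_eq_right (by linarith), min_eq_right h, max_eq_right h']

theorem K1_g3 {s x y : ℝ} (hs1 : s ≤ 1) (hx : 0 ≤ x) (hy : 0 ≤ y) (h : x ≤ y) :
    K1_g s (x, y) = (s * x, y) := by
  have h1 : 2 * x - (2 - s) * y ≤ s * x := by nlinarith
  have h2 : s * x ≤ x := by nlinarith
  have h3 : x ≤ (2 - s) * y := by nlinarith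
  unfold K1_g
  simp only
  rw [max_eq_right h1, min_eq_right h2, min_eq_right h3, max_eq_left h]

theorem K1_cf (s : ℝ) : Continuous (K1_f s) := by
  unfold K1_f
  fun_prop

theorem K1_cg (s : ℝ) : Continuous (K1_g s) := by
  unfold K1_g
  fun_prop

theorem K1_mem {p : ℝ × ℝ} : p ∈ Sq ↔ 0 ≤ p.1 ∧ p.1 ≤ 1 ∧ 0 ≤ p.2 ∧ p.2 ≤ 1 := by
  simp only [Sq, Set.mem_prod, Set.mem_Icc]
  tauto

theorem K1_fm {s : ℝ} (hs : 0 < s) (hs1 : s ≤ 1) {p : ℝ × ℝ} (hp : p ∈ Sq) : K1_f s p ∈ Sq := by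
  obtain ⟨x, y⟩ := p
  rw [K1_mem] at hp
  obtain ⟨hx, hx1, hy, hy1⟩ := hp
  simp only at hx hx1 hy hy1
  have h2 : 0 < 2 - s := by linarith
  rw [K1_mem]
  rcases le_total y x with h | h
  · rw [K1_f1 hs hs1 hx hy h]
    refine ⟨hx, hx1, by positivity, ?_⟩
    show y / (2 - s) ≤ 1
    rw [div_le_one h2]; linarith
  · rcases le_total (s * y) x with h' | h'
    · rw [K1_f2 hs h h']
      refine ⟨hy, hy1, div_nonneg (by linarith) h2.le, ?_⟩
      show (2 * y - x) / (2 - s) ≤ 1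
      rw [div_le_one h2]; nlinarith
    · rw [K1_f3 hs hs1 hx hy h']
      refine ⟨by positivity, ?_, hy, hy1⟩
      show x / s ≤ 1
      rw [div_le_one hs]; nlinarith

theorem K1_gm {s : ℝ} (hs : 0 < s) (hs1 : s ≤ 1) {p : ℝ × ℝ} (hp : p ∈ Sq) : K1_g s p ∈ Sq := by
  obtain ⟨x, y⟩ := p
  rw [K1_mem] at hp
  obtain ⟨hx, hx1, hy, hy1⟩ := hp
  simp only at hx hx1 hy hy1
  have h2 : 0 < 2 - s := by linarith
  rw [K1_mem]
  rcases le_total x y with h | h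
  · rw [K1_g3 hs1 hx hy h]
    exact ⟨by positivity, by show s * x ≤ 1; nlinarith, hy, hy1⟩
  · rcases le_total x ((2 - s) * y) with h' | h'
    · rw [K1_g2 hs1 h' h]
      refine ⟨?_, ?_, hx, hx1⟩
      · show 0 ≤ 2 * x - (2 - s) * y
        nlinarith
      · show 2 * x - (2 - s) * y ≤ 1
        linarith
    · rw [K1_g1 hs hs1 hx hy h']
      exact ⟨hx, hx1, by positivity, by show (2 - s) * y ≤ 1; linarith⟩

theorem K1_gf {s : ℝ} (hs : 0 < s) (hs1 : s ≤ 1) {p : ℝ × ℝ} (hp : p ∈ Sq) :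
    K1_g s (K1_f s p) = p := by
  obtain ⟨x, y⟩ := p
  rw [K1_mem] at hp
  obtain ⟨hx, hx1, hy, hy1⟩ := hp
  simp only at hx hx1 hy hy1
  have h2 : 0 < 2 - s := by linarith
  rcases le_total y x with h | h
  · rw [K1_f1 hs hs1 hx hy h, K1_g1 hs hs1 hx (by positivity) (by rw [mul_div_cancel₀ _ h2.ne']; exact h),
      mul_div_cancel₀ _ h2.ne']
  · rcases le_total (s * y) x with h' | h'
    · rw [K1_f2 hs h h', K1_g2 hs1 (by rw [mul_div_cancel₀ _ h2.ne']; linarith)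
        (by rw [div_le_iff₀ h2]; nlinarith), mul_div_cancel₀ _ h2.ne']
      congr 1
      ring
    · rw [K1_f3 hs hs1 hx hy h', K1_g3 hs1 (by positivity) hy (by rw [div_le_iff₀ hs]; linarith),
        mul_div_cancel₀ _ hs.ne']

theorem K1_fg {s : ℝ} (hs : 0 < s) (hs1 : s ≤ 1) {p : ℝ × ℝ} (hp : p ∈ Sq) :
    K1_f s (K1_g s p) = p := by
  obtain ⟨x, y⟩ := p
  rw [K1_mem] at hp
  obtain ⟨hx, hx1, hy, hy1⟩ := hp
  simp only at hx hx1 hy hy1
  have h2 : 0 < 2 - s := by linarith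
  rcases le_total x y with h | h
  · rw [K1_g3 hs1 hx hy h, K1_f3 hs hs1 (by positivity) hy (by nlinarith),
      mul_div_cancel_left₀ _ hs.ne']
  · rcases le_total x ((2 - s) * y) with h' | h'
    · rw [K1_g2 hs1 h' h, K1_f2 hs (by linarith) (by nlinarith)]
      congr 1
      field_simp
      ring
    · rw [K1_g1 hs hs1 hx hy h', K1_f1 hs hs1 hx (by positivity) h', mul_div_cancel_left₀ _ h2.ne']

theorem K1_push (s : ℝ) (hs : 0 < s) (hs1 : s ≤ 1) : ∃ e : Sq ≃ₜ Sq,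
    (∀ p : Sq, (p.1.2 = 1 ∧ p.1.1 ≤ s) ↔ (e p).1.2 = 1) ∧ (∀ p : Sq, p.1.2 = 0 ↔ (e p).1.2 = 0) ∧
    ∀ p : Sq, p.1.2 = 1 → p.1.1 ≤ s → (e p).1.1 = p.1.1 / s := by
  have h2 : 0 < 2 - s := by linarith
  refine ⟨⟨⟨fun p => ⟨K1_f s p.1, K1_fm hs hs1 p.2⟩, fun p => ⟨K1_g s p.1, K1_gm hs hs1 p.2⟩,
    fun p => Subtype.ext (K1_gf hs hs1 p.2), fun p => Subtype.ext (K1_fg hs hs1 p.2)⟩,
    ((K1_cf s).comp continuous_subtype_val).subtype_mk _,
    ((K1_cg s).comp continuous_subtype_val).subtype_mk _⟩, ?_, ?_, ?_⟩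
  · rintro ⟨⟨x, y⟩, hp⟩
    show (y = 1 ∧ x ≤ s) ↔ (K1_f s (x, y)).2 = 1
    rw [K1_mem] at hp
    obtain ⟨hx, hx1, hy, hy1⟩ := hp
    simp only at hx hx1 hy hy1
    rcases le_total y x with h | h
    · rw [K1_f1 hs hs1 hx hy h]
      show (y = 1 ∧ x ≤ s) ↔ y / (2 - s) = 1
      rw [div_eq_one_iff_eq h2.ne']
      constructor
      · rintro ⟨h3, h4⟩; linarith
      · intro h3; constructor <;> linarith
    · rcases le_total (s * y) x with h' | h'
      · rw [K1_f2 hs h h']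
        show (y = 1 ∧ x ≤ s) ↔ (2 * y - x) / (2 - s) = 1
        rw [div_eq_one_iff_eq h2.ne']
        constructor
        · rintro ⟨h3, h4⟩; subst h3; linarith
        · intro h3
          have h5 : y = 1 := by nlinarith
          subst h5
          exact ⟨rfl, by linarith⟩
      · rw [K1_f3 hs hs1 hx hy h']
        show (y = 1 ∧ x ≤ s) ↔ y = 1
        constructor
        · exact fun h3 => h3.1
        · intro h3; subst h3; exact ⟨rfl, by linarith⟩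
  · rintro ⟨⟨x, y⟩, hp⟩
    show y = 0 ↔ (K1_f s (x, y)).2 = 0
    rw [K1_mem] at hp
    obtain ⟨hx, hx1, hy, hy1⟩ := hp
    simp only at hx hx1 hy hy1
    rcases le_total y x with h | h
    · rw [K1_f1 hs hs1 hx hy h]
      show y = 0 ↔ y / (2 - s) = 0
      rw [div_eq_zero_iff]
      constructor
      · exact fun h3 => Or.inl h3
      · rintro (h3 | h3)
        · exact h3
        · exact absurd h3 h2.ne'
    · rcases le_total (s * y) x with h' | h'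
      · rw [K1_f2 hs h h']
        show y = 0 ↔ (2 * y - x) / (2 - s) = 0
        rw [div_eq_zero_iff]
        constructor
        · intro h3; left; subst h3; linarith
        · rintro (h3 | h3)
          · linarith
          · exact absurd h3 h2.ne'
      · rw [K1_f3 hs hs1 hx hy h']
  · rintro ⟨⟨x, y⟩, hp⟩ hy1 hxs
    show (K1_f s (x, y)).1 = x / s
    rw [K1_mem] at hp
    obtain ⟨hx, hx1, hy, -⟩ := hp
    simp only at hx hx1 hy hy1 hxs
    subst hy1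
    rw [K1_f3 hs hs1 hx hy (by linarith)]

theorem K1_mirm {p : ℝ × ℝ} (hp : p ∈ Sq) : (1 - p.1, p.2) ∈ Sq := by
  rw [K1_mem] at hp ⊢
  obtain ⟨hx, hx1, hy, hy1⟩ := hp
  exact ⟨by simpa using hx1, by simpa using hx, hy, hy1⟩

theorem K1_mir : ∃ e : Sq ≃ₜ Sq, ∀ p : Sq, (e p).1 = (1 - p.1.1, p.1.2) := by
  refine ⟨⟨⟨fun p => ⟨(1 - p.1.1, p.1.2), K1_mirm p.2⟩, fun p => ⟨(1 - p.1.1, p.1.2), K1_mirm p.2⟩,
    fun p => Subtype.ext (by simp), fun p => Subtype.ext (by simp)⟩, ?_, ?_⟩, fun p => rfl⟩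
  · exact Continuous.subtype_mk (by fun_prop) _
  · exact Continuous.subtype_mk (by fun_prop) _

theorem T_K1 : S_K1 := by
  intro s t hs hst ht
  have ht0 : 0 < t := by linarith
  obtain ⟨e₁, h1, h1', h1''⟩ := K1_push t ht0 ht
  have hst1 : s / t < 1 := by rw [div_lt_one ht0]; exact hst
  have hst0 : 0 ≤ s / t := by positivity
  obtain ⟨e₂, h2, h2', -⟩ := K1_push (1 - s / t) (by linarith) (by linarith)
  obtain ⟨m, hm⟩ := K1_mir
  refine ⟨((e₁.trans m).trans e₂).trans m, ?_, ?_⟩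
  · intro p
    show (p.1.2 = 1 ∧ s ≤ p.1.1 ∧ p.1.1 ≤ t) ↔ (m (e₂ (m (e₁ p)))).1.2 = 1
    rw [hm]
    show _ ↔ (e₂ (m (e₁ p))).1.2 = 1
    rw [← h2, hm]
    show _ ↔ ((e₁ p).1.2 = 1 ∧ 1 - (e₁ p).1.1 ≤ 1 - s / t)
    rw [← h1]
    constructor
    · rintro ⟨ha, hb, hc⟩
      refine ⟨⟨ha, hc⟩, ?_⟩
      rw [h1'' p ha hc]
      have : s / t ≤ p.1.1 / t := by gcongr
      linarith
    · rintro ⟨⟨ha, hc⟩, hb⟩
      rw [h1'' p ha hc] at hb
      have : s / t ≤ p.1.1 / t := by linarith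
      rw [div_le_div_iff_of_pos_right ht0] at this
      exact ⟨ha, this, hc⟩
  · intro p
    show p.1.2 = 0 ↔ (m (e₂ (m (e₁ p)))).1.2 = 0
    rw [hm]
    show _ ↔ (e₂ (m (e₁ p))).1.2 = 0
    rw [← h2', hm]
    show _ ↔ (e₁ p).1.2 = 0
    exact h1' p

end Pool.Agent.H181R2
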