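import Pool.Agent.H181R2.Stubs

set_option autoImplicit false

/-! Task K2: gluing two disks along a common edge. -/

namespace Pool.Agent.H181R2

/-- projection to the bottom edge -/
def K2_bot (q : Sq) : Sq := ⟨(q.1.1, 0), q.2.1, by simp⟩

theorem K2_bot_continuous : Continuous K2_bot := by
  unfold K2_bot
  fun_prop

theorem K2_bot_eq {q : Sq} (h : q.1.2 = 0) : K2_bot q = q := by
  apply Subtype.ext
  apply Prod.ext
  · rfl
  · exact h.symm

theorem K2_compact : IsCompact Sq := isCompact_Icc.prod isCompact_Icc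

theorem K2_core {A B : Set (ℝ × ℝ)} (hA : IsClosed A) (hB : IsClosed B) (a : A ≃ₜ Sq)
    (b : B ≃ₜ Sq) (ha : ∀ p : A, p.1 ∈ B ↔ (a p).1.2 = 1) (hb : ∀ p : B, p.1 ∈ A ↔ (b p).1.2 = 0) :
    ∃ e : (A ∪ B : Set (ℝ × ℝ)) ≃ₜ Sq,
      (∀ p : (A ∪ B : Set (ℝ × ℝ)), p.1 ∈ A → (e p).1.2 ≤ 1 / 2) ∧
      ∀ (p : (A ∪ B : Set (ℝ × ℝ))) (h : p.1 ∈ B), (e p).1.2 = (1 + (b ⟨p.1, h⟩).1.2) / 2 := by
  classical
  have hm : ∀ q : Sq, (b.symm (K2_bot q)).1 ∈ A := by
    intro q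
    rw [hb]
    simp [K2_bot]
  let th : Sq → Sq := fun q => a ⟨(b.symm (K2_bot q)).1, hm q⟩
  have hthc : Continuous th := by
    apply a.continuous.comp
    apply Continuous.subtype_mk
    exact continuous_subtype_val.comp (b.symm.continuous.comp K2_bot_continuous)
  have hth1 : ∀ q, (th q).1.2 = 1 := fun q => (ha _).1 (b.symm (K2_bot q)).2
  let f : A → ℝ × ℝ := fun p => ((a p).1.1, (a p).1.2 / 2)
  let g : B → ℝ × ℝ := fun p => ((th (b p)).1.1, (1 + (b p).1.2) / 2)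
  have hf : Continuous f := by
    have h1 := a.continuous
    have h2 : Continuous fun p : A => (a p).1 := continuous_subtype_val.comp h1
    exact (continuous_fst.comp h2).prodMk ((continuous_snd.comp h2).div_const 2)
  have hg : Continuous g := by
    have h1 := b.continuous
    have h2 : Continuous fun p : B => (b p).1 := continuous_subtype_val.comp h1
    have h3 : Continuous fun p : B => (th (b p)).1 := continuous_subtype_val.comp (hthc.comp h1)
    exact (continuous_fst.comp h3).prodMk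
      ((continuous_const.add (continuous_snd.comp h2)).div_const 2)
  have hthb : ∀ (p : ℝ × ℝ) (h1 : p ∈ A) (h2 : p ∈ B), th (b ⟨p, h2⟩) = a ⟨p, h1⟩ := by
    intro p h1 h2
    have h3 : (b ⟨p, h2⟩).1.2 = 0 := (hb ⟨p, h2⟩).1 h1
    have h4 : b.symm (K2_bot (b ⟨p, h2⟩)) = ⟨p, h2⟩ := by
      rw [K2_bot_eq h3, Homeomorph.symm_apply_apply]
    show a _ = a _
    congr 1
    apply Subtype.ext
    show (b.symm (K2_bot (b ⟨p, h2⟩))).1 = p
    rw [h4]
  have hfg : ∀ (p : ℝ × ℝ) (h1 : p ∈ A) (h2 : p ∈ B), f ⟨p, h1⟩ = g ⟨p, h2⟩ := by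
    intro p h1 h2
    have h3 : (b ⟨p, h2⟩).1.2 = 0 := (hb ⟨p, h2⟩).1 h1
    have h5 : (a ⟨p, h1⟩).1.2 = 1 := (ha ⟨p, h1⟩).1 h2
    apply Prod.ext
    · show (a ⟨p, h1⟩).1.1 = (th (b ⟨p, h2⟩)).1.1
      rw [hthb p h1 h2]
    · show (a ⟨p, h1⟩).1.2 / 2 = (1 + (b ⟨p, h2⟩).1.2) / 2
      rw [h3, h5]
      norm_num
  let F : ℝ × ℝ → ℝ × ℝ := fun p =>
    if h : p ∈ A then f ⟨p, h⟩ else if h' : p ∈ B then g ⟨p, h'⟩ else 0
  have hFA : ∀ (p : ℝ × ℝ) (h : p ∈ A), F p = f ⟨p, h⟩ := fun p h => dif_pos h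
  have hFB : ∀ (p : ℝ × ℝ) (h : p ∈ B), F p = g ⟨p, h⟩ := by
    intro p h
    by_cases h1 : p ∈ A
    · rw [hFA p h1, hfg p h1 h]
    · show dite _ _ _ = _
      rw [dif_neg h1, dif_pos h]
  have hcA : ContinuousOn F A := by
    rw [continuousOn_iff_continuous_domRestrict]
    have : A.domRestrict F = f := by
      funext p
      exact hFA p.1 p.2
    rw [this]
    exact hf
  have hcB : ContinuousOn F B := by
    rw [continuousOn_iff_continuous_domRestrict]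
    have : B.domRestrict F = g := by
      funext p
      exact hFB p.1 p.2
    rw [this]
    exact hg
  have hcont : ContinuousOn F (A ∪ B) := hcA.union_of_isClosed hcB hA hB
  have hSA : ∀ p ∈ A, F p ∈ Sq ∧ (F p).2 ≤ 1 / 2 := by
    intro p h
    rw [hFA p h]
    obtain ⟨h1, h2⟩ := (a ⟨p, h⟩).2
    rw [Set.mem_Icc] at h1 h2
    refine ⟨⟨⟨h1.1, h1.2⟩, ?_, ?_⟩, ?_⟩
    · show 0 ≤ (a ⟨p, h⟩).1.2 / 2
      linarith [h2.1]
    · show (a ⟨p, h⟩).1.2 / 2 ≤ 1
      linarith [h2.2]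
    · show (a ⟨p, h⟩).1.2 / 2 ≤ 1 / 2
      linarith [h2.2]
  have hSB : ∀ (p : ℝ × ℝ) (h : p ∈ B), F p ∈ Sq ∧ (F p).2 = (1 + (b ⟨p, h⟩).1.2) / 2 := by
    intro p h
    rw [hFB p h]
    obtain ⟨_, h2⟩ := (b ⟨p, h⟩).2
    obtain ⟨h3, _⟩ := (th (b ⟨p, h⟩)).2
    rw [Set.mem_Icc] at h2 h3
    refine ⟨⟨⟨h3.1, h3.2⟩, ?_, ?_⟩, rfl⟩
    · show 0 ≤ (1 + (b ⟨p, h⟩).1.2) / 2
      linarith [h2.1]
    · show (1 + (b ⟨p, h⟩).1.2) / 2 ≤ 1
      linarith [h2.2]
  have hS : ∀ p ∈ A ∪ B, F p ∈ Sq := by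
    rintro p (h | h)
    · exact (hSA p h).1
    · exact (hSB p h).1
  let E : (A ∪ B : Set (ℝ × ℝ)) → Sq := fun p => ⟨F p.1, hS p.1 p.2⟩
  have hE : Continuous E :=
    Continuous.subtype_mk (continuousOn_iff_continuous_domRestrict.1 hcont) _
  have hmix : ∀ p ∈ A, ∀ p' : ℝ × ℝ, p' ∈ B → F p = F p' → p' ∈ A := by
    intro p h p' h' he
    have h1 := (hSA p h).2
    have h2 := (hSB p' h').2
    rw [he, h2] at h1
    have h3 := (b ⟨p', h'⟩).2.2
    rw [Set.mem_Icc] at h3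
    exact (hb ⟨p', h'⟩).2 (by linarith [h3.1])
  have hinjA : ∀ p ∈ A, ∀ p' ∈ A, F p = F p' → p = p' := by
    intro p h p' h' he
    rw [hFA p h, hFA p' h'] at he
    have h1 : (f ⟨p, h⟩).1 = (f ⟨p', h'⟩).1 := congrArg Prod.fst he
    have h2 : (f ⟨p, h⟩).2 = (f ⟨p', h'⟩).2 := congrArg Prod.snd he
    change (a ⟨p, h⟩).1.1 = (a ⟨p', h'⟩).1.1 at h1
    change (a ⟨p, h⟩).1.2 / 2 = (a ⟨p', h'⟩).1.2 / 2 at h2
    have h3 : a ⟨p, h⟩ = a ⟨p', h'⟩ := Subtype.ext (Prod.ext h1 (by linarith))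
    exact congrArg Subtype.val (a.injective h3)
  have hinjB : ∀ p ∈ B, ∀ p' ∈ B, F p = F p' → p = p' := by
    intro p h p' h' he
    rw [hFB p h, hFB p' h'] at he
    have h1 : (g ⟨p, h⟩).1 = (g ⟨p', h'⟩).1 := congrArg Prod.fst he
    have h2 : (g ⟨p, h⟩).2 = (g ⟨p', h'⟩).2 := congrArg Prod.snd he
    change (th (b ⟨p, h⟩)).1.1 = (th (b ⟨p', h'⟩)).1.1 at h1
    change (1 + (b ⟨p, h⟩).1.2) / 2 = (1 + (b ⟨p', h'⟩).1.2) / 2 at h2
    have h3 : th (b ⟨p, h⟩) = th (b ⟨p', h'⟩) :=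
      Subtype.ext (Prod.ext h1 ((hth1 _).trans (hth1 _).symm))
    have h4 := congrArg Subtype.val (a.injective h3)
    have h5 : b.symm (K2_bot (b ⟨p, h⟩)) = b.symm (K2_bot (b ⟨p', h'⟩)) := Subtype.ext h4
    have h6 := b.symm.injective h5
    have h7 : (K2_bot (b ⟨p, h⟩)).1.1 = (K2_bot (b ⟨p', h'⟩)).1.1 :=
      congrArg (fun q : Sq => q.1.1) h6
    change (b ⟨p, h⟩).1.1 = (b ⟨p', h'⟩).1.1 at h7
    have h8 : b ⟨p, h⟩ = b ⟨p', h'⟩ := Subtype.ext (Prod.ext h7 (by linarith))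
    exact congrArg Subtype.val (b.injective h8)
  have hinj : Function.Injective E := by
    rintro ⟨p, hp⟩ ⟨p', hp'⟩ he
    have he' : F p = F p' := congrArg Subtype.val he
    apply Subtype.ext
    show p = p'
    rcases hp with h | h <;> rcases hp' with h' | h'
    · exact hinjA p h p' h' he'
    · exact hinjA p h p' (hmix p h p' h' he') he'
    · exact hinjA p (hmix p' h' p h he'.symm) p' h' he'
    · exact hinjB p h p' h' he'
  have hsurj : Function.Surjective E := by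
    rintro ⟨⟨x, y⟩, hx, hy⟩
    rw [Set.mem_Icc] at hx hy
    simp only at hx hy
    by_cases hy2 : y ≤ 1 / 2
    · let q : Sq := ⟨(x, 2 * y), ⟨hx.1, hx.2⟩, by show 0 ≤ 2 * y; linarith [hy.1],
        by show 2 * y ≤ 1; linarith⟩
      refine ⟨⟨(a.symm q).1, Or.inl (a.symm q).2⟩, ?_⟩
      apply Subtype.ext
      show F (a.symm q).1 = (x, y)
      rw [hFA _ (a.symm q).2]
      show ((a (a.symm q)).1.1, (a (a.symm q)).1.2 / 2) = (x, y)
      rw [Homeomorph.apply_symm_apply]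
      apply Prod.ext
      · rfl
      · show 2 * y / 2 = y
        ring
    · push Not at hy2
      let q : Sq := ⟨(x, 1), ⟨hx.1, hx.2⟩, by show (0 : ℝ) ≤ 1; norm_num,
        by show (1 : ℝ) ≤ 1; norm_num⟩
      have hqB : (a.symm q).1 ∈ B := by
        rw [ha, Homeomorph.apply_symm_apply]
      let x' : Sq := b ⟨(a.symm q).1, hqB⟩
      let q' : Sq := ⟨(x'.1.1, 2 * y - 1), x'.2.1, by show 0 ≤ 2 * y - 1; linarith,
        by show 2 * y - 1 ≤ 1; linarith [hy.2]⟩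
      refine ⟨⟨(b.symm q').1, Or.inr (b.symm q').2⟩, ?_⟩
      apply Subtype.ext
      show F (b.symm q').1 = (x, y)
      rw [hFB _ (b.symm q').2]
      show ((th (b (b.symm q'))).1.1, (1 + (b (b.symm q')).1.2) / 2) = (x, y)
      rw [Homeomorph.apply_symm_apply]
      apply Prod.ext
      · show (th q').1.1 = x
        have h1 : th q' = th x' := by
          show a _ = a _
          rfl
        have h2 : th x' = a ⟨(a.symm q).1, (a.symm q).2⟩ := hthb _ (a.symm q).2 hqB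
        have h3 : a ⟨(a.symm q).1, (a.symm q).2⟩ = q := a.apply_symm_apply q
        rw [h1, h2, h3]
      · show (1 + (2 * y - 1)) / 2 = y
        ring
  have hcompA : IsCompact A := by
    have : CompactSpace Sq := isCompact_iff_compactSpace.1 K2_compact
    have : CompactSpace A := a.symm.compactSpace
    exact isCompact_iff_compactSpace.2 inferInstance
  have hcompB : IsCompact B := by
    have : CompactSpace Sq := isCompact_iff_compactSpace.1 K2_compact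
    have : CompactSpace B := b.symm.compactSpace
    exact isCompact_iff_compactSpace.2 inferInstance
  have : CompactSpace (A ∪ B : Set (ℝ × ℝ)) :=
    isCompact_iff_compactSpace.1 (hcompA.union hcompB)
  let eq : (A ∪ B : Set (ℝ × ℝ)) ≃ Sq := Equiv.ofBijective E ⟨hinj, hsurj⟩
  have heq : Continuous eq := hE
  refine ⟨heq.homeoOfEquivCompactToT2, ?_, ?_⟩
  · intro p hp
    exact (hSA p.1 hp).2
  · intro p hp
    exact (hSB p.1 hp).2

theorem T_K2 : S_K2 := by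
  intro A B I J hA hB hAB hTA hTB hJ
  obtain ⟨a, ha⟩ := hTA
  obtain ⟨b, hbI, hbJ⟩ := hTB
  have ha' : ∀ p : A, p.1 ∈ B ↔ (a p).1.2 = 1 := by
    intro p
    rw [← ha p, ← hAB]
    exact ⟨fun h => ⟨p.2, h⟩, fun h => h.2⟩
  have hb' : ∀ p : B, p.1 ∈ A ↔ (b p).1.2 = 0 := by
    intro p
    rw [← hbI p, ← hAB]
    exact ⟨fun h => ⟨h, p.2⟩, fun h => h.1⟩
  obtain ⟨e, he1, he2⟩ := K2_core hA hB a b ha' hb'
  refine ⟨e, ?_⟩
  intro p
  rcases p.2 with h | h
  · constructor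
    · intro hpJ
      exfalso
      have : p.1 ∈ J ∩ A := ⟨hpJ, h⟩
      rw [hJ] at this
      exact this
    · intro h1
      exfalso
      have h2 := he1 p h
      rw [h1] at h2
      norm_num at h2
  · rw [he2 p h, hbJ ⟨p.1, h⟩]
    constructor
    · intro h1
      rw [h1]
      norm_num
    · intro h1
      linarith

end Pool.Agent.H181R2
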