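import Pool.Agent.H181R2.Stubs

set_option autoImplicit false

namespace Pool.Agent.H181R2

open Set

/-- a row of the stack -/
def K3_Row (f h : ℝ → ℝ) (a b : ℝ) : Set (ℝ × ℝ) :=
  {p | a ≤ p.1 ∧ p.1 ≤ b ∧ f p.1 ≤ p.2 ∧ p.2 ≤ h p.1}

/-- straightening of a row, on the whole plane -/
noncomputable def K3_pl (f h : ℝ → ℝ) (a b : ℝ) (hf : Continuous f) (hh : Continuous h)
    (hfh : ∀ x, f x < h x) (hab : a < b) : ℝ × ℝ ≃ₜ ℝ × ℝ where
  toFun p := ((p.1 - a) / (b - a), (p.2 - f p.1) / (h p.1 - f p.1))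
  invFun q := (a + (b - a) * q.1,
    f (a + (b - a) * q.1) + (h (a + (b - a) * q.1) - f (a + (b - a) * q.1)) * q.2)
  left_inv p := by
    have h1 : b - a ≠ 0 := (sub_pos.2 hab).ne'
    have h2 : h p.1 - f p.1 ≠ 0 := (sub_pos.2 (hfh p.1)).ne'
    have h3 : a + (b - a) * ((p.1 - a) / (b - a)) = p.1 := by field_simp; ring
    ext
    · simp only [h3]
    · simp only [h3]
      field_simp
      ring
  right_inv q := by
    have h1 : b - a ≠ 0 := (sub_pos.2 hab).ne'
    have h2 : h (a + (b - a) * q.1) - f (a + (b - a) * q.1) ≠ 0 := (sub_pos.2 (hfh _)).ne'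
    ext
    · simp only
      field_simp
      ring
    · simp only
      field_simp
      ring
  continuous_toFun := by
    apply Continuous.prodMk
    · exact (continuous_fst.sub continuous_const).div_const _
    · apply Continuous.div
      · exact continuous_snd.sub (hf.comp continuous_fst)
      · exact (hh.comp continuous_fst).sub (hf.comp continuous_fst)
      · intro p
        exact (sub_pos.2 (hfh p.1)).ne'
  continuous_invFun := by
    have h1 : Continuous (fun q : ℝ × ℝ => a + (b - a) * q.1) :=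
      continuous_const.add (continuous_const.mul continuous_fst)
    apply Continuous.prodMk h1
    exact (hf.comp h1).add (((hh.comp h1).sub (hf.comp h1)).mul continuous_snd)

theorem K3_pl_apply (f h : ℝ → ℝ) (a b : ℝ) (hf : Continuous f) (hh : Continuous h)
    (hfh : ∀ x, f x < h x) (hab : a < b) (p : ℝ × ℝ) :
    K3_pl f h a b hf hh hfh hab p = ((p.1 - a) / (b - a), (p.2 - f p.1) / (h p.1 - f p.1)) := rfl

theorem K3_mem (f h : ℝ → ℝ) (a b : ℝ) (hf : Continuous f) (hh : Continuous h)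
    (hfh : ∀ x, f x < h x) (hab : a < b) (p : ℝ × ℝ) :
    p ∈ K3_Row f h a b ↔ K3_pl f h a b hf hh hfh hab p ∈ Sq := by
  have h1 : 0 < b - a := sub_pos.2 hab
  have h2 : 0 < h p.1 - f p.1 := sub_pos.2 (hfh p.1)
  rw [K3_pl_apply]
  unfold Sq K3_Row
  simp only [mem_prod, mem_Icc]
  rw [le_div_iff₀ h1, div_le_iff₀ h1, le_div_iff₀ h2, div_le_iff₀ h2]
  constructor
  · rintro ⟨k1, k2, k3, k4⟩
    exact ⟨⟨by linarith, by linarith⟩, by linarith, by linarith⟩
  · rintro ⟨⟨k1, k2⟩, k3, k4⟩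
    exact ⟨by linarith, by linarith, by linarith, by linarith⟩

/-- straightening of a row -/
noncomputable def K3_row (f h : ℝ → ℝ) (a b : ℝ) (hf : Continuous f) (hh : Continuous h)
    (hfh : ∀ x, f x < h x) (hab : a < b) : K3_Row f h a b ≃ₜ Sq :=
  (K3_pl f h a b hf hh hfh hab).subtype (K3_mem f h a b hf hh hfh hab)

theorem K3_row_fst (f h : ℝ → ℝ) (a b : ℝ) (hf : Continuous f) (hh : Continuous h)
    (hfh : ∀ x, f x < h x) (hab : a < b) (p : K3_Row f h a b) :
    (K3_row f h a b hf hh hfh hab p).1.1 = (p.1.1 - a) / (b - a) := rfl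

theorem K3_row_snd (f h : ℝ → ℝ) (a b : ℝ) (hf : Continuous f) (hh : Continuous h)
    (hfh : ∀ x, f x < h x) (hab : a < b) (p : K3_Row f h a b) :
    (K3_row f h a b hf hh hfh hab p).1.2 = (p.1.2 - f p.1.1) / (h p.1.1 - f p.1.1) := rfl

theorem K3_row_one (f h : ℝ → ℝ) (a b : ℝ) (hf : Continuous f) (hh : Continuous h)
    (hfh : ∀ x, f x < h x) (hab : a < b) (p : K3_Row f h a b) :
    (K3_row f h a b hf hh hfh hab p).1.2 = 1 ↔ p.1.2 = h p.1.1 := by
  have h2 : 0 < h p.1.1 - f p.1.1 := sub_pos.2 (hfh p.1.1)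
  rw [K3_row_snd, div_eq_one_iff_eq h2.ne']
  constructor <;> intro h3 <;> linarith

theorem K3_row_zero (f h : ℝ → ℝ) (a b : ℝ) (hf : Continuous f) (hh : Continuous h)
    (hfh : ∀ x, f x < h x) (hab : a < b) (p : K3_Row f h a b) :
    (K3_row f h a b hf hh hfh hab p).1.2 = 0 ↔ p.1.2 = f p.1.1 := by
  have h2 : 0 < h p.1.1 - f p.1.1 := sub_pos.2 (hfh p.1.1)
  rw [K3_row_snd, div_eq_zero_iff]
  constructor
  · rintro (h3 | h3)
    · linarith
    · exact absurd h3 h2.ne'
  · intro h3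
    left; linarith

theorem K3_row_closed (f h : ℝ → ℝ) (a b : ℝ) (hf : Continuous f) (hh : Continuous h) :
    IsClosed (K3_Row f h a b) := by
  unfold K3_Row
  apply IsClosed.inter (isClosed_le continuous_const continuous_fst)
  apply IsClosed.inter (isClosed_le continuous_fst continuous_const)
  apply IsClosed.inter (isClosed_le (hf.comp continuous_fst) continuous_snd)
  exact isClosed_le continuous_snd (hh.comp continuous_fst)

/-- the flip of the square -/
def K3_flip : Sq ≃ₜ Sq where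
  toFun p := ⟨(p.1.1, 1 - p.1.2), by
    obtain ⟨⟨x, y⟩, ⟨h1, h2⟩, h3, h4⟩ := p
    simp only at h1 h2 h3 h4
    refine ⟨⟨h1, h2⟩, ?_, ?_⟩ <;> simp only <;> linarith⟩
  invFun p := ⟨(p.1.1, 1 - p.1.2), by
    obtain ⟨⟨x, y⟩, ⟨h1, h2⟩, h3, h4⟩ := p
    simp only at h1 h2 h3 h4
    refine ⟨⟨h1, h2⟩, ?_, ?_⟩ <;> simp only <;> linarith⟩
  left_inv p := by
    apply Subtype.ext
    simp
  right_inv p := by
    apply Subtype.ext
    simp
  continuous_toFun := by
    apply Continuous.subtype_mk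
    fun_prop
  continuous_invFun := by
    apply Continuous.subtype_mk
    fun_prop

theorem K3_flip_fst (p : Sq) : (K3_flip p).1.1 = p.1.1 := rfl
theorem K3_flip_snd (p : Sq) : (K3_flip p).1.2 = 1 - p.1.2 := rfl

theorem K3_mono (g : ℕ → ℝ → ℝ) (hg : ∀ i x, g i x < g (i + 1) x) (x : ℝ) :
    StrictMono (fun i => g i x) := strictMono_nat_of_lt_succ (fun i => hg i x)

theorem K3_stack_closed (g : ℕ → ℝ → ℝ) (L R : ℕ → ℝ) (n : ℕ) (hg : ∀ i, Continuous (g i)) :
    IsClosed (Stack g L R n) := by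
  have : Stack g L R n = ⋃ i ∈ Finset.range (n + 1), K3_Row (g i) (g (i + 1)) (L i) (R i) := by
    ext p
    simp only [Stack, K3_Row, mem_iUnion, Finset.mem_range, Nat.lt_succ_iff, exists_prop]
    rfl
  rw [this]
  exact isClosed_biUnion_finset fun i _ => K3_row_closed _ _ _ _ (hg i) (hg (i + 1))

/-- narrowing the top edge -/
theorem K3_narrow (hK1 : S_K1) (f : ℝ → ℝ) (hf : Continuous f) (A : Set (ℝ × ℝ)) (a b m M : ℝ)
    (ham : a ≤ m) (hmM : m < M) (hMb : M ≤ b) (hA : ∀ x, a ≤ x → x ≤ b → (x, f x) ∈ A)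
    (h : TopDisk A {p | a ≤ p.1 ∧ p.1 ≤ b ∧ p.2 = f p.1}) :
    TopDisk A {p | m ≤ p.1 ∧ p.1 ≤ M ∧ p.2 = f p.1} := by
  obtain ⟨e, he⟩ := h
  -- the top map, extended by clamping
  have hab : a ≤ b := ham.trans (hmM.le.trans hMb)
  have hcl : ∀ x, a ≤ max a (min x b) ∧ max a (min x b) ≤ b := fun x =>
    ⟨le_max_left _ _, max_le hab (min_le_right _ _)⟩
  set top : ℝ → ℝ := fun x =>
    (e ⟨(max a (min x b), f (max a (min x b))), hA _ (hcl x).1 (hcl x).2⟩).1.1 with htop
  have hcid : ∀ x, a ≤ x → x ≤ b → max a (min x b) = x := by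
    intro x h1 h2
    rw [min_eq_left h2, max_eq_right h1]
  have htopx : ∀ (x : ℝ) (h1 : a ≤ x) (h2 : x ≤ b),
      top x = (e ⟨(x, f x), hA x h1 h2⟩).1.1 := by
    intro x h1 h2
    simp only [htop]
    congr 4
    rw [hcid x h1 h2]
  have htc : Continuous top := by
    have h1 : Continuous (fun x : ℝ => max a (min x b)) := by fun_prop
    have h2 : Continuous (fun x : ℝ =>
        (⟨(max a (min x b), f (max a (min x b))), hA _ (hcl x).1 (hcl x).2⟩ : A)) := by
      apply Continuous.subtype_mk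
      exact h1.prodMk (hf.comp h1)
    exact continuous_fst.comp (continuous_subtype_val.comp (e.continuous.comp h2))
  have htop1 : ∀ (x : ℝ) (h1 : a ≤ x) (h2 : x ≤ b), (e ⟨(x, f x), hA x h1 h2⟩).1.2 = 1 := by
    intro x h1 h2
    exact (he _).1 ⟨h1, h2, rfl⟩
  have hinj : ∀ x x', a ≤ x → x ≤ b → a ≤ x' → x' ≤ b → top x = top x' → x = x' := by
    intro x x' h1 h2 h1' h2' hxx
    rw [htopx x h1 h2, htopx x' h1' h2'] at hxx
    have h3 : e ⟨(x, f x), hA x h1 h2⟩ = e ⟨(x', f x'), hA x' h1' h2'⟩ := by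
      apply Subtype.ext
      apply Prod.ext hxx
      rw [htop1 x h1 h2, htop1 x' h1' h2']
    have h4 := e.injective h3
    exact congrArg (fun q : A => q.1.1) h4
  have himg : top '' Icc m M = Icc (sInf (top '' Icc m M)) (sSup (top '' Icc m M)) :=
    htc.continuousOn.image_Icc hmM.le
  set s : ℝ := sInf (top '' Icc m M) with hs
  set t : ℝ := sSup (top '' Icc m M) with ht
  have hmm : top m ∈ top '' Icc m M := mem_image_of_mem _ (left_mem_Icc.2 hmM.le)
  have hMM : top M ∈ top '' Icc m M := mem_image_of_mem _ (right_mem_Icc.2 hmM.le)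
  have hne : top m ≠ top M := fun h => hmM.ne (hinj m M ham (hmM.le.trans hMb)
    (ham.trans hmM.le) hMb h)
  have hst : s < t := by
    rw [himg] at hmm hMM
    rcases lt_or_gt_of_ne hne with h | h
    · exact lt_of_le_of_lt hmm.1 (lt_of_lt_of_le h hMM.2)
    · exact lt_of_le_of_lt hMM.1 (lt_of_lt_of_le h hmm.2)
  have hrange : ∀ y ∈ top '' Icc m M, 0 ≤ y ∧ y ≤ 1 := by
    rintro _ ⟨x, -, rfl⟩
    have := (e ⟨(max a (min x b), f (max a (min x b))), hA _ (hcl x).1 (hcl x).2⟩).2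
    exact this.1
  have hs0 : 0 ≤ s := (hrange s (by rw [himg]; exact left_mem_Icc.2 hst.le)).1
  have ht1 : t ≤ 1 := (hrange t (by rw [himg]; exact right_mem_Icc.2 hst.le)).2
  obtain ⟨e1, he1, -⟩ := hK1 s t hs0 hst ht1
  refine ⟨e.trans e1, ?_⟩
  intro p
  rw [Homeomorph.trans_apply, ← he1 (e p)]
  constructor
  · rintro ⟨h1, h2, h3⟩
    have h1' : a ≤ p.1.1 := ham.trans h1
    have h2' : p.1.1 ≤ b := h2.trans hMb
    refine ⟨(he p).1 ⟨h1', h2', h3⟩, ?_⟩
    have hp : p = ⟨(p.1.1, f p.1.1), hA _ h1' h2'⟩ := by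
      apply Subtype.ext
      exact Prod.ext rfl h3
    have h4 : top p.1.1 ∈ Icc s t := by
      rw [← himg]
      exact mem_image_of_mem _ ⟨h1, h2⟩
    rw [htopx _ h1' h2', ← hp] at h4
    exact h4
  · rintro ⟨h1, h2⟩
    obtain ⟨h3, h4, h5⟩ := (he p).2 h1
    have hp : p = ⟨(p.1.1, f p.1.1), hA _ h3 h4⟩ := by
      apply Subtype.ext
      exact Prod.ext rfl h5
    have h6 : top p.1.1 ∈ top '' Icc m M := by
      rw [himg, htopx _ h3 h4, ← hp]
      exact h2
    obtain ⟨x', hx', hxx⟩ := h6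
    have h7 := hinj x' p.1.1 (ham.trans hx'.1) (hx'.2.trans hMb) h3 h4 hxx
    rw [h7] at hx'
    exact ⟨hx'.1, hx'.2, h5⟩

/-- a row is a disk with narrowed bottom edge -/
theorem K3_bot (hK1 : S_K1) (f h : ℝ → ℝ) (a b : ℝ) (hf : Continuous f) (hh : Continuous h)
    (hfh : ∀ x, f x < h x) (hab : a < b) (m M : ℝ) (ham : a ≤ m) (hmM : m < M) (hMb : M ≤ b) :
    BotTop (K3_Row f h a b) {p | m ≤ p.1 ∧ p.1 ≤ M ∧ p.2 = f p.1}
      {p | a ≤ p.1 ∧ p.1 ≤ b ∧ p.2 = h p.1} := by
  have h1 : 0 < b - a := sub_pos.2 hab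
  obtain ⟨e1, he1, he2⟩ := hK1 ((m - a) / (b - a)) ((M - a) / (b - a))
    (div_nonneg (by linarith) h1.le) (by
      rw [div_lt_div_iff_of_pos_right h1]; linarith)
    (by rw [div_le_one h1]; linarith)
  refine ⟨(K3_row f h a b hf hh hfh hab).trans (K3_flip.trans (e1.trans K3_flip)), ?_, ?_⟩
  · intro p
    simp only [Homeomorph.trans_apply]
    rw [K3_flip_snd]
    have e3 : (1 - (e1 (K3_flip (K3_row f h a b hf hh hfh hab p))).1.2 = 0) ↔
        (e1 (K3_flip (K3_row f h a b hf hh hfh hab p))).1.2 = 1 := by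
      constructor <;> intro h3 <;> linarith
    rw [e3, ← he1, K3_flip_snd, K3_flip_fst, K3_row_fst]
    have e4 : (1 - (K3_row f h a b hf hh hfh hab p).1.2 = 1) ↔ p.1.2 = f p.1.1 := by
      rw [← K3_row_zero f h a b hf hh hfh hab p]
      constructor <;> intro h3 <;> linarith
    rw [e4, div_le_div_iff_of_pos_right h1, div_le_div_iff_of_pos_right h1]
    constructor
    · rintro ⟨k1, k2, k3⟩
      exact ⟨k3, by linarith, by linarith⟩
    · rintro ⟨k1, k2, k3⟩
      exact ⟨by linarith, by linarith, k1⟩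
  · intro p
    simp only [Homeomorph.trans_apply]
    rw [K3_flip_snd]
    have e3 : (1 - (e1 (K3_flip (K3_row f h a b hf hh hfh hab p))).1.2 = 1) ↔
        (e1 (K3_flip (K3_row f h a b hf hh hfh hab p))).1.2 = 0 := by
      constructor <;> intro h3 <;> linarith
    rw [e3, ← he2, K3_flip_snd]
    have e4 : (1 - (K3_row f h a b hf hh hfh hab p).1.2 = 0) ↔ p.1.2 = h p.1.1 := by
      rw [← K3_row_one f h a b hf hh hfh hab p]
      constructor <;> intro h3 <;> linarith
    rw [e4]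
    constructor
    · rintro ⟨_, _, k3⟩
      exact k3
    · intro k3
      exact ⟨p.2.1, p.2.2.1, k3⟩

theorem T_K3 (h1 : S_K1) (h2 : S_K2) : S_K3 := by
  intro g L R n hg hgg
  induction n with
  | zero =>
    intro hLR _
    have h0 : Stack g L R 0 = K3_Row (g 0) (g 1) (L 0) (R 0) := by
      ext p
      simp only [Stack, K3_Row, Nat.le_zero]
      constructor
      · rintro ⟨i, rfl, h⟩; exact h
      · intro h; exact ⟨0, rfl, h⟩
    rw [h0]
    refine ⟨K3_row (g 0) (g 1) (L 0) (R 0) (hg 0) (hg 1) (hgg 0) (hLR 0 le_rfl), ?_⟩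
    intro p
    rw [K3_row_one]
    constructor
    · rintro ⟨_, _, k3⟩
      exact k3
    · intro k3
      exact ⟨p.2.1, p.2.2.1, k3⟩
  | succ n ih =>
    intro hLR hov
    have ih' := ih (fun i hi => hLR i (hi.trans (Nat.le_succ n)))
      (fun i hi => hov i (hi.trans (Nat.lt_succ_self n)))
    have hmM := hov n (Nat.lt_succ_self n)
    set m : ℝ := max (L n) (L (n + 1)) with hm
    set M : ℝ := min (R n) (R (n + 1)) with hM
    set I : Set (ℝ × ℝ) := {p | m ≤ p.1 ∧ p.1 ≤ M ∧ p.2 = g (n + 1) p.1} with hI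
    have hmono := K3_mono g hgg
    have htop : TopDisk (Stack g L R n) I := by
      apply K3_narrow h1 (g (n + 1)) (hg (n + 1)) _ (L n) (R n) m M (le_max_left _ _) hmM
        (min_le_left _ _) _ ih'
      intro x hx1 hx2
      exact ⟨n, le_rfl, hx1, hx2, (hgg n x).le, le_rfl⟩
    have hbot : BotTop (K3_Row (g (n + 1)) (g (n + 2)) (L (n + 1)) (R (n + 1))) I
        {p | L (n + 1) ≤ p.1 ∧ p.1 ≤ R (n + 1) ∧ p.2 = g (n + 2) p.1} :=
      K3_bot h1 (g (n + 1)) (g (n + 2)) _ _ (hg _) (hg _) (hgg (n + 1)) (hLR (n + 1) le_rfl) m M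
        (le_max_right _ _) hmM (min_le_right _ _)
    have hAB : Stack g L R n ∩ K3_Row (g (n + 1)) (g (n + 2)) (L (n + 1)) (R (n + 1)) = I := by
      ext p
      constructor
      · rintro ⟨⟨i, hi, k1, k2, k3, k4⟩, k5, k6, k7, k8⟩
        have hle : g (i + 1) p.1 ≤ g (n + 1) p.1 := (hmono p.1).monotone (Nat.succ_le_succ hi)
        have hin : i = n := by
          by_contra hne
          have hlt : i + 1 < n + 1 := by omega
          have := hmono p.1 hlt
          simp only at this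
          linarith
        subst hin
        refine ⟨max_le k1 k5, le_min k2 k6, ?_⟩
        linarith
      · rintro ⟨k1, k2, k3⟩
        have j1 := (max_le_iff.1 k1)
        have j2 := (le_min_iff.1 k2)
        refine ⟨⟨n, le_rfl, j1.1, j2.1, ?_, ?_⟩, j1.2, j2.2, ?_, ?_⟩
        · rw [k3]; exact (hgg n p.1).le
        · rw [k3]
        · rw [k3]
        · rw [k3]; exact (hgg (n + 1) p.1).le
    have hJA : {p : ℝ × ℝ | L (n + 1) ≤ p.1 ∧ p.1 ≤ R (n + 1) ∧ p.2 = g (n + 2) p.1} ∩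
        Stack g L R n = ∅ := by
      rw [Set.eq_empty_iff_forall_notMem]
      rintro p ⟨⟨_, _, k3⟩, ⟨i, hi, _, _, _, k4⟩⟩
      have hlt : i + 1 < n + 2 := by omega
      have := hmono p.1 hlt
      simp only at this
      linarith
    have hU : Stack g L R (n + 1) = Stack g L R n ∪
        K3_Row (g (n + 1)) (g (n + 2)) (L (n + 1)) (R (n + 1)) := by
      ext p
      constructor
      · rintro ⟨i, hi, hrest⟩
        rcases Nat.lt_or_ge n i with h | h
        · have : i = n + 1 := by omega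
          subst this
          exact Or.inr hrest
        · exact Or.inl ⟨i, h, hrest⟩
      · rintro (⟨i, hi, hrest⟩ | hrest)
        · exact ⟨i, hi.trans (Nat.le_succ n), hrest⟩
        · exact ⟨n + 1, le_rfl, hrest⟩
    rw [hU]
    exact h2 _ _ I _ (K3_stack_closed g L R n hg) (K3_row_closed _ _ _ _ (hg _) (hg _)) hAB htop
      hbot hJA

end Pool.Agent.H181R2
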