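import Pool.Agent.H181R2.Stubs

set_option autoImplicit false

namespace Pool.Agent.H181R2

/-- distance to the nearest integer -/
noncomputable def K4_d (X : ℝ) : ℝ := Real.arccos (Real.cos (2 * Real.pi * X)) / (2 * Real.pi)

theorem K4_d_cont : Continuous K4_d := by
  unfold K4_d
  exact (Real.continuous_arccos.comp (by fun_prop)).div_const _

theorem K4_d_near (X : ℝ) (m : ℤ) (h : |X - m| ≤ 1 / 2) : K4_d X = |X - m| := by
  have hpi := Real.pi_pos
  have e1 : Real.cos (2 * Real.pi * X) = Real.cos (2 * Real.pi * |X - m|) := by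
    have e2 : 2 * Real.pi * |X - m| = |2 * Real.pi * X - m * (2 * Real.pi)| := by
      rw [show 2 * Real.pi * X - m * (2 * Real.pi) = (2 * Real.pi) * (X - m) by ring, abs_mul,
        abs_of_pos (show 0 < 2 * Real.pi by positivity)]
    rw [e2, Real.cos_abs, Real.cos_sub_int_mul_two_pi]
  unfold K4_d
  rw [e1, Real.arccos_cos (by positivity) (by nlinarith)]
  field_simp

theorem K4_d_range (X : ℝ) : 0 ≤ K4_d X ∧ K4_d X ≤ 1 / 2 := by
  have hpi := Real.pi_pos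
  unfold K4_d
  constructor
  · exact div_nonneg (Real.arccos_nonneg _) (by positivity)
  · rw [div_le_iff₀ (by positivity)]
    have := Real.arccos_le_pi (Real.cos (2 * Real.pi * X))
    linarith

theorem K4_d_half (X : ℝ) (m : ℤ) (h : |X - (m + 1 / 2)| ≤ 1 / 2) :
    K4_d X = 1 / 2 - |X - (m + 1 / 2)| := by
  rw [abs_le] at h
  rcases le_total X (m + 1 / 2) with h1 | h1
  · have h2 : |X - m| = X - m := abs_of_nonneg (by linarith)
    rw [K4_d_near X m (by rw [h2]; linarith), h2, abs_of_nonpos (by linarith)]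
    ring
  · have h2 : |X - ((m + 1 : ℤ) : ℝ)| = m + 1 - X := by
      rw [abs_of_nonpos (by push_cast; linarith)]
      push_cast
      ring
    rw [K4_d_near X (m + 1) (by rw [h2]; linarith), h2, abs_of_nonneg (by linarith)]
    ring

open Classical in
/-- the upper boundary of row `y` -/
noncomputable def K4_G (y : ℤ) (X : ℝ) : ℝ :=
  Real.sqrt 3 / 2 * (y + 1 / 2) + (if Even y then 1 else -1) * ((1 / 4 - K4_d X) / Real.sqrt 3)

theorem K4_G_cont (y : ℤ) : Continuous (K4_G y) := by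
  unfold K4_G
  have := K4_d_cont
  fun_prop

theorem K4_s3 : 0 < Real.sqrt 3 ∧ Real.sqrt 3 * Real.sqrt 3 = 3 :=
  ⟨by positivity, Real.mul_self_sqrt (by norm_num)⟩

theorem K4_inv : (1 : ℝ) / Real.sqrt 3 = Real.sqrt 3 / 3 := by
  obtain ⟨h0, h1⟩ := K4_s3
  rw [div_eq_div_iff h0.ne' (by norm_num)]
  linarith

theorem K4_div (a : ℝ) : a / Real.sqrt 3 = a * (Real.sqrt 3 / 3) := by
  rw [← K4_inv]
  ring

theorem K4_G_lt (y : ℤ) (X : ℝ) : K4_G (y - 1) X < K4_G y X := by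
  obtain ⟨h0, h1⟩ := K4_s3
  obtain ⟨d0, d1⟩ := K4_d_range X
  unfold K4_G
  rw [K4_div]
  push_cast
  by_cases hy : Even y
  · have hy' : ¬ Even (y - 1) := by
      rw [Int.even_sub_one]
      exact fun h => h hy
    rw [if_pos hy, if_neg hy']
    nlinarith
  · have hy' : Even (y - 1) := by
      rw [Int.even_sub_one]
      exact hy
    rw [if_neg hy, if_pos hy']
    nlinarith

theorem K4_hexG (x y : ℤ) (X : ℝ) (h : |X - ((x : ℝ) - (y : ℝ) / 2)| ≤ 1 / 2) :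
    K4_G y X = Real.sqrt 3 / 2 * y + (1 - |X - ((x : ℝ) - (y : ℝ) / 2)|) * (Real.sqrt 3 / 3) ∧
    K4_G (y - 1) X =
      Real.sqrt 3 / 2 * y - (1 - |X - ((x : ℝ) - (y : ℝ) / 2)|) * (Real.sqrt 3 / 3) := by
  unfold K4_G
  rw [K4_div]
  push_cast
  by_cases hy : Even y
  · have hy' : ¬ Even (y - 1) := by
      rw [Int.even_sub_one]
      exact fun h => h hy
    obtain ⟨m, hm⟩ := hy
    have e1 : (x : ℝ) - (y : ℝ) / 2 = ((x - m : ℤ) : ℝ) := by
      rw [hm]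
      push_cast
      ring
    rw [e1] at h ⊢
    rw [if_pos ⟨m, hm⟩, if_neg hy', K4_d_near X (x - m) h]
    constructor <;> ring
  · have hy' : Even (y - 1) := by
      rw [Int.even_sub_one]
      exact hy
    obtain ⟨m, hm⟩ := hy'
    have hm' : y = m + m + 1 := by omega
    have e1 : (x : ℝ) - (y : ℝ) / 2 = ((x - m - 1 : ℤ) : ℝ) + 1 / 2 := by
      rw [hm']
      push_cast
      ring
    rw [e1] at h ⊢
    rw [if_neg hy, if_pos ⟨m, hm⟩, K4_d_half X (x - m - 1) h]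
    constructor <;> ring

theorem K4_hex (x y : ℤ) (z : ℂ) : z ∈ hexAt (x, y) ↔ |z.re - ((x : ℝ) - (y : ℝ) / 2)| ≤ 1 / 2 ∧
    K4_G (y - 1) z.re ≤ z.im ∧ z.im ≤ K4_G y z.re := by
  obtain ⟨h0, h1⟩ := K4_s3
  have e : z ∈ hexAt (x, y) ↔ |z.re - ((x : ℝ) - (y : ℝ) / 2)| ≤ 1 / 2 ∧
      |z.re - ((x : ℝ) - (y : ℝ) / 2)| + Real.sqrt 3 * |z.im - Real.sqrt 3 / 2 * y| ≤ 1 := Iff.rfl
  rw [e]
  refine and_congr_right fun h => ?_
  obtain ⟨g1, g2⟩ := K4_hexG x y z.re h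
  rw [g1, g2]
  obtain ⟨u, hu⟩ : ∃ u : ℝ, u = |z.re - ((x : ℝ) - (y : ℝ) / 2)| := ⟨_, rfl⟩
  obtain ⟨v, hv⟩ : ∃ v : ℝ, v = z.im - Real.sqrt 3 / 2 * y := ⟨_, rfl⟩
  have hz : z.im = v + Real.sqrt 3 / 2 * y := by rw [hv]; ring
  rw [← hu, ← hv, hz]
  have key : u + Real.sqrt 3 * |v| ≤ 1 ↔ |v| ≤ (1 - u) * (Real.sqrt 3 / 3) := by
    constructor
    · intro h2
      have h3 : Real.sqrt 3 * (u + Real.sqrt 3 * |v|) ≤ Real.sqrt 3 * 1 :=
        mul_le_mul_of_nonneg_left h2 h0.le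
      nlinarith
    · intro h2
      have h3 : Real.sqrt 3 * |v| ≤ Real.sqrt 3 * ((1 - u) * (Real.sqrt 3 / 3)) :=
        mul_le_mul_of_nonneg_left h2 h0.le
      nlinarith
  rw [key, abs_le]
  constructor
  · rintro ⟨h2, h3⟩
    constructor <;> linarith
  · rintro ⟨h2, h3⟩
    constructor <;> linarith

/-- a row of hexagons -/
theorem K4_row (x0 x1 y : ℤ) (hx : x0 ≤ x1) (z : ℂ) :
    (∃ x : ℤ, x0 ≤ x ∧ x ≤ x1 ∧ z ∈ hexAt (x, y)) ↔
      (x0 : ℝ) - (y : ℝ) / 2 - 1 / 2 ≤ z.re ∧ z.re ≤ (x1 : ℝ) - (y : ℝ) / 2 + 1 / 2 ∧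
        K4_G (y - 1) z.re ≤ z.im ∧ z.im ≤ K4_G y z.re := by
  constructor
  · rintro ⟨x, h0, h1, hz⟩
    obtain ⟨h2, h3, h4⟩ := (K4_hex x y z).1 hz
    rw [abs_le] at h2
    have h0' : (x0 : ℝ) ≤ x := by exact_mod_cast h0
    have h1' : (x : ℝ) ≤ x1 := by exact_mod_cast h1
    exact ⟨by linarith, by linarith, h3, h4⟩
  · rintro ⟨h1, h2, h3, h4⟩
    -- the nearest cell
    obtain ⟨r, hr⟩ : ∃ r : ℤ, r = round (z.re + (y : ℝ) / 2) := ⟨_, rfl⟩
    have hrd : |z.re + (y : ℝ) / 2 - r| ≤ 1 / 2 := by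
      rw [hr]
      exact abs_sub_round _
    rw [abs_le] at hrd
    refine ⟨max x0 (min r x1), le_max_left _ _, max_le hx (min_le_right _ _), ?_⟩
    rw [K4_hex]
    refine ⟨?_, h3, h4⟩
    rw [abs_le]
    rcases le_total r x1 with h5 | h5
    · rw [min_eq_left h5]
      rcases le_total r x0 with h6 | h6
      · rw [max_eq_left h6]
        have h6' : (r : ℝ) ≤ x0 := by exact_mod_cast h6
        constructor <;> linarith
      · rw [max_eq_right h6]
        constructor <;> linarith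
    · rw [min_eq_right h5, max_eq_right hx]
      have h5' : (x1 : ℝ) ≤ r := by exact_mod_cast h5
      constructor <;> linarith

/-- the first cell of row `y` -/
def K4_a (N y : ℤ) : ℤ := if y < 0 then y else if y < N then 0 else N

/-- the last cell of row `y` -/
def K4_b (N y : ℤ) : ℤ := if y < 0 then y else if y < N then N - 1 else 2 * N - 2

theorem K4_InT (N x y : ℤ) (hN : 5 ≤ N) :
    InT N (x, y) ↔ (-N ≤ y ∧ y < 2 * N) ∧ K4_a N y ≤ x ∧ x ≤ K4_b N y := by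
  unfold InT K4_a K4_b
  simp only
  split_ifs <;> constructor <;> intro h <;> omega

theorem T_K4 : S_K4 := by
  intro N hN
  have hNr : (5 : ℝ) ≤ N := by exact_mod_cast hN
  refine ⟨fun i X => K4_G ((i : ℤ) - N - 1) X,
    fun i => (K4_a N ((i : ℤ) - N) : ℝ) - (((i : ℤ) - N : ℤ) : ℝ) / 2 - 1 / 2,
    fun i => (K4_b N ((i : ℤ) - N) : ℝ) - (((i : ℤ) - N : ℤ) : ℝ) / 2 + 1 / 2,
    (3 * N - 1).toNat, fun i => K4_G_cont _, ?_, ?_, ?_, ?_⟩
  · intro i X
    have := K4_G_lt ((i : ℤ) - N) X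
    have e : (((i + 1 : ℕ) : ℤ) - N - 1) = (i : ℤ) - N := by push_cast; ring
    simp only
    rw [e]
    exact this
  · intro i _
    have h1 : K4_a N ((i : ℤ) - N) ≤ K4_b N ((i : ℤ) - N) := by
      unfold K4_a K4_b
      split_ifs <;> omega
    have h2 : (K4_a N ((i : ℤ) - N) : ℝ) ≤ K4_b N ((i : ℤ) - N) := by exact_mod_cast h1
    simp only
    linarith
  · intro i hi
    have hi' : (i : ℤ) < 3 * N - 1 := by omega
    have e : (((i + 1 : ℕ) : ℤ) - N) = (i : ℤ) - N + 1 := by push_cast; ring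
    simp only [e]
    obtain ⟨y, hy⟩ : ∃ y : ℤ, y = (i : ℤ) - N := ⟨_, rfl⟩
    rw [← hy]
    rw [max_lt_iff, lt_min_iff, lt_min_iff]
    push_cast
    have hyr : ((y + 1 : ℤ) : ℝ) = (y : ℝ) + 1 := by push_cast; ring
    have k1 : 2 * K4_a N y < 2 * K4_b N y + 2 := by
      unfold K4_a K4_b
      split_ifs <;> omega
    have k2 : 2 * K4_a N y < 2 * K4_b N (y + 1) + 1 := by
      unfold K4_a K4_b
      split_ifs <;> omega
    have k3 : 2 * K4_a N (y + 1) < 2 * K4_b N y + 3 := by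
      unfold K4_a K4_b
      split_ifs <;> omega
    have k4 : 2 * K4_a N (y + 1) < 2 * K4_b N (y + 1) + 2 := by
      unfold K4_a K4_b
      split_ifs <;> omega
    have k1' : 2 * (K4_a N y : ℝ) < 2 * K4_b N y + 2 := by exact_mod_cast k1
    have k2' : 2 * (K4_a N y : ℝ) < 2 * K4_b N (y + 1) + 1 := by exact_mod_cast k2
    have k3' : 2 * (K4_a N (y + 1) : ℝ) < 2 * K4_b N y + 3 := by exact_mod_cast k3
    have k4' : 2 * (K4_a N (y + 1) : ℝ) < 2 * K4_b N (y + 1) + 2 := by exact_mod_cast k4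
    refine ⟨⟨?_, ?_⟩, ?_, ?_⟩ <;> linarith
  · refine ⟨Complex.equivRealProdCLM.toHomeomorph.subtype ?_⟩
    intro z
    show z ∈ TR N ↔ Complex.equivRealProdCLM z ∈ Stack _ _ _ _
    unfold TR Stack
    rw [Set.mem_ofPred_eq, Set.mem_ofPred_eq]
    have hre : (Complex.equivRealProdCLM z).1 = z.re := rfl
    have him : (Complex.equivRealProdCLM z).2 = z.im := rfl
    rw [hre, him]
    constructor
    · rintro ⟨⟨x, y⟩, hc, hz⟩
      obtain ⟨⟨h1, h2⟩, h3, h4⟩ := (K4_InT N x y hN).1 hc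
      refine ⟨(y + N).toNat, by omega, ?_⟩
      have e : (((y + N).toNat : ℕ) : ℤ) = y + N := Int.toNat_of_nonneg (by omega)
      have e2 : (((y + N).toNat : ℕ) : ℤ) - N = y := by omega
      have e3 : ((((y + N).toNat + 1 : ℕ) : ℤ) - N - 1) = y := by push_cast; omega
      simp only [e2, e3]
      exact (K4_row (K4_a N y) (K4_b N y) y (h3.trans h4) z).1 ⟨x, h3, h4, hz⟩
    · rintro ⟨i, hi, h1⟩
      have hi' : (i : ℤ) ≤ 3 * N - 1 := by omega
      have e3 : (((i + 1 : ℕ) : ℤ) - N - 1) = (i : ℤ) - N := by push_cast; ring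
      simp only [e3] at h1
      have hab : K4_a N ((i : ℤ) - N) ≤ K4_b N ((i : ℤ) - N) := by
        unfold K4_a K4_b
        split_ifs <;> omega
      obtain ⟨x, h3, h4, hz⟩ := (K4_row _ _ _ hab z).2 h1
      exact ⟨(x, (i : ℤ) - N), (K4_InT N x _ hN).2 ⟨⟨by omega, by omega⟩, h3, h4⟩, hz⟩

end Pool.Agent.H181R2
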