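import Pool.Agent.H181R2.Stubs

set_option autoImplicit false

namespace Pool.Agent.H181R2

theorem T_K5 : S_K5 := by
  have hfr : Module.finrank ℝ (ℝ × ℝ) = Module.finrank ℝ (EuclideanSpace ℝ (Fin 2)) := by
    simp
  let φ : (ℝ × ℝ) ≃L[ℝ] EuclideanSpace ℝ (Fin 2) := ContinuousLinearEquiv.ofFinrankEq hfr
  have hcv : Convex ℝ Sq := (convex_Icc (0 : ℝ) 1).prod (convex_Icc (0 : ℝ) 1)
  have hcp : IsCompact Sq := isCompact_Icc.prod isCompact_Icc
  have hin : (interior Sq).Nonempty := by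
    unfold Sq
    rw [interior_prod_eq, interior_Icc]
    exact ⟨(1 / 2, 1 / 2), by norm_num⟩
  have hcv' : Convex ℝ (φ '' Sq) := hcv.linear_image (φ : (ℝ × ℝ) →ₗ[ℝ] EuclideanSpace ℝ (Fin 2))
  have hcp' : IsCompact (φ '' Sq) := hcp.image φ.continuous
  have hin' : (interior (φ '' Sq)).Nonempty := by
    have h1 : φ.toHomeomorph '' interior Sq = interior (φ.toHomeomorph '' Sq) :=
      φ.toHomeomorph.image_interior Sq
    have h2 : (φ.toHomeomorph '' interior Sq).Nonempty := hin.image _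
    rw [h1] at h2
    exact h2
  obtain ⟨e, -, he, -⟩ := exists_homeomorph_image_interior_closure_frontier_eq_unitBall hcv' hin'
    hcp'.isBounded
  rw [hcp'.isClosed.closure_eq] at he
  have h3 : Sq ≃ₜ (φ '' Sq : Set _) := φ.toHomeomorph.image Sq
  have h4 : (φ '' Sq : Set _) ≃ₜ (e '' (φ '' Sq) : Set _) := e.image _
  exact ⟨(h3.trans h4).trans (Homeomorph.setCongr he)⟩

end Pool.Agent.H181R2
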