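import Pool.Agent.H181R2.Stubs

set_option autoImplicit false

namespace Pool.Agent.H181R2

theorem T_LF (h1 : S_HB) (h2 : S_SEP) : S_LF := by
  intro ℋ v h
  obtain ⟨hA, hcov, hdis⟩ := h
  choose! F hF using hA
  obtain ⟨_, hball, hcpt, _, _, _⟩ := h1
  have hnorm : ∀ w ∈ Hx, ‖w‖ ≤ 1 := by
    intro w hw
    have h3 := hball hw
    rw [mem_closedBall_zero_iff] at h3
    refine h3.trans ?_
    rw [div_le_one (by positivity)]
    rw [Real.one_le_sqrt]
    norm_num
  -- the members near `v`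
  set near : Set (Set ℂ) := {A | A ∈ ℋ ∧ (A ∩ Metric.ball v 1).Nonempty} with hnear
  have hcen : ∀ A ∈ near, F A 0 ∈ Metric.closedBall v 3 := by
    rintro A ⟨hA, z, hzA, hzv⟩
    rw [hF A hA] at hzA
    obtain ⟨w, hw, rfl⟩ := hzA
    rw [Metric.mem_ball] at hzv
    rw [Metric.mem_closedBall]
    have h3 : dist (F A 0) (F A w) ≤ 1 := by
      rw [(F A).isometry.dist_eq, dist_zero_left]
      exact hnorm w hw
    have h4 := dist_triangle (F A 0) (F A w) v
    linarith
  have hsep : ∀ A ∈ near, ∀ B ∈ near, A ≠ B → 1 ≤ dist (F A 0) (F B 0) := by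
    rintro A ⟨hA, _⟩ B ⟨hB, _⟩ hAB
    apply h2
    rw [← hF A hA, ← hF B hB]
    exact hdis A hA B hB hAB
  have hfin : near.Finite := by
    obtain ⟨t, _, htf, htc⟩ :=
      (isCompact_closedBall v (3 : ℝ)).finite_cover_balls (e := 1 / 2) (by norm_num)
    have hex : ∀ A ∈ near, ∃ x ∈ t, F A 0 ∈ Metric.ball x (1 / 2) := by
      intro A hA
      have h3 := htc (hcen A hA)
      simpa only [Set.mem_iUnion, exists_prop] using h3
    choose! f hft hfb using hex
    apply Set.Finite.of_injOn (f := f) (t := t) hft _ htf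
    intro A hA B hB hAB
    by_contra hne
    have h3 := hsep A hA B hB hne
    have h4 := hfb A hA
    have h5 := hfb B hB
    rw [← hAB, Metric.mem_ball] at h5
    rw [Metric.mem_ball] at h4
    have h6 := dist_triangle_right (F A 0) (F B 0) (f A)
    linarith
  have hclosed : ∀ A ∈ ℋ, IsClosed A := by
    intro A hA
    rw [hF A hA]
    exact (hcpt.image (F A).continuous).isClosed
  have hev : ∀ᶠ z in nhds v, ∀ A ∈ near, v ∉ A → z ∉ A := by
    rw [Filter.eventually_all_finite hfin]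
    rintro A ⟨hA, _⟩
    by_cases hv : v ∈ A
    · exact Filter.Eventually.of_forall fun z hz => absurd hv hz
    · filter_upwards [(hclosed A hA).isOpen_compl.mem_nhds hv] with z hz _
      exact hz
  have hev2 : ∀ᶠ z in nhds v, z ∈ Metric.ball v 1 := Metric.ball_mem_nhds v one_pos
  obtain ⟨ε, hε, hb⟩ := Metric.mem_nhds_iff.1 (hev.and hev2)
  refine ⟨ε, hε, fun z hz => ?_⟩
  obtain ⟨h3, h4⟩ := hb hz
  have h5 : z ∈ ⋃₀ ℋ := by rw [hcov]; exact Set.mem_univ z
  obtain ⟨A, hA, hzA⟩ := h5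
  refine ⟨A, hA, ?_, hzA⟩
  by_contra hv
  exact h3 A ⟨hA, z, hzA, h4⟩ hv hzA

end Pool.Agent.H181R2
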