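import Pool.Agent.H181R2.Stubs

set_option autoImplicit false

namespace Pool.Agent.H181R2

theorem LI_ctr_inj {a b : Cell} (h : ctr a = ctr b) : a = b := by
  have hi := congrArg Complex.im h
  have hr := congrArg Complex.re h
  simp only [ctr] at hi hr
  have h3 : (Real.sqrt 3 / 2) ≠ 0 := by positivity
  have h2 : (a.2 : ℝ) = b.2 := mul_left_cancel₀ h3 hi
  have h1 : (a.1 : ℝ) = b.1 := by rw [h2] at hr; linarith
  exact Prod.ext (by exact_mod_cast h1) (by exact_mod_cast h2)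

theorem LI_ctr_sub (a b : Cell) : ctr (a - b) = ctr a - ctr b := by
  apply Complex.ext
  · simp only [ctr, Prod.fst_sub, Prod.snd_sub, Complex.sub_re]; push_cast; ring
  · simp only [ctr, Prod.snd_sub, Complex.sub_im]; push_cast; ring

theorem LI_ctr_add (a b : Cell) : ctr (a + b) = ctr a + ctr b := by
  apply Complex.ext
  · simp only [ctr, Prod.fst_add, Prod.snd_add, Complex.add_re]; push_cast; ring
  · simp only [ctr, Prod.snd_add, Complex.add_im]; push_cast; ring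

theorem LI_norm (a b : Cell) : ‖ctr a - ctr b‖ ^ 2 = (Q (a - b) : ℝ) := by
  rw [← LI_ctr_sub, ← Complex.normSq_eq_norm_sq, Complex.normSq_apply]
  simp only [ctr, Q, Prod.fst_sub, Prod.snd_sub]
  have h3 : Real.sqrt 3 * Real.sqrt 3 = 3 := Real.mul_self_sqrt (by norm_num)
  push_cast
  linear_combination (((a.2 : ℝ) - b.2) ^ 2 / 4) * h3

theorem T_LI (h1 : S_HB) (h2 : S_VL) : S_LI := by
  intro F c d hF
  have hcb := h1.2.1
  have hs3 : (0 : ℝ) < Real.sqrt 3 := by positivity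
  have hs3' : Real.sqrt 3 * Real.sqrt 3 = 3 := Real.mul_self_sqrt (by norm_num)
  let F' : ℂ ≃ᵢ ℂ := (IsometryEquiv.addRight (ctr c)).trans (F.trans (IsometryEquiv.addRight (-(ctr d))))
  have hF' : ∀ z, F' z = F (z + ctr c) - ctr d := by
    intro z
    simp only [F', IsometryEquiv.trans_apply, IsometryEquiv.addRight_apply]
    ring
  have hmem : ∀ z, z ∈ Hx ↔ F' z ∈ Hx := by
    intro z
    rw [hF']
    have e1 : z ∈ Hx ↔ z + ctr c ∈ hexAt c := by
      change _ ↔ z + ctr c - ctr c ∈ Hx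
      rw [add_sub_cancel_right]
    have e2 : z + ctr c ∈ hexAt c ↔ F (z + ctr c) ∈ hexAt d := by
      rw [← hF]
      exact (F.injective.mem_set_image).symm
    rw [e1, e2]
    rfl
  have hw : (⟨0, 1 / Real.sqrt 3⟩ : ℂ) ∈ Hx := by
    refine ⟨by norm_num, ?_⟩
    have : |1 / Real.sqrt 3| = 1 / Real.sqrt 3 := abs_of_pos (by positivity)
    simp only [this]
    rw [mul_one_div, div_self hs3.ne']
    norm_num
  have hw' : (-(⟨0, 1 / Real.sqrt 3⟩ : ℂ)) ∈ Hx := by
    refine ⟨by norm_num, ?_⟩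
    have : |1 / Real.sqrt 3| = 1 / Real.sqrt 3 := abs_of_pos (by positivity)
    simp only [Complex.neg_re, Complex.neg_im, neg_zero, abs_neg, this]
    rw [mul_one_div, div_self hs3.ne']
    norm_num
  have hdist : ∀ z ∈ Hx, dist z (F' 0) ≤ 1 / Real.sqrt 3 := by
    intro z hz
    obtain ⟨y, rfl⟩ := F'.surjective z
    rw [F'.dist_eq]
    exact Metric.mem_closedBall.1 (hcb ((hmem y).2 hz))
  have hnw : ‖(⟨0, 1 / Real.sqrt 3⟩ : ℂ)‖ ^ 2 = 1 / 3 := by
    rw [← Complex.normSq_eq_norm_sq, Complex.normSq_apply]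
    have : (1 / Real.sqrt 3) * (1 / Real.sqrt 3) = 1 / 3 := by
      rw [div_mul_div_comm, one_mul, hs3']
    simp only [mul_zero, zero_add]
    exact this
  have hF0 : F' 0 = 0 := by
    have a1 := hdist _ hw
    have a2 := hdist _ hw'
    rw [dist_eq_norm] at a1 a2
    have a3 : ‖-(⟨0, 1 / Real.sqrt 3⟩ : ℂ) - F' 0‖ = ‖(⟨0, 1 / Real.sqrt 3⟩ : ℂ) + F' 0‖ := by
      rw [← norm_neg]; congr 1; ring
    rw [a3] at a2
    have hpar := parallelogram_law_with_norm ℝ (⟨0, 1 / Real.sqrt 3⟩ : ℂ) (F' 0)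
    have b1 : ‖(⟨0, 1 / Real.sqrt 3⟩ : ℂ) - F' 0‖ ^ 2 ≤ (1 / Real.sqrt 3) ^ 2 := by gcongr
    have b2 : ‖(⟨0, 1 / Real.sqrt 3⟩ : ℂ) + F' 0‖ ^ 2 ≤ (1 / Real.sqrt 3) ^ 2 := by gcongr
    have b3 : (1 / Real.sqrt 3) ^ 2 = 1 / 3 := by
      rw [div_pow, one_pow, pow_two, hs3']
    rw [b3] at b1 b2
    have : ‖F' 0‖ ^ 2 ≤ 0 := by nlinarith
    have h0 : ‖F' 0‖ = 0 := by
      have := le_antisymm this (by positivity)
      exact pow_eq_zero_iff (by norm_num) |>.1 this
    exact norm_eq_zero.1 h0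
  let L : ℂ ≃ₗᵢ[ℝ] ℂ := F'.toRealLinearIsometryEquivOfMapZero hF0
  have hL : ∀ z, L z = F' z := fun z => rfl
  have hLw : L (⟨0, 1 / Real.sqrt 3⟩ : ℂ) ∈ Hx := by rw [hL]; exact (hmem _).1 hw
  obtain ⟨v1, v2⟩ := h2 L _ hw hnw hLw
  obtain ⟨u1, u2⟩ := h2 L.symm (L (⟨0, 1 / Real.sqrt 3⟩ : ℂ)) hLw (by rw [L.norm_map]; exact hnw)
    (by rw [L.symm_apply_apply]; exact hw)
  have hFL : ∀ z, F z = L (z - ctr c) + ctr d := by
    intro z
    rw [hL, hF', sub_add_cancel, sub_add_cancel]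
  choose s hs using v2
  choose t ht using u2
  have hFs : ∀ e, F (ctr e) = ctr (s (e - c) + d) := by
    intro e
    rw [hFL, ← LI_ctr_sub, hs, LI_ctr_add]
  have hFt : ∀ e, F (ctr (t (e - d) + c)) = ctr e := by
    intro e
    rw [hFL, LI_ctr_add, add_sub_cancel_right, ← ht, L.apply_symm_apply, LI_ctr_sub, sub_add_cancel]
  let σ : Equiv.Perm Cell :=
    { toFun := fun e => s (e - c) + d
      invFun := fun e => t (e - d) + c
      left_inv := by
        intro e
        apply LI_ctr_inj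
        apply F.injective
        rw [hFt, hFs]
      right_inv := by
        intro e
        apply LI_ctr_inj
        have := hFs (t (e - d) + c)
        rw [hFt] at this
        exact this.symm }
  have hσ : ∀ e, F (ctr e) = ctr (σ e) := hFs
  refine ⟨σ, ?_, hσ, ?_⟩
  · intro a b
    have e1 := LI_norm (σ a) (σ b)
    have e2 := LI_norm a b
    rw [← hσ, ← hσ, ← dist_eq_norm, F.dist_eq, dist_eq_norm, e2] at e1
    exact_mod_cast e1.symm
  · intro e
    ext z
    obtain ⟨y, rfl⟩ := F.surjective z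
    rw [F.injective.mem_set_image]
    change y - ctr e ∈ Hx ↔ F y - ctr (σ e) ∈ Hx
    rw [← hσ, hmem, ← hL]
    have : F y - F (ctr e) = L (y - ctr e) := by
      rw [hFL, hFL, add_sub_add_right_eq_sub, ← map_sub]
      congr 1
      ring
    rw [this]

end Pool.Agent.H181R2
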