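import Pool.Agent.H181R2.Stubs

set_option autoImplicit false

namespace Pool.Agent.H181R2

theorem T_MM (h1 : S_CC) (h2 : S_R1) (h3 : S_R2) (h4 : S_R3) (h5 : S_R4) (h6 : S_DK) : S_MM := by
  intro n hn
  have hn' : (5 : ℤ) ≤ (n : ℤ) := by exact_mod_cast hn
  obtain ⟨S, hT, hN, hE⟩ := h1 n hn
  refine ⟨TR n, h6 n hn', fun i => RT n (S i), fun i => h2 n (S i) hn' (hT i), ?_, ?_⟩
  · rintro i j hij ⟨g, hg⟩
    exact hN i j hij (h4 n (S i) (S j) g hn' (hT i) (hT j) hg)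
  · intro S' hS'
    obtain ⟨F, T, hTil, hF⟩ := h3 n S' hn' hS'
    obtain ⟨i, hi⟩ := hE T hTil
    obtain ⟨F2, hF2⟩ := h5 n (S i) T hi
    refine ⟨i, F2.trans F, ?_⟩
    rw [← hF, ← hF2, Set.image_image]
    refine Set.image_congr fun A _ => ?_
    rw [Set.image_image]
    rfl

end Pool.Agent.H181R2
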