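import Pool.Agent.H181R2.Stubs

set_option autoImplicit false

namespace Pool.Agent.H181R2

theorem N2_sqrt : (1 / Real.sqrt 3) = Real.sqrt 3 / 3 := by
  have h : Real.sqrt 3 ≠ 0 := by positivity
  have h2 : Real.sqrt 3 * Real.sqrt 3 = 3 := Real.mul_self_sqrt (by norm_num)
  field_simp
  nlinarith

theorem N2_norm_sq (z : ℂ) : ‖z‖ ^ 2 = z.re ^ 2 + z.im ^ 2 := by
  rw [← Complex.normSq_eq_norm_sq, Complex.normSq_apply]
  ring

/-- an isometry that maps a vertex of `Hx` to a vertex of the translated hexagon -/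
theorem N2_img (h5 : S_VL) (F : ℂ ≃ᵢ ℂ) (u v : ℂ) (hu : F 0 = u) (hv : v ∈ F '' Hx)
    (hn : ‖v - u‖ ^ 2 = 1 / 3) (hvu : v - u ∈ Hx) : F '' Hx = {z | z - u ∈ Hx} := by
  set G : ℂ ≃ᵢ ℂ := F.trans (IsometryEquiv.addRight (-u)) with hG
  have hG1 : ∀ z, G z = F z - u := by
    intro z
    simp [hG, sub_eq_add_neg]
  have hG0 : G 0 = 0 := by rw [hG1, hu, sub_self]
  set L : ℂ ≃ₗᵢ[ℝ] ℂ := G.toRealLinearIsometryEquivOfMapZero hG0 with hL
  have hL1 : ∀ z, L z = F z - u := by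
    intro z
    rw [← hG1 z, hL, IsometryEquiv.coe_toRealLinearIsometryEquivOfMapZero]
  obtain ⟨w, hw, hwv⟩ := hv
  have hLw : L w = v - u := by rw [hL1, hwv]
  have hnw : ‖w‖ ^ 2 = 1 / 3 := by
    rw [← L.norm_map w, hLw, hn]
  have key := (h5 L w hw hnw (hLw ▸ hvu)).1
  ext z
  constructor
  · rintro ⟨y, hy, rfl⟩
    have : L y ∈ L '' Hx := ⟨y, hy, rfl⟩
    rw [key, hL1] at this
    exact this
  · intro hz
    have hz' : z - u ∈ L '' Hx := by rw [key]; exact hz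
    obtain ⟨y, hy, hyz⟩ := hz'
    refine ⟨y, hy, ?_⟩
    rw [hL1] at hyz
    exact sub_left_injective hyz

theorem T_N2 (h1 : S_HB) (h2 : S_SEP) (h3 : S_V3) (h4 : S_CE) (h5 : S_VL) : S_N2 := by
  intro ℋ hℋ hH
  obtain ⟨A, hA, B, hB, hAH, hBH, hAB, hvA, hvB⟩ := h3 ℋ hℋ hH
  obtain ⟨hcop, hcov, hdis⟩ := hℋ
  obtain ⟨F, rfl⟩ := hcop A hA
  obtain ⟨F', rfl⟩ := hcop B hB
  set v : ℂ := ⟨0, 1 / Real.sqrt 3⟩ with hv
  have hid : (IsometryEquiv.refl ℂ) '' Hx = Hx := Set.image_id Hx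
  have h3pos : (0 : ℝ) < Real.sqrt 3 := by positivity
  have h33 : Real.sqrt 3 * Real.sqrt 3 = 3 := Real.mul_self_sqrt (by norm_num)
  have hh : 3 * (1 / Real.sqrt 3) ^ 2 = 1 := by
    rw [N2_sqrt]; nlinarith
  have d1 : ∀ F : ℂ ≃ᵢ ℂ, F '' Hx ∈ ℋ → F '' Hx ≠ Hx → 1 ≤ (F 0).re ^ 2 + (F 0).im ^ 2 := by
    intro F hF hne
    have := h2 F (IsometryEquiv.refl ℂ) (by rw [hid]; exact hdis _ hF _ hH hne)
    have h0 : dist (F 0) ((IsometryEquiv.refl ℂ) 0) = ‖F 0‖ := by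
      rw [show (IsometryEquiv.refl ℂ) 0 = 0 from rfl, dist_zero_right]
    rw [h0] at this
    rw [← N2_norm_sq]
    nlinarith
  have d2 : 1 ≤ ((F 0).re - (F' 0).re) ^ 2 + ((F 0).im - (F' 0).im) ^ 2 := by
    have := h2 F F' (hdis _ hA _ hB hAB)
    rw [dist_eq_norm] at this
    have h0 := N2_norm_sq (F 0 - F' 0)
    rw [Complex.sub_re, Complex.sub_im] at h0
    rw [← h0]
    nlinarith
  have d3 : ∀ F : ℂ ≃ᵢ ℂ, v ∈ F '' Hx → (F 0).re ^ 2 + ((F 0).im - 1 / Real.sqrt 3) ^ 2 ≤ 1 / 3 := by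
    intro F hF
    obtain ⟨w, hw, hwv⟩ := hF
    have hb := h1.2.1 hw
    rw [Metric.mem_closedBall] at hb
    have h0 : dist (F 0) v = dist w 0 := by
      rw [← hwv, F.isometry.dist_eq, dist_comm]
    have h00 := N2_norm_sq (F 0 - v)
    rw [Complex.sub_re, Complex.sub_im] at h00
    simp only [hv, sub_zero] at h00
    rw [← h00, ← hv, ← dist_eq_norm, h0]
    have hnn : 0 ≤ dist w 0 := dist_nonneg
    have : dist w 0 ^ 2 ≤ (1 / Real.sqrt 3) ^ 2 := by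
      apply pow_le_pow_left₀ hnn hb
    nlinarith
  obtain ⟨e1, e2, e3⟩ := h4 (F 0).re (F 0).im (F' 0).re (F' 0).im (1 / Real.sqrt 3) (by positivity) hh
    (d1 F hA hAH) (d1 F' hB hBH) d2 (d3 F hvA) (d3 F' hvB)
  have him : 3 * (1 / Real.sqrt 3) / 2 = Real.sqrt 3 / 2 := by rw [N2_sqrt]; ring
  rw [him] at e1 e2
  have c11 : ctr (1, 1) = ⟨1 / 2, Real.sqrt 3 / 2⟩ := by
    unfold ctr
    apply Complex.ext <;> norm_num
  have c01 : ctr (0, 1) = ⟨-1 / 2, Real.sqrt 3 / 2⟩ := by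
    unfold ctr
    apply Complex.ext <;> norm_num
  -- the images for the two possible centres
  have him' : (1 : ℝ) / Real.sqrt 3 - Real.sqrt 3 / 2 = -(Real.sqrt 3 / 6) := by
    rw [N2_sqrt]; ring
  have key : ∀ (F : ℂ ≃ᵢ ℂ) (a : ℝ), |a| = 1 / 2 → F 0 = ⟨a, Real.sqrt 3 / 2⟩ → v ∈ F '' Hx →
      F '' Hx = {z | z - ⟨a, Real.sqrt 3 / 2⟩ ∈ Hx} := by
    intro F a ha hF hvF
    apply N2_img h5 F _ v hF hvF
    · rw [N2_norm_sq]
      have ha2 : a ^ 2 = 1 / 4 := by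
        rw [← sq_abs, ha]; norm_num
      simp only [Complex.sub_re, Complex.sub_im, hv, him', zero_sub]
      nlinarith
    · unfold Hx
      simp only [Set.mem_ofPred_eq, Complex.sub_re, Complex.sub_im, hv, him', zero_sub, abs_neg, ha]
      refine ⟨le_refl _, ?_⟩
      rw [abs_of_nonneg (by positivity)]
      nlinarith
  have hhalf : |(1 : ℝ) / 2| = 1 / 2 := by norm_num
  have hhalf' : |(-1 : ℝ) / 2| = 1 / 2 := by
    rw [abs_of_nonpos (by norm_num)]; norm_num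
  rcases e3 with ⟨e3, e4⟩ | ⟨e3, e4⟩
  · have f1 := key F (1 / 2) hhalf (Complex.ext e3 e1) hvA
    have f2 := key F' (-1 / 2) hhalf' (Complex.ext e4 e2) hvB
    constructor
    · have : hexAt (1, 1) = F '' Hx := by rw [f1]; unfold hexAt; rw [c11]
      rw [this]; exact hA
    · have : hexAt (0, 1) = F' '' Hx := by rw [f2]; unfold hexAt; rw [c01]
      rw [this]; exact hB
  · have f1 := key F (-1 / 2) hhalf' (Complex.ext e3 e1) hvA
    have f2 := key F' (1 / 2) hhalf (Complex.ext e4 e2) hvB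
    constructor
    · have : hexAt (1, 1) = F' '' Hx := by rw [f2]; unfold hexAt; rw [c11]
      rw [this]; exact hB
    · have : hexAt (0, 1) = F '' Hx := by rw [f1]; unfold hexAt; rw [c01]
      rw [this]; exact hA

end Pool.Agent.H181R2
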