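import Pool.Agent.H181R2.Stubs

set_option autoImplicit false

namespace Pool.Agent.H181R2

theorem NP_pl0 (a b m : ℤ) : pl 0 a b * pl 0 m 0 = pl 0 (a + m) b := by
  ext c
  · show (c.1 + m) + a = c.1 + (a + m)
    ring
  · show (c.2 + 0) + b = c.2 + b
    ring

theorem NP_pl11 (a b m : ℤ) : pl 11 a b * pl 0 m 0 = pl 11 (a - m) b := by
  ext c
  · show (c.2 + 0) - (c.1 + m) + a = c.2 - c.1 + (a - m)
    ring
  · show (c.2 + 0) + b = c.2 + b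
    ring

theorem NP_one (a : ℤ) : pl 0 0 (0 * a) = 1 := by
  ext c
  · show c.1 + 0 = c.1
    ring
  · show c.2 + 0 * a = c.2
    ring

theorem NP_allA (N : ℤ) (p : Equiv.Perm Cell) (hp : p ∈ PP N) : TyA N (PP N) p := by
  intro m
  rcases hp with ⟨i, k, rfl⟩ | ⟨i, k, rfl⟩
  · left
    refine ⟨i, k + m, ?_⟩
    rw [NP_pl0]
    congr 1
    ring
  · right
    refine ⟨i, k - m, ?_⟩
    rw [NP_pl11]
    congr 1
    ring

theorem NP_noB (h2 : S_P1) (h3 : S_TP) (N : ℤ) (hN : 5 ≤ N) (p : Equiv.Perm Cell)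
    (hp : TyB N (PP N) p) : False := by
  have h := hp 0
  rw [NP_one, mul_one] at h
  exact (h2 N (PP N) p hN (h3 N hN) h).2 ⟨NP_allA N p h, hp⟩

theorem NP_wall1 (N : ℤ) (φ : Equiv.Perm Cell) (k : ℤ) : pl 0 0 (k * N) ∈ Wall N φ :=
  Or.inl (Or.inl ⟨k, rfl⟩)

theorem NP_no1 (h2 : S_P1) (h3 : S_TP) (N : ℤ) (hN : 5 ≤ N) (φ : Equiv.Perm Cell) :
    ¬ Eqv (PP N) (Wall N φ) := by
  rintro ⟨g, _, hg⟩
  apply NP_noB h2 h3 N hN g
  intro k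
  have h := NP_wall1 N φ k
  rw [← hg] at h
  exact h

theorem NP_no2 (h2 : S_P1) (h3 : S_TP) (N : ℤ) (hN : 5 ≤ N) (φ : Equiv.Perm Cell) :
    ¬ Eqv (Wall N φ) (PP N) := by
  rintro ⟨g, _, hg⟩
  apply NP_noB h2 h3 N hN g⁻¹
  intro k
  rw [← hg]
  show g * (g⁻¹ * pl 0 0 (k * N)) ∈ Wall N φ
  rw [mul_inv_cancel_left]
  exact NP_wall1 N φ k

theorem T_NP (_h1 : S_WB) (h2 : S_P1) (h3 : S_TP) (_h4 : S_TW) : S_NP := by
  intro N c hN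
  exact ⟨NP_no1 h2 h3 N hN _, NP_no1 h2 h3 N hN _, NP_no2 h2 h3 N hN _, NP_no2 h2 h3 N hN _⟩

end Pool.Agent.H181R2
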