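import Pool.Agent.H181R2.Stubs

set_option autoImplicit false

namespace Pool.Agent.H181R2

theorem NW_ty (N : ℤ) (𝒯 : Set (Equiv.Perm Cell)) (g p : Equiv.Perm Cell) :
    TyB N (fr g 𝒯) p ↔ TyB N 𝒯 (g * p) := by
  unfold TyB fr
  simp only [Set.mem_ofPred_eq, mul_assoc]

theorem NW_one (N : ℤ) : pl 0 0 (0 * N) = 1 := by
  ext c <;> simp [lin]

theorem NW_key (h1 : S_WB) (N c d : ℤ) (hN : 5 ≤ N) (φ ψ g : Equiv.Perm Cell)
    (hφ : φ = rW N c ∨ φ = gW N c) (hψ : ψ = rW N d ∨ ψ = gW N d)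
    (hg : fr g (Wall N φ) = Wall N ψ) : ∃ k m : ℤ,
    (g = pl 0 0 (k * N) ∨ g = φ * pl 0 0 (k * N)) ∧
    (g * ψ = pl 0 0 (m * N) ∨ g * ψ = φ * pl 0 0 (m * N)) := by
  have a1 : TyB N (Wall N ψ) 1 := (h1 N d ψ 1 hN hψ).mpr (Or.inl ⟨0, (NW_one N).symm⟩)
  have a2 : TyB N (Wall N ψ) ψ := (h1 N d ψ ψ hN hψ).mpr
    (Or.inr ⟨0, by rw [NW_one, mul_one]⟩)
  rw [← hg, NW_ty, h1 N c φ _ hN hφ] at a1 a2
  rw [mul_one] at a1
  obtain ⟨k, hk⟩ : ∃ k : ℤ, g = pl 0 0 (k * N) ∨ g = φ * pl 0 0 (k * N) := by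
    rcases a1 with ⟨k, hk⟩ | ⟨k, hk⟩
    · exact ⟨k, Or.inl hk⟩
    · exact ⟨k, Or.inr hk⟩
  obtain ⟨m, hm⟩ : ∃ m : ℤ, g * ψ = pl 0 0 (m * N) ∨ g * ψ = φ * pl 0 0 (m * N) := by
    rcases a2 with ⟨k, hk⟩ | ⟨k, hk⟩
    · exact ⟨k, Or.inl hk⟩
    · exact ⟨k, Or.inr hk⟩
  exact ⟨k, m, hk, hm⟩

theorem NW_ev {p q : Equiv.Perm Cell} (h : p = q) : p (0, 0) = q (0, 0) ∧ p (0, 1) = q (0, 1) := by
  rw [h]; exact ⟨rfl, rfl⟩

theorem T_NW (h1 : S_WB) (_h2 : S_MG) : S_NW := by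
  intro N c d hN
  refine ⟨?_, ?_, ?_, ?_⟩
  · rintro ⟨g, -, hg⟩
    obtain ⟨k, m, hk, hm⟩ := NW_key h1 N c d hN _ _ g (Or.inl rfl) (Or.inl rfl) hg
    rcases hk with rfl | rfl <;> rcases hm with hm | hm <;> have e := NW_ev hm <;>
      simp only [Equiv.Perm.mul_apply, rW, gW, pl_apply, lin, Prod.mk.injEq] at e <;>
      obtain ⟨⟨e1, e2⟩, e3, e4⟩ := e
    · exfalso; omega
    · exact ⟨k + m, by linarith⟩
    · exact ⟨k + m, by linarith⟩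
    · exfalso; omega
  · rintro ⟨g, -, hg⟩
    obtain ⟨k, m, hk, hm⟩ := NW_key h1 N c d hN _ _ g (Or.inl rfl) (Or.inr rfl) hg
    rcases hk with rfl | rfl <;> rcases hm with hm | hm <;> have e := NW_ev hm <;>
      simp only [Equiv.Perm.mul_apply, rW, gW, pl_apply, lin, Prod.mk.injEq] at e <;>
      obtain ⟨⟨e1, e2⟩, e3, e4⟩ := e <;> linarith
  · rintro ⟨g, -, hg⟩
    obtain ⟨k, m, hk, hm⟩ := NW_key h1 N c d hN _ _ g (Or.inr rfl) (Or.inl rfl) hg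
    rcases hk with rfl | rfl <;> rcases hm with hm | hm <;> have e := NW_ev hm <;>
      simp only [Equiv.Perm.mul_apply, rW, gW, pl_apply, lin, Prod.mk.injEq] at e <;>
      obtain ⟨⟨e1, e2⟩, e3, e4⟩ := e <;> linarith
  · rintro ⟨g, -, hg⟩
    obtain ⟨k, m, hk, hm⟩ := NW_key h1 N c d hN _ _ g (Or.inr rfl) (Or.inr rfl) hg
    rcases hk with rfl | rfl <;> rcases hm with hm | hm <;> have e := NW_ev hm <;>
      simp only [Equiv.Perm.mul_apply, rW, gW, pl_apply, lin, Prod.mk.injEq] at e <;>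
      obtain ⟨⟨e1, e2⟩, e3, e4⟩ := e
    · exfalso; omega
    · exact Or.inl ⟨k - m, by linarith⟩
    · exact Or.inr ⟨m - k + 4, by linarith⟩
    · exfalso; omega

end Pool.Agent.H181R2
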