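import Pool.Agent.H181R2.Stubs

set_option autoImplicit false

namespace Pool.Agent.H181R2

theorem P1_mul (a b c d : ℤ) : pl 0 a b * pl 0 c d = pl 0 (a + c) (b + d) := by
  refine Equiv.ext fun x => Prod.ext ?_ ?_
  · simp only [Equiv.Perm.mul_apply, pl_apply, lin]; ring
  · simp only [Equiv.Perm.mul_apply, pl_apply, lin]; ring

theorem P1_zero : pl 0 0 0 = 1 := by
  refine Equiv.ext fun x => Prod.ext ?_ ?_ <;> simp [lin]

theorem T_P1 (h1 : S_D0) (h2 : S_T1a) (h3 : S_T1b) (h4 : S_T2a) (h5 : S_T2b) (h6 : S_FR) :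
    S_P1 := by
  intro N 𝒯 p hN hT hp
  have fT : ∀ q ∈ 𝒯, Til N (fr q 𝒯) := fun q hq => h6 N 𝒯 q hT (hT.sub q hq)
  have f1 : ∀ q ∈ 𝒯, 1 ∈ fr q 𝒯 := by
    intro q hq
    show q * 1 ∈ 𝒯
    rwa [mul_one]
  have D0 : ∀ q ∈ 𝒯, q * pl 0 N 0 ∈ 𝒯 ∨ q * pl 0 0 (-N) ∈ 𝒯 := fun q hq =>
    h1 N (fr q 𝒯) hN (fT q hq) (f1 q hq)
  have T1a : ∀ q ∈ 𝒯, q * pl 0 N 0 ∈ 𝒯 → q * pl 0 N (-N) ∈ 𝒯 → False := fun q hq =>
    h2 N (fr q 𝒯) hN (fT q hq) (f1 q hq)
  have T1b : ∀ q ∈ 𝒯, q * pl 0 N 0 ∈ 𝒯 → q * pl 0 (-N) 0 ∈ 𝒯 := fun q hq =>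
    h3 N (fr q 𝒯) hN (fT q hq) (f1 q hq)
  have T2a : ∀ q ∈ 𝒯, q * pl 0 0 (-N) ∈ 𝒯 → q * pl 0 N (-N) ∈ 𝒯 → False := fun q hq =>
    h4 N (fr q 𝒯) hN (fT q hq) (f1 q hq)
  have T2b : ∀ q ∈ 𝒯, q * pl 0 0 (-N) ∈ 𝒯 → q * pl 0 0 N ∈ 𝒯 := fun q hq =>
    h5 N (fr q 𝒯) hN (fT q hq) (f1 q hq)
  have mulp : ∀ a b c d : ℤ, p * pl 0 a b * pl 0 c d = p * pl 0 (a + c) (b + d) := by
    intro a b c d
    rw [mul_assoc, P1_mul]
  have p0 : p * pl 0 0 0 ∈ 𝒯 := by rw [P1_zero, mul_one]; exact hp
  refine ⟨?_, ?_⟩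
  · rcases D0 p hp with hA | hB
    · left
      have up : ∀ k : ℕ, p * pl 0 ((k : ℤ) * N) 0 ∈ 𝒯 ∧ p * pl 0 ((k : ℤ) * N + N) 0 ∈ 𝒯 := by
        intro k
        induction k with
        | zero =>
          refine ⟨?_, ?_⟩
          · simpa using p0
          · simpa using hA
        | succ k ih =>
          have e1 : (((k + 1 : ℕ) : ℤ)) * N = (k : ℤ) * N + N := by push_cast; ring
          rw [e1]
          refine ⟨ih.2, ?_⟩
          rcases D0 _ ih.2 with h | h
          · rw [mulp] at h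
            simpa using h
          · exfalso
            refine T1a _ ih.1 ?_ ?_
            · rw [mulp]; simpa using ih.2
            · rw [mulp]; rw [mulp] at h; simpa using h
      have down : ∀ k : ℕ, p * pl 0 (-(k : ℤ) * N) 0 ∈ 𝒯 ∧ p * pl 0 (-(k : ℤ) * N + N) 0 ∈ 𝒯 := by
        intro k
        induction k with
        | zero =>
          refine ⟨?_, ?_⟩
          · simpa using p0
          · simpa using hA
        | succ k ih =>
          have e1 : -(((k + 1 : ℕ) : ℤ)) * N = -(k : ℤ) * N - N := by push_cast; ring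
          rw [e1]
          refine ⟨?_, ?_⟩
          · have h := T1b _ ih.1 (by rw [mulp]; simpa using ih.2)
            rw [mulp] at h
            simpa [sub_eq_add_neg] using h
          · simpa using ih.1
      intro k
      rcases Int.eq_nat_or_neg k with ⟨n, rfl | rfl⟩
      · exact (up n).1
      · exact (down n).1
    · right
      have up : ∀ k : ℕ, p * pl 0 0 ((k : ℤ) * N) ∈ 𝒯 ∧ p * pl 0 0 ((k : ℤ) * N - N) ∈ 𝒯 := by
        intro k
        induction k with
        | zero =>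
          refine ⟨?_, ?_⟩
          · simpa using p0
          · simpa using hB
        | succ k ih =>
          have e1 : (((k + 1 : ℕ) : ℤ)) * N = (k : ℤ) * N + N := by push_cast; ring
          rw [e1]
          refine ⟨?_, ?_⟩
          · have h := T2b _ ih.1 (by rw [mulp]; simpa [sub_eq_add_neg] using ih.2)
            rw [mulp] at h
            simpa using h
          · simpa using ih.1
      have down : ∀ k : ℕ, p * pl 0 0 (-(k : ℤ) * N) ∈ 𝒯 ∧ p * pl 0 0 (-(k : ℤ) * N - N) ∈ 𝒯 := by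
        intro k
        induction k with
        | zero =>
          refine ⟨?_, ?_⟩
          · simpa using p0
          · simpa using hB
        | succ k ih =>
          have e1 : -(((k + 1 : ℕ) : ℤ)) * N = -(k : ℤ) * N - N := by push_cast; ring
          rw [e1]
          refine ⟨ih.2, ?_⟩
          rcases D0 _ ih.2 with h | h
          · exfalso
            rw [mulp] at h
            refine T2a _ ih.1 ?_ ?_
            · rw [mulp]; simpa [sub_eq_add_neg] using ih.2
            · rw [mulp]; simpa [sub_eq_add_neg] using h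
          · rw [mulp] at h
            simpa [sub_eq_add_neg] using h
      intro k
      rcases Int.eq_nat_or_neg k with ⟨n, rfl | rfl⟩
      · exact (up n).1
      · exact (down n).1
  · rintro ⟨hA, hB⟩
    have a1 : p * pl 0 N 0 ∈ 𝒯 := by simpa using hA 1
    have b1 : p * pl 0 0 (-N) ∈ 𝒯 := by simpa using hB (-1)
    have e : p * pl 0 N 0 = p * pl 0 0 (-N) := by
      refine hT.dis _ a1 _ b1 (p (N, 0)) ?_ ?_
      · have h : (p * pl 0 N 0)⁻¹ (p (N, 0)) = (0, 0) := by
          rw [mul_inv_rev, Equiv.Perm.mul_apply]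
          have h0 : p⁻¹ (p (N, 0)) = (N, 0) := p.symm_apply_apply (N, 0)
          rw [h0, pl_inv_apply]
          simp [lindex, lin]
        rw [h]
        right; left
        simp only
        omega
      · have h : (p * pl 0 0 (-N))⁻¹ (p (N, 0)) = (N, N) := by
          rw [mul_inv_rev, Equiv.Perm.mul_apply]
          have h0 : p⁻¹ (p (N, 0)) = (N, 0) := p.symm_apply_apply (N, 0)
          rw [h0, pl_inv_apply]
          simp [lindex, lin]
        rw [h]
        right; right
        simp only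
        omega
    have e2 : pl 0 N 0 = pl 0 0 (-N) := mul_left_cancel e
    have e3 := congrArg (fun σ : Equiv.Perm Cell => (σ (0, 0)).1) e2
    simp [lin] at e3
    omega

end Pool.Agent.H181R2
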