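import Pool.Agent.H181R2.Stubs

set_option autoImplicit false

namespace Pool.Agent.H181R2

theorem P2_pl00 (a b a' b' : ℤ) : pl 0 a b * pl 0 a' b' = pl 0 (a + a') (b + b') := by
  apply Equiv.ext
  intro c
  rw [Equiv.Perm.mul_apply]
  ext <;> simp [lin] <;> ring

theorem P2_pl0h (a b a' b' : ℤ) : pl 0 a b * pl 11 a' b' = pl 11 (a + a') (b + b') := by
  apply Equiv.ext
  intro c
  rw [Equiv.Perm.mul_apply]
  ext <;> simp [lin] <;> ring

theorem P2_plhh (a b a' b' : ℤ) : pl 11 a b * pl 11 a' b' = pl 0 (b' - a' + a) (b' + b) := by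
  apply Equiv.ext
  intro c
  rw [Equiv.Perm.mul_apply]
  ext <;> simp [lin] <;> ring

theorem P2_plh0 (a b a' b' : ℤ) : pl 11 a b * pl 0 a' b' = pl 11 (b' - a' + a) (b' + b) := by
  apply Equiv.ext
  intro c
  rw [Equiv.Perm.mul_apply]
  ext <;> simp [lin] <;> ring

theorem P2_one : pl 0 0 0 = 1 := by
  apply Equiv.ext
  intro c
  ext <;> simp [lin]

theorem P2_mem {N : ℤ} {T : Set (Equiv.Perm Cell)} {p : Equiv.Perm Cell} (h : TyA N T p) :
    p ∈ T := by
  have h0 := h 0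
  rwa [zero_mul, P2_one, mul_one] at h0

theorem P2_shift {N : ℤ} {T : Set (Equiv.Perm Cell)} {p : Equiv.Perm Cell} (h : TyA N T p)
    (k : ℤ) : TyA N T (p * pl 0 (k * N) 0) := by
  intro k'
  rw [mul_assoc, P2_pl00, ← add_mul, add_zero]
  exact h _

theorem P2_step (h1 : S_TA) (h2 : S_FR) (h3 : S_P1) {N : ℤ} {T : Set (Equiv.Perm Cell)}
    {p : Equiv.Perm Cell} (hN : 5 ≤ N) (hT : Til N T) (h : TyA N T p) :
    TyA N T (p * pl 11 (-1) (-2 * N)) := by
  have hp := P2_mem h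
  have hfr := h2 N T p hT (hT.sub p hp)
  have m1 : (1 : Equiv.Perm Cell) ∈ fr p T := by
    show p * 1 ∈ T
    rwa [mul_one]
  have m2 : pl 0 N 0 ∈ fr p T := by
    show p * pl 0 N 0 ∈ T
    have := h 1
    rwa [one_mul] at this
  have m3 : pl 0 (-N) 0 ∈ fr p T := by
    show p * pl 0 (-N) 0 ∈ T
    have := h (-1)
    rwa [neg_one_mul] at this
  have m4 : p * pl 11 (-1) (-2 * N) ∈ T := h1 N (fr p T) hN hfr m1 m2 m3
  rcases (h3 N T (p * pl 11 (-1) (-2 * N)) hN hT m4).1 with hA | hB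
  · exact hA
  · exfalso
    have m5 := hB 1
    rw [mul_assoc, P2_plh0] at m5
    have hpp : p⁻¹ (p (N - 1, 0)) = (N - 1, 0) := p.symm_apply_apply _
    have c1 : InT N (p⁻¹ (p (N - 1, 0))) := by
      rw [hpp]
      right; left
      simp only
      omega
    have c2 : InT N ((p * pl 11 (1 * N - 0 + -1) (1 * N + -2 * N))⁻¹ (p (N - 1, 0))) := by
      rw [mul_inv_rev, Equiv.Perm.mul_apply, hpp]
      right; right
      simp only [pl_inv_apply, lindex, lin]
      omega
    have e := hT.dis p hp _ m5 _ c1 c2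
    have e2 : pl 11 (1 * N - 0 + -1) (1 * N + -2 * N) = 1 := by
      have := congrArg (fun q => p⁻¹ * q) e
      simp only [inv_mul_cancel, inv_mul_cancel_left] at this
      exact this.symm
    have e3 := congrArg (fun q : Equiv.Perm Cell => (q (0, 0)).1) e2
    simp [lin] at e3
    omega

theorem T_P2 (h1 : S_TA) (h2 : S_FR) (h3 : S_P1) (h4 : S_MG) : S_P2 := by
  intro N T p hN hT h
  have hAB : ∀ i : ℕ, (∀ k : ℤ, TyA N T (p * pl 0 (k * N) (-4 * i * N))) →
      ∀ k : ℤ, TyA N T (p * pl 11 (k * N - 1) (-4 * i * N - 2 * N)) := by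
    intro i hi k
    have := P2_step h1 h2 h3 hN hT (hi k)
    rw [mul_assoc, P2_pl0h] at this
    have e : pl 11 (k * N + -1) (-4 * i * N + -2 * N) = pl 11 (k * N - 1) (-4 * i * N - 2 * N) := by
      congr 1
      ring
    rwa [e] at this
  have hA : ∀ i : ℕ, ∀ k : ℤ, TyA N T (p * pl 0 (k * N) (-4 * i * N)) := by
    intro i
    induction i with
    | zero =>
      intro k
      have := P2_shift h k
      have e : (-4 * ((0 : ℕ) : ℤ) * N) = 0 := by simp
      rwa [e]
    | succ i ih =>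
      intro k
      have h5 := P2_step h1 h2 h3 hN hT (hAB i ih (k + 2))
      rw [mul_assoc, P2_plhh] at h5
      have e : pl 0 (-2 * N - -1 + ((k + 2) * N - 1)) (-2 * N + (-4 * i * N - 2 * N)) =
          pl 0 (k * N) (-4 * ((i + 1 : ℕ) : ℤ) * N) := by
        push_cast
        congr 1 <;> ring
      rwa [e] at h5
  rintro q (⟨i, k, rfl⟩ | ⟨i, k, rfl⟩)
  · exact hA i k
  · exact hAB i (hA i) k

end Pool.Agent.H181R2
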