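import Pool.Agent.H181R2.Stubs

set_option autoImplicit false

namespace Pool.Agent.H181R2

theorem P3_mul (g : Fin 12) (a b x y : ℤ) :
    pl g a b * pl 0 x y = pl g ((lin g x y).1 + a) ((lin g x y).2 + b) := by
  ext c <;> fin_cases g <;> simp [lin] <;> ring

theorem T_P3 (h1 : S_TS) (h2 : S_FR) (h3 : S_P1) (h4 : S_MG) : S_P3 := by
  intro N 𝒯 p hN hT hA
  have hp : p ∈ 𝒯 := by
    have := hA 0
    have e : pl 0 (0 * N) 0 = 1 := by ext c <;> simp [lin]
    rwa [e, mul_one] at this
  have hT' : Til N (fr p 𝒯) := h2 N 𝒯 p hT (hT.sub p hp)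
  have hone : (1 : Equiv.Perm Cell) ∈ fr p 𝒯 := by
    show p * 1 ∈ 𝒯
    rwa [mul_one]
  have hN0 : pl 0 N 0 ∈ fr p 𝒯 := by
    show p * pl 0 N 0 ∈ 𝒯
    have := hA 1
    rwa [one_mul] at this
  have hin : InT N ((1 : Equiv.Perm Cell)⁻¹ (N, 2 * N - 1)) := by
    right; right
    simp only [inv_one, Equiv.Perm.coe_one, id_eq]
    omega
  rcases h1 N (fr p 𝒯) hN hT' hone hN0 with hu | hu
  · left
    rcases (h3 N (fr p 𝒯) _ hN hT' hu).1 with hty | hty
    · intro k
      have := hty k
      have h5 : p * (pl 11 (2 * N - 1) (2 * N) * pl 0 (k * N) 0) ∈ 𝒯 := this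
      rwa [← mul_assoc] at h5
    · exfalso
      have h5 := hty (-1)
      rw [P3_mul] at h5
      have h6 := hT'.dis _ hone _ h5 (N, 2 * N - 1) hin (by
        right; left
        simp only [pl_inv_apply, lindex, lin]
        omega)
      have h7 := congrArg (fun σ : Equiv.Perm Cell => (σ (0, 0)).1) h6
      simp only [Equiv.Perm.coe_one, id_eq, pl_apply, lin] at h7
      omega
  · right
    rcases (h3 N (fr p 𝒯) _ hN hT' hu).1 with hty | hty
    · exfalso
      have h5 := hty (-1)
      rw [P3_mul] at h5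
      have h6 := hT'.dis _ hone _ h5 (N, 2 * N - 1) hin (by
        right; left
        simp only [pl_inv_apply, lindex, lin]
        omega)
      have h7 := congrArg (fun σ : Equiv.Perm Cell => (σ (0, 0)).1) h6
      simp only [Equiv.Perm.coe_one, id_eq, pl_apply, lin] at h7
      omega
    · intro k
      have := hty k
      have h5 : p * (pl 5 (2 * N - 1) (2 * N) * pl 0 0 (k * N)) ∈ 𝒯 := this
      rwa [← mul_assoc] at h5

end Pool.Agent.H181R2
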