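import Pool.Agent.H181R2.Stubs

/-! Task P4 (helper155). -/

set_option autoImplicit false

namespace Pool.Agent.H181R2

theorem P4_one : pl 0 0 0 = 1 := by
  ext c <;> simp [lin]

theorem P4_w0 (N m : ℤ) : pl 0 0 (m * N) * pl 1 (-2 * N) (-1) = pl 1 (-2 * N) (m * N - 1) := by
  ext c <;> simp [lin]
  ring

theorem P4_w1 (N m : ℤ) : pl 1 (-2 * N) (-1) * pl 0 (m * N) 0 = pl 1 (-2 * N) (-m * N - 1) := by
  ext c <;> simp [lin]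
  ring

theorem P4_w2 (N a b : ℤ) : pl 1 (-2 * N) (-1) * pl 0 a b = pl 1 (b - 2 * N) (b - a - 1) := by
  ext c <;> simp [lin] <;> ring

theorem P4_w3 (N a b : ℤ) : pl 1 (-2 * N) (-1) * pl 11 a b = pl 6 (b - 2 * N) (b - a - 1) := by
  ext c <;> simp [lin] <;> ring

theorem P4_t (N k : ℤ) : pl 0 0 (k * N) * pl 0 0 N = pl 0 0 ((k + 1) * N) := by
  ext c <;> simp [lin]
  ring

theorem P4_t' (N k : ℤ) : pl 0 0 (k * N) * pl 0 0 (-N) = pl 0 0 ((k - 1) * N) := by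
  ext c <;> simp [lin]
  ring

theorem P4_self {N : ℤ} {𝒯 : Set (Equiv.Perm Cell)} {p : Equiv.Perm Cell} (h : TyA N 𝒯 p) :
    p ∈ 𝒯 := by
  have := h 0
  rwa [zero_mul, P4_one, mul_one] at this

theorem T_P4 (h1 : S_TB) (h2 : S_FR) (_h3 : S_P1) (h4 : S_P2) (_h5 : S_MG) : S_P4 := by
  intro N 𝒯 p hN hT hB
  have hA : TyA N 𝒯 (p * pl 1 (-2 * N) (-1)) := by
    intro m
    have hg : p * pl 0 0 (-m * N) ∈ 𝒯 := hB (-m)
    have hfr := h2 N 𝒯 _ hT (hT.sub _ hg)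
    have e1 : (1 : Equiv.Perm Cell) ∈ fr (p * pl 0 0 (-m * N)) 𝒯 := by
      show p * pl 0 0 (-m * N) * 1 ∈ 𝒯
      rw [mul_one]
      exact hg
    have e2 : pl 0 0 N ∈ fr (p * pl 0 0 (-m * N)) 𝒯 := by
      show p * pl 0 0 (-m * N) * pl 0 0 N ∈ 𝒯
      rw [mul_assoc, P4_t]
      exact hB _
    have e3 : pl 0 0 (-N) ∈ fr (p * pl 0 0 (-m * N)) 𝒯 := by
      show p * pl 0 0 (-m * N) * pl 0 0 (-N) ∈ 𝒯
      rw [mul_assoc, P4_t']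
      exact hB _
    have e4 : p * pl 0 0 (-m * N) * pl 1 (-2 * N) (-1) ∈ 𝒯 := h1 N _ hN hfr e1 e2 e3
    rwa [mul_assoc, P4_w0, ← P4_w1, ← mul_assoc] at e4
  have hP := h4 N 𝒯 _ hN hT hA
  intro q hq
  rcases hq with ⟨k, rfl⟩ | ⟨i, k, rfl⟩ | ⟨i, k, rfl⟩
  · exact ⟨hB k, Or.inl ⟨k, rfl⟩⟩
  · have h := hP (pl 0 ((-4 * i - k) * N) (-4 * i * N)) (Or.inl ⟨i, _, rfl⟩)
    rw [mul_assoc, P4_w2] at h
    have e : (-4 * (i : ℤ) * N - (-4 * i - k) * N - 1) = k * N - 1 := by ring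
    rw [e] at h
    exact ⟨P4_self h, Or.inr h⟩
  · have h := hP (pl 11 ((-4 * i - 2 - k) * N - 1) (-4 * i * N - 2 * N)) (Or.inr ⟨i, _, rfl⟩)
    rw [mul_assoc, P4_w3] at h
    have e : (-4 * (i : ℤ) * N - 2 * N - ((-4 * i - 2 - k) * N - 1) - 1) = k * N := by ring
    have e' : (-4 * (i : ℤ) * N - 2 * N - 2 * N) = -4 * i * N - 4 * N := by ring
    rw [e, e'] at h
    exact ⟨P4_self h, Or.inr h⟩

end Pool.Agent.H181R2
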