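import Pool.Agent.H181R2.Stubs

set_option autoImplicit false

namespace Pool.Agent.H181R2

theorem P5_one_mul (g : Fin 12) (a b : ℤ) : (1 : Equiv.Perm Cell) * pl g a b = pl g a b := one_mul _

theorem P5_mul_u0 (a b N : ℤ) :
    pl 0 a b * pl 11 (2 * N - 1) (2 * N) = pl 11 (a + 2 * N - 1) (b + 2 * N) := by
  apply Equiv.ext
  rintro ⟨x, y⟩
  simp only [Equiv.Perm.coe_mul, Function.comp, pl_apply, lin]
  ext
  · simp only; ring
  · simp only; ring

theorem P5_mul_u11 (a b N : ℤ) :
    pl 11 a b * pl 11 (2 * N - 1) (2 * N) = pl 0 (a + 1) (b + 2 * N) := by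
  apply Equiv.ext
  rintro ⟨x, y⟩
  simp only [Equiv.Perm.coe_mul, Function.comp, pl_apply, lin]
  ext
  · simp only; ring
  · simp only; ring

theorem P5_pl0 : pl 0 0 0 = 1 := by
  apply Equiv.ext
  rintro ⟨x, y⟩
  simp [pl_apply, lin]

theorem T_P5 (h1 : S_P2) (h2 : S_P3) (h3 : S_P1) (h4 : S_MG) (h5 : S_TP) : S_P5 := by
  intro N T hN hT hone hA
  have hu : ∀ p ∈ T, p * pl 11 (2 * N - 1) (2 * N) ∈ T := by
    intro p hp
    rcases h2 N T p hN hT (hA p hp) with h | h
    · have := h 0
      rw [zero_mul, P5_pl0, mul_one] at this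
      exact this
    · exfalso
      have hm := h 0
      rw [zero_mul, P5_pl0, mul_one] at hm
      exact (h3 N T _ hN hT hm).2 ⟨hA _ hm, h⟩
  have hsub : ∀ p ∈ PP N, p ∈ T := by
    have hpos : ∀ q ∈ Pp N, q ∈ T := by
      intro q hq
      have h := h1 N T 1 hN hT (hA 1 hone) q hq 0
      rw [zero_mul, P5_pl0, mul_one, one_mul] at h
      exact h
    have hneg : ∀ n : ℕ, ∀ k : ℤ, pl 0 (k * N) (4 * n * N) ∈ T := by
      intro n
      induction n with
      | zero =>
        intro k
        have h := hA 1 hone k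
        rw [one_mul] at h
        simpa using h
      | succ n ih =>
        intro k
        have h := hu _ (hu _ (ih (k - 2)))
        rw [P5_mul_u0, P5_mul_u11] at h
        have e1 : (k - 2) * N + 2 * N - 1 + 1 = k * N := by ring
        have e2 : 4 * (n : ℤ) * N + 2 * N + 2 * N = 4 * ((n + 1 : ℕ) : ℤ) * N := by
          push_cast; ring
        rw [e1, e2] at h
        exact h
    have hneg' : ∀ n : ℕ, ∀ k : ℤ, pl 11 (k * N - 1) (4 * n * N + 2 * N) ∈ T := by
      intro n k
      have h := hu _ (hneg n (k - 2))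
      rw [P5_mul_u0] at h
      have e1 : (k - 2) * N + 2 * N - 1 = k * N - 1 := by ring
      rw [e1] at h
      exact h
    rintro p (⟨i, k, rfl⟩ | ⟨i, k, rfl⟩)
    · rcases le_or_gt 0 i with hi | hi
      · obtain ⟨n, rfl⟩ := Int.eq_ofNat_of_zero_le hi
        exact hpos _ (Or.inl ⟨n, k, rfl⟩)
      · obtain ⟨n, hn⟩ := Int.eq_ofNat_of_zero_le (show 0 ≤ -i by omega)
        have : i = -(n : ℤ) := by omega
        subst this
        have h := hneg n k
        have e : -4 * -(n : ℤ) * N = 4 * n * N := by ring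
        rw [e]
        exact h
    · rcases le_or_gt 0 i with hi | hi
      · obtain ⟨n, rfl⟩ := Int.eq_ofNat_of_zero_le hi
        exact hpos _ (Or.inr ⟨n, k, rfl⟩)
      · obtain ⟨n, hn⟩ := Int.eq_ofNat_of_zero_le (show 0 ≤ -i - 1 by omega)
        have : i = -(n : ℤ) - 1 := by omega
        subst this
        have h := hneg' n k
        have e : -4 * (-(n : ℤ) - 1) * N - 2 * N = 4 * n * N + 2 * N := by ring
        rw [e]
        exact h
  apply Set.Subset.antisymm
  · intro q hq
    obtain ⟨p, hp, hc⟩ := (h5 N hN).cov (q (0, 0))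
    have hq0 : InT N (q⁻¹ (q (0, 0))) := by
      rw [show q⁻¹ (q ((0 : ℤ), (0 : ℤ))) = (0, 0) from Equiv.symm_apply_apply q (0, 0)]
      right; left
      refine ⟨le_refl _, ?_, le_refl _, ?_⟩ <;> simp only <;> omega
    have := hT.dis q hq p (hsub p hp) (q (0, 0)) hq0 hc
    rw [this]
    exact hp
  · exact fun p hp => hsub p hp

end Pool.Agent.H181R2
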