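import Pool.Agent.H181R2.Stubs

set_option autoImplicit false

namespace Pool.Agent.H181R2

theorem P6_inv_mul (p q : Equiv.Perm Cell) (c : Cell) : (p * q)⁻¹ c = q⁻¹ (p⁻¹ c) := by
  rw [mul_inv_rev]; rfl

theorem P6_inv_self (p : Equiv.Perm Cell) (c : Cell) : p⁻¹ (p c) = c := by simp

theorem P6_pl0 (a b c d : ℤ) : pl 0 a b * pl 0 c d = pl 0 (a + c) (b + d) := by
  ext x <;> simp [lin] <;> ring

theorem P6_pl1 (a b c : ℤ) : pl 1 a b * pl 0 c 0 = pl 1 a (b - c) := by
  ext x <;> simp [lin]; ring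

theorem P6_pl6 (a b c : ℤ) : pl 6 a b * pl 0 c 0 = pl 6 a (b + c) := by
  ext x <;> simp [lin]; ring

theorem P6_one : pl 0 0 0 = 1 := by
  ext x <;> simp [lin]

theorem P6_tyA {N : ℤ} {𝒯 : Set (Equiv.Perm Cell)} {p : Equiv.Perm Cell} (h : TyA N 𝒯 p)
    (k : ℤ) : TyA N 𝒯 (p * pl 0 (k * N) 0) := by
  intro m
  rw [mul_assoc, P6_pl0]
  have := h (k + m)
  rwa [add_mul] at this

theorem P6_tyB {N : ℤ} {𝒯 : Set (Equiv.Perm Cell)} {p : Equiv.Perm Cell} (h : TyB N 𝒯 p)
    (k : ℤ) : TyB N 𝒯 (p * pl 0 0 (k * N)) := by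
  intro m
  rw [mul_assoc, P6_pl0]
  have := h (k + m)
  rwa [add_mul] at this

theorem P6_memA {N : ℤ} {𝒯 : Set (Equiv.Perm Cell)} {p : Equiv.Perm Cell} (h : TyA N 𝒯 p) :
    p ∈ 𝒯 := by
  have := h 0
  rwa [zero_mul, P6_one, mul_one] at this

theorem P6_memB {N : ℤ} {𝒯 : Set (Equiv.Perm Cell)} {p : Equiv.Perm Cell} (h : TyB N 𝒯 p) :
    p ∈ 𝒯 := by
  have := h 0
  rwa [zero_mul, P6_one, mul_one] at this

theorem P6_cell {N : ℤ} (p : Equiv.Perm Cell) {c : Cell} (h : InT N c) : InT N (p⁻¹ (p c)) := by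
  rwa [P6_inv_self]

/-- if `b ≤ a + k N s` for all `k` then `s = 0` -/
theorem P6_lin {N a b s : ℤ} (hN : 5 ≤ N) (h : ∀ k : ℤ, b ≤ a + k * N * s) : s = 0 := by
  by_contra hs
  have h2 : 0 < s * s := mul_self_pos.2 hs
  have h3 := h (- s * (|a - b| + 1))
  have h4 : 0 ≤ |a - b| := abs_nonneg _
  have h5 := le_abs_self (a - b)
  have h7 : (|a - b| + 1) * 1 ≤ (|a - b| + 1) * (N * (s * s)) := by
    apply mul_le_mul_of_nonneg_left _ (by omega)
    nlinarith
  nlinarith

theorem T_P6 (h1 : S_P1) (h2 : S_P2) (h3 : S_P3) (h4 : S_P4) (h5 : S_CP) (h6 : S_HC)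
    (h7 : S_MG) : S_P6 := by
  intro N 𝒯 hN hT hB
  obtain ⟨hc1, hc2, -⟩ := h6 N hN
  have hone : (1 : Equiv.Perm Cell) ∈ 𝒯 := P6_memB hB
  have hH : ∀ q ∈ HH N, q ∈ 𝒯 ∧ ((∃ k : ℤ, q = pl 0 0 (k * N)) ∨ TyA N 𝒯 q) := by
    intro q hq
    have := h4 N 𝒯 1 hN hT hB q hq
    rwa [one_mul] at this
  have hB' : ∀ k : ℤ, TyB N 𝒯 (pl 0 0 (k * N)) := by
    intro k
    have := P6_tyB hB k
    rwa [one_mul] at this
  have hcovH : ∀ p ∈ 𝒯, ∀ c : Cell, c.1 ≤ 2 * N - 2 → InT N (p⁻¹ c) → p ∈ HH N := by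
    intro p hp c hc hpc
    obtain ⟨q, hq, hqc⟩ := hc1 c hc
    rw [hT.dis p hp q (hH q hq).1 c hpc hqc]
    exact hq
  have hout : ∀ p ∈ 𝒯, p ∉ HH N → ∀ d : Cell, InT N d → 2 * N - 1 ≤ (p d).1 := by
    intro p hp hpH d hd
    by_contra hlt
    exact hpH (hcovH p hp (p d) (by omega) (P6_cell p hd))
  obtain ⟨φ, hφ, hφc⟩ := hT.cov (2 * N - 1, 0)
  have hφH : φ ∉ HH N := by
    intro h
    have := hc2 _ φ h hφc
    simp only at this
    omega
  obtain ⟨g, a, b, rfl⟩ := (h7 φ).1 (hT.sub φ hφ)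
  have hnotAB : ∀ p, TyA N 𝒯 p → TyB N 𝒯 p → False := fun p hA hB =>
    (h1 N 𝒯 p hN hT (P6_memA hA)).2 ⟨hA, hB⟩
  have h00 : InT N (0, 0) := Or.inr (Or.inl ⟨by simp, by simp; omega, by simp, by simp; omega⟩)
  rcases (h1 N 𝒯 _ hN hT hφ).1 with hA | hBφ
  · -- type A
    have hnot : ∀ k : ℤ, pl g a b * pl 0 (k * N) 0 ∉ HH N := by
      intro k hk
      have hAk := P6_tyA hA k
      have e : pl g a b = pl g a b * pl 0 (k * N) 0 * pl 0 (-(k * N)) 0 := by
        rw [mul_assoc, P6_pl0]; simp [P6_one]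
      rcases hk with ⟨m, hm⟩ | ⟨i, m, hm⟩ | ⟨i, m, hm⟩
      · rw [hm] at hAk
        exact hnotAB _ hAk (hB' m)
      · apply hφH
        rw [e, hm, P6_pl1]
        refine Or.inr (Or.inl ⟨i, m + k, ?_⟩)
        congr 1
        ring
      · apply hφH
        rw [e, hm, P6_pl6]
        refine Or.inr (Or.inr ⟨i, m - k, ?_⟩)
        congr 1
        ring
    have hs : (lin g 1 0).1 = 0 := by
      apply P6_lin hN (a := a) (b := 2 * N - 1)
      intro k
      have := hout _ (hA k) (hnot k) (0, 0) h00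
      have e : ((pl g a b * pl 0 (k * N) 0) (0, 0)).1 = a + k * N * (lin g 1 0).1 := by
        fin_cases g <;> simp [lin] <;> ring
      rwa [e] at this
    have hg : g = 1 ∨ g = 4 ∨ g = 6 ∨ g = 9 := by
      revert hs; clear * -; revert g; decide
    have haux0 := hout _ hφ hφH (0, 0) h00
    have haux1 := hout _ hφ hφH (2 * N - 2, 2 * N - 1)
      (Or.inr (Or.inr ⟨by simp only; omega, by simp only; omega, by simp only; omega,
        by simp only; omega⟩))
    -- common arguments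
    have case2 : ∀ c : Cell, c = (pl g a b)⁻¹ (0, 0) → c.2 ≤ N - 1 → False := by
      intro c hc hc2
      obtain ⟨q, hq, hqc⟩ := h5 N c hN hc2
      have hq' := h2 N 𝒯 _ hN hT hA q hq
      have e : pl g a b * q = 1 := by
        apply hT.dis _ (P6_memA hq') 1 hone (0, 0)
        · rw [P6_inv_mul, ← hc]; exact hqc
        · simpa using h00
      rw [e] at hq'
      exact hnotAB _ hq' hB
    have case3 : (∀ x y : ℤ, (pl g a b (x, y)).1 = a - y) → False := by
      intro hx
      have e1 : 2 * N - 1 ≤ a - (2 * N - 1) := by rw [← hx (2 * N - 2)]; exact haux1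
      have e2 : a ≤ 4 * N - 2 := by
        have := hx ((pl g a b)⁻¹ (2 * N - 1, 0)).1 ((pl g a b)⁻¹ (2 * N - 1, 0)).2
        have e3 : pl g a b ((((pl g a b)⁻¹ (2 * N - 1, 0)).1), ((pl g a b)⁻¹ (2 * N - 1, 0)).2) =
            (2 * N - 1, 0) := by
          rw [Prod.mk.eta]
          exact Equiv.apply_symm_apply (pl g a b) _
        rw [e3] at this
        simp only at this
        have h8 : ((pl g a b)⁻¹ (2 * N - 1, 0)).2 ≤ 2 * N - 1 := by
          rcases hφc with h | h | h <;> omega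
        omega
      have ea : a = 4 * N - 2 := by omega
      have hNN : InT N (-N, -N) := Or.inl ⟨rfl, by simp, by simp only; omega⟩
      have hu : ∀ u : Equiv.Perm Cell, pl g a b * u ∈ 𝒯 → u (0, 0) = (2 * N - 1, 2 * N) →
          u (-N, -N) = (2 * N - 1, N) → False := by
        intro u hu hu1 hu2
        have hh : pl g a b * u ∈ HH N := by
          by_contra hh
          have := hout _ hu hh (0, 0) h00
          rw [Equiv.Perm.mul_apply, hu1, hx] at this
          omega
        have := hc2 ((pl g a b * u) (-N, -N)) _ hh (P6_cell _ hNN)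
        rw [Equiv.Perm.mul_apply, hu2, hx] at this
        omega
      rcases h3 N 𝒯 _ hN hT hA with h | h
      · refine hu _ (P6_memA h) ?_ ?_
        · simp [lin]
        · simp [lin]; ring
      · refine hu _ (P6_memB h) ?_ ?_
        · simp [lin]
        · simp [lin]; ring
    exfalso
    rcases hg with rfl | rfl | rfl | rfl
    · refine case2 _ rfl ?_
      simp [lin, lindex] at haux0 ⊢
      omega
    · exact case3 (fun x y => by simp [lin]; ring)
    · refine case2 _ rfl ?_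
      simp [lin, lindex] at haux0 ⊢
      omega
    · exact case3 (fun x y => by simp [lin]; ring)
  · -- type B
    have hnot : ∀ k : ℤ, pl g a b * pl 0 0 (k * N) ∉ HH N := by
      intro k hk
      have hBk := P6_tyB hBφ k
      have e : pl g a b = pl g a b * pl 0 0 (k * N) * pl 0 0 (-(k * N)) := by
        rw [mul_assoc, P6_pl0]; simp [P6_one]
      rcases (hH _ hk).2 with ⟨m, hm⟩ | hAk
      · apply hφH
        rw [e, hm, P6_pl0]
        refine Or.inl ⟨m - k, ?_⟩
        congr 1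
        ring
      · exact hnotAB _ hAk hBk
    have hs : (lin g 0 1).1 = 0 := by
      apply P6_lin hN (a := a) (b := 2 * N - 1)
      intro k
      have := hout _ (hBφ k) (hnot k) (0, 0) h00
      have e : ((pl g a b * pl 0 0 (k * N)) (0, 0)).1 = a + k * N * (lin g 0 1).1 := by
        fin_cases g <;> simp [lin] <;> ring
      rwa [e] at this
    have hg : g = 0 ∨ g = 3 ∨ g = 7 ∨ g = 10 := by
      revert hs; clear * -; revert g; decide
    have haux0 := hout _ hφ hφH (0, 0) h00
    have haux1 := hout _ hφ hφH (2 * N - 2, N)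
      (Or.inr (Or.inr ⟨by simp only; omega, by simp only; omega, by simp only; omega,
        by simp only; omega⟩))
    have hP4 := h4 N 𝒯 _ hN hT hBφ
    have case4 : 2 * N - 1 ≤ a → (∀ x y : ℤ, (pl g a b (x, y)).1 = x + a) →
        ((pl g a b)⁻¹ (0, 0)).1 = -a → False := by
      intro ha hx hinv
      obtain ⟨q, hq, hqc⟩ := hc1 ((pl g a b)⁻¹ (0, 0)) (by omega)
      have e : pl g a b * q = 1 := by
        apply hT.dis _ (hP4 q hq).1 1 hone (0, 0)
        · rw [P6_inv_mul]; exact hqc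
        · simpa using h00
      rcases (hP4 q hq).2 with ⟨k, rfl⟩ | hAq
      · have h8 : ((pl g a b * pl 0 0 (k * N)) (0, 0)).1 = 0 := by rw [e]; rfl
        have h9 : pl 0 0 (k * N) (0, 0) = (0, k * N) := by simp [lin]
        rw [Equiv.Perm.mul_apply, h9, hx] at h8
        omega
      · rw [e] at hAq
        exact hnotAB _ hAq hB
    have case5 : (∀ x y : ℤ, (pl g a b (x, y)).1 = a - x) →
        (∀ c : Cell, ((pl g a b)⁻¹ c).1 = a - c.1) →
        a = 4 * N - 3 ∧ 𝒯 = Wall N (pl g a b) := by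
      intro hx hinv
      have e1 : 2 * N - 1 ≤ a - (2 * N - 2) := by rw [← hx _ N]; exact haux1
      have e2 : a ≤ 4 * N - 3 := by
        have := hinv (2 * N - 1, 0)
        simp only at this
        have h8 : ((pl g a b)⁻¹ (2 * N - 1, 0)).1 ≤ 2 * N - 2 := by
          rcases hφc with h | h | h <;> omega
        omega
      have ea : a = 4 * N - 3 := by omega
      refine ⟨ea, ?_⟩
      ext p
      constructor
      · intro hp
        by_cases hc : (p (0, 0)).1 ≤ 2 * N - 2
        · exact Or.inl (hcovH p hp _ hc (P6_cell p h00))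
        · right
          obtain ⟨q, hq, hqc⟩ := hc1 ((pl g a b)⁻¹ (p (0, 0))) (by rw [hinv]; omega)
          have e : p = pl g a b * q := by
            apply hT.dis _ hp _ (hP4 q hq).1 (p (0, 0)) (P6_cell p h00)
            rw [P6_inv_mul]; exact hqc
          rw [e, inv_mul_cancel_left]
          exact hq
      · rintro (hp | hp)
        · exact (hH p hp).1
        · have := (hP4 _ hp).1
          rwa [mul_inv_cancel_left] at this
    rcases hg with rfl | rfl | rfl | rfl
    · exfalso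
      refine case4 ?_ (fun x y => by simp [lin]) (by simp [lin, lindex])
      simpa [lin] using haux0
    · obtain ⟨ea, e⟩ := case5 (fun x y => by simp [lin]; ring)
        (fun c => by simp [lin, lindex])
      refine ⟨b, Or.inl ?_⟩
      rw [e, ea]; rfl
    · exfalso
      refine case4 ?_ (fun x y => by simp [lin]) (by simp [lin, lindex])
      simpa [lin] using haux0
    · obtain ⟨ea, e⟩ := case5 (fun x y => by simp [lin]; ring)
        (fun c => by simp [lin, lindex])
      refine ⟨b, Or.inr ?_⟩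
      rw [e, ea]; rfl

end Pool.Agent.H181R2
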