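import Pool.Agent.H181R2.Stubs

set_option autoImplicit false

namespace Pool.Agent.H181R2

theorem R2_interior (e : ℂ ≃ᵢ ℂ) (s : Set ℂ) : interior (e '' s) = e '' interior s :=
  (e.toHomeomorph.image_interior s).symm

theorem R2_hexAt (c : Cell) : hexAt c = (IsometryEquiv.addRight (ctr c)) '' Hx := by
  ext z
  simp only [Set.mem_image]
  constructor
  · intro h
    refine ⟨z - ctr c, h, ?_⟩
    show z - ctr c + ctr c = z
    ring
  · rintro ⟨w, hw, rfl⟩
    have : (IsometryEquiv.addRight (ctr c)) w - ctr c = w := by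
      show w + ctr c - ctr c = w
      ring
    show (IsometryEquiv.addRight (ctr c)) w - ctr c ∈ Hx
    rw [this]
    exact hw

theorem R2_nonempty (h4 : S_HB) (c : Cell) : (interior (hexAt c)).Nonempty := by
  rw [R2_hexAt, R2_interior]
  refine ⟨_, Set.mem_image_of_mem _ (h4.1 (?_ : (0 : ℂ) ∈ Metric.ball (0 : ℂ) (1 / 2)))⟩
  exact Metric.mem_ball_self (by norm_num)

theorem R2_inj (h1 : S_UI) (h4 : S_HB) (c d : Cell) (h : hexAt c = hexAt d) : c = d := by
  by_contra hcd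
  have h2 := h1.2.1 c d hcd
  rw [h, disjoint_self] at h2
  obtain ⟨z, hz⟩ := R2_nonempty h4 d
  rw [h2] at hz
  exact hz

theorem T_R2 (h1 : S_UI) (h2 : S_HU) (h3 : S_LI) (h4 : S_HB) : S_R2 := by
  intro N S hN hS
  obtain ⟨hS1, hS2, hS3⟩ := hS
  have hne : Nonempty (ℂ ≃ᵢ ℂ) := ⟨IsometryEquiv.refl ℂ⟩
  choose! F hF using hS1
  obtain ⟨A0, hA0, -⟩ : ∃ A ∈ S, (0 : ℂ) ∈ A := by
    have : (0 : ℂ) ∈ ⋃₀ S := by rw [hS2]; trivial
    exact this
  set Φ : ℂ ≃ᵢ ℂ := (F A0).symm with hΦ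
  set E : Set ℂ → (ℂ ≃ᵢ ℂ) := fun A => (F A).trans Φ with hE
  have hEa : ∀ A z, E A z = Φ (F A z) := fun A z => rfl
  have hEimg : ∀ A ∈ S, E A '' TR N = Φ '' A := by
    intro A hA
    have e : Φ '' A = Φ '' (F A '' TR N) := congrArg _ (hF A hA)
    rw [e, ← Set.image_comp]
    rfl
  have hsub : ∀ A, ∀ c, InT N c → E A '' hexAt c ⊆ E A '' TR N := by
    intro A c hc
    apply Set.image_mono
    intro z hz
    exact ⟨c, hc, hz⟩
  have hdis : ∀ A ∈ S, ∀ B ∈ S, A ≠ B → Disjoint (interior (E A '' TR N))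
      (interior (E B '' TR N)) := by
    intro A hA B hB hAB
    rw [hEimg A hA, hEimg B hB, R2_interior, R2_interior]
    exact (Set.disjoint_image_iff Φ.injective).2 (hS3 A hA B hB hAB)
  set ℋ : Set (Set ℂ) := {H | ∃ A ∈ S, ∃ c, InT N c ∧ H = E A '' hexAt c} with hℋ
  have hfam : HexFam ℋ := by
    refine ⟨?_, ?_, ?_⟩
    · rintro H ⟨A, hA, c, hc, rfl⟩
      refine ⟨(IsometryEquiv.addRight (ctr c)).trans (E A), ?_⟩
      rw [R2_hexAt, ← Set.image_comp]
      rfl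
    · rw [Set.eq_univ_iff_forall]
      intro z
      have hz : F A0 z ∈ ⋃₀ S := by rw [hS2]; trivial
      obtain ⟨A, hA, hzA⟩ := hz
      rw [hF A hA] at hzA
      obtain ⟨w, ⟨c, hc, hwc⟩, hw⟩ := hzA
      refine ⟨E A '' hexAt c, ⟨A, hA, c, hc, rfl⟩, w, hwc, ?_⟩
      rw [hEa, hw, hΦ]
      exact (F A0).symm_apply_apply z
    · rintro H ⟨A, hA, c, hc, rfl⟩ H' ⟨B, hB, d, hd, rfl⟩ hne'
      by_cases hAB : A = B
      · subst hAB
        have hcd : c ≠ d := by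
          rintro rfl
          exact hne' rfl
        rw [R2_interior, R2_interior]
        exact (Set.disjoint_image_iff (E A).injective).2 (h1.2.1 c d hcd)
      · exact (hdis A hA B hB hAB).mono (interior_mono (hsub A c hc)) (interior_mono (hsub B d hd))
  have h00 : InT N (0, 0) := by
    right; left
    exact ⟨le_refl _, by show (0 : ℤ) < N; omega, le_refl _, by show (0 : ℤ) < N; omega⟩
  have hmem0 : hexAt (0, 0) ∈ ℋ := by
    refine ⟨A0, hA0, (0, 0), h00, ?_⟩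
    have : ∀ z, E A0 z = z := by
      intro z
      rw [hEa, hΦ]
      exact (F A0).symm_apply_apply z
    ext z
    constructor
    · intro hz; exact ⟨z, hz, this z⟩
    · rintro ⟨w, hw, rfl⟩; rw [this w]; exact hw
  have hℋeq := h2 ℋ (0, 0) hfam hmem0
  have hex : ∀ A ∈ S, ∃ σ ∈ G, LatIso (E A) σ := by
    intro A hA
    have h5 : E A '' hexAt (0, 0) ∈ ℋ := ⟨A, hA, (0, 0), h00, rfl⟩
    rw [hℋeq] at h5
    obtain ⟨d, hd⟩ := h5
    exact h3 (E A) (0, 0) d hd.symm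
  choose! σ hσG hσL using hex
  have hinvap : ∀ (τ : Equiv.Perm Cell) (c : Cell), τ (τ⁻¹ c) = c := fun τ c =>
    τ.apply_symm_apply c
  have hinvap' : ∀ (τ : Equiv.Perm Cell) (c : Cell), τ⁻¹ (τ c) = c := fun τ c =>
    τ.symm_apply_apply c
  have hplR : ∀ A ∈ S, plR N (σ A) = Φ '' A := by
    intro A hA
    rw [← hEimg A hA]
    ext z
    constructor
    · rintro ⟨c, hc, hz⟩
      have h5 := (hσL A hA).2 ((σ A)⁻¹ c)
      rw [hinvap] at h5
      rw [← h5] at hz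
      obtain ⟨w, hw, rfl⟩ := hz
      exact ⟨w, ⟨_, hc, hw⟩, rfl⟩
    · rintro ⟨w, ⟨d, hd, hw⟩, rfl⟩
      refine ⟨σ A d, by rw [hinvap']; exact hd, ?_⟩
      rw [← (hσL A hA).2 d]
      exact ⟨w, hw, rfl⟩
  refine ⟨F A0, {τ | ∃ A ∈ S, τ = σ A}, ⟨?_, ?_, ?_⟩, ?_⟩
  · rintro p ⟨A, hA, rfl⟩
    exact hσG A hA
  · intro c
    have h5 : hexAt c ∈ ℋ := by rw [hℋeq]; exact ⟨c, rfl⟩
    obtain ⟨A, hA, d, hd, h6⟩ := h5
    rw [(hσL A hA).2 d] at h6
    have h7 := R2_inj h1 h4 _ _ h6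
    refine ⟨σ A, ⟨A, hA, rfl⟩, ?_⟩
    rw [h7, hinvap']
    exact hd
  · rintro p ⟨A, hA, rfl⟩ q ⟨B, hB, rfl⟩ c hpc hqc
    by_contra hne'
    have hAB : A ≠ B := by
      rintro rfl
      exact hne' rfl
    have key : ∀ A ∈ S, InT N ((σ A)⁻¹ c) → hexAt c ⊆ E A '' TR N := by
      intro A hA hc
      have h5 := (hσL A hA).2 ((σ A)⁻¹ c)
      rw [hinvap] at h5
      rw [← h5]
      exact hsub A _ hc
    have h5 := (hdis A hA B hB hAB).mono (interior_mono (key A hA hpc))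
      (interior_mono (key B hB hqc))
    rw [disjoint_self] at h5
    obtain ⟨z, hz⟩ := R2_nonempty h4 c
    rw [h5] at hz
    exact hz
  · ext A
    constructor
    · rintro ⟨B, ⟨τ, ⟨C, hC, rfl⟩, rfl⟩, rfl⟩
      have : (fun A : Set ℂ => (F A0) '' A) (plR N (σ C)) = C := by
        show (F A0) '' plR N (σ C) = C
        rw [hplR C hC, hΦ, ← Set.image_comp]
        have hid : (F A0) ∘ (F A0).symm = id := funext (F A0).apply_symm_apply
        rw [hid, Set.image_id]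
      rw [this]
      exact hC
    · intro hA
      refine ⟨plR N (σ A), ⟨σ A, ⟨A, hA, rfl⟩, rfl⟩, ?_⟩
      show (F A0) '' plR N (σ A) = A
      rw [hplR A hA, hΦ, ← Set.image_comp]
      have hid : (F A0) ∘ (F A0).symm = id := funext (F A0).apply_symm_apply
      rw [hid, Set.image_id]

end Pool.Agent.H181R2
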