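import Pool.Agent.H181R2.Stubs

set_option autoImplicit false

namespace Pool.Agent.H181R2

theorem R3_inv_apply (f : Equiv.Perm Cell) (c : Cell) : f⁻¹ (f c) = c := f.symm_apply_apply c

theorem R3_apply_inv (f : Equiv.Perm Cell) (c : Cell) : f (f⁻¹ c) = c := f.apply_symm_apply c

theorem R3_hexAt_image (c : Cell) : hexAt c = (IsometryEquiv.addRight (ctr c)) '' Hx := by
  ext z
  constructor
  · intro hz
    refine ⟨z - ctr c, hz, ?_⟩
    simp [IsometryEquiv.addRight]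
  · rintro ⟨w, hw, rfl⟩
    change IsometryEquiv.addRight (ctr c) w - ctr c ∈ Hx
    simpa [IsometryEquiv.addRight] using hw

theorem R3_interior_image (F : ℂ ≃ᵢ ℂ) (A : Set ℂ) : interior (F '' A) = F '' interior A :=
  (F.toHomeomorph.image_interior A).symm

theorem R3_ctr_mem (h5 : S_HB) (c : Cell) : ctr c ∈ interior (hexAt c) := by
  rw [R3_hexAt_image, R3_interior_image]
  refine ⟨0, h5.1 (by simp), ?_⟩
  simp [IsometryEquiv.addRight]

theorem R3_plR_eq (N : ℤ) (p : Equiv.Perm Cell) :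
    plR N p = {z | ∃ c ∈ {c : Cell | InT N (p⁻¹ c)}, z ∈ hexAt c} := rfl

theorem R3_single (c : Cell) : hexAt c = {z | ∃ d ∈ ({c} : Set Cell), z ∈ hexAt d} := by
  ext z
  simp

/-- a hexagon outside a placement has interior disjoint from the placement -/
theorem R3_disj (h1 : S_UI) (N : ℤ) (q : Equiv.Perm Cell) (c : Cell) (hc : ¬ InT N (q⁻¹ c)) :
    Disjoint (interior (hexAt c)) (interior (plR N q)) := by
  rw [R3_single c, R3_plR_eq]
  refine h1.2.2 _ _ ?_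
  rw [Set.disjoint_singleton_left]
  exact hc

theorem R3_sub (N : ℤ) (p : Equiv.Perm Cell) (c : Cell) (hc : InT N (p⁻¹ c)) :
    hexAt c ⊆ plR N p := fun _ hz => ⟨c, hc, hz⟩

theorem R3_cells (h1 : S_UI) (h5 : S_HB) (N : ℤ) (p q : Equiv.Perm Cell)
    (h : plR N p = plR N q) (c : Cell) (hc : InT N (p⁻¹ c)) : InT N (q⁻¹ c) := by
  by_contra hq
  have h2 := R3_disj h1 N q c hq
  have h3 : interior (hexAt c) ⊆ interior (plR N q) := by
    rw [← h]; exact interior_mono (R3_sub N p c hc)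
  exact Set.disjoint_left.1 h2 (R3_ctr_mem h5 c) (h3 (R3_ctr_mem h5 c))

theorem R3_inj (h1 : S_UI) (h4 : S_AS) (h5 : S_HB) (N : ℤ) (hN : 5 ≤ N) (p q : Equiv.Perm Cell)
    (hp : p ∈ G) (hq : q ∈ G) (h : plR N p = plR N q) : p = q := by
  have key : p⁻¹ * q = 1 := by
    refine h4 N _ hN (G.mul_mem (G.inv_mem hp) hq) fun c => ?_
    have e : (p⁻¹ * q)⁻¹ c = q⁻¹ (p c) := by
      rw [mul_inv_rev, inv_inv]; rfl
    rw [e]
    have e2 : p⁻¹ (p c) = c := R3_inv_apply p c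
    constructor
    · intro hc
      have := R3_cells h1 h5 N q p h.symm (p c) hc
      rwa [e2] at this
    · intro hc
      exact R3_cells h1 h5 N p q h (p c) (by rwa [e2])
  exact (inv_mul_eq_one.1 key)

theorem T_R3 (h1 : S_UI) (h2 : S_HU) (h3 : S_LI) (h4 : S_AS) (h5 : S_HB) : S_R3 := by
  intro N 𝒯 𝒯' F hN hT hT' hF
  obtain ⟨p, hp, -⟩ := hT.cov (0, 0)
  have hFp : F '' plR N p ∈ RT N 𝒯' := by
    rw [← hF]
    exact ⟨plR N p, ⟨p, hp, rfl⟩, rfl⟩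
  obtain ⟨q, hq, hqp⟩ := hFp
  -- the hybrid family
  have hH : HexFam ({A | ∃ c, ¬ InT N (q⁻¹ c) ∧ A = hexAt c} ∪
      {A | ∃ c, InT N (p⁻¹ c) ∧ A = F '' hexAt c}) := by
    refine ⟨?_, ?_, ?_⟩
    · rintro A (⟨c, -, rfl⟩ | ⟨c, -, rfl⟩)
      · exact ⟨_, R3_hexAt_image c⟩
      · refine ⟨(IsometryEquiv.addRight (ctr c)).trans F, ?_⟩
        rw [R3_hexAt_image, ← Set.image_comp]
        rfl
    · refine Set.eq_univ_of_forall fun z => ?_
      have hz : z ∈ ⋃₀ Set.range hexAt := by rw [h1.1]; trivial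
      obtain ⟨A, ⟨c, rfl⟩, hz⟩ := hz
      by_cases hc : InT N (q⁻¹ c)
      · have : z ∈ F '' plR N p := by rw [← hqp]; exact ⟨c, hc, hz⟩
        obtain ⟨w, ⟨d, hd, hw⟩, rfl⟩ := this
        exact ⟨F '' hexAt d, Or.inr ⟨d, hd, rfl⟩, w, hw, rfl⟩
      · exact ⟨hexAt c, Or.inl ⟨c, hc, rfl⟩, hz⟩
    · have mixed : ∀ c d, ¬ InT N (q⁻¹ c) → InT N (p⁻¹ d) →
          Disjoint (interior (hexAt c)) (interior (F '' hexAt d)) := by
        intro c d hc hd
        refine (R3_disj h1 N q c hc).mono_right (interior_mono ?_)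
        rw [hqp]
        exact Set.image_mono (R3_sub N p d hd)
      rintro A (⟨c, hc, rfl⟩ | ⟨c, hc, rfl⟩) B (⟨d, hd, rfl⟩ | ⟨d, hd, rfl⟩) hne
      · exact h1.2.1 c d (fun h => hne (by rw [h]))
      · exact mixed c d hc hd
      · exact (mixed d c hd hc).symm
      · rw [R3_interior_image, R3_interior_image]
        exact (Set.disjoint_image_iff F.injective).2 (h1.2.1 c d (fun h => hne (by rw [h])))
  have hd : ¬ InT N (q⁻¹ (q (2 * N, 0))) := by
    rw [R3_inv_apply]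
    unfold InT
    simp only
    omega
  have hrange := h2 _ (q (2 * N, 0)) hH (Or.inl ⟨_, hd, rfl⟩)
  have hc0 : InT N (p⁻¹ (p (0, 0))) := by
    rw [R3_inv_apply]
    unfold InT
    simp only
    omega
  have hmem : F '' hexAt (p (0, 0)) ∈ Set.range hexAt := by
    rw [← hrange]
    exact Or.inr ⟨_, hc0, rfl⟩
  obtain ⟨d', hd'⟩ := hmem
  obtain ⟨σ, hσ, hL⟩ := h3 F (p (0, 0)) d' hd'.symm
  have himg : ∀ p' : Equiv.Perm Cell, F '' plR N p' = plR N (σ * p') := by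
    intro p'
    ext z
    constructor
    · rintro ⟨w, ⟨c, hc, hw⟩, rfl⟩
      refine ⟨σ c, ?_, ?_⟩
      · have e : (σ * p')⁻¹ (σ c) = p'⁻¹ c := by
          rw [mul_inv_rev, Equiv.Perm.mul_apply, R3_inv_apply]
        rw [e]; exact hc
      · rw [← hL.2]; exact ⟨w, hw, rfl⟩
    · rintro ⟨c, hc, hz⟩
      have e : (σ * p')⁻¹ c = p'⁻¹ (σ⁻¹ c) := by
        rw [mul_inv_rev, Equiv.Perm.mul_apply]
      rw [e] at hc
      have e2 : c = σ (σ⁻¹ c) := (R3_apply_inv σ c).symm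
      rw [e2, ← hL.2] at hz
      obtain ⟨w, hw, rfl⟩ := hz
      exact ⟨w, ⟨σ⁻¹ c, hc, hw⟩, rfl⟩
  refine ⟨σ⁻¹, G.inv_mem hσ, ?_⟩
  ext r
  constructor
  · intro hr
    have hr' : σ⁻¹ * r ∈ 𝒯 := hr
    have h6 : F '' plR N (σ⁻¹ * r) ∈ RT N 𝒯' := by
      rw [← hF]
      exact ⟨plR N (σ⁻¹ * r), ⟨σ⁻¹ * r, hr', rfl⟩, rfl⟩
    rw [himg, mul_inv_cancel_left] at h6
    obtain ⟨r', hr'', h7⟩ := h6
    have hrG : r ∈ G := by
      have := G.mul_mem hσ (hT.sub _ hr')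
      rwa [mul_inv_cancel_left] at this
    have := R3_inj h1 h4 h5 N hN r' r (hT'.sub _ hr'') hrG h7
    rwa [← this]
  · intro hr
    have h6 : plR N r ∈ RT N 𝒯' := ⟨r, hr, rfl⟩
    rw [← hF] at h6
    obtain ⟨A, ⟨p', hp', rfl⟩, h7⟩ := h6
    have h8 : plR N (σ * p') = plR N r := by rw [← himg]; exact h7
    have := R3_inj h1 h4 h5 N hN (σ * p') r (G.mul_mem hσ (hT.sub _ hp')) (hT'.sub _ hr) h8
    change σ⁻¹ * r ∈ 𝒯
    rw [← this, inv_mul_cancel_left]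
    exact hp'

end Pool.Agent.H181R2
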