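import Pool.Agent.H181R2.Stubs

/-! R4: equivalent lattice tilings give congruent real tilings. -/

set_option autoImplicit false

namespace Pool.Agent.H181R2

theorem T_R4 (h1 : S_EXT) : S_R4 := by
  rintro N T T' ⟨g, hg, rfl⟩
  obtain ⟨F, _, hF2⟩ := h1 g⁻¹ (G.inv_mem hg)
  refine ⟨F, ?_⟩
  have key : ∀ p, F '' plR N p = plR N (g⁻¹ * p) := by
    intro p
    ext z
    constructor
    · rintro ⟨y, ⟨c, hc, hy⟩, rfl⟩
      refine ⟨g⁻¹ c, ?_, ?_⟩
      · have h : (g⁻¹ * p)⁻¹ (g⁻¹ c) = p⁻¹ c := by simp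
        rw [h]
        exact hc
      · rw [← hF2]
        exact ⟨y, hy, rfl⟩
    · rintro ⟨c, hc, hz⟩
      have h : c = g⁻¹ (g c) := by simp
      rw [h, ← hF2] at hz
      obtain ⟨y, hy, rfl⟩ := hz
      refine ⟨y, ⟨g c, ?_, hy⟩, rfl⟩
      have h : (g⁻¹ * p)⁻¹ c = p⁻¹ (g c) := by simp
      rw [← h]
      exact hc
  unfold RT
  rw [Set.image_image]
  ext A
  constructor
  · rintro ⟨p, hp, rfl⟩
    refine ⟨g⁻¹ * p, ?_, (key p).symm⟩
    show g * (g⁻¹ * p) ∈ T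
    simpa using hp
  · rintro ⟨p, hp, rfl⟩
    refine ⟨g * p, hp, ?_⟩
    show F '' plR N (g * p) = _
    rw [key]
    simp

end Pool.Agent.H181R2
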