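import Pool.Agent.H181R2.Stubs

/-!
# H181R2, task SEP (helper51)
-/

set_option autoImplicit false

namespace Pool.Agent.H181R2

theorem SEP_ball (h1 : S_HB) (F : ℂ ≃ᵢ ℂ) : Metric.ball (F 0) (1 / 2) ⊆ interior (F '' Hx) := by
  have e1 : interior (F '' Hx) = F '' interior Hx := by
    have := F.toHomeomorph.image_interior Hx
    simpa using this.symm
  rw [e1, ← F.image_ball]
  exact Set.image_mono h1.1

theorem T_SEP (h1 : S_HB) : S_SEP := by
  intro F F' hd
  by_contra hlt
  push Not at hlt
  have hm1 : midpoint ℝ (F 0) (F' 0) ∈ Metric.ball (F 0) (1 / 2) := by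
    rw [Metric.mem_ball, dist_midpoint_left]
    simp only [Real.norm_ofNat]
    linarith
  have hm2 : midpoint ℝ (F 0) (F' 0) ∈ Metric.ball (F' 0) (1 / 2) := by
    rw [Metric.mem_ball, dist_midpoint_right]
    simp only [Real.norm_ofNat]
    linarith
  exact Set.disjoint_left.1 hd (SEP_ball h1 F hm1) (SEP_ball h1 F' hm2)

end Pool.Agent.H181R2
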