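import Pool.Agent.H181R2.Stubs

/-! Task TP: the periodic tiling (helper287). -/

set_option autoImplicit false

namespace Pool.Agent.H181R2

theorem TP_zero {d N : ℤ} (h1 : -N < d * N) (h2 : d * N < N) : d = 0 := by
  have hN : 0 < N := by linarith
  by_contra h
  rcases lt_or_gt_of_ne h with h | h
  · have : d * N ≤ -1 * N := mul_le_mul_of_nonneg_right (by omega) hN.le
    linarith
  · have : 1 * N ≤ d * N := mul_le_mul_of_nonneg_right (by omega) hN.le
    linarith

theorem TP_A (N k i x y : ℤ) : InT N ((pl 0 (k * N) (-4 * i * N))⁻¹ (x, y)) ↔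
    InT N (x - k * N, y + 4 * (i * N)) := by
  rw [pl_inv_apply]
  have e : y - (-4 * i * N) = y + 4 * (i * N) := by ring
  show InT N (x - k * N, y - (-4 * i * N)) ↔ _
  rw [e]

theorem TP_B (N k i x y : ℤ) : InT N ((pl 11 (k * N - 1) (-4 * i * N - 2 * N))⁻¹ (x, y)) ↔
    InT N (y + 4 * (i * N) + 2 * N - x + k * N - 1, y + 4 * (i * N) + 2 * N) := by
  rw [pl_inv_apply]
  have e : y - (-4 * i * N - 2 * N) = y + 4 * (i * N) + 2 * N := by ring
  have e' : y - (-4 * i * N - 2 * N) - (x - (k * N - 1)) =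
      y + 4 * (i * N) + 2 * N - x + k * N - 1 := by ring
  show InT N (y - (-4 * i * N - 2 * N) - (x - (k * N - 1)), y - (-4 * i * N - 2 * N)) ↔ _
  rw [e', e]

theorem TP_G0 (a b : ℤ) : pl 0 a b ∈ G := by
  intro c d
  simp only [pl_apply, lin, Q, Prod.fst_sub, Prod.snd_sub]
  ring

theorem TP_G11 (a b : ℤ) : pl 11 a b ∈ G := by
  intro c d
  simp only [pl_apply, lin, Q, Prod.fst_sub, Prod.snd_sub]
  ring

theorem TP_cov (N x y : ℤ) (hN : 5 ≤ N) : ∃ p ∈ PP N, InT N (p⁻¹ (x, y)) := by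
  -- `x = N q + r`
  obtain ⟨q, r, hx, hr0, hr1⟩ : ∃ q r : ℤ, x = q * N + r ∧ 0 ≤ r ∧ r < N :=
    ⟨x / N, x % N, by rw [mul_comm]; exact (Int.mul_ediv_add_emod x N).symm,
      Int.emod_nonneg _ (by omega), Int.emod_lt_of_pos _ (by omega)⟩
  obtain ⟨i, hi0, hi1⟩ : ∃ i : ℤ, -3 * N ≤ y + 4 * (i * N) ∧ y + 4 * (i * N) < N := by
    refine ⟨-((y + 3 * N) / (4 * N)), ?_, ?_⟩
    · have h1 := Int.emod_nonneg (y + 3 * N) (b := 4 * N) (by omega)
      have h2 := Int.mul_ediv_add_emod (y + 3 * N) (4 * N)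
      have h3 : 4 * (-((y + 3 * N) / (4 * N)) * N) = -(4 * N * ((y + 3 * N) / (4 * N))) := by ring
      rw [h3]
      linarith
    · have h1 := Int.emod_lt_of_pos (y + 3 * N) (b := 4 * N) (by omega)
      have h2 := Int.mul_ediv_add_emod (y + 3 * N) (4 * N)
      have h3 : 4 * (-((y + 3 * N) / (4 * N)) * N) = -(4 * N * ((y + 3 * N) / (4 * N))) := by ring
      rw [h3]
      linarith
  have eq1 : (q + 1) * N = q * N + N := by ring
  have eq2 : (q - 1) * N = q * N - N := by ring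
  have ei1 : (i + 1) * N = i * N + N := by ring
  have m0 : ∀ i k : ℤ, pl 0 (k * N) (-4 * i * N) ∈ PP N := fun i k => Or.inl ⟨i, k, rfl⟩
  have m1 : ∀ i k : ℤ, pl 11 (k * N - 1) (-4 * i * N - 2 * N) ∈ PP N :=
    fun i k => Or.inr ⟨i, k, rfl⟩
  rcases le_or_gt 0 (y + 4 * (i * N)) with h | h
  · refine ⟨_, m0 i q, (TP_A N q i x y).2 ?_⟩
    unfold InT
    simp only
    omega
  rcases le_or_gt (-N) (y + 4 * (i * N)) with h' | h'
  · rcases lt_trichotomy r (y + 4 * (i * N) + N) with h3 | h3 | h3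
    · refine ⟨_, m1 i q, (TP_B N q i x y).2 ?_⟩
      unfold InT
      simp only
      omega
    · refine ⟨_, m0 i (q + 1), (TP_A N (q + 1) i x y).2 ?_⟩
      unfold InT
      simp only
      omega
    · refine ⟨_, m1 i (q + 1), (TP_B N (q + 1) i x y).2 ?_⟩
      unfold InT
      simp only
      omega
  rcases le_or_gt (-2 * N) (y + 4 * (i * N)) with h'' | h''
  · rcases lt_or_ge r (y + 4 * (i * N) + 2 * N) with h3 | h3
    · refine ⟨_, m1 i q, (TP_B N q i x y).2 ?_⟩
      unfold InT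
      simp only
      omega
    · refine ⟨_, m1 i (q + 1), (TP_B N (q + 1) i x y).2 ?_⟩
      unfold InT
      simp only
      omega
  · rcases eq_or_ne r (N - 1) with h3 | h3
    · refine ⟨_, m1 i (q + 1), (TP_B N (q + 1) i x y).2 ?_⟩
      unfold InT
      simp only
      omega
    · refine ⟨_, m0 (i + 1) (q - 1), (TP_A N (q - 1) (i + 1) x y).2 ?_⟩
      unfold InT
      simp only
      omega

theorem TP_AA (N x y k i k' i' : ℤ) (hN : 5 ≤ N)
    (h : InT N (x - k * N, y + 4 * (i * N))) (h' : InT N (x - k' * N, y + 4 * (i' * N))) :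
    i = i' ∧ k = k' := by
  have e1 : (i - i') * N = i * N - i' * N := by ring
  have e2 : (k - k') * N = k * N - k' * N := by ring
  unfold InT at h h'
  simp only at h h'
  have hi : i - i' = 0 := by
    refine TP_zero (N := N) ?_ ?_ <;> rw [e1] <;> omega
  have hi' : i = i' := by omega
  subst hi'
  have hk : k - k' = 0 := by
    refine TP_zero (N := N) ?_ ?_ <;> rw [e2] <;> omega
  exact ⟨rfl, by omega⟩

theorem TP_BB (N x y k i k' i' : ℤ) (hN : 5 ≤ N)
    (h : InT N (y + 4 * (i * N) + 2 * N - x + k * N - 1, y + 4 * (i * N) + 2 * N))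
    (h' : InT N (y + 4 * (i' * N) + 2 * N - x + k' * N - 1, y + 4 * (i' * N) + 2 * N)) :
    i = i' ∧ k = k' := by
  have e1 : (i - i') * N = i * N - i' * N := by ring
  have e2 : (k - k') * N = k * N - k' * N := by ring
  unfold InT at h h'
  simp only at h h'
  have hi : i - i' = 0 := by
    refine TP_zero (N := N) ?_ ?_ <;> rw [e1] <;> omega
  have hi' : i = i' := by omega
  subst hi'
  have hk : k - k' = 0 := by
    refine TP_zero (N := N) ?_ ?_ <;> rw [e2] <;> omega
  exact ⟨rfl, by omega⟩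

theorem TP_AB (N x y k i k' i' : ℤ) (hN : 5 ≤ N)
    (h : InT N (x - k * N, y + 4 * (i * N)))
    (h' : InT N (y + 4 * (i' * N) + 2 * N - x + k' * N - 1, y + 4 * (i' * N) + 2 * N)) :
    False := by
  have e1 : (i' - i) * N = i' * N - i * N := by ring
  have e1' : (i' - i + 1) * N = i' * N - i * N + N := by ring
  have e2 : (k' - k) * N = k' * N - k * N := by ring
  have e3 : (k' - k - 1) * N = k' * N - k * N - N := by ring
  unfold InT at h h'
  simp only at h h'
  rcases lt_or_ge (-N) ((i' - i) * N) with hc | hc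
  · have hi : i' - i = 0 := by
      refine TP_zero (N := N) hc ?_
      rw [e1]
      omega
    have hi' : i' = i := by omega
    subst hi'
    have hk : k' - k = 0 := by
      refine TP_zero (N := N) ?_ ?_ <;> rw [e2] <;> omega
    rw [hk] at e2
    omega
  · rw [e1] at hc
    have hi : i' - i + 1 = 0 := by
      refine TP_zero (N := N) ?_ ?_ <;> rw [e1'] <;> omega
    have hk : k' - k - 1 = 0 := by
      refine TP_zero (N := N) ?_ ?_ <;> rw [e3] <;> rw [hi] at e1' <;> omega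
    rw [hk] at e3
    rw [hi] at e1'
    omega

theorem T_TP : S_TP := by
  intro N hN
  refine ⟨?_, ?_, ?_⟩
  · rintro p (⟨i, k, rfl⟩ | ⟨i, k, rfl⟩)
    · exact TP_G0 _ _
    · exact TP_G11 _ _
  · rintro ⟨x, y⟩
    exact TP_cov N x y hN
  · rintro p hp q hq ⟨x, y⟩ h1 h2
    rcases hp with ⟨i, k, rfl⟩ | ⟨i, k, rfl⟩ <;> rcases hq with ⟨i', k', rfl⟩ | ⟨i', k', rfl⟩
    · obtain ⟨rfl, rfl⟩ := TP_AA N x y k i k' i' hN ((TP_A N k i x y).1 h1)
        ((TP_A N k' i' x y).1 h2)
      rfl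
    · exact (TP_AB N x y k i k' i' hN ((TP_A N k i x y).1 h1) ((TP_B N k' i' x y).1 h2)).elim
    · exact (TP_AB N x y k' i' k i hN ((TP_A N k' i' x y).1 h2) ((TP_B N k i x y).1 h1)).elim
    · obtain ⟨rfl, rfl⟩ := TP_BB N x y k i k' i' hN ((TP_B N k i x y).1 h1)
        ((TP_B N k' i' x y).1 h2)
      rfl

end Pool.Agent.H181R2
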