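import Pool.Agent.H181R2.Stubs

set_option autoImplicit false

namespace Pool.Agent.H181R2

theorem TR_map {X Y : Type*} [MetricSpace X] [MetricSpace Y] (e : X ≃ᵢ Y) {T : Set X}
    {S : Set (Set X)} (h : IsTil T S) : IsTil (e '' T) ((fun A : Set X => e '' A) '' S) := by
  obtain ⟨h1, h2, h3⟩ := h
  refine ⟨?_, ?_, ?_⟩
  · rintro _ ⟨A, hA, rfl⟩
    obtain ⟨g, rfl⟩ := h1 A hA
    refine ⟨(e.symm.trans g).trans e, ?_⟩
    ext y
    simp only [Set.mem_image, IsometryEquiv.trans_apply]
    constructor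
    · rintro ⟨_, ⟨x, hx, rfl⟩, rfl⟩
      exact ⟨e x, ⟨x, hx, rfl⟩, by simp⟩
    · rintro ⟨_, ⟨x, hx, rfl⟩, rfl⟩
      exact ⟨g x, ⟨x, hx, rfl⟩, by simp⟩
  · rw [Set.eq_univ_iff_forall]
    intro y
    have h4 : e.symm y ∈ ⋃₀ S := by rw [h2]; trivial
    obtain ⟨A, hA, hy⟩ := h4
    exact ⟨e '' A, ⟨A, hA, rfl⟩, ⟨e.symm y, hy, by simp⟩⟩
  · rintro _ ⟨A, hA, rfl⟩ _ ⟨B, hB, rfl⟩ hAB
    have h4 : A ≠ B := fun h => hAB (by rw [h])
    have h5 := h3 A hA B hB h4
    have h6 : ∀ A : Set X, interior (e '' A) = e '' interior A := fun A =>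
      (e.toHomeomorph.image_interior A).symm
    change Disjoint (interior (e '' A)) (interior (e '' B))
    rw [h6, h6]
    exact (Set.disjoint_image_iff e.injective).mpr h5

theorem TR_transfer {X Y : Type*} [MetricSpace X] [MetricSpace Y] (e : X ≃ᵢ Y) {r : ℕ}
    (h : Morphic X r) : Morphic Y r := by
  obtain ⟨T, ⟨f⟩, S, hS1, hS2, hS3⟩ := h
  have hc : ∀ (g : X ≃ᵢ X) (A : Set X), ((e.symm.trans g).trans e) '' (e '' A) = e '' (g '' A) := by
    intro g A
    simp only [Set.image_image, IsometryEquiv.trans_apply, IsometryEquiv.symm_apply_apply]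
  refine ⟨e '' T, ⟨(e.toHomeomorph.image T).symm.trans f⟩,
    fun i => (fun A : Set X => e '' A) '' S i, fun i => TR_map e (hS1 i), ?_, ?_⟩
  · intro i j hij
    rintro ⟨g, hg⟩
    refine hS2 i j hij ⟨(e.trans g).trans e.symm, ?_⟩
    have hd : ∀ A : Set X, e '' (((e.trans g).trans e.symm) '' A) = g '' (e '' A) := by
      intro A
      simp only [Set.image_image, IsometryEquiv.trans_apply, IsometryEquiv.apply_symm_apply]
    have hinj : Function.Injective (fun A : Set X => e '' A) := e.injective.image_injective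
    apply hinj.image_injective
    rw [Set.image_image]
    rw [Set.image_image] at hg
    simp only [hd]
    exact hg
  · intro S' hS'
    have h1 := TR_map e.symm hS'
    have h2 : e.symm '' (e '' T) = T := by
      simp only [Set.image_image, IsometryEquiv.symm_apply_apply, Set.image_id']
    rw [h2] at h1
    obtain ⟨i, g, hg⟩ := hS3 _ h1
    refine ⟨i, (e.symm.trans g).trans e, ?_⟩
    rw [Set.image_image]
    simp only [hc]
    have h3 : (fun A : Set X => e '' (g '' A)) '' S i =
        (fun A : Set X => e '' A) '' ((fun A : Set X => g '' A) '' S i) := by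
      rw [Set.image_image]
    rw [h3, hg, Set.image_image]
    simp only [Set.image_image, IsometryEquiv.apply_symm_apply, Set.image_id']

theorem T_TR : S_TR := fun _ h =>
  TR_transfer Complex.orthonormalBasisOneI.repr.toIsometryEquiv h

end Pool.Agent.H181R2
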