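import Pool.Agent.H181R2.Stubs

set_option autoImplicit false

namespace Pool.Agent.H181R2

theorem TW_sub (h2 : S_MG) (N : ℤ) (p : Equiv.Perm Cell) (hp : p ∈ HH N) : p ∈ G := by
  rw [h2]
  rcases hp with ⟨k, rfl⟩ | ⟨i, k, rfl⟩ | ⟨i, k, rfl⟩
  · exact ⟨_, _, _, rfl⟩
  · exact ⟨_, _, _, rfl⟩
  · exact ⟨_, _, _, rfl⟩

theorem TW_gen (h1 : S_HC) (h2 : S_MG) (N : ℤ) (hN : 5 ≤ N) (φ : Equiv.Perm Cell) (hφ : φ ∈ G)
    (hi : ∀ c : Cell, (φ⁻¹ c).1 = 4 * N - 3 - c.1) : Til N (Wall N φ) := by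
  obtain ⟨hc, hl, hd⟩ := h1 N hN
  refine ⟨?_, ?_, ?_⟩
  · rintro p (hp | hp)
    · exact TW_sub h2 N p hp
    · have h := G.mul_mem hφ (TW_sub h2 N _ hp)
      rwa [mul_inv_cancel_left] at h
  · intro c
    by_cases h : c.1 ≤ 2 * N - 2
    · obtain ⟨p, hp, hpc⟩ := hc c h
      exact ⟨p, Or.inl hp, hpc⟩
    · have h' : (φ⁻¹ c).1 ≤ 2 * N - 2 := by rw [hi]; omega
      obtain ⟨q, hq, hqc⟩ := hc _ h'
      refine ⟨φ * q, Or.inr ?_, ?_⟩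
      · rw [inv_mul_cancel_left]; exact hq
      · rw [mul_inv_rev]; exact hqc
  · have key : ∀ p ∈ Wall N φ, ∀ c : Cell, InT N (p⁻¹ c) →
        (p ∈ HH N ∧ c.1 ≤ 2 * N - 2) ∨
          (φ⁻¹ * p ∈ HH N ∧ ¬ c.1 ≤ 2 * N - 2 ∧ InT N ((φ⁻¹ * p)⁻¹ (φ⁻¹ c))) := by
      rintro p (hp | hp) c hpc
      · left; exact ⟨hp, hl c p hp hpc⟩
      · right
        have e : (φ⁻¹ * p)⁻¹ (φ⁻¹ c) = p⁻¹ c := by
          rw [mul_inv_rev, inv_inv, Equiv.Perm.mul_apply]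
          show p⁻¹ (φ (φ.symm c)) = _
          rw [Equiv.apply_symm_apply]
        have h3 : InT N ((φ⁻¹ * p)⁻¹ (φ⁻¹ c)) := by rw [e]; exact hpc
        have h4 := hl _ _ hp h3
        rw [hi] at h4
        exact ⟨hp, by omega, h3⟩
    intro p hp q hq c hpc hqc
    rcases key p hp c hpc with ⟨h3, h4⟩ | ⟨h3, h4, h5⟩
    · rcases key q hq c hqc with ⟨h6, h7⟩ | ⟨h6, h7, h8⟩
      · exact hd c p h3 q h6 hpc hqc
      · exact absurd h4 h7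
    · rcases key q hq c hqc with ⟨h6, h7⟩ | ⟨h6, h7, h8⟩
      · exact absurd h7 h4
      · exact mul_left_cancel (hd _ _ h3 _ h6 h5 h8)

theorem T_TW (h1 : S_HC) (h2 : S_MG) : S_TW := by
  intro N c hN
  refine ⟨TW_gen h1 h2 N hN _ ((h2 _).2 ⟨_, _, _, rfl⟩) ?_,
    TW_gen h1 h2 N hN _ ((h2 _).2 ⟨_, _, _, rfl⟩) ?_⟩
  · intro d
    unfold rW
    rw [pl_inv_apply]
    show -(d.1 - (4 * N - 3)) = _
    ring
  · intro d
    unfold gW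
    rw [pl_inv_apply]
    show -(d.1 - (4 * N - 3)) = _
    ring

end Pool.Agent.H181R2
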