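import Pool.Agent.H181R2.Stubs

set_option autoImplicit false

namespace Pool.Agent.H181R2

/-- coordinates -/
noncomputable def UI_A (z : ℂ) : ℝ := z.re + z.im / Real.sqrt 3
noncomputable def UI_B (z : ℂ) : ℝ := 2 * z.im / Real.sqrt 3

theorem UI_s3 : Real.sqrt 3 * Real.sqrt 3 = 3 := Real.mul_self_sqrt (by norm_num)

theorem UI_pos : 0 < Real.sqrt 3 := Real.sqrt_pos.mpr (by norm_num)

theorem UI_re (z : ℂ) (c : Cell) :
    (z - ctr c).re = (UI_A z - c.1) - (UI_B z - c.2) / 2 := by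
  unfold UI_A UI_B ctr
  rw [Complex.sub_re]
  ring

theorem UI_im (z : ℂ) (c : Cell) :
    Real.sqrt 3 * |(z - ctr c).im| = 3 / 2 * |UI_B z - c.2| := by
  have h1 : Real.sqrt 3 * |(z - ctr c).im| = |Real.sqrt 3 * (z - ctr c).im| := by
    rw [abs_mul, abs_of_pos UI_pos]
  have h2 : 3 / 2 * |UI_B z - c.2| = |3 / 2 * (UI_B z - c.2)| := by
    rw [abs_mul, abs_of_pos (by norm_num : (0 : ℝ) < 3 / 2)]
  rw [h1, h2]
  congr 1
  unfold UI_B ctr
  rw [Complex.sub_im]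
  have h3 := UI_s3
  have h4 := UI_pos
  have h5 : z.im / Real.sqrt 3 = z.im * Real.sqrt 3 / 3 := by
    rw [div_eq_div_iff h4.ne' (by norm_num), mul_assoc, h3]
  have h6 : 2 * z.im / Real.sqrt 3 = 2 * (z.im / Real.sqrt 3) := by ring
  rw [h6, h5]
  have h7 : Real.sqrt 3 * (z.im - Real.sqrt 3 / 2 * (c.2 : ℝ)) =
      Real.sqrt 3 * z.im - (Real.sqrt 3 * Real.sqrt 3) / 2 * (c.2 : ℝ) := by ring
  rw [h7, h3]
  ring

theorem UI_mem (z : ℂ) (c : Cell) : z ∈ hexAt c ↔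
    |2 * (UI_A z - c.1) - (UI_B z - c.2)| ≤ 1 ∧ |2 * (UI_B z - c.2) - (UI_A z - c.1)| ≤ 1 ∧
      |(UI_A z - c.1) + (UI_B z - c.2)| ≤ 1 := by
  have h0 : z ∈ hexAt c ↔ |(z - ctr c).re| ≤ 1 / 2 ∧
      |(z - ctr c).re| + Real.sqrt 3 * |(z - ctr c).im| ≤ 1 := Iff.rfl
  rw [h0, UI_re, UI_im]
  generalize UI_A z - c.1 = s
  generalize UI_B z - c.2 = t
  constructor
  · rintro ⟨h1, h2⟩
    have h3 := abs_le.mp h1
    have h4 := le_abs_self (s - t / 2)
    have h5 := neg_abs_le (s - t / 2)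
    have h6 := le_abs_self t
    have h7 := neg_abs_le t
    refine ⟨abs_le.mpr ⟨?_, ?_⟩, abs_le.mpr ⟨?_, ?_⟩, abs_le.mpr ⟨?_, ?_⟩⟩ <;> linarith [h3.1, h3.2]
  · rintro ⟨h1, h2, h3⟩
    rw [abs_le] at h1 h2 h3
    constructor
    · rw [abs_le]; constructor <;> linarith [h1.1, h1.2]
    · rcases abs_cases (s - t / 2) with ⟨h4, h5⟩ | ⟨h4, h5⟩ <;>
      rcases abs_cases t with ⟨h6, h7⟩ | ⟨h6, h7⟩ <;> rw [h4, h6] <;>
      linarith [h1.1, h1.2, h2.1, h2.2, h3.1, h3.2]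

theorem UI_int (h1 : S_HB) (z : ℂ) (c : Cell) (h : z ∈ interior (hexAt c)) :
    |2 * (UI_A z - c.1) - (UI_B z - c.2)| < 1 ∧ |2 * (UI_B z - c.2) - (UI_A z - c.1)| < 1 ∧
      |(UI_A z - c.1) + (UI_B z - c.2)| < 1 := by
  have h0 : z - ctr c ∈ interior Hx := by
    have h2 : hexAt c = (Homeomorph.subRight (ctr c)) ⁻¹' Hx := rfl
    rw [h2, ← (Homeomorph.subRight (ctr c)).preimage_interior] at h
    exact h
  rw [h1.2.2.2.2.2] at h0
  have h2 : |(z - ctr c).re| < 1 / 2 := h0.1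
  have h3 : |(z - ctr c).re| + Real.sqrt 3 * |(z - ctr c).im| < 1 := h0.2
  rw [UI_re, UI_im] at h3
  rw [UI_re] at h2
  revert h2 h3
  generalize UI_A z - c.1 = s
  generalize UI_B z - c.2 = t
  intro h2 h3
  have h4 := abs_lt.mp h2
  have h5 := le_abs_self (s - t / 2)
  have h6 := neg_abs_le (s - t / 2)
  have h7 := le_abs_self t
  have h8 := neg_abs_le t
  refine ⟨abs_lt.mpr ⟨?_, ?_⟩, abs_lt.mpr ⟨?_, ?_⟩, abs_lt.mpr ⟨?_, ?_⟩⟩ <;> linarith [h4.1, h4.2]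

theorem UI_uniq (h1 : S_HB) (z : ℂ) (c d : Cell) (h : z ∈ interior (hexAt c)) (h' : z ∈ hexAt d) :
    c = d := by
  obtain ⟨a1, a2, a3⟩ := UI_int h1 z c h
  obtain ⟨b1, b2, b3⟩ := (UI_mem z d).mp h'
  rw [abs_lt] at a1 a2 a3
  rw [abs_le] at b1 b2 b3
  have e1 : ((2 * (d.1 - c.1) - (d.2 - c.2) : ℤ) : ℝ) < ((2 : ℤ) : ℝ) := by
    push_cast; linarith [a1.2, b1.1]
  have e2 : ((-2 : ℤ) : ℝ) < ((2 * (d.1 - c.1) - (d.2 - c.2) : ℤ) : ℝ) := by
    push_cast; linarith [a1.1, b1.2]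
  have e3 : ((2 * (d.2 - c.2) - (d.1 - c.1) : ℤ) : ℝ) < ((2 : ℤ) : ℝ) := by
    push_cast; linarith [a2.2, b2.1]
  have e4 : ((-2 : ℤ) : ℝ) < ((2 * (d.2 - c.2) - (d.1 - c.1) : ℤ) : ℝ) := by
    push_cast; linarith [a2.1, b2.2]
  have e5 : (((d.2 - c.2) + (d.1 - c.1) : ℤ) : ℝ) < ((2 : ℤ) : ℝ) := by
    push_cast; linarith [a3.2, b3.1]
  have e6 : ((-2 : ℤ) : ℝ) < (((d.2 - c.2) + (d.1 - c.1) : ℤ) : ℝ) := by
    push_cast; linarith [a3.1, b3.2]
  rw [Int.cast_lt] at e1 e2 e3 e4 e5 e6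
  have f1 : c.1 = d.1 := by omega
  have f2 : c.2 = d.2 := by omega
  exact Prod.ext f1 f2

theorem UI_cover (z : ℂ) : ∃ c, z ∈ hexAt c := by
  obtain ⟨m, hm⟩ : ∃ m : ℤ, m = ⌊UI_A z⌋ := ⟨_, rfl⟩
  obtain ⟨n, hn⟩ : ∃ n : ℤ, n = ⌊UI_B z⌋ := ⟨_, rfl⟩
  have m1 : (m : ℝ) ≤ UI_A z := by rw [hm]; exact Int.floor_le _
  have m2 : UI_A z < m + 1 := by rw [hm]; exact Int.lt_floor_add_one _
  have n1 : (n : ℝ) ≤ UI_B z := by rw [hn]; exact Int.floor_le _
  have n2 : UI_B z < n + 1 := by rw [hn]; exact Int.lt_floor_add_one _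
  obtain ⟨s, hs⟩ : ∃ s : ℝ, s = UI_A z - m := ⟨_, rfl⟩
  obtain ⟨t, ht⟩ : ∃ t : ℝ, t = UI_B z - n := ⟨_, rfl⟩
  have hA : UI_A z = s + m := by linarith
  have hB : UI_B z = t + n := by linarith
  have key : ∀ i j : ℤ, |2 * (s - i) - (t - j)| ≤ 1 → |2 * (t - j) - (s - i)| ≤ 1 →
      |(s - i) + (t - j)| ≤ 1 → ∃ c, z ∈ hexAt c := by
    intro i j h1 h2 h3
    refine ⟨(m + i, n + j), (UI_mem _ _).mpr ?_⟩
    have e1 : UI_A z - ((m + i : ℤ) : ℝ) = s - i := by rw [hA]; push_cast; ring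
    have e2 : UI_B z - ((n + j : ℤ) : ℝ) = t - j := by rw [hB]; push_cast; ring
    refine ⟨?_, ?_, ?_⟩
    · rw [e1, e2]; exact h1
    · rw [e1, e2]; exact h2
    · rw [e1, e2]; exact h3
  have s0 : 0 ≤ s := by linarith
  have s1 : s < 1 := by linarith
  have t0 : 0 ≤ t := by linarith
  have t1 : t < 1 := by linarith
  simp only [abs_le] at key
  rcases le_total t s with h | h
  · by_cases h1 : s + t ≤ 1 ∧ 2 * s - t ≤ 1
    · apply key 0 0 <;> constructor <;> push_cast <;> linarith [h1.1, h1.2]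
    · by_cases h2 : 2 * t ≤ s
      · have h3 : 1 ≤ 2 * s - t := by
          by_contra hc
          apply h1
          constructor <;> linarith
        apply key 1 0 <;> constructor <;> push_cast <;> linarith
      · have h3 : 1 ≤ s + t := by
          by_contra hc
          apply h1
          constructor <;> linarith
        apply key 1 1 <;> constructor <;> push_cast <;> linarith
  · by_cases h1 : s + t ≤ 1 ∧ 2 * t - s ≤ 1
    · apply key 0 0 <;> constructor <;> push_cast <;> linarith [h1.1, h1.2]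
    · by_cases h2 : 2 * s ≤ t
      · have h3 : 1 ≤ 2 * t - s := by
          by_contra hc
          apply h1
          constructor <;> linarith
        apply key 0 1 <;> constructor <;> push_cast <;> linarith
      · have h3 : 1 ≤ s + t := by
          by_contra hc
          apply h1
          constructor <;> linarith
        apply key 1 1 <;> constructor <;> push_cast <;> linarith

theorem UI_closure (h1 : S_HB) (c : Cell) : closure (interior (hexAt c)) = hexAt c := by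
  have h2 : hexAt c = (Homeomorph.subRight (ctr c)) ⁻¹' Hx := rfl
  rw [h2, ← (Homeomorph.subRight (ctr c)).preimage_interior,
    ← (Homeomorph.subRight (ctr c)).preimage_closure, h1.2.2.2.2.1]

theorem T_UI (h1 : S_HB) : S_UI := by
  refine ⟨?_, ?_, ?_⟩
  · rw [Set.eq_univ_iff_forall]
    intro z
    obtain ⟨c, hc⟩ := UI_cover z
    exact ⟨hexAt c, ⟨c, rfl⟩, hc⟩
  · intro c d hcd
    rw [Set.disjoint_left]
    intro z hz hz'
    exact hcd (UI_uniq h1 z c d hz (interior_subset hz'))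
  · intro C D hCD
    rw [Set.disjoint_left]
    intro z hz hz'
    obtain ⟨c, hc⟩ := UI_cover z
    rw [← UI_closure h1 c] at hc
    have ho : IsOpen (interior {z | ∃ c ∈ C, z ∈ hexAt c} ∩ interior {z | ∃ c ∈ D, z ∈ hexAt c}) :=
      isOpen_interior.inter isOpen_interior
    obtain ⟨z', ⟨hz1, hz2⟩, hz3⟩ := mem_closure_iff.mp hc _ ho ⟨hz, hz'⟩
    obtain ⟨c', hc', hzc'⟩ := interior_subset hz1
    obtain ⟨d', hd', hzd'⟩ := interior_subset hz2
    have e1 := UI_uniq h1 z' c c' hz3 hzc'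
    have e2 := UI_uniq h1 z' c d' hz3 hzd'
    rw [← e1] at hc'
    rw [← e2] at hd'
    exact Set.disjoint_left.mp hCD hc' hd'

end Pool.Agent.H181R2
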