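import Pool.Agent.H181R2.Stubs

set_option autoImplicit false

namespace Pool.Agent.H181R2

theorem V3_image (hB : S_HB) (g : ℂ ≃ᵢ ℂ) : Convex ℝ (g '' Hx) ∧
    closure (interior (g '' Hx)) = g '' Hx := by
  obtain ⟨-, -, -, hconv, hcl, -⟩ := hB
  constructor
  · have h1 : g '' Hx = g.toRealAffineIsometryEquiv '' Hx := by
      rw [IsometryEquiv.coeFn_toRealAffineIsometryEquiv]
    rw [h1]
    have h2 : Convex ℝ (g.toRealAffineIsometryEquiv.toAffineEquiv.toAffineMap '' Hx) :=
      hconv.affine_image _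
    exact h2
  · have h1 : interior (g '' Hx) = g '' interior Hx := (g.toHomeomorph.image_interior Hx).symm
    have h2 : closure (g '' interior Hx) = g '' closure (interior Hx) :=
      (g.toHomeomorph.image_closure (interior Hx)).symm
    rw [h1, h2, hcl]

theorem V3_fz (f : StrongDual ℝ ℂ) (z : ℂ) : f z = z.re * f 1 + z.im * f Complex.I := by
  have h : z = z.re • (1 : ℂ) + z.im • Complex.I := by
    apply Complex.ext <;> simp
  conv_lhs => rw [h]
  rw [map_add, map_smul, map_smul, smul_eq_mul, smul_eq_mul]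

theorem T_V3 (h1 : S_HB) (h2 : S_LF) : S_V3 := by
  intro ℋ hH hHx
  set v : ℂ := ⟨0, 1 / Real.sqrt 3⟩ with hv
  have h3 : (0 : ℝ) < Real.sqrt 3 := Real.sqrt_pos.2 (by norm_num)
  have h33 : Real.sqrt 3 * (1 / Real.sqrt 3) = 1 := by field_simp
  have h3sq : Real.sqrt 3 * Real.sqrt 3 = 3 := Real.mul_self_sqrt (by norm_num)
  obtain ⟨ε, hε, hloc⟩ := h2 ℋ v hH
  have hvre : v.re = 0 := rfl
  have hvim : v.im = 1 / Real.sqrt 3 := rfl
  have hvH : v ∈ Hx := by
    refine ⟨?_, ?_⟩
    · rw [hvre]; norm_num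
    · rw [hvre, hvim, abs_zero, abs_of_pos (by positivity), h33]
      norm_num
  -- the first further member
  obtain ⟨B, hBH, hvB, hzB⟩ := hloc (v + (ε / 2 : ℝ) * Complex.I) (by
    rw [Metric.mem_ball, dist_eq_norm, add_sub_cancel_left, norm_mul, Complex.norm_I, mul_one,
      Complex.norm_real, Real.norm_eq_abs, abs_of_pos (by positivity)]
    linarith)
  have hBne : B ≠ Hx := by
    intro h
    rw [h] at hzB
    have h4 := hzB.2
    have h5 : (v + (ε / 2 : ℝ) * Complex.I).re = 0 := by simp [hvre]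
    have h6 : (v + (ε / 2 : ℝ) * Complex.I).im = 1 / Real.sqrt 3 + ε / 2 := by simp [hvim]
    rw [h5, h6, abs_zero, abs_of_pos (by positivity), mul_add, h33] at h4
    have : 0 < Real.sqrt 3 * (ε / 2) := by positivity
    linarith
  by_contra hcon
  have hall : ∀ A ∈ ℋ, v ∈ A → A = Hx ∨ A = B := by
    intro A hA hvA
    by_contra hne
    rw [not_or] at hne
    exact hcon ⟨B, hBH, A, hA, hBne, hne.1, fun h => hne.2 h.symm, hvB, hvA⟩
  -- separation
  obtain ⟨hcopy, -, hdis⟩ := hH
  obtain ⟨g, hg⟩ := hcopy B hBH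
  obtain ⟨hBconv, hBcl⟩ := V3_image h1 g
  rw [← hg] at hBconv hBcl
  obtain ⟨hball, -, -, hconv, hcl, -⟩ := h1
  have hd1 : Disjoint (interior Hx) (interior B) := hdis Hx hHx B hBH hBne.symm
  have hd2 : Disjoint (interior Hx) B := by
    have := hd1.closure_right isOpen_interior
    rwa [hBcl] at this
  obtain ⟨f, u, hf1, hf2⟩ := geometric_hahn_banach_open hconv.interior isOpen_interior hBconv hd2
  have hfv1 : u ≤ f v := hf2 v hvB
  have hfv2 : f v ≤ u := by
    have h4 : closure (interior Hx) ⊆ {z | f z ≤ u} :=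
      closure_minimal (fun z hz => (hf1 z hz).le) (isClosed_le f.continuous continuous_const)
    rw [hcl] at h4
    exact h4 hvH
  have hfv : f v = u := le_antisymm hfv2 hfv1
  have h0 : (0 : ℂ) ∈ interior Hx := hball (Metric.mem_ball_self (by norm_num))
  have hu : 0 < u := by
    have := hf1 0 h0
    rwa [map_zero] at this
  have hβ : 0 < f Complex.I := by
    rw [V3_fz f v, hvre, hvim, zero_mul, zero_add] at hfv
    have h4 : 0 < 1 / Real.sqrt 3 * f Complex.I := by rw [hfv]; exact hu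
    exact (pos_iff_pos_of_mul_pos h4).1 (by positivity)
  obtain ⟨s, hs, hsα⟩ : ∃ s : ℝ, |s| = 1 ∧ s * f 1 ≤ 0 := by
    rcases le_total (f 1) 0 with h | h
    · exact ⟨1, abs_one, by linarith⟩
    · exact ⟨-1, by simp, by linarith⟩
  -- the test point
  set t : ℝ := ε / 4 with ht
  have htp : 0 < t := by positivity
  set z : ℂ := ⟨t * s, 1 / Real.sqrt 3 - t / 4⟩ with hz
  have hzball : z ∈ Metric.ball v ε := by
    rw [Metric.mem_ball, dist_eq_norm]
    have h4 : ‖z - v‖ ≤ |(z - v).re| + |(z - v).im| := Complex.norm_le_abs_re_add_abs_im _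
    have h5 : (z - v).re = t * s := by simp [hz, hvre]
    have h6 : (z - v).im = - (t / 4) := by
      rw [Complex.sub_im, hvim]
      show 1 / Real.sqrt 3 - t / 4 - 1 / Real.sqrt 3 = _
      ring
    rw [h5, h6, abs_mul, hs, abs_neg, abs_of_pos htp, abs_of_pos (by positivity)] at h4
    linarith
  obtain ⟨A, hA, hvA, hzA⟩ := hloc z hzball
  rcases hall A hA hvA with h | h
  · rw [h] at hzA
    have h4 := hzA.2
    have h5 : |z.re| = t := by
      show |t * s| = t
      rw [abs_mul, hs, abs_of_pos htp, mul_one]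
    have h6 : z.im ≤ |z.im| := le_abs_self _
    have h7 : z.im = 1 / Real.sqrt 3 - t / 4 := rfl
    rw [h5] at h4
    have h8 : Real.sqrt 3 * z.im ≤ Real.sqrt 3 * |z.im| := mul_le_mul_of_nonneg_left h6 h3.le
    rw [h7, mul_sub, h33] at h8
    have h9 : Real.sqrt 3 < 4 := by nlinarith
    have h10 : Real.sqrt 3 * (t / 4) < 4 * (t / 4) := mul_lt_mul_of_pos_right h9 (by positivity)
    rw [← h7] at h8
    linarith
  · rw [h] at hzA
    have h4 := hf2 z hzA
    rw [← hfv, V3_fz f z, V3_fz f v] at h4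
    have h5 : z.re = t * s := rfl
    have h6 : z.im = 1 / Real.sqrt 3 - t / 4 := rfl
    rw [h5, h6, hvre, hvim] at h4
    have h7 : t * (s * f 1) ≤ 0 := mul_nonpos_of_nonneg_of_nonpos htp.le hsα
    have h8 : 0 < t * f Complex.I := mul_pos htp hβ
    nlinarith

end Pool.Agent.H181R2
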