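import Pool.Agent.H181R2.Stubs

set_option autoImplicit false

namespace Pool.Agent.H181R2

theorem VL_s : Real.sqrt 3 * Real.sqrt 3 = 3 := Real.mul_self_sqrt (by norm_num)

theorem VL_spos : 0 < Real.sqrt 3 := Real.sqrt_pos.2 (by norm_num)

/-- the six values of `(re, im / √3)` (times 6) of a vertex -/
theorem VL_vert (w : ℂ) (hw : w ∈ Hx) (hn : ‖w‖ ^ 2 = 1 / 3) :
    (w.re = 0 ∧ w.im = Real.sqrt 3 / 3) ∨ (w.re = 0 ∧ w.im = -(Real.sqrt 3 / 3)) ∨
    (w.re = 1 / 2 ∧ w.im = Real.sqrt 3 / 6) ∨ (w.re = 1 / 2 ∧ w.im = -(Real.sqrt 3 / 6)) ∨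
    (w.re = -(1 / 2) ∧ w.im = Real.sqrt 3 / 6) ∨ (w.re = -(1 / 2) ∧ w.im = -(Real.sqrt 3 / 6)) := by
  have hs := VL_s
  have hsp := VL_spos
  have h1 : |w.re| ≤ 1 / 2 := hw.1
  have h2 : |w.re| + Real.sqrt 3 * |w.im| ≤ 1 := hw.2
  have hnn : w.re * w.re + w.im * w.im = 1 / 3 := by
    rw [← hn, Complex.sq_norm, Complex.normSq_apply]
  have p0 := abs_nonneg w.re
  have q0 := abs_nonneg w.im
  have pp : |w.re| * |w.re| = w.re * w.re := abs_mul_abs_self _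
  have qq : |w.im| * |w.im| = w.im * w.im := abs_mul_abs_self _
  have h3 : (Real.sqrt 3 * |w.im|) * (Real.sqrt 3 * |w.im|) ≤ (1 - |w.re|) * (1 - |w.re|) := by
    apply mul_self_le_mul_self (by positivity)
    linarith
  have h4 : (Real.sqrt 3 * |w.im|) * (Real.sqrt 3 * |w.im|) = 3 * (w.im * w.im) := by
    calc (Real.sqrt 3 * |w.im|) * (Real.sqrt 3 * |w.im|)
        = (Real.sqrt 3 * Real.sqrt 3) * (|w.im| * |w.im|) := by ring
      _ = _ := by rw [hs, qq]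
  have h5 : |w.re| * (2 * |w.re| - 1) = 0 := by nlinarith
  rcases mul_eq_zero.1 h5 with h6 | h6
  · have hre : w.re = 0 := abs_eq_zero.1 h6
    have h7 : (w.im - Real.sqrt 3 / 3) * (w.im + Real.sqrt 3 / 3) = 0 := by
      rw [hre] at hnn
      linear_combination hnn - 1 / 9 * hs
    rcases mul_eq_zero.1 h7 with h8 | h8
    · left; exact ⟨hre, by linarith⟩
    · right; left; exact ⟨hre, by linarith⟩
  · have h7 : |w.re| = 1 / 2 := by linarith
    have h8 : w.re * w.re = 1 / 4 := by rw [← pp, h7]; norm_num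
    have h9 : (w.im - Real.sqrt 3 / 6) * (w.im + Real.sqrt 3 / 6) = 0 := by
      linear_combination hnn - h8 - 1 / 36 * hs
    rcases (abs_eq (by norm_num : (0 : ℝ) ≤ 1 / 2)).1 h7 with h10 | h10 <;>
      rcases mul_eq_zero.1 h9 with h11 | h11
    · right; right; left; exact ⟨h10, by linarith⟩
    · right; right; right; left; exact ⟨h10, by linarith⟩
    · right; right; right; right; left; exact ⟨h10, by linarith⟩
    · right; right; right; right; right; exact ⟨h10, by linarith⟩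

/-- the six rotations -/
def VL_rot (a : ℂ) : Prop :=
  (a.re = 1 ∧ a.im = 0) ∨ (a.re = -1 ∧ a.im = 0) ∨
  (a.re = 1 / 2 ∧ a.im = Real.sqrt 3 / 2) ∨ (a.re = 1 / 2 ∧ a.im = -(Real.sqrt 3 / 2)) ∨
  (a.re = -(1 / 2) ∧ a.im = Real.sqrt 3 / 2) ∨ (a.re = -(1 / 2) ∧ a.im = -(Real.sqrt 3 / 2))

theorem VL_a (a w w' : ℂ) (hw : w ∈ Hx) (hn : ‖w‖ ^ 2 = 1 / 3) (hw' : w' ∈ Hx)
    (hn' : ‖w'‖ ^ 2 = 1 / 3) (ha : a * w = w') : VL_rot a := by
  have hs := VL_s
  have hnn : w.re * w.re + w.im * w.im = 1 / 3 := by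
    rw [← hn, Complex.sq_norm, Complex.normSq_apply]
  have e1 : a.re * w.re - a.im * w.im = w'.re := by rw [← ha, Complex.mul_re]
  have e2 : a.re * w.im + a.im * w.re = w'.im := by rw [← ha, Complex.mul_im]
  have h1 : a.re = 3 * (w'.re * w.re + w'.im * w.im) := by
    rw [← e1, ← e2]
    linear_combination (-3 * a.re) * hnn
  have h2 : a.im = 3 * (w'.im * w.re - w'.re * w.im) := by
    rw [← e1, ← e2]
    linear_combination (-3 * a.im) * hnn
  unfold VL_rot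
  rcases VL_vert w hw hn with ⟨x1, x2⟩ | ⟨x1, x2⟩ | ⟨x1, x2⟩ | ⟨x1, x2⟩ | ⟨x1, x2⟩ | ⟨x1, x2⟩ <;>
  rcases VL_vert w' hw' hn' with ⟨y1, y2⟩ | ⟨y1, y2⟩ | ⟨y1, y2⟩ | ⟨y1, y2⟩ | ⟨y1, y2⟩ |
    ⟨y1, y2⟩ <;>
  rw [x1, x2, y1, y2] at h1 h2 <;>
  first
  | (left; constructor <;> linarith)
  | (right; left; constructor <;> linarith)
  | (right; right; left; constructor <;> linarith)
  | (right; right; right; left; constructor <;> linarith)
  | (right; right; right; right; left; constructor <;> linarith)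
  | (right; right; right; right; right; constructor <;> linarith)

theorem VL_mem_iff (z : ℂ) : z ∈ Hx ↔ |z.re| ≤ 1 / 2 ∧ |z.re| + |Real.sqrt 3 * z.im| ≤ 1 := by
  rw [abs_mul, abs_of_pos VL_spos]
  rfl

theorem VL_rot_mem (a z : ℂ) (ha : VL_rot a) (hz : z ∈ Hx) : a * z ∈ Hx := by
  have hs := VL_s
  rw [VL_mem_iff] at hz ⊢
  rw [Complex.mul_re, Complex.mul_im]
  obtain ⟨h1, h2⟩ := hz
  obtain ⟨V, hV⟩ : ∃ V, V = Real.sqrt 3 * z.im := ⟨_, rfl⟩
  rw [← hV] at h2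
  have h1' := abs_le.1 h1
  have a1 : z.re + V ≤ 1 := by linarith [le_abs_self z.re, le_abs_self V]
  have a2 : z.re - V ≤ 1 := by linarith [le_abs_self z.re, neg_abs_le V]
  have a3 : -z.re + V ≤ 1 := by linarith [neg_abs_le z.re, le_abs_self V]
  have a4 : -z.re - V ≤ 1 := by linarith [neg_abs_le z.re, neg_abs_le V]
  have key : ∀ u' V' : ℝ, u' ≤ 1 / 2 → -u' ≤ 1 / 2 → u' + V' ≤ 1 → u' - V' ≤ 1 → -u' + V' ≤ 1 →
      -u' - V' ≤ 1 → |u'| ≤ 1 / 2 ∧ |u'| + |V'| ≤ 1 := by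
    intro u' V' b1 b2 b3 b4 b5 b6
    rcases abs_cases u' with ⟨c1, _⟩ | ⟨c1, _⟩ <;> rcases abs_cases V' with ⟨c2, _⟩ | ⟨c2, _⟩ <;>
      rw [c1, c2] <;> constructor <;> linarith
  have e : Real.sqrt 3 * (a.re * z.im + a.im * z.re) = a.re * V + Real.sqrt 3 * a.im * z.re := by
    rw [hV]; ring
  rw [e]
  rcases ha with ⟨x1, x2⟩ | ⟨x1, x2⟩ | ⟨x1, x2⟩ | ⟨x1, x2⟩ | ⟨x1, x2⟩ | ⟨x1, x2⟩
  · rw [x1, x2]
    apply key <;> linarith
  · rw [x1, x2]
    apply key <;> linarith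
  · have f1 : a.re * z.re - a.im * z.im = (z.re - V) / 2 := by rw [x1, x2, hV]; ring
    have f2 : a.re * V + Real.sqrt 3 * a.im * z.re = (V + 3 * z.re) / 2 := by
      rw [x1, x2]; linear_combination (z.re / 2) * hs
    rw [f1, f2]
    apply key <;> linarith
  · have f1 : a.re * z.re - a.im * z.im = (z.re + V) / 2 := by rw [x1, x2, hV]; ring
    have f2 : a.re * V + Real.sqrt 3 * a.im * z.re = (V - 3 * z.re) / 2 := by
      rw [x1, x2]; linear_combination (-z.re / 2) * hs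
    rw [f1, f2]
    apply key <;> linarith
  · have f1 : a.re * z.re - a.im * z.im = (-z.re - V) / 2 := by rw [x1, x2, hV]; ring
    have f2 : a.re * V + Real.sqrt 3 * a.im * z.re = (-V + 3 * z.re) / 2 := by
      rw [x1, x2]; linear_combination (z.re / 2) * hs
    rw [f1, f2]
    apply key <;> linarith
  · have f1 : a.re * z.re - a.im * z.im = (-z.re + V) / 2 := by rw [x1, x2, hV]; ring
    have f2 : a.re * V + Real.sqrt 3 * a.im * z.re = (-V - 3 * z.re) / 2 := by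
      rw [x1, x2]; linear_combination (-z.re / 2) * hs
    rw [f1, f2]
    apply key <;> linarith

theorem VL_rot_ctr (a : ℂ) (ha : VL_rot a) (c : Cell) : ∃ d : Cell, a * ctr c = ctr d := by
  have hs := VL_s
  have key : ∀ m k l : ℤ, a.re = ((m : ℝ) + l) / 2 → a.im = Real.sqrt 3 * (k / 2) →
      (m : ℝ) - l = k → a * ctr c = ctr (m * c.1 - k * c.2, k * c.1 + l * c.2) := by
    intro m k l h1 h2 h3
    apply Complex.ext
    · rw [Complex.mul_re, h1, h2]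
      simp only [ctr]
      push_cast
      linear_combination (-(k : ℝ) * c.2 / 4) * hs + (-(c.1 : ℝ) / 2 - (c.2 : ℝ) / 4) * h3
    · rw [Complex.mul_im, h1, h2]
      simp only [ctr]
      push_cast
      linear_combination (Real.sqrt 3 * c.2 / 4) * h3
  rcases ha with ⟨x1, x2⟩ | ⟨x1, x2⟩ | ⟨x1, x2⟩ | ⟨x1, x2⟩ | ⟨x1, x2⟩ | ⟨x1, x2⟩
  · exact ⟨_, key 1 0 1 (by rw [x1]; norm_num) (by rw [x2]; norm_num) (by norm_num)⟩
  · exact ⟨_, key (-1) 0 (-1) (by rw [x1]; norm_num) (by rw [x2]; norm_num) (by norm_num)⟩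
  · exact ⟨_, key 1 1 0 (by rw [x1]; norm_num) (by rw [x2]; push_cast; ring) (by norm_num)⟩
  · exact ⟨_, key 0 (-1) 1 (by rw [x1]; norm_num) (by rw [x2]; push_cast; ring) (by norm_num)⟩
  · exact ⟨_, key 0 1 (-1) (by rw [x1]; norm_num) (by rw [x2]; push_cast; ring) (by norm_num)⟩
  · exact ⟨_, key (-1) (-1) 0 (by rw [x1]; norm_num) (by rw [x2]; push_cast; ring) (by norm_num)⟩

theorem VL_conj_mem (z : ℂ) (hz : z ∈ Hx) : (starRingEnd ℂ) z ∈ Hx := by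
  rw [VL_mem_iff] at hz ⊢
  rw [Complex.conj_re, Complex.conj_im, mul_neg, abs_neg]
  exact hz

theorem VL_conj_ctr (c : Cell) : (starRingEnd ℂ) (ctr c) = ctr (c.1 - c.2, -c.2) := by
  apply Complex.ext
  · rw [Complex.conj_re]
    simp only [ctr]
    push_cast
    ring
  · rw [Complex.conj_im]
    simp only [ctr]
    push_cast
    ring

theorem VL_main (L : ℂ ≃ₗᵢ[ℝ] ℂ) (w : ℂ) (hw : w ∈ Hx) (hn : ‖w‖ ^ 2 = 1 / 3) (hL : L w ∈ Hx) :
    (∀ z ∈ Hx, L z ∈ Hx) ∧ ∀ c : Cell, ∃ d : Cell, L (ctr c) = ctr d := by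
  have hn' : ‖L w‖ ^ 2 = 1 / 3 := by rw [LinearIsometryEquiv.norm_map, hn]
  obtain ⟨a, ha⟩ := linear_isometry_complex L
  rcases ha with ha | ha
  · have h1 : ∀ z, L z = (a : ℂ) * z := by intro z; rw [ha]; rfl
    have hr : VL_rot (a : ℂ) := VL_a a w (L w) hw hn hL hn' (h1 w).symm
    exact ⟨fun z hz => by rw [h1]; exact VL_rot_mem _ _ hr hz,
      fun c => by rw [h1]; exact VL_rot_ctr _ hr c⟩
  · have h1 : ∀ z, L z = (a : ℂ) * (starRingEnd ℂ) z := by intro z; rw [ha]; rfl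
    have hr : VL_rot (a : ℂ) := VL_a a ((starRingEnd ℂ) w) (L w) (VL_conj_mem w hw)
      (by rw [Complex.norm_conj, hn]) hL hn' (h1 w).symm
    exact ⟨fun z hz => by rw [h1]; exact VL_rot_mem _ _ hr (VL_conj_mem z hz),
      fun c => by rw [h1, VL_conj_ctr]; exact VL_rot_ctr _ hr _⟩

theorem T_VL : S_VL := by
  intro L w hw hn hL
  obtain ⟨h1, h2⟩ := VL_main L w hw hn hL
  refine ⟨?_, h2⟩
  have hn' : ‖L w‖ ^ 2 = 1 / 3 := by rw [LinearIsometryEquiv.norm_map, hn]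
  obtain ⟨h3, -⟩ := VL_main L.symm (L w) hL hn' (by rw [LinearIsometryEquiv.symm_apply_apply]; exact hw)
  apply Set.Subset.antisymm
  · rintro _ ⟨z, hz, rfl⟩
    exact h1 z hz
  · intro z hz
    exact ⟨L.symm z, h3 z hz, LinearIsometryEquiv.apply_symm_apply _ _⟩

end Pool.Agent.H181R2
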