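import Pool.Agent.H181R2.Stubs

set_option autoImplicit false

namespace Pool.Agent.H181R2

theorem WB_mul (g : Fin 12) (a b x y : ℤ) :
    pl g a b * pl 0 x y = pl g (a + (lin g x y).1) (b + (lin g x y).2) := by
  apply Equiv.ext
  intro c
  rw [Equiv.Perm.mul_apply, pl_apply, pl_apply, pl_apply]
  fin_cases g <;> simp [lin] <;> constructor <;> ring

theorem WB_one : pl 0 0 0 = 1 := by
  apply Equiv.ext
  intro c
  rw [pl_apply]
  simp [lin]

/-- the tiles of the half plane which are not in the vertical strip are of type A there -/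
theorem WB_HH (N : ℤ) (q : Equiv.Perm Cell) (h : q ∈ HH N) :
    (∃ k : ℤ, q = pl 0 0 (k * N)) ∨ ∀ m : ℤ, q * pl 0 (m * N) 0 ∈ HH N := by
  rcases h with ⟨k, hk⟩ | ⟨i, k, hk⟩ | ⟨i, k, hk⟩
  · exact Or.inl ⟨k, hk⟩
  · right
    intro m
    right
    left
    refine ⟨i, k - m, ?_⟩
    rw [hk, WB_mul]
    simp only [lin]
    congr 1
    · ring
    · ring
  · right
    intro m
    right
    right
    refine ⟨i, k + m, ?_⟩
    rw [hk, WB_mul]
    simp only [lin]
    congr 1
    · ring
    · ring

theorem WB_strip (N k m : ℤ) : pl 0 0 (k * N) * pl 0 0 (m * N) = pl 0 0 ((k + m) * N) := by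
  rw [WB_mul]
  simp only [lin]
  congr 1
  ring

theorem T_WB (h1 : S_P1) (h2 : S_TW) (h3 : S_MG) : S_WB := by
  intro N c φ p hN hφ
  have hT : Til N (Wall N φ) := by
    rcases hφ with h | h
    · rw [h]; exact (h2 N c hN).1
    · rw [h]; exact (h2 N c hN).2
  constructor
  · intro hB
    have hp : p ∈ Wall N φ := by
      have := hB 0
      rwa [zero_mul, WB_one, mul_one] at this
    have hA : ¬ TyA N (Wall N φ) p := fun hA => (h1 N _ p hN hT hp).2 ⟨hA, hB⟩
    rcases hp with hp | hp
    · rcases WB_HH N p hp with h | h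
      · exact Or.inl h
      · exact absurd (fun m => Or.inl (h m)) hA
    · rcases WB_HH N _ hp with h | h
      · obtain ⟨k, hk⟩ := h
        right
        refine ⟨k, ?_⟩
        rw [← hk, mul_inv_cancel_left]
      · refine absurd (fun m => Or.inr ?_) hA
        show φ⁻¹ * (p * pl 0 (m * N) 0) ∈ HH N
        rw [← mul_assoc]
        exact h m
  · rintro (⟨k, rfl⟩ | ⟨k, rfl⟩)
    · intro m
      left
      left
      exact ⟨k + m, WB_strip N k m⟩
    · intro m
      right
      left
      refine ⟨k + m, ?_⟩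
      rw [← WB_strip, mul_assoc, inv_mul_cancel_left]

end Pool.Agent.H181R2
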