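import Pool.Agent.H181R2.TreeThms
import Pool.Agent.H181R2.T_AS
import Pool.Agent.H181R2.T_P1
import Pool.Agent.H181R2.T_P2
import Pool.Agent.H181R2.T_P3
import Pool.Agent.H181R2.T_P4
import Pool.Agent.H181R2.T_P5
import Pool.Agent.H181R2.T_P6
import Pool.Agent.H181R2.T_CL
import Pool.Agent.H181R2.T_CP
import Pool.Agent.H181R2.T_TP
import Pool.Agent.H181R2.T_HC
import Pool.Agent.H181R2.T_TW
import Pool.Agent.H181R2.T_WB
import Pool.Agent.H181R2.T_WE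
import Pool.Agent.H181R2.T_NP
import Pool.Agent.H181R2.T_NW
import Pool.Agent.H181R2.T_CC
import Pool.Agent.H181R2.T_HB
import Pool.Agent.H181R2.T_SEP
import Pool.Agent.H181R2.T_LF
import Pool.Agent.H181R2.T_V3
import Pool.Agent.H181R2.T_CE
import Pool.Agent.H181R2.T_VL
import Pool.Agent.H181R2.T_EXT
import Pool.Agent.H181R2.T_LI
import Pool.Agent.H181R2.T_N2
import Pool.Agent.H181R2.T_HU
import Pool.Agent.H181R2.T_UI
import Pool.Agent.H181R2.T_R1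
import Pool.Agent.H181R2.T_R2
import Pool.Agent.H181R2.T_R3
import Pool.Agent.H181R2.T_R4
import Pool.Agent.H181R2.T_K1
import Pool.Agent.H181R2.T_K2
import Pool.Agent.H181R2.T_K3
import Pool.Agent.H181R2.T_K4
import Pool.Agent.H181R2.T_K5
import Pool.Agent.H181R2.T_DK
import Pool.Agent.H181R2.T_TR
import Pool.Agent.H181R2.T_MM

set_option autoImplicit false

namespace Pool.Agent.H181R2

theorem A_P1 : S_P1 := T_P1 T_D0 T_T1a T_T1b T_T2a T_T2b T_FR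
theorem A_P2 : S_P2 := T_P2 T_TA T_FR A_P1 T_MG
theorem A_P3 : S_P3 := T_P3 T_TS T_FR A_P1 T_MG
theorem A_P4 : S_P4 := T_P4 T_TB T_FR A_P1 A_P2 T_MG
theorem A_P5 : S_P5 := T_P5 A_P2 A_P3 A_P1 T_MG T_TP
theorem A_P6 : S_P6 := T_P6 A_P1 A_P2 A_P3 A_P4 T_CP T_HC T_MG
theorem A_CL : S_CL := T_CL T_FR A_P1 A_P5 A_P6
theorem A_TW : S_TW := T_TW T_HC T_MG
theorem A_WB : S_WB := T_WB A_P1 A_TW T_MG
theorem A_WE : S_WE := T_WE T_MG
theorem A_NP : S_NP := T_NP A_WB A_P1 T_TP A_TW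
theorem A_NW : S_NW := T_NW A_WB T_MG
theorem A_CC : S_CC := T_CC A_CL T_TP A_TW A_WE A_NP A_NW
theorem A_SEP : S_SEP := T_SEP T_HB
theorem A_LF : S_LF := T_LF T_HB A_SEP
theorem A_V3 : S_V3 := T_V3 T_HB A_LF
theorem A_EXT : S_EXT := T_EXT T_MG
theorem A_LI : S_LI := T_LI T_HB T_VL
theorem A_N2 : S_N2 := T_N2 T_HB A_SEP A_V3 T_CE T_VL
theorem A_UI : S_UI := T_UI T_HB
theorem A_HU : S_HU := T_HU A_N2 A_EXT T_MG A_UI T_HB
theorem A_R1 : S_R1 := T_R1 A_UI A_EXT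
theorem A_R2 : S_R2 := T_R2 A_UI A_HU A_LI T_HB
theorem A_AS : S_AS := T_AS T_MG
theorem A_R3 : S_R3 := T_R3 A_UI A_HU A_LI A_AS T_HB
theorem A_R4 : S_R4 := T_R4 A_EXT
theorem A_K3 : S_K3 := T_K3 T_K1 T_K2
theorem A_DK : S_DK := T_DK A_K3 T_K4 T_K5
theorem A_MM : S_MM := T_MM A_CC A_R1 A_R2 A_R3 A_R4 A_DK

/-- For every `n ≥ 5` there is a tile in the Euclidean plane with exactly `1 + n + ⌈n/2⌉`
monohedral tilings. -/
theorem morphic_E (n : ℕ) (hn : 5 ≤ n) :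
    Morphic (EuclideanSpace ℝ (Fin 2)) (1 + n + (n + 1) / 2) := T_TR _ (A_MM n hn)

theorem morphic_r (r : ℕ) (hr : 9 ≤ r) (h3 : r % 3 ≠ 2) :
    Morphic (EuclideanSpace ℝ (Fin 2)) r := by
  have h : ∃ n, 5 ≤ n ∧ r = 1 + n + (n + 1) / 2 := by
    rcases Nat.lt_or_ge (r % 3) 1 with h0 | h0
    · exact ⟨2 * (r / 3) - 1, by omega, by omega⟩
    · exact ⟨2 * (r / 3), by omega, by omega⟩
  obtain ⟨n, hn, rfl⟩ := h
  exact morphic_E n hn

end Pool.Agent.H181R2
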