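import Pool.Agent.H181R2.Defs

set_option autoImplicit false

namespace Pool.Agent.H181R2

/-! ## Tree statements (helper181 proves these with a verified checker) -/

def S_D0 : Prop := ∀ (N : ℤ) (𝒯 : Set (Equiv.Perm Cell)), 5 ≤ N → Til N 𝒯 → 1 ∈ 𝒯 →
  pl 0 N 0 ∈ 𝒯 ∨ pl 0 0 (-N) ∈ 𝒯
def S_T1a : Prop := ∀ (N : ℤ) (𝒯 : Set (Equiv.Perm Cell)), 5 ≤ N → Til N 𝒯 → 1 ∈ 𝒯 →
  pl 0 N 0 ∈ 𝒯 → pl 0 N (-N) ∈ 𝒯 → False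
def S_T1b : Prop := ∀ (N : ℤ) (𝒯 : Set (Equiv.Perm Cell)), 5 ≤ N → Til N 𝒯 → 1 ∈ 𝒯 →
  pl 0 N 0 ∈ 𝒯 → pl 0 (-N) 0 ∈ 𝒯
def S_T2a : Prop := ∀ (N : ℤ) (𝒯 : Set (Equiv.Perm Cell)), 5 ≤ N → Til N 𝒯 → 1 ∈ 𝒯 →
  pl 0 0 (-N) ∈ 𝒯 → pl 0 N (-N) ∈ 𝒯 → False
def S_T2b : Prop := ∀ (N : ℤ) (𝒯 : Set (Equiv.Perm Cell)), 5 ≤ N → Til N 𝒯 → 1 ∈ 𝒯 →
  pl 0 0 (-N) ∈ 𝒯 → pl 0 0 N ∈ 𝒯
def S_TA : Prop := ∀ (N : ℤ) (𝒯 : Set (Equiv.Perm Cell)), 5 ≤ N → Til N 𝒯 → 1 ∈ 𝒯 →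
  pl 0 N 0 ∈ 𝒯 → pl 0 (-N) 0 ∈ 𝒯 → pl 11 (-1) (-2 * N) ∈ 𝒯
def S_TS : Prop := ∀ (N : ℤ) (𝒯 : Set (Equiv.Perm Cell)), 5 ≤ N → Til N 𝒯 → 1 ∈ 𝒯 →
  pl 0 N 0 ∈ 𝒯 → pl 11 (2 * N - 1) (2 * N) ∈ 𝒯 ∨ pl 5 (2 * N - 1) (2 * N) ∈ 𝒯
def S_TB : Prop := ∀ (N : ℤ) (𝒯 : Set (Equiv.Perm Cell)), 5 ≤ N → Til N 𝒯 → 1 ∈ 𝒯 →
  pl 0 0 N ∈ 𝒯 → pl 0 0 (-N) ∈ 𝒯 → pl 1 (-2 * N) (-1) ∈ 𝒯

/-! ## Combinatorics -/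

def S_MG : Prop := ∀ σ : Equiv.Perm Cell, σ ∈ G ↔ ∃ g a b, σ = pl g a b
def S_FR : Prop := ∀ (N : ℤ) (𝒯 : Set (Equiv.Perm Cell)) (g : Equiv.Perm Cell),
  Til N 𝒯 → g ∈ G → Til N (fr g 𝒯)
/-- the tile has no symmetry -/
def S_AS : Prop := ∀ (N : ℤ) (σ : Equiv.Perm Cell), 5 ≤ N → σ ∈ G →
  (∀ c, InT N (σ⁻¹ c) ↔ InT N c) → σ = 1
def S_P1 : Prop := ∀ (N : ℤ) (𝒯 : Set (Equiv.Perm Cell)) (p : Equiv.Perm Cell), 5 ≤ N →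
  Til N 𝒯 → p ∈ 𝒯 → (TyA N 𝒯 p ∨ TyB N 𝒯 p) ∧ ¬ (TyA N 𝒯 p ∧ TyB N 𝒯 p)
def S_P2 : Prop := ∀ (N : ℤ) (𝒯 : Set (Equiv.Perm Cell)) (p : Equiv.Perm Cell), 5 ≤ N →
  Til N 𝒯 → TyA N 𝒯 p → ∀ q ∈ Pp N, TyA N 𝒯 (p * q)
def S_P3 : Prop := ∀ (N : ℤ) (𝒯 : Set (Equiv.Perm Cell)) (p : Equiv.Perm Cell), 5 ≤ N →
  Til N 𝒯 → TyA N 𝒯 p →
  TyA N 𝒯 (p * pl 11 (2 * N - 1) (2 * N)) ∨ TyB N 𝒯 (p * pl 5 (2 * N - 1) (2 * N))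
def S_P4 : Prop := ∀ (N : ℤ) (𝒯 : Set (Equiv.Perm Cell)) (p : Equiv.Perm Cell), 5 ≤ N →
  Til N 𝒯 → TyB N 𝒯 p → ∀ q ∈ HH N, p * q ∈ 𝒯 ∧ ((∃ k : ℤ, q = pl 0 0 (k * N)) ∨ TyA N 𝒯 (p * q))
def S_P5 : Prop := ∀ (N : ℤ) (𝒯 : Set (Equiv.Perm Cell)), 5 ≤ N →
  Til N 𝒯 → 1 ∈ 𝒯 → (∀ p ∈ 𝒯, TyA N 𝒯 p) → 𝒯 = PP N
def S_P6 : Prop := ∀ (N : ℤ) (𝒯 : Set (Equiv.Perm Cell)), 5 ≤ N →
  Til N 𝒯 → TyB N 𝒯 1 → ∃ c : ℤ, 𝒯 = Wall N (rW N c) ∨ 𝒯 = Wall N (gW N c)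
/-- classification -/
def S_CL : Prop := ∀ (N : ℤ) (𝒯 : Set (Equiv.Perm Cell)), 5 ≤ N → Til N 𝒯 →
  ∃ g ∈ G, fr g 𝒯 = PP N ∨ ∃ c : ℤ, fr g 𝒯 = Wall N (rW N c) ∨ fr g 𝒯 = Wall N (gW N c)
/-- `Pp` covers all cells of the lower half plane -/
def S_CP : Prop := ∀ (N : ℤ) (c : Cell), 5 ≤ N → c.2 ≤ N - 1 → ∃ p ∈ Pp N, InT N (p⁻¹ c)
def S_TP : Prop := ∀ N : ℤ, 5 ≤ N → Til N (PP N)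
/-- `HH` covers exactly the cells with `x ≤ 2N-2`, each once -/
def S_HC : Prop := ∀ (N : ℤ), 5 ≤ N →
  (∀ c : Cell, c.1 ≤ 2 * N - 2 → ∃ p ∈ HH N, InT N (p⁻¹ c)) ∧
  (∀ c : Cell, ∀ p ∈ HH N, InT N (p⁻¹ c) → c.1 ≤ 2 * N - 2) ∧
  (∀ c : Cell, ∀ p ∈ HH N, ∀ q ∈ HH N, InT N (p⁻¹ c) → InT N (q⁻¹ c) → p = q)
def S_TW : Prop := ∀ (N c : ℤ), 5 ≤ N → Til N (Wall N (rW N c)) ∧ Til N (Wall N (gW N c))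
/-- the tiles of type B in the walls -/
def S_WB : Prop := ∀ (N c : ℤ) (φ p : Equiv.Perm Cell), 5 ≤ N → (φ = rW N c ∨ φ = gW N c) →
  (TyB N (Wall N φ) p ↔ (∃ k : ℤ, p = pl 0 0 (k * N)) ∨ ∃ k : ℤ, p = φ * pl 0 0 (k * N))
/-- equalities of walls -/
def S_WE : Prop := ∀ (N c k : ℤ), 5 ≤ N →
  Wall N (rW N (c + k * N)) = Wall N (rW N c) ∧ Wall N (gW N (c + k * N)) = Wall N (gW N c) ∧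
  Eqv (Wall N (gW N c)) (Wall N (gW N (4 * N - 3 - c)))
/-- non-equivalences -/
def S_NP : Prop := ∀ (N c : ℤ), 5 ≤ N → ¬ Eqv (PP N) (Wall N (rW N c)) ∧
  ¬ Eqv (PP N) (Wall N (gW N c)) ∧ ¬ Eqv (Wall N (rW N c)) (PP N) ∧ ¬ Eqv (Wall N (gW N c)) (PP N)
def S_NW : Prop := ∀ (N c d : ℤ), 5 ≤ N →
  (Eqv (Wall N (rW N c)) (Wall N (rW N d)) → N ∣ c - d) ∧
  ¬ Eqv (Wall N (rW N c)) (Wall N (gW N d)) ∧ ¬ Eqv (Wall N (gW N c)) (Wall N (rW N d)) ∧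
  (Eqv (Wall N (gW N c)) (Wall N (gW N d)) → N ∣ c - d ∨ N ∣ c + d + 3)
/-- the combinatorial theorem -/
def S_CC : Prop := ∀ n : ℕ, 5 ≤ n → ∃ S : Fin (1 + n + (n + 1) / 2) → Set (Equiv.Perm Cell),
  (∀ i, Til n (S i)) ∧ (∀ i j, i ≠ j → ¬ Eqv (S i) (S j)) ∧
  (∀ 𝒯, Til n 𝒯 → ∃ i, Eqv (S i) 𝒯)

/-! ## Hexagons in `ℂ` -/

/-- `ℋ` is a tiling of the plane by copies of `Hx`. -/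
def HexFam (ℋ : Set (Set ℂ)) : Prop := IsTil Hx ℋ

/-- basic geometry of the hexagon -/
def S_HB : Prop := Metric.ball (0 : ℂ) (1 / 2) ⊆ interior Hx ∧
  Hx ⊆ Metric.closedBall (0 : ℂ) (1 / Real.sqrt 3) ∧ IsCompact Hx ∧ Convex ℝ Hx ∧
  closure (interior Hx) = Hx ∧ interior Hx = {z | |z.re| < 1 / 2 ∧ |z.re| + Real.sqrt 3 * |z.im| < 1}
/-- centres of two members are at distance at least `1` -/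
def S_SEP : Prop := ∀ F F' : ℂ ≃ᵢ ℂ, Disjoint (interior (F '' Hx)) (interior (F' '' Hx)) →
  1 ≤ dist (F 0) (F' 0)
/-- locally only the members through the point matter -/
def S_LF : Prop := ∀ (ℋ : Set (Set ℂ)) (v : ℂ), HexFam ℋ →
  ∃ ε > 0, ∀ z ∈ Metric.ball v ε, ∃ A ∈ ℋ, v ∈ A ∧ z ∈ A
/-- three members meet at the top vertex -/
def S_V3 : Prop := ∀ (ℋ : Set (Set ℂ)), HexFam ℋ → Hx ∈ ℋ →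
  ∃ A ∈ ℋ, ∃ B ∈ ℋ, A ≠ Hx ∧ B ≠ Hx ∧ A ≠ B ∧
    (⟨0, 1 / Real.sqrt 3⟩ : ℂ) ∈ A ∧ (⟨0, 1 / Real.sqrt 3⟩ : ℂ) ∈ B
/-- the numerical lemma on the centres -/
def S_CE : Prop := ∀ x₁ y₁ x₂ y₂ h : ℝ, 0 < h → 3 * h ^ 2 = 1 → 1 ≤ x₁ ^ 2 + y₁ ^ 2 →
  1 ≤ x₂ ^ 2 + y₂ ^ 2 → 1 ≤ (x₁ - x₂) ^ 2 + (y₁ - y₂) ^ 2 →
  x₁ ^ 2 + (y₁ - h) ^ 2 ≤ 1 / 3 → x₂ ^ 2 + (y₂ - h) ^ 2 ≤ 1 / 3 →
  y₁ = 3 * h / 2 ∧ y₂ = 3 * h / 2 ∧ ((x₁ = 1 / 2 ∧ x₂ = -1 / 2) ∨ (x₁ = -1 / 2 ∧ x₂ = 1 / 2))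
/-- an isometry of the lattice type, as a map of `ℂ` -/
def LatIso (F : ℂ ≃ᵢ ℂ) (σ : Equiv.Perm Cell) : Prop :=
  (∀ c, F (ctr c) = ctr (σ c)) ∧ ∀ c, F '' hexAt c = hexAt (σ c)
/-- a linear isometry mapping a vertex of the hexagon to a vertex is of the lattice type -/
def S_VL : Prop := ∀ (L : ℂ ≃ₗᵢ[ℝ] ℂ) (w : ℂ), w ∈ Hx → ‖w‖ ^ 2 = 1 / 3 → L w ∈ Hx →
  L '' Hx = Hx ∧ ∀ c : Cell, ∃ d : Cell, L (ctr c) = ctr d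
/-- lattice isometries extend to the plane -/
def S_EXT : Prop := ∀ σ ∈ G, ∃ F : ℂ ≃ᵢ ℂ, LatIso F σ
/-- an isometry mapping one lattice hexagon to a lattice hexagon is a lattice isometry -/
def S_LI : Prop := ∀ (F : ℂ ≃ᵢ ℂ) (c d : Cell), F '' hexAt c = hexAt d → ∃ σ ∈ G, LatIso F σ
/-- the neighbours `(1,1)` and `(0,1)` -/
def S_N2 : Prop := ∀ (ℋ : Set (Set ℂ)), HexFam ℋ → Hx ∈ ℋ → hexAt (1, 1) ∈ ℋ ∧ hexAt (0, 1) ∈ ℋ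
/-- uniqueness of the hexagonal tiling -/
def S_HU : Prop := ∀ (ℋ : Set (Set ℂ)) (c : Cell), HexFam ℋ → hexAt c ∈ ℋ → ℋ = Set.range hexAt
/-- interiors of unions of lattice hexagons -/
def S_UI : Prop := (⋃₀ Set.range hexAt = Set.univ) ∧
  (∀ c d : Cell, c ≠ d → Disjoint (interior (hexAt c)) (interior (hexAt d))) ∧
  (∀ C D : Set Cell, Disjoint C D → Disjoint (interior {z | ∃ c ∈ C, z ∈ hexAt c})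
    (interior {z | ∃ c ∈ D, z ∈ hexAt c}))

/-! ## From real tilings to lattice tilings -/

/-- the real tiling of a lattice tiling -/
def RT (N : ℤ) (𝒯 : Set (Equiv.Perm Cell)) : Set (Set ℂ) := plR N '' 𝒯

def S_R1 : Prop := ∀ (N : ℤ) (𝒯 : Set (Equiv.Perm Cell)), 5 ≤ N → Til N 𝒯 →
  IsTil (TR N) (RT N 𝒯)
def S_R2 : Prop := ∀ (N : ℤ) (S : Set (Set ℂ)), 5 ≤ N → IsTil (TR N) S →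
  ∃ (F : ℂ ≃ᵢ ℂ) (𝒯 : Set (Equiv.Perm Cell)), Til N 𝒯 ∧ Set.image (fun A : Set ℂ => F '' A) (RT N 𝒯) = S
def S_R3 : Prop := ∀ (N : ℤ) (𝒯 𝒯' : Set (Equiv.Perm Cell)) (F : ℂ ≃ᵢ ℂ), 5 ≤ N →
  Til N 𝒯 → Til N 𝒯' → Set.image (fun A : Set ℂ => F '' A) (RT N 𝒯) = RT N 𝒯' → Eqv 𝒯 𝒯'
/-- equivalent lattice tilings give congruent real tilings -/
def S_R4 : Prop := ∀ (N : ℤ) (𝒯 𝒯' : Set (Equiv.Perm Cell)), Eqv 𝒯 𝒯' →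
  ∃ F : ℂ ≃ᵢ ℂ, Set.image (fun A : Set ℂ => F '' A) (RT N 𝒯) = RT N 𝒯'

/-! ## The tile is a disk -/

/-- the unit square -/
def Sq : Set (ℝ × ℝ) := Set.Icc 0 1 ×ˢ Set.Icc 0 1
/-- widening of the top edge -/
def S_K1 : Prop := ∀ s t : ℝ, 0 ≤ s → s < t → t ≤ 1 → ∃ e : Sq ≃ₜ Sq,
  (∀ p : Sq, (p.1.2 = 1 ∧ s ≤ p.1.1 ∧ p.1.1 ≤ t) ↔ (e p).1.2 = 1) ∧
  (∀ p : Sq, p.1.2 = 0 ↔ (e p).1.2 = 0)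
/-- `A` is a disk whose subset `J` is the top edge -/
def TopDisk (A J : Set (ℝ × ℝ)) : Prop := ∃ e : A ≃ₜ Sq, ∀ p : A, p.1 ∈ J ↔ (e p).1.2 = 1
/-- `A` is a disk whose subsets `I`, `J` are the bottom and the top edge -/
def BotTop (A I J : Set (ℝ × ℝ)) : Prop :=
  ∃ e : A ≃ₜ Sq, (∀ p : A, p.1 ∈ I ↔ (e p).1.2 = 0) ∧ ∀ p : A, p.1 ∈ J ↔ (e p).1.2 = 1
/-- gluing -/
def S_K2 : Prop := ∀ A B I J : Set (ℝ × ℝ), IsClosed A → IsClosed B → A ∩ B = I → TopDisk A I →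
  BotTop B I J → J ∩ A = ∅ → TopDisk (A ∪ B) J
/-- the stack of the strips between the graphs `g i` and `g (i+1)` over `[L i, R i]`, `i ≤ n` -/
def Stack (g : ℕ → ℝ → ℝ) (L R : ℕ → ℝ) (n : ℕ) : Set (ℝ × ℝ) :=
  {p | ∃ i ≤ n, L i ≤ p.1 ∧ p.1 ≤ R i ∧ g i p.1 ≤ p.2 ∧ p.2 ≤ g (i + 1) p.1}
def S_K3 : Prop := ∀ (g : ℕ → ℝ → ℝ) (L R : ℕ → ℝ) (n : ℕ), (∀ i, Continuous (g i)) →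
  (∀ i x, g i x < g (i + 1) x) →
  (∀ i ≤ n, L i < R i) → (∀ i < n, max (L i) (L (i + 1)) < min (R i) (R (i + 1))) →
  TopDisk (Stack g L R n) {p | L n ≤ p.1 ∧ p.1 ≤ R n ∧ p.2 = g (n + 1) p.1}
/-- the tile is a stack -/
def S_K4 : Prop := ∀ N : ℤ, 5 ≤ N → ∃ (g : ℕ → ℝ → ℝ) (L R : ℕ → ℝ) (n : ℕ),
  (∀ i, Continuous (g i)) ∧ (∀ i x, g i x < g (i + 1) x) ∧
  (∀ i ≤ n, L i < R i) ∧ (∀ i < n, max (L i) (L (i + 1)) < min (R i) (R (i + 1))) ∧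
  Nonempty (TR N ≃ₜ Stack g L R n)
def S_K5 : Prop := Nonempty (Sq ≃ₜ Metric.closedBall (0 : EuclideanSpace ℝ (Fin 2)) 1)
def S_DK : Prop := ∀ N : ℤ, 5 ≤ N →
  Nonempty (TR N ≃ₜ Metric.closedBall (0 : EuclideanSpace ℝ (Fin 2)) 1)

/-! ## Assembly -/

def S_TR : Prop := ∀ r : ℕ, Morphic ℂ r → Morphic (EuclideanSpace ℝ (Fin 2)) r
def S_MM : Prop := ∀ n : ℕ, 5 ≤ n → Morphic ℂ (1 + n + (n + 1) / 2)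

end Pool.Agent.H181R2
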