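import Pool.Agent.H181R2.Stubs

set_option autoImplicit false

namespace Pool.Agent.H181R2

theorem T_FR : S_FR := by
  intro N 𝒯 g hT hg
  refine ⟨?_, ?_, ?_⟩
  · intro p hp
    exact (Subgroup.mul_mem_cancel_left G hg).1 (hT.sub _ hp)
  · intro c
    obtain ⟨q, hq, hc⟩ := hT.cov (g c)
    refine ⟨g⁻¹ * q, ?_, ?_⟩
    · show g * (g⁻¹ * q) ∈ 𝒯
      rw [mul_inv_cancel_left]
      exact hq
    · have e : (g⁻¹ * q)⁻¹ c = q⁻¹ (g c) := by
        rw [mul_inv_rev, inv_inv, Equiv.Perm.mul_apply]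
      rw [e]
      exact hc
  · intro p hp q hq c h1 h2
    have e : ∀ s : Equiv.Perm Cell, (g * s)⁻¹ (g c) = s⁻¹ c := by
      intro s
      rw [mul_inv_rev, Equiv.Perm.mul_apply]
      simp
    have h3 := hT.dis (g * p) hp (g * q) hq (g c) (by rw [e]; exact h1) (by rw [e]; exact h2)
    exact mul_left_cancel h3

end Pool.Agent.H181R2
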