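import Pool.Agent.H181R2.Stubs

set_option autoImplicit false

namespace Pool.Agent.H181R2

theorem MG_bound (x y : ℤ) (h : x * x - x * y + y * y = 1) :
    (-1 ≤ x ∧ x ≤ 1) ∧ (-1 ≤ y ∧ y ≤ 1) := by
  refine ⟨⟨?_, ?_⟩, ⟨?_, ?_⟩⟩
  · nlinarith [sq_nonneg (2 * y - x)]
  · nlinarith [sq_nonneg (2 * y - x)]
  · nlinarith [sq_nonneg (2 * x - y)]
  · nlinarith [sq_nonneg (2 * x - y)]

theorem MG_pair (a1 b1 a2 b2 : ℤ) (h1 : a1 * a1 - a1 * b1 + b1 * b1 = 1)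
    (h2 : a2 * a2 - a2 * b2 + b2 * b2 = 1)
    (h3 : (a1 - a2) * (a1 - a2) - (a1 - a2) * (b1 - b2) + (b1 - b2) * (b1 - b2) = 3) :
    ∃ g : Fin 12, lin g 1 0 = (a1, b1) ∧ lin g 0 1 = (a2, b2) := by
  obtain ⟨⟨p1, p2⟩, ⟨p3, p4⟩⟩ := MG_bound _ _ h1
  obtain ⟨⟨p5, p6⟩, ⟨p7, p8⟩⟩ := MG_bound _ _ h2
  interval_cases a1 <;> interval_cases b1 <;> (try (exfalso; revert h1; norm_num; done)) <;>
    interval_cases a2 <;> interval_cases b2 <;> (try (exfalso; revert h2; norm_num; done)) <;>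
    (try (exfalso; revert h3; norm_num; done)) <;> decide

theorem MG_lin (g : Fin 12) (p q x y : ℤ)
    (h1 : 2 * p * (lin g 1 0).1 - p * (lin g 1 0).2 - q * (lin g 1 0).1 + 2 * q * (lin g 1 0).2 = 2 * x - y)
    (h2 : 2 * p * (lin g 0 1).1 - p * (lin g 0 1).2 - q * (lin g 0 1).1 + 2 * q * (lin g 0 1).2 = 2 * y - x) :
    (p, q) = lin g x y := by
  fin_cases g <;> simp only [lin] at h1 h2 ⊢ <;> simp only [Prod.mk.injEq] <;> constructor <;> linarith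

theorem T_MG : S_MG := by
  intro σ
  constructor
  · intro hσ
    have hσ' : ∀ c d, Q (σ c - σ d) = Q (c - d) := hσ
    set v := σ (0, 0) with hv
    have e1 := hσ' (1, 0) (0, 0)
    have e2 := hσ' (0, 1) (0, 0)
    have e3 := hσ' (1, 0) (0, 1)
    rw [← hv] at e1 e2
    simp only [Q, Prod.fst_sub, Prod.snd_sub] at e1 e2 e3
    norm_num at e1 e2 e3
    obtain ⟨g, hg1, hg2⟩ := MG_pair ((σ (1, 0)).1 - v.1) ((σ (1, 0)).2 - v.2)
      ((σ (0, 1)).1 - v.1) ((σ (0, 1)).2 - v.2) (by linarith) (by linarith) (by linarith)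
    refine ⟨g, v.1, v.2, ?_⟩
    ext1 c
    have f0 := hσ' c (0, 0)
    have f1 := hσ' c (1, 0)
    have f2 := hσ' c (0, 1)
    rw [← hv] at f0
    simp only [Q, Prod.fst_sub, Prod.snd_sub] at f0 f1 f2
    have hl := MG_lin g ((σ c).1 - v.1) ((σ c).2 - v.2) c.1 c.2
      (by rw [hg1]; simp only; nlinarith) (by rw [hg2]; simp only; nlinarith)
    rw [pl_apply, ← hl]
    ext <;> simp
  · rintro ⟨g, a, b, rfl⟩
    intro c d
    simp only [pl_apply, Q, Prod.fst_sub, Prod.snd_sub]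
    fin_cases g <;> simp only [lin] <;> ring

end Pool.Agent.H181R2
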