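import Pool.Agent.H181R2.Stubs

set_option autoImplicit false

namespace Pool.Agent.H181R2

theorem T_R1 (h1 : S_UI) (h2 : S_EXT) : S_R1 := by
  intro N 𝒯 hN hT
  refine ⟨?_, ?_, ?_⟩
  · rintro _ ⟨p, hp, rfl⟩
    obtain ⟨F, -, hF⟩ := h2 p (hT.sub p hp)
    refine ⟨F, ?_⟩
    ext z
    constructor
    · rintro ⟨c, hc, hz⟩
      have h3 := hF (p⁻¹ c)
      have h4 : p (p⁻¹ c) = c := p.apply_symm_apply c
      rw [h4] at h3
      rw [← h3] at hz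
      obtain ⟨w, hw, rfl⟩ := hz
      exact ⟨w, ⟨p⁻¹ c, hc, hw⟩, rfl⟩
    · rintro ⟨w, ⟨c, hc, hw⟩, rfl⟩
      refine ⟨p c, ?_, ?_⟩
      · have h4 : p⁻¹ (p c) = c := p.symm_apply_apply c
        rw [h4]; exact hc
      · rw [← hF c]; exact ⟨w, hw, rfl⟩
  · rw [Set.eq_univ_iff_forall]
    intro z
    have h3 : z ∈ ⋃₀ Set.range hexAt := by rw [h1.1]; trivial
    obtain ⟨_, ⟨c, rfl⟩, hz⟩ := h3
    obtain ⟨p, hp, hc⟩ := hT.cov c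
    exact ⟨plR N p, ⟨p, hp, rfl⟩, c, hc, hz⟩
  · rintro _ ⟨p, hp, rfl⟩ _ ⟨q, hq, rfl⟩ hAB
    have hpq : p ≠ q := fun h => hAB (by rw [h])
    refine h1.2.2 {c | InT N (p⁻¹ c)} {c | InT N (q⁻¹ c)} ?_
    rw [Set.disjoint_left]
    intro c hc hd
    exact hpq (hT.dis p hp q hq c hc hd)

end Pool.Agent.H181R2
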