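import Pool.Agent.H181R2.Stubs

set_option autoImplicit false

namespace Pool.Agent.H181R2

theorem WE_mul0 (g : Fin 12) (a b a' b' : ℤ) :
    pl 0 a b * pl g a' b' = pl g (a' + a) (b' + b) := by
  apply Equiv.Perm.ext
  intro c
  simp only [Equiv.Perm.coe_mul, Function.comp, pl_apply, lin]
  ext <;> simp only [] <;> ring

theorem WE_HH1 (N k : ℤ) (p : Equiv.Perm Cell) (hp : p ∈ HH N) :
    pl 0 0 (k * N) * p ∈ HH N := by
  rcases hp with ⟨m, rfl⟩ | ⟨i, m, rfl⟩ | ⟨i, m, rfl⟩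
  · refine Or.inl ⟨m + k, ?_⟩
    rw [WE_mul0]
    congr 1
    ring
  · refine Or.inr (Or.inl ⟨i, m + k, ?_⟩)
    rw [WE_mul0]
    congr 1 <;> ring
  · refine Or.inr (Or.inr ⟨i, m + k, ?_⟩)
    rw [WE_mul0]
    congr 1 <;> ring

theorem WE_HH (N k : ℤ) (p : Equiv.Perm Cell) :
    pl 0 0 (k * N) * p ∈ HH N ↔ p ∈ HH N := by
  constructor
  · intro h
    have h1 := WE_HH1 N (-k) _ h
    rw [← mul_assoc, WE_mul0] at h1
    have e : pl 0 (0 + 0) (k * N + -k * N) = 1 := by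
      apply Equiv.Perm.ext
      intro c
      simp only [pl_apply, lin, Equiv.Perm.coe_one, id]
      ext <;> simp only [] <;> ring
    rw [e, one_mul] at h1
    exact h1
  · exact WE_HH1 N k p

theorem WE_inv (N k : ℤ) : (pl 0 0 (k * N))⁻¹ = pl 0 0 (-k * N) := by
  apply Equiv.Perm.ext
  intro c
  simp only [pl_inv_apply, pl_apply, lin, lindex]
  ext <;> simp only [] <;> ring

theorem WE_wall (N k : ℤ) (φ φ' : Equiv.Perm Cell) (h : φ' = φ * pl 0 0 (k * N)) :
    Wall N φ' = Wall N φ := by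
  ext p
  have e : φ'⁻¹ * p = pl 0 0 (-k * N) * (φ⁻¹ * p) := by
    rw [h, mul_inv_rev, WE_inv, mul_assoc]
  simp only [Wall, Set.mem_setOf_eq]
  rw [e, WE_HH]

theorem WE_r (N c k : ℤ) : rW N (c + k * N) = rW N c * pl 0 0 (-k * N) := by
  apply Equiv.Perm.ext
  intro x
  simp only [rW, Equiv.Perm.coe_mul, Function.comp, pl_apply, lin]
  ext <;> simp only [] <;> ring

theorem WE_g (N c k : ℤ) : gW N (c + k * N) = gW N c * pl 0 0 (k * N) := by
  apply Equiv.Perm.ext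
  intro x
  simp only [gW, Equiv.Perm.coe_mul, Function.comp, pl_apply, lin]
  ext <;> simp only [] <;> ring

theorem WE_gg (N c : ℤ) : gW N (4 * N - 3 - c) * gW N c = 1 := by
  apply Equiv.Perm.ext
  intro x
  simp only [gW, Equiv.Perm.coe_mul, Function.comp, pl_apply, lin, Equiv.Perm.coe_one, id]
  ext <;> simp only [] <;> ring

/-- equalities of walls -/
theorem T_WE (h1 : S_MG) : S_WE := by
  intro N c k _
  refine ⟨WE_wall N (-k) _ _ (WE_r N c k), WE_wall N k _ _ (WE_g N c k), gW N c, ?_, ?_⟩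
  · exact (h1 _).2 ⟨_, _, _, rfl⟩
  · ext p
    have e : (gW N (4 * N - 3 - c))⁻¹ = gW N c := inv_eq_of_mul_eq_one_right (WE_gg N c)
    simp only [fr, Wall, Set.mem_setOf_eq]
    rw [e, ← mul_assoc, inv_mul_cancel, one_mul]
    exact or_comm

end Pool.Agent.H181R2
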