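import Pool.Agent.H181R2.Trees
import Pool.Agent.H181R2.T_MG
import Pool.Agent.H181R2.T_FR

set_option autoImplicit false

namespace Pool.Agent.H181R2

theorem one_eq : (1 : Equiv.Perm Cell) = pl 0 0 0 := by
  ext c <;> simp [lin]

theorem evp_eq (N : ℤ) (g : Nat) (a b c d : ℤ) :
    evp N ⟨g, ⟨a, b, c, d⟩⟩ = pl (fin12 g) (a + b * N) (c + d * N) := rfl

theorem run {N : ℤ} (hN : 5 ≤ N) {𝒯 : Set (Equiv.Perm Cell)} (hT : Til N 𝒯) {t : Tr}
    {goals P : List Sp} (ht : chk KT goals t P [] ⟨0, 0, 0, 0⟩ = true) (hn : isNode t = true)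
    (hP : ∀ p ∈ P, evp N p ∈ 𝒯) : ∃ q ∈ goals, evp N q ∈ 𝒯 :=
  (chk_sound T_MG hN hT KT goals t P [] _ ht hP).1 hn

theorem T_D0 : S_D0 := by
  intro N 𝒯 hN hT h1
  have := run hN hT chk_D0 rfl (by
    intro p hp
    simp only [pat_D0, List.mem_singleton] at hp
    subst hp
    rw [evp_eq]
    rw [one_eq] at h1
    convert h1 using 2 <;> first | rfl | ring)
  simp only [goal_D0, List.mem_cons, List.not_mem_nil, or_false, exists_eq_or_imp,
    exists_eq_left, evp_eq] at this
  rcases this with h | h
  · left; convert h using 2 <;> first | rfl | ring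
  · right; convert h using 2 <;> first | rfl | ring

theorem T_T1a : S_T1a := by
  intro N 𝒯 hN hT h1 h2 h3
  have := run hN hT chk_T1a rfl (by
    intro p hp
    simp only [pat_T1a, List.mem_cons, List.not_mem_nil, or_false] at hp
    rw [one_eq] at h1
    rcases hp with rfl | rfl | rfl <;> rw [evp_eq]
    · convert h3 using 2 <;> first | rfl | ring
    · convert h2 using 2 <;> first | rfl | ring
    · convert h1 using 2 <;> first | rfl | ring)
  simp [goal_T1a] at this

theorem T_T1b : S_T1b := by
  intro N 𝒯 hN hT h1 h2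
  have := run hN hT chk_T1b rfl (by
    intro p hp
    simp only [pat_T1b, List.mem_cons, List.not_mem_nil, or_false] at hp
    rw [one_eq] at h1
    rcases hp with rfl | rfl <;> rw [evp_eq]
    · convert h2 using 2 <;> first | rfl | ring
    · convert h1 using 2 <;> first | rfl | ring)
  simp only [goal_T1b, List.mem_cons, List.not_mem_nil, or_false, 
    exists_eq_left, evp_eq] at this
  convert this using 2 <;> first | rfl | ring

theorem T_T2a : S_T2a := by
  intro N 𝒯 hN hT h1 h2 h3
  have := run hN hT chk_T2a rfl (by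
    intro p hp
    simp only [pat_T2a, List.mem_cons, List.not_mem_nil, or_false] at hp
    rw [one_eq] at h1
    rcases hp with rfl | rfl | rfl <;> rw [evp_eq]
    · convert h3 using 2 <;> first | rfl | ring
    · convert h2 using 2 <;> first | rfl | ring
    · convert h1 using 2 <;> first | rfl | ring)
  simp [goal_T2a] at this

theorem T_TA : S_TA := by
  intro N 𝒯 hN hT h1 h2 h3
  have := run hN hT chk_TA rfl (by
    intro p hp
    simp only [pat_TA, List.mem_cons, List.not_mem_nil, or_false] at hp
    rw [one_eq] at h1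
    rcases hp with rfl | rfl | rfl <;> rw [evp_eq]
    · convert h3 using 2 <;> first | rfl | ring
    · convert h2 using 2 <;> first | rfl | ring
    · convert h1 using 2 <;> first | rfl | ring)
  simp only [goal_TA, List.mem_cons, List.not_mem_nil, or_false, 
    exists_eq_left, evp_eq] at this
  convert this using 2 <;> first | rfl | ring

theorem T_TB : S_TB := by
  intro N 𝒯 hN hT h1 h2 h3
  have := run hN hT chk_TB rfl (by
    intro p hp
    simp only [pat_TB, List.mem_cons, List.not_mem_nil, or_false] at hp
    rw [one_eq] at h1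
    rcases hp with rfl | rfl | rfl <;> rw [evp_eq]
    · convert h3 using 2 <;> first | rfl | ring
    · convert h2 using 2 <;> first | rfl | ring
    · convert h1 using 2 <;> first | rfl | ring)
  simp only [goal_TB, List.mem_cons, List.not_mem_nil, or_false, 
    exists_eq_left, evp_eq] at this
  convert this using 2 <;> first | rfl | ring

theorem T_TS : S_TS := by
  intro N 𝒯 hN hT h1 h2
  have := run hN hT chk_TS rfl (by
    intro p hp
    simp only [pat_TS, List.mem_cons, List.not_mem_nil, or_false] at hp
    rw [one_eq] at h1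
    rcases hp with rfl | rfl <;> rw [evp_eq]
    · convert h2 using 2 <;> first | rfl | ring
    · convert h1 using 2 <;> first | rfl | ring)
  simp only [goal_TS, List.mem_cons, List.not_mem_nil, or_false, exists_eq_or_imp,
    exists_eq_left, evp_eq] at this
  rcases this with h | h
  · left; convert h using 2 <;> first | rfl | ring
  · right; convert h using 2 <;> first | rfl | ring

/-- the identity tile and its mirror image moved by `(0,N)` exclude each other -/
theorem T_TX (N : ℤ) (𝒯 : Set (Equiv.Perm Cell)) (hN : 5 ≤ N) (hT : Til N 𝒯) (h1 : 1 ∈ 𝒯)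
    (h2 : pl 6 0 N ∈ 𝒯) : False := by
  have hG : pl 6 0 N ∈ G := (T_MG _).2 ⟨_, _, _, rfl⟩
  have hT' := T_FR N 𝒯 (pl 6 0 N) hT hG
  have h1' : (1 : Equiv.Perm Cell) ∈ fr (pl 6 0 N) 𝒯 := by
    show pl 6 0 N * 1 ∈ 𝒯
    rw [mul_one]; exact h2
  rcases T_D0 N _ hN hT' h1' with h | h
  · have h' := T_T1b N _ hN hT' h1' h
    have h'' : pl 6 0 N * pl 0 (-N) 0 ∈ 𝒯 := h'
    have e : pl 6 0 N * pl 0 (-N) 0 = pl 6 0 0 := by
      ext c <;> simp [lin, Equiv.Perm.mul_apply]
    rw [e] at h''
    have := hT.dis _ h1 _ h'' (0, 0) (by right; left; refine ⟨?_, ?_, ?_, ?_⟩ <;> simp <;> omega)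
      (by
        rw [pl_inv_apply]
        right; left; refine ⟨?_, ?_, ?_, ?_⟩ <;> simp [lin, lindex] <;> omega)
    have e2 := congrArg (fun σ : Equiv.Perm Cell => σ (1, 0)) this
    simp [lin] at e2
  · have h'' : pl 6 0 N * pl 0 0 (-N) ∈ 𝒯 := h
    have e : pl 6 0 N * pl 0 0 (-N) = pl 6 (-N) N := by
      ext c <;> simp [lin, Equiv.Perm.mul_apply]
    rw [e] at h''
    have := run hN hT chk_TXX rfl (by
      intro p hp
      simp only [pat_TXX, List.mem_cons, List.not_mem_nil, or_false] at hp
      rw [one_eq] at h1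
      rcases hp with rfl | rfl | rfl <;> rw [evp_eq]
      · convert h'' using 2 <;> first | rfl | ring
      · convert h2 using 2 <;> first | rfl | ring
      · convert h1 using 2 <;> first | rfl | ring)
    simp [goal_TXX] at this

theorem T_T2b : S_T2b := by
  intro N 𝒯 hN hT h1 h2
  have := run hN hT chk_T2b rfl (by
    intro p hp
    simp only [pat_T2b, List.mem_cons, List.not_mem_nil, or_false] at hp
    rw [one_eq] at h1
    rcases hp with rfl | rfl <;> rw [evp_eq]
    · convert h2 using 2 <;> first | rfl | ring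
    · convert h1 using 2 <;> first | rfl | ring)
  simp only [goal_T2b, List.mem_cons, List.not_mem_nil, or_false, exists_eq_or_imp,
    exists_eq_left, evp_eq] at this
  rcases this with h | h
  · convert h using 2 <;> first | rfl | ring
  · exfalso
    apply T_TX N 𝒯 hN hT h1
    convert h using 2 <;> first | rfl | ring

end Pool.Agent.H181R2
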