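import Pool.Agent.H181R2.Chk

set_option autoImplicit false
set_option maxRecDepth 100000

namespace Pool.Agent.H181R2

open Tr

def KT : List Sc := [⟨0, 0, 0, 0⟩, ⟨-1, 1, 0, 0⟩, ⟨0, 0, -1, 1⟩, ⟨-1, 1, -1, 1⟩, ⟨0, 1, 0, 1⟩, ⟨-2, 2, 0, 1⟩, ⟨0, 1, -1, 2⟩, ⟨-2, 2, -1, 2⟩, ⟨-1, 0, -1, 0⟩, ⟨0, -1, 0, -1⟩, ⟨3, -1, 3, -1⟩, ⟨-2, 1, 0, 0⟩, ⟨1, 1, 1, 1⟩, ⟨1, -1, 1, -1⟩, ⟨1, 1, 0, 1⟩, ⟨0, 0, 1, 0⟩, ⟨0, 1, -2, 2⟩, ⟨0, 1, 2, 1⟩, ⟨2, 1, 1, 1⟩, ⟨-2, 0, -2, 0⟩, ⟨2, 0, 1, 0⟩, ⟨1, 0, 2, 0⟩, ⟨0, 0, 2, 0⟩, ⟨3, 1, 1, 1⟩, ⟨1, 1, 3, 1⟩, ⟨0, 0, -2, 1⟩, ⟨2, 1, 2, 1⟩, ⟨-3, 2, 0, 1⟩, ⟨-3, 2, -1, 2⟩, ⟨-1, 1, 1, 0⟩, ⟨-2, 2, 1, 1⟩, ⟨-2, 2, -2, 2⟩, ⟨1, 0, -1, 1⟩, ⟨1, 1, -1, 2⟩]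

def tree_T1a : Tr :=
  (nd (-1) 2 0 1 3 2 1 1 <| ki 1 8 <| ki 1 8 <| ki 2 8 <| ki 2 1 <| ki 1 0 <| ki 2 1 <| ki 1 4 <|
  ki 2 4 <| ki 1 4 <| su (nd (-2) 1 (-1) 0 0 2 3 3 <| ki 2 4 <| ki 3 13 <| ki 2 12 <| ki 2 13 <|
  ki 3 0 <| ki 3 2 <| su (nd 1 (-1) 0 (-1) 2 4 4 0 <| ki 4 0 <| ki 4 6 <| ki 0 0 <| ki 3 8 <| ki
  2 2 <| ki 4 8 <| ki 4 2 <| ki 3 0 <| ki 4 0 <| ki 3 1 <| ki 4 4 <| ki 3 4 <| ki 4 0 <| ki 3 3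
  <| ki 3 7 <| ki 3 8 <| ki 2 1 <| ki 4 8 <| ki 4 0 <| ki 3 0 <| ki 4 2 <| ki 2 0 <| ki 4 4 <| ki
  0 1 <| dn) <| ki 3 8 <| ki 3 5 <| ki 2 1 <| ki 3 2 <| ki 3 6 <| ki 3 5 <| ki 3 13 <| ki 2 12 <|
  ki 2 13 <| ki 3 0 <| ki 3 0 <| su (nd 1 (-1) 0 (-1) 2 4 4 0 <| ki 4 0 <| ki 4 6 <| ki 0 0 <| ki
  3 8 <| ki 2 2 <| ki 4 8 <| ki 4 2 <| ki 3 0 <| ki 4 0 <| ki 3 1 <| ki 4 4 <| ki 3 4 <| ki 4 0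
  <| ki 3 3 <| ki 3 7 <| ki 3 8 <| ki 2 1 <| ki 4 8 <| ki 4 0 <| ki 3 0 <| ki 4 2 <| ki 2 0 <| ki
  4 4 <| ki 0 1 <| dn) <| ki 3 8 <| ki 1 9 <| ki 1 0 <| ki 3 1 <| su (nd 1 0 0 (-1) 2 3 3 0 <| ki
  3 0 <| ki 3 6 <| ki 2 3 <| ki 2 0 <| ki 2 8 <| ki 3 8 <| ki 4 0 <| ki 2 0 <| ki 3 0 <| ki 2 1
  <| ki 4 6 <| ki 2 4 <| ki 3 0 <| ki 2 0 <| ki 2 7 <| ki 2 0 <| ki 2 8 <| ki 3 8 <| ki 4 2 <| ki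
  2 0 <| ki 3 2 <| ki 2 2 <| ki 4 5 <| ki 2 1 <| dn) <| dn) <| ki 1 0 <| ki 1 2 <| ki 1 8 <| ki 1
  8 <| ki 2 8 <| ki 2 3 <| ki 1 0 <| ki 1 4 <| ki 1 4 <| ki 2 4 <| ki 1 3 <| su (nd (-2) 1 (-1) 0
  0 2 3 3 <| ki 2 4 <| ki 3 13 <| ki 2 12 <| ki 2 13 <| ki 3 0 <| ki 3 2 <| su (nd 1 (-1) 0 (-1)
  2 4 4 0 <| ki 4 0 <| ki 4 6 <| ki 0 0 <| ki 3 8 <| ki 2 2 <| ki 4 8 <| ki 4 2 <| ki 3 0 <| ki 4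
  0 <| ki 3 1 <| ki 4 4 <| ki 3 4 <| ki 4 0 <| ki 3 3 <| ki 3 7 <| ki 3 8 <| ki 2 1 <| ki 4 8 <|
  ki 4 0 <| ki 3 0 <| ki 4 2 <| ki 2 0 <| ki 4 4 <| ki 0 1 <| dn) <| ki 3 8 <| ki 3 5 <| ki 2 1
  <| ki 3 2 <| ki 3 6 <| ki 3 5 <| ki 3 13 <| ki 3 15 <| ki 2 13 <| ki 3 0 <| ki 3 0 <| su (nd 1
  (-1) 0 (-1) 2 4 4 0 <| ki 4 0 <| ki 4 6 <| ki 0 0 <| ki 3 8 <| ki 2 2 <| ki 4 8 <| ki 4 2 <| ki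
  3 0 <| ki 4 0 <| ki 3 1 <| ki 4 4 <| ki 3 4 <| ki 4 0 <| ki 3 3 <| ki 3 7 <| ki 3 8 <| ki 2 1
  <| ki 4 8 <| ki 4 0 <| ki 3 0 <| ki 4 2 <| ki 2 0 <| ki 4 4 <| ki 0 1 <| dn) <| ki 3 8 <| ki 1
  9 <| ki 1 0 <| ki 3 1 <| su (nd 1 0 0 (-1) 2 3 3 0 <| ki 3 0 <| ki 3 6 <| ki 2 3 <| ki 2 0 <|
  ki 2 8 <| ki 3 8 <| ki 4 0 <| ki 2 0 <| ki 3 0 <| ki 2 1 <| ki 4 6 <| ki 2 4 <| ki 3 0 <| ki 2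
  0 <| ki 2 7 <| ki 2 0 <| ki 2 8 <| ki 3 8 <| ki 4 2 <| ki 2 0 <| ki 3 2 <| ki 2 2 <| ki 4 5 <|
  ki 2 1 <| dn) <| dn) <| ki 1 0 <| ki 1 1 <| dn)

def pat_T1a : List Sp := [⟨0, ⟨0, 1, 0, -1⟩⟩, ⟨0, ⟨0, 1, 0, 0⟩⟩, ⟨0, ⟨0, 0, 0, 0⟩⟩]
def goal_T1a : List Sp := []

theorem chk_T1a : chk KT goal_T1a tree_T1a pat_T1a [] ⟨0, 0, 0, 0⟩ = true := by decide +kernel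

def tree_T1b : Tr :=
  (nd (-1) 0 0 0 5 1 1 1 <| su gl <| ki 1 1 <| su (nd (-1) 2 0 1 3 2 1 1 <| ki 1 8 <| ki 1 8 <|
  ki 2 8 <| ki 2 1 <| ki 1 0 <| ki 2 1 <| ki 1 4 <| ki 2 4 <| ki 1 4 <| su (nd 0 (-1) 0 0 3 1 1 1
  <| ki 0 4 <| ki 3 0 <| ki 3 4 <| ki 1 1 <| ki 3 2 <| ki 3 6 <| ki 1 6 <| ki 3 8 <| ki 3 0 <| su
  (nd 1 (-1) 1 0 3 0 0 2 <| ki 4 1 <| ki 4 0 <| ki 4 5 <| ki 2 1 <| ki 4 3 <| ki 4 6 <| ki 2 6 <|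
  ki 4 9 <| ki 4 0 <| ki 0 0 <| ki 4 0 <| ki 4 1 <| ki 4 2 <| ki 4 0 <| ki 4 6 <| ki 0 0 <| ki 4
  3 <| ki 4 12 <| ki 4 0 <| ki 4 9 <| ki 4 0 <| ki 0 0 <| ki 4 0 <| ki 4 2 <| dn) <| ki 3 1 <| ki
  3 2 <| ki 0 4 <| ki 3 0 <| ki 3 4 <| su (nd (-1) 0 (-1) 1 3 0 0 2 <| ki 4 1 <| ki 4 0 <| ki 4 7
  <| ki 2 1 <| ki 4 2 <| ki 4 6 <| ki 4 2 <| ki 4 9 <| ki 4 0 <| su (nd 0 (-1) 0 1 3 1 1 1 <| ki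
  2 4 <| ki 5 1 <| ki 0 0 <| ki 1 1 <| ki 5 6 <| ki 1 12 <| ki 1 6 <| ki 0 0 <| ki 5 8 <| ki 0 1
  <| ki 3 9 <| ki 5 1 <| ki 2 4 <| ki 5 2 <| ki 0 0 <| ki 0 4 <| ki 5 5 <| ki 1 7 <| ki 2 9 <| ki
  0 0 <| ki 5 9 <| ki 0 2 <| ki 3 9 <| ki 5 2 <| dn) <| ki 4 0 <| ki 4 2 <| ki 4 2 <| ki 4 0 <|
  ki 4 6 <| ki 0 0 <| ki 4 1 <| ki 4 5 <| ki 4 1 <| ki 4 9 <| ki 4 0 <| su (nd 0 (-1) 0 1 3 1 1 1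
  <| ki 2 4 <| ki 5 1 <| ki 0 0 <| ki 1 1 <| ki 5 6 <| ki 1 12 <| ki 1 6 <| ki 0 0 <| ki 5 8 <|
  ki 0 1 <| ki 3 9 <| ki 5 1 <| ki 2 4 <| ki 5 2 <| ki 0 0 <| ki 0 4 <| ki 5 5 <| ki 1 7 <| ki 2
  9 <| ki 0 0 <| ki 5 9 <| ki 0 2 <| ki 3 9 <| ki 5 2 <| dn) <| ki 4 0 <| ki 4 3 <| dn) <| ki 3 1
  <| ki 3 5 <| ki 3 1 <| ki 3 8 <| ki 3 0 <| su (nd 1 (-1) 1 0 3 0 0 2 <| ki 4 1 <| ki 4 0 <| ki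
  4 5 <| ki 2 1 <| ki 4 3 <| ki 4 6 <| ki 2 6 <| ki 4 9 <| ki 4 0 <| ki 0 0 <| ki 4 0 <| ki 4 1
  <| ki 4 2 <| ki 4 0 <| ki 4 6 <| ki 0 0 <| ki 4 3 <| ki 4 12 <| ki 4 0 <| ki 4 9 <| ki 4 0 <|
  ki 0 0 <| ki 4 0 <| ki 4 2 <| dn) <| ki 3 2 <| ki 3 6 <| dn) <| ki 1 0 <| ki 1 2 <| ki 1 8 <|
  ki 1 8 <| ki 2 8 <| ki 2 3 <| ki 1 0 <| ki 1 4 <| ki 1 4 <| ki 2 4 <| ki 1 3 <| su (nd 0 (-1) 0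
  0 3 1 1 1 <| ki 0 4 <| ki 3 0 <| ki 3 4 <| ki 1 1 <| ki 3 2 <| ki 3 6 <| ki 1 6 <| ki 3 8 <| ki
  3 0 <| su (nd 1 (-1) 1 0 3 0 0 2 <| ki 4 1 <| ki 4 0 <| ki 4 5 <| ki 2 1 <| ki 4 3 <| ki 4 6 <|
  ki 2 6 <| ki 4 9 <| ki 4 0 <| ki 0 0 <| ki 4 0 <| ki 4 1 <| ki 4 2 <| ki 4 0 <| ki 4 6 <| ki 0
  0 <| ki 4 3 <| ki 4 12 <| ki 4 0 <| ki 4 9 <| ki 4 0 <| ki 0 0 <| ki 4 0 <| ki 4 2 <| dn) <| ki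
  3 1 <| ki 3 2 <| ki 0 4 <| ki 3 0 <| ki 3 4 <| su (nd (-1) 0 (-1) 1 3 0 0 2 <| ki 4 1 <| ki 4 0
  <| ki 4 7 <| ki 2 1 <| ki 4 2 <| ki 4 6 <| ki 4 2 <| ki 4 9 <| ki 4 0 <| su (nd 0 (-1) 0 1 3 1
  1 1 <| ki 2 5 <| ki 5 1 <| ki 0 0 <| ki 1 1 <| ki 5 6 <| ki 1 12 <| ki 1 6 <| ki 0 0 <| ki 5 8
  <| ki 0 1 <| ki 3 9 <| ki 5 1 <| ki 2 6 <| ki 5 2 <| ki 0 0 <| ki 0 4 <| ki 5 5 <| ki 1 7 <| ki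
  2 9 <| ki 0 0 <| ki 5 9 <| ki 0 2 <| ki 3 9 <| ki 5 2 <| dn) <| ki 4 0 <| ki 4 2 <| ki 4 2 <|
  ki 4 0 <| ki 4 6 <| ki 0 0 <| ki 4 1 <| ki 4 5 <| ki 4 1 <| ki 4 9 <| ki 4 0 <| su (nd 0 (-1) 0
  1 3 1 1 1 <| ki 2 5 <| ki 5 1 <| ki 0 0 <| ki 1 1 <| ki 5 6 <| ki 1 12 <| ki 1 6 <| ki 0 0 <|
  ki 5 8 <| ki 0 1 <| ki 3 9 <| ki 5 1 <| ki 2 6 <| ki 5 2 <| ki 0 0 <| ki 0 4 <| ki 5 5 <| ki 1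
  7 <| ki 2 9 <| ki 0 0 <| ki 5 9 <| ki 0 2 <| ki 3 9 <| ki 5 2 <| dn) <| ki 4 0 <| ki 4 3 <| dn)
  <| ki 3 1 <| ki 3 5 <| ki 3 1 <| ki 3 8 <| ki 3 0 <| su (nd 1 (-1) 1 0 3 0 0 2 <| ki 4 1 <| ki
  4 0 <| ki 4 5 <| ki 2 1 <| ki 4 3 <| ki 4 6 <| ki 2 6 <| ki 4 9 <| ki 4 0 <| ki 0 0 <| ki 4 0
  <| ki 4 1 <| ki 4 2 <| ki 4 0 <| ki 4 6 <| ki 0 0 <| ki 4 3 <| ki 4 12 <| ki 4 0 <| ki 4 9 <|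
  ki 4 0 <| ki 0 0 <| ki 4 0 <| ki 4 2 <| dn) <| ki 3 2 <| ki 3 6 <| dn) <| ki 1 0 <| ki 1 1 <|
  dn) <| ki 1 4 <| su (nd 1 (-1) 1 0 2 0 0 0 <| ki 2 1 <| ki 2 3 <| ki 2 14 <| ki 2 0 <| ki 2 0
  <| ki 2 3 <| ki 2 6 <| ki 2 0 <| ki 2 2 <| ki 2 1 <| ki 2 0 <| ki 2 1 <| ki 2 2 <| ki 2 3 <| ki
  2 7 <| ki 2 0 <| ki 2 0 <| ki 2 3 <| ki 2 12 <| ki 2 0 <| ki 2 0 <| ki 2 0 <| ki 2 0 <| ki 2 2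
  <| dn) <| su (nd (-2) 1 (-1) 0 0 1 2 2 <| ki 1 4 <| ki 2 13 <| ki 1 12 <| ki 1 13 <| ki 2 0 <|
  ki 2 2 <| ki 0 1 <| ki 2 8 <| ki 2 5 <| ki 1 1 <| ki 2 2 <| ki 2 6 <| ki 2 5 <| ki 2 13 <| ki 2
  15 <| ki 1 13 <| ki 2 0 <| ki 2 0 <| ki 0 2 <| ki 2 8 <| ki 2 16 <| ki 1 16 <| ki 2 1 <| su (nd
  0 (-1) (-1) (-1) 1 0 3 1 <| ki 2 4 <| ki 0 4 <| ki 0 0 <| ki 1 9 <| ki 1 0 <| ki 0 2 <| ki 1 1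
  <| ki 2 8 <| ki 3 1 <| ki 1 5 <| ki 2 1 <| ki 1 6 <| ki 2 4 <| ki 0 6 <| ki 0 0 <| ki 1 9 <| ki
  1 1 <| ki 0 1 <| ki 1 2 <| ki 2 8 <| ki 2 0 <| ki 1 5 <| ki 1 7 <| ki 1 12 <| dn) <| dn) <| su
  (nd 0 (-1) 1 (-1) 3 0 0 2 <| ki 2 0 <| ki 2 2 <| ki 2 4 <| ki 0 3 <| ki 2 2 <| ki 2 2 <| ki 2 2
  <| ki 2 8 <| ki 2 0 <| ki 0 0 <| ki 2 1 <| ki 2 16 <| ki 2 0 <| ki 2 1 <| ki 2 4 <| ki 0 4 <|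
  ki 2 1 <| ki 2 5 <| ki 2 0 <| ki 2 8 <| ki 2 2 <| ki 0 0 <| ki 2 2 <| ki 2 6 <| dn) <| su (nd
  (-1) 2 0 1 3 2 1 1 <| ki 1 8 <| ki 1 8 <| ki 2 8 <| ki 2 1 <| ki 1 0 <| ki 2 1 <| ki 1 4 <| ki
  2 4 <| ki 1 4 <| ki 0 2 <| ki 1 0 <| ki 1 2 <| ki 1 8 <| ki 1 8 <| ki 2 8 <| ki 2 3 <| ki 1 0
  <| ki 1 4 <| ki 1 4 <| ki 2 4 <| ki 1 3 <| ki 0 1 <| ki 1 0 <| ki 1 1 <| dn) <| su (nd (-1) 2 0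
  1 3 2 1 1 <| ki 1 8 <| ki 1 8 <| ki 2 8 <| ki 2 1 <| ki 1 0 <| ki 2 1 <| ki 1 4 <| ki 2 4 <| ki
  1 4 <| su (nd (-1) 0 1 0 4 1 1 3 <| ki 3 1 <| ki 1 8 <| ki 1 2 <| ki 3 5 <| ki 3 12 <| ki 3 6
  <| ki 1 4 <| ki 0 9 <| ki 1 0 <| ki 3 9 <| ki 3 0 <| su (nd (-2) 0 1 0 4 2 2 0 <| ki 4 1 <| ki
  2 0 <| ki 2 0 <| ki 4 5 <| ki 2 1 <| ki 4 6 <| ki 2 3 <| ki 1 9 <| ki 2 0 <| ki 4 9 <| ki 4 0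
  <| ki 0 0 <| ki 4 2 <| ki 2 0 <| ki 2 1 <| ki 4 5 <| ki 4 7 <| ki 4 18 <| ki 2 3 <| ki 2 6 <|
  ki 2 0 <| ki 4 9 <| ki 4 1 <| ki 0 0 <| dn) <| ki 3 2 <| ki 1 8 <| ki 1 0 <| ki 3 5 <| ki 3 7
  <| ki 3 12 <| ki 1 4 <| ki 0 8 <| ki 1 0 <| ki 3 9 <| ki 3 1 <| su (nd (-2) 0 1 0 4 2 2 0 <| ki
  4 1 <| ki 2 0 <| ki 2 0 <| ki 4 5 <| ki 2 1 <| ki 4 6 <| ki 2 3 <| ki 1 9 <| ki 2 0 <| ki 4 9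
  <| ki 4 0 <| ki 0 0 <| ki 4 2 <| ki 2 0 <| ki 2 1 <| ki 4 5 <| ki 4 7 <| ki 4 18 <| ki 2 3 <|
  ki 2 6 <| ki 2 0 <| ki 4 9 <| ki 4 1 <| ki 0 0 <| dn) <| dn) <| ki 1 0 <| ki 1 2 <| ki 1 8 <|
  ki 1 8 <| ki 2 8 <| ki 2 3 <| ki 1 0 <| ki 1 4 <| ki 1 4 <| ki 2 4 <| ki 1 3 <| su (nd (-1) 0 1
  0 4 1 1 3 <| ki 3 1 <| ki 1 8 <| ki 1 2 <| ki 3 5 <| ki 3 12 <| ki 3 6 <| ki 1 4 <| ki 0 9 <|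
  ki 1 0 <| ki 3 9 <| ki 3 0 <| su (nd (-2) 0 1 0 4 2 2 0 <| ki 4 1 <| ki 2 0 <| ki 2 0 <| ki 4 5
  <| ki 2 1 <| ki 4 6 <| ki 2 3 <| ki 1 9 <| ki 2 0 <| ki 4 9 <| ki 4 0 <| ki 0 0 <| ki 4 2 <| ki
  2 0 <| ki 2 1 <| ki 4 5 <| ki 4 7 <| ki 4 18 <| ki 2 3 <| ki 2 6 <| ki 2 0 <| ki 4 9 <| ki 4 1
  <| ki 0 0 <| dn) <| ki 3 2 <| ki 1 8 <| ki 1 0 <| ki 3 5 <| ki 3 7 <| ki 3 12 <| ki 1 4 <| ki 0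
  8 <| ki 1 0 <| ki 3 9 <| ki 3 1 <| su (nd (-2) 0 1 0 4 2 2 0 <| ki 4 1 <| ki 2 0 <| ki 2 0 <|
  ki 4 5 <| ki 2 1 <| ki 4 6 <| ki 2 3 <| ki 1 9 <| ki 2 0 <| ki 4 9 <| ki 4 0 <| ki 0 0 <| ki 4
  2 <| ki 2 0 <| ki 2 1 <| ki 4 5 <| ki 4 7 <| ki 4 18 <| ki 2 3 <| ki 2 6 <| ki 2 0 <| ki 4 9 <|
  ki 4 1 <| ki 0 0 <| dn) <| dn) <| ki 1 0 <| ki 1 1 <| dn) <| su (nd (-1) 2 0 1 3 2 1 1 <| ki 1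
  8 <| ki 1 8 <| ki 2 8 <| ki 2 1 <| ki 1 0 <| ki 2 1 <| ki 1 4 <| ki 2 4 <| ki 1 4 <| su (nd 0 0
  0 1 2 1 1 1 <| ki 0 0 <| ki 3 0 <| ki 3 4 <| ki 3 0 <| ki 3 0 <| ki 3 2 <| ki 3 6 <| ki 3 2 <|
  ki 3 2 <| ki 3 3 <| ki 3 1 <| ki 3 0 <| ki 0 0 <| ki 3 0 <| ki 3 4 <| ki 3 0 <| ki 3 0 <| ki 3
  1 <| ki 3 5 <| ki 3 1 <| ki 3 3 <| ki 3 1 <| ki 3 2 <| ki 3 0 <| dn) <| ki 1 0 <| ki 1 2 <| ki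
  1 8 <| ki 1 8 <| ki 2 8 <| ki 2 3 <| ki 1 0 <| ki 1 4 <| ki 1 4 <| ki 2 4 <| ki 1 3 <| su (nd 0
  0 0 1 2 1 1 1 <| ki 0 0 <| ki 3 0 <| ki 3 4 <| ki 3 0 <| ki 3 0 <| ki 3 2 <| ki 3 6 <| ki 3 2
  <| ki 3 2 <| ki 3 3 <| ki 3 1 <| ki 3 0 <| ki 0 0 <| ki 3 0 <| ki 3 4 <| ki 3 0 <| ki 3 0 <| ki
  3 1 <| ki 3 5 <| ki 3 1 <| ki 3 3 <| ki 3 1 <| ki 3 2 <| ki 3 0 <| dn) <| ki 1 0 <| ki 1 1 <|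
  dn) <| ki 1 8 <| ki 1 3 <| su (nd (-1) 2 0 1 3 2 1 1 <| ki 1 8 <| ki 1 8 <| ki 2 8 <| ki 2 1 <|
  ki 1 0 <| ki 2 1 <| ki 1 4 <| ki 2 4 <| ki 1 4 <| su (nd (-1) 1 (-1) 2 4 1 1 3 <| ki 0 0 <| ki
  1 9 <| ki 3 1 <| ki 0 2 <| ki 0 6 <| ki 0 2 <| ki 1 6 <| ki 0 0 <| su (nd 1 (-1) 0 1 2 0 0 2 <|
  ki 1 1 <| ki 4 1 <| ki 2 0 <| ki 4 1 <| ki 4 2 <| ki 4 4 <| ki 2 6 <| ki 4 2 <| ki 2 2 <| ki 4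
  0 <| ki 4 8 <| ki 4 0 <| ki 1 2 <| ki 4 2 <| ki 4 6 <| ki 4 1 <| ki 4 1 <| ki 4 4 <| ki 2 12 <|
  ki 4 1 <| ki 4 1 <| ki 4 0 <| ki 4 8 <| ki 4 2 <| dn) <| ki 0 0 <| ki 0 2 <| ki 0 1 <| ki 0 0
  <| ki 1 9 <| ki 1 0 <| ki 0 1 <| ki 0 5 <| ki 0 1 <| ki 0 9 <| ki 0 0 <| su (nd 1 (-1) 0 1 2 0
  0 2 <| ki 1 1 <| ki 4 1 <| ki 2 0 <| ki 4 1 <| ki 4 2 <| ki 4 4 <| ki 2 6 <| ki 4 2 <| ki 2 2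
  <| ki 4 0 <| ki 4 8 <| ki 4 0 <| ki 1 2 <| ki 4 2 <| ki 4 6 <| ki 4 1 <| ki 4 1 <| ki 4 4 <| ki
  2 12 <| ki 4 1 <| ki 4 1 <| ki 4 0 <| ki 4 8 <| ki 4 2 <| dn) <| ki 0 0 <| ki 3 1 <| ki 0 2 <|
  dn) <| ki 1 0 <| ki 1 2 <| ki 1 8 <| ki 1 8 <| ki 2 8 <| ki 2 3 <| ki 1 0 <| ki 1 4 <| ki 1 4
  <| ki 2 4 <| ki 1 3 <| su (nd (-2) 0 (-1) 0 0 3 1 1 <| ki 3 4 <| ki 2 12 <| ki 3 12 <| ki 3 13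
  <| ki 1 0 <| ki 1 2 <| su (nd 1 (-2) 0 (-1) 2 2 2 0 <| ki 4 1 <| ki 4 3 <| ki 0 0 <| ki 4 8 <|
  ki 0 0 <| ki 4 2 <| ki 4 6 <| ki 4 0 <| ki 4 8 <| ki 4 1 <| ki 4 0 <| ki 4 4 <| ki 4 2 <| ki 4
  3 <| ki 4 7 <| ki 4 8 <| ki 0 0 <| ki 4 1 <| ki 2 0 <| ki 4 0 <| ki 4 0 <| ki 0 5 <| ki 4 0 <|
  ki 0 1 <| dn) <| ki 1 8 <| ki 3 11 <| ki 3 1 <| ki 1 2 <| ki 3 3 <| ki 3 17 <| ki 2 12 <| ki 3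
  12 <| ki 3 13 <| ki 1 0 <| ki 1 0 <| su (nd 1 (-2) 0 (-1) 2 2 2 0 <| ki 4 1 <| ki 4 3 <| ki 0 0
  <| ki 4 8 <| ki 0 0 <| ki 4 2 <| ki 4 6 <| ki 4 0 <| ki 4 8 <| ki 4 1 <| ki 4 0 <| ki 4 4 <| ki
  4 2 <| ki 4 3 <| ki 4 7 <| ki 4 8 <| ki 0 0 <| ki 4 1 <| ki 2 0 <| ki 4 0 <| ki 4 0 <| ki 0 5
  <| ki 4 0 <| ki 0 1 <| dn) <| ki 1 8 <| ki 1 16 <| ki 3 16 <| ki 1 1 <| su (nd 1 (-1) 0 (-1) 2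
  4 4 0 <| ki 4 0 <| ki 4 6 <| ki 0 2 <| ki 3 8 <| ki 0 10 <| ki 4 8 <| ki 4 2 <| ki 3 0 <| ki 4
  0 <| ki 3 1 <| ki 4 4 <| ki 3 4 <| ki 4 0 <| ki 3 3 <| ki 3 7 <| ki 3 8 <| ki 0 10 <| ki 4 8 <|
  ki 4 0 <| ki 3 0 <| ki 4 2 <| ki 0 12 <| ki 4 4 <| su (nd 0 (-1) (-1) (-2) 1 0 0 1 <| ki 0 1 <|
  su (nd (-2) (-1) 0 (-3) 4 0 0 2 <| ki 5 16 <| ki 2 4 <| su (nd (-2) (-2) (-1) (-4) 0 1 0 0 <|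
  ki 1 4 <| ki 0 13 <| ki 1 12 <| ki 1 13 <| ki 0 0 <| ki 0 2 <| su (nd 1 (-4) 0 (-5) 2 1 1 0 <|
  ki 4 5 <| ki 2 3 <| ki 0 0 <| ki 2 8 <| ki 0 0 <| ki 2 2 <| ki 2 6 <| ki 2 0 <| ki 4 9 <| ki 2
  1 <| ki 2 0 <| ki 2 4 <| ki 4 16 <| ki 2 3 <| ki 2 7 <| ki 2 8 <| ki 0 0 <| ki 2 1 <| ki 1 0 <|
  ki 2 0 <| ki 2 0 <| ki 0 5 <| ki 2 0 <| ki 0 1 <| dn) <| ki 0 8 <| ki 1 11 <| ki 1 1 <| ki 0 2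
  <| ki 1 3 <| ki 1 17 <| ki 0 13 <| ki 1 12 <| ki 1 13 <| ki 0 0 <| ki 0 0 <| su (nd 1 (-4) 0
  (-5) 2 1 1 0 <| ki 4 5 <| ki 2 3 <| ki 0 0 <| ki 2 8 <| ki 0 0 <| ki 2 2 <| ki 2 6 <| ki 2 0 <|
  ki 4 9 <| ki 2 1 <| ki 2 0 <| ki 2 4 <| ki 4 16 <| ki 2 3 <| ki 2 7 <| ki 2 8 <| ki 0 0 <| ki 2
  1 <| ki 1 0 <| ki 2 0 <| ki 2 0 <| ki 0 5 <| ki 2 0 <| ki 0 1 <| dn) <| ki 0 8 <| ki 0 16 <| ki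
  1 16 <| ki 0 1 <| su (nd 1 (-3) 0 (-5) 2 2 2 0 <| ki 3 5 <| ki 2 6 <| ki 0 2 <| su (nd 2 (-3) 1
  (-5) 2 3 3 0 <| ki 4 6 <| ki 3 6 <| ki 1 2 <| ki 0 0 <| ki 1 10 <| ki 3 0 <| ki 3 0 <| ki 1 5
  <| ki 4 13 <| ki 3 5 <| ki 3 3 <| ki 0 0 <| ki 3 0 <| ki 3 5 <| ki 1 1 <| ki 0 0 <| ki 1 10 <|
  ki 3 0 <| ki 5 9 <| ki 1 6 <| ki 3 2 <| ki 1 18 <| ki 3 3 <| ki 3 6 <| dn) <| ki 0 10 <| ki 2 8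
  <| ki 2 2 <| ki 0 5 <| ki 3 9 <| ki 0 6 <| ki 2 4 <| su (nd (-1) (-2) (-1) (-5) 0 0 0 0 <| ki 1
  6 <| ki 1 8 <| ki 1 0 <| ki 0 8 <| ki 3 8 <| ki 3 2 <| ki 1 0 <| ki 1 0 <| ki 1 4 <| ki 0 2 <|
  ki 3 4 <| ki 1 6 <| ki 1 1 <| ki 1 8 <| ki 3 1 <| ki 0 8 <| ki 3 8 <| ki 3 11 <| ki 1 0 <| ki 1
  0 <| ki 1 4 <| ki 0 1 <| ki 3 4 <| ki 1 5 <| dn) <| ki 3 16 <| ki 0 11 <| ki 0 1 <| su (nd 2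
  (-3) 1 (-5) 2 3 3 0 <| ki 4 6 <| ki 3 6 <| ki 1 2 <| ki 0 0 <| ki 1 10 <| ki 3 0 <| ki 3 0 <|
  ki 1 5 <| ki 4 13 <| ki 3 5 <| ki 3 3 <| ki 0 0 <| ki 3 0 <| ki 3 5 <| ki 1 1 <| ki 0 0 <| ki 1
  10 <| ki 3 0 <| ki 5 9 <| ki 1 6 <| ki 3 2 <| ki 1 18 <| ki 3 3 <| ki 3 6 <| dn) <| ki 0 10 <|
  ki 2 8 <| ki 2 0 <| ki 0 6 <| ki 2 2 <| ki 0 12 <| ki 2 4 <| su (nd 0 (-3) (-1) (-6) 1 0 0 1 <|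
  ki 0 1 <| su (nd 1 0 0 (-1) 2 9 9 5 <| ki 9 0 <| ki 9 6 <| ki 5 2 <| su (nd 2 0 1 (-1) 2 10 10
  0 <| ki 11 2 <| ki 10 6 <| ki 6 2 <| ki 0 0 <| ki 6 10 <| ki 11 9 <| ki 11 1 <| ki 6 5 <| ki 10
  1 <| ki 10 5 <| ki 11 6 <| ki 0 0 <| ki 11 1 <| ki 10 5 <| ki 6 1 <| ki 0 0 <| ki 6 10 <| ki 11
  9 <| ki 11 0 <| ki 6 6 <| ki 10 2 <| ki 6 18 <| ki 11 5 <| ki 10 6 <| dn) <| ki 5 10 <| ki 9 8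
  <| ki 10 0 <| ki 5 5 <| ki 9 0 <| ki 5 6 <| ki 10 6 <| su (nd (-1) 1 (-1) (-1) 0 0 0 0 <| ki 6
  6 <| ki 6 8 <| ki 7 8 <| ki 0 8 <| ki 10 8 <| ki 11 8 <| ki 6 0 <| ki 7 3 <| ki 6 4 <| ki 0 2
  <| ki 10 4 <| ki 6 6 <| ki 7 8 <| ki 6 8 <| ki 10 1 <| ki 0 8 <| ki 10 8 <| ki 11 8 <| ki 6 0
  <| ki 7 3 <| ki 6 4 <| ki 0 1 <| ki 10 4 <| ki 6 5 <| dn) <| ki 9 0 <| ki 5 11 <| ki 5 1 <| su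
  (nd 2 0 1 (-1) 2 10 10 0 <| ki 11 2 <| ki 10 6 <| ki 6 2 <| ki 0 0 <| ki 6 10 <| ki 11 9 <| ki
  11 1 <| ki 6 5 <| ki 10 1 <| ki 10 5 <| ki 11 6 <| ki 0 0 <| ki 11 1 <| ki 10 5 <| ki 6 1 <| ki
  0 0 <| ki 6 10 <| ki 11 9 <| ki 11 0 <| ki 6 6 <| ki 10 2 <| ki 6 18 <| ki 11 5 <| ki 10 6 <|
  dn) <| ki 5 10 <| ki 9 8 <| ki 10 2 <| ki 5 6 <| ki 9 2 <| ki 5 12 <| ki 10 5 <| su (nd 0 (-1)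
  (-1) (-3) 1 5 5 5 <| su (nd 1 (-2) 0 (-5) 2 0 0 3 <| ki 1 5 <| ki 3 15 <| ki 3 2 <| su (nd 2
  (-2) 1 (-5) 2 1 1 0 <| ki 7 2 <| ki 4 15 <| ki 4 2 <| ki 0 0 <| ki 4 10 <| ki 7 9 <| ki 7 1 <|
  ki 4 5 <| ki 2 13 <| ki 4 6 <| ki 7 6 <| ki 0 0 <| ki 7 1 <| ki 3 9 <| ki 4 1 <| ki 0 0 <| ki 4
  10 <| ki 7 9 <| ki 8 9 <| ki 4 6 <| ki 4 7 <| ki 4 18 <| ki 7 5 <| ki 1 6 <| dn) <| ki 3 10 <|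
  ki 0 8 <| ki 8 9 <| ki 3 5 <| ki 3 12 <| ki 3 6 <| ki 6 6 <| su (nd (-1) (-1) (-1) (-5) 0 0 0 0
  <| ki 4 6 <| ki 4 8 <| ki 5 8 <| ki 0 8 <| ki 4 0 <| ki 7 8 <| ki 4 0 <| ki 5 3 <| ki 4 4 <| ki
  0 2 <| ki 4 2 <| ki 4 6 <| ki 5 8 <| ki 4 8 <| ki 5 8 <| ki 0 8 <| ki 4 0 <| ki 7 8 <| ki 4 0
  <| ki 5 3 <| ki 4 4 <| ki 0 1 <| ki 4 1 <| ki 4 5 <| dn) <| ki 1 16 <| ki 3 11 <| ki 3 1 <| su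
  (nd 2 (-2) 1 (-5) 2 1 1 0 <| ki 7 2 <| ki 4 15 <| ki 4 2 <| ki 0 0 <| ki 4 10 <| ki 7 9 <| ki 7
  1 <| ki 4 5 <| ki 2 13 <| ki 4 6 <| ki 7 6 <| ki 0 0 <| ki 7 1 <| ki 3 9 <| ki 4 1 <| ki 0 0 <|
  ki 4 10 <| ki 7 9 <| ki 8 9 <| ki 4 6 <| ki 4 7 <| ki 4 18 <| ki 7 5 <| ki 1 6 <| dn) <| ki 3
  10 <| ki 0 8 <| ki 6 2 <| ki 3 6 <| ki 3 7 <| ki 3 12 <| ki 6 5 <| su (nd 0 (-2) (-1) (-6) 1 0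
  0 4 <| ki 0 1 <| su (nd (-1) 1 (-1) 2 4 12 12 14 <| ki 11 0 <| ki 12 9 <| ki 14 1 <| ki 11 2 <|
  ki 11 6 <| ki 11 6 <| ki 12 6 <| ki 11 0 <| su (nd 1 (-1) 0 1 2 0 0 13 <| ki 12 1 <| ki 15 1 <|
  ki 13 0 <| ki 15 1 <| ki 15 2 <| ki 15 4 <| ki 13 6 <| ki 15 2 <| ki 13 2 <| ki 15 0 <| ki 15 8
  <| ki 15 0 <| ki 12 2 <| ki 15 2 <| ki 15 6 <| ki 15 1 <| ki 15 1 <| ki 15 4 <| ki 13 12 <| ki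
  15 1 <| ki 15 1 <| ki 15 0 <| ki 15 8 <| ki 15 2 <| dn) <| ki 11 0 <| ki 11 2 <| su (nd 0 1 1 2
  3 0 0 12 <| ki 12 0 <| ki 14 1 <| ki 12 3 <| ki 12 6 <| ki 15 5 <| ki 12 2 <| ki 12 3 <| ki 12
  0 <| ki 12 2 <| ki 0 0 <| ki 12 0 <| ki 15 2 <| ki 12 0 <| ki 14 2 <| ki 12 3 <| ki 12 12 <| ki
  15 6 <| ki 12 3 <| ki 12 2 <| ki 12 0 <| ki 12 0 <| ki 0 0 <| ki 12 0 <| ki 15 0 <| dn) <| ki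
  11 0 <| ki 12 9 <| ki 12 0 <| ki 11 1 <| ki 11 5 <| ki 11 1 <| ki 11 9 <| ki 11 0 <| su (nd 1
  (-1) 0 1 2 0 0 13 <| ki 12 1 <| ki 15 1 <| ki 13 0 <| ki 15 1 <| ki 15 2 <| ki 15 4 <| ki 13 6
  <| ki 15 2 <| ki 13 2 <| ki 15 0 <| ki 15 8 <| ki 15 0 <| ki 12 2 <| ki 15 2 <| ki 15 6 <| ki
  15 1 <| ki 15 1 <| ki 15 4 <| ki 13 12 <| ki 15 1 <| ki 15 1 <| ki 15 0 <| ki 15 8 <| ki 15 2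
  <| dn) <| ki 11 0 <| ki 14 1 <| su (nd 0 1 1 2 3 0 0 12 <| ki 12 0 <| ki 14 1 <| ki 12 3 <| ki
  12 6 <| ki 15 5 <| ki 12 2 <| ki 12 3 <| ki 12 0 <| ki 12 2 <| ki 0 0 <| ki 12 0 <| ki 15 2 <|
  ki 12 0 <| ki 14 2 <| ki 12 3 <| ki 12 12 <| ki 15 6 <| ki 12 3 <| ki 12 2 <| ki 12 0 <| ki 12
  0 <| ki 0 0 <| ki 12 0 <| ki 15 0 <| dn) <| dn) <| ki 0 8 <| ki 3 0 <| ki 4 16 <| su (nd 1 (-2)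
  (-1) (-6) 1 1 1 0 <| ki 1 6 <| ki 1 5 <| ki 1 19 <| ki 4 0 <| ki 4 1 <| ki 0 0 <| ki 4 1 <| ki
  0 4 <| ki 1 1 <| ki 4 3 <| ki 4 7 <| ki 4 6 <| ki 1 5 <| ki 4 1 <| ki 1 19 <| ki 4 0 <| ki 5 1
  <| ki 0 0 <| ki 4 2 <| ki 1 15 <| ki 1 2 <| ki 4 3 <| ki 4 7 <| ki 5 14 <| dn) <| ki 4 13 <| ki
  0 0 <| ki 0 0 <| ki 5 12 <| ki 4 12 <| ki 4 17 <| ki 0 2 <| ki 4 3 <| ki 0 8 <| ki 5 19 <| ki 4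
  1 <| su (nd 1 (-2) (-1) (-6) 1 1 1 0 <| ki 1 6 <| ki 1 5 <| ki 1 19 <| ki 4 0 <| ki 4 1 <| ki 0
  0 <| ki 4 1 <| ki 0 4 <| ki 1 1 <| ki 4 3 <| ki 4 7 <| ki 4 6 <| ki 1 5 <| ki 4 1 <| ki 1 19 <|
  ki 4 0 <| ki 5 1 <| ki 0 0 <| ki 4 2 <| ki 1 15 <| ki 1 2 <| ki 4 3 <| ki 4 7 <| ki 5 14 <| dn)
  <| ki 4 13 <| ki 0 0 <| ki 0 2 <| ki 5 12 <| ki 4 12 <| ki 4 4 <| dn) <| dn) <| ki 2 2 <| ki 0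
  2 <| ki 5 0 <| ki 5 1 <| su (nd 0 (-2) 0 (-5) 2 3 3 3 <| ki 0 0 <| ki 3 0 <| ki 4 8 <| ki 0 0
  <| ki 3 8 <| ki 6 8 <| ki 6 0 <| ki 3 3 <| ki 6 1 <| ki 3 6 <| ki 6 4 <| ki 0 1 <| ki 1 6 <| ki
  3 0 <| ki 4 1 <| ki 0 0 <| ki 3 8 <| ki 6 8 <| ki 8 8 <| ki 3 3 <| ki 3 7 <| ki 3 4 <| ki 6 4
  <| ki 3 1 <| dn) <| ki 5 8 <| ki 2 5 <| ki 6 1 <| ki 5 3 <| ki 5 7 <| ki 5 6 <| ki 0 6 <| ki 5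
  1 <| ki 0 1 <| ki 5 0 <| ki 5 2 <| su (nd 0 (-2) 0 (-5) 2 3 3 3 <| ki 0 0 <| ki 3 0 <| ki 4 8
  <| ki 0 0 <| ki 3 8 <| ki 6 8 <| ki 6 0 <| ki 3 3 <| ki 6 1 <| ki 3 6 <| ki 6 4 <| ki 0 0 <| ki
  1 6 <| ki 3 0 <| ki 4 1 <| ki 0 0 <| ki 3 8 <| ki 6 8 <| ki 8 8 <| ki 3 3 <| ki 3 7 <| ki 3 4
  <| ki 6 4 <| ki 3 1 <| dn) <| ki 5 8 <| ki 2 6 <| ki 0 0 <| ki 5 3 <| ki 5 7 <| ki 5 4 <| dn)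
  <| dn) <| ki 0 8 <| ki 0 16 <| ki 1 16 <| su (nd 1 (-3) (-1) (-6) 1 1 1 0 <| ki 1 6 <| ki 1 5
  <| ki 1 19 <| ki 0 1 <| ki 0 16 <| ki 0 0 <| ki 0 2 <| ki 0 4 <| ki 1 1 <| ki 0 2 <| ki 0 2 <|
  ki 0 2 <| ki 1 5 <| ki 1 16 <| ki 1 19 <| ki 0 2 <| ki 2 1 <| ki 0 0 <| ki 0 1 <| ki 1 15 <| ki
  1 2 <| ki 0 1 <| ki 0 5 <| ki 2 14 <| dn) <| ki 1 13 <| ki 0 0 <| ki 0 0 <| ki 0 13 <| ki 1 12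
  <| ki 1 17 <| ki 0 2 <| ki 1 3 <| ki 0 8 <| ki 1 11 <| ki 1 1 <| su (nd 1 (-3) (-1) (-6) 1 1 1
  0 <| ki 1 6 <| ki 1 5 <| ki 1 19 <| ki 0 1 <| ki 0 16 <| ki 0 0 <| ki 0 2 <| ki 0 4 <| ki 1 1
  <| ki 0 2 <| ki 0 2 <| ki 0 2 <| ki 1 5 <| ki 1 16 <| ki 1 19 <| ki 0 2 <| ki 2 1 <| ki 0 0 <|
  ki 0 1 <| ki 1 15 <| ki 1 2 <| ki 0 1 <| ki 0 5 <| ki 2 14 <| dn) <| ki 1 13 <| ki 0 0 <| ki 0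
  2 <| ki 0 13 <| ki 1 12 <| ki 1 4 <| dn) <| dn) <| dn) <| ki 2 2 <| ki 2 2 <| ki 4 13 <| ki 2 8
  <| ki 2 0 <| su (nd (-2) (-1) 1 (-3) 4 0 0 3 <| ki 7 6 <| ki 3 3 <| ki 3 6 <| ki 3 0 <| ki 3 6
  <| ki 3 2 <| ki 3 0 <| ki 7 9 <| ki 0 0 <| ki 3 1 <| ki 3 5 <| ki 3 0 <| ki 3 11 <| ki 3 3 <|
  ki 0 0 <| ki 3 0 <| ki 3 3 <| ki 5 13 <| ki 3 0 <| ki 3 0 <| ki 0 0 <| ki 3 2 <| ki 3 6 <| ki 5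
  6 <| dn) <| ki 2 1 <| ki 2 16 <| ki 4 16 <| ki 5 5 <| ki 2 4 <| su (nd (-1) (-2) (-1) (-3) 0 1
  0 0 <| ki 1 1 <| ki 1 4 <| ki 0 1 <| ki 1 0 <| ki 1 6 <| ki 0 4 <| ki 0 8 <| ki 0 0 <| ki 1 8
  <| ki 3 1 <| ki 1 9 <| ki 1 0 <| ki 0 0 <| ki 1 4 <| ki 0 2 <| ki 1 0 <| ki 0 0 <| ki 0 4 <| ki
  0 8 <| ki 0 0 <| ki 1 8 <| ki 1 0 <| ki 1 9 <| ki 1 0 <| dn) <| ki 2 1 <| ki 2 5 <| ki 4 9 <|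
  ki 2 8 <| ki 5 9 <| su (nd (-2) (-1) 1 (-3) 4 0 0 3 <| ki 7 6 <| ki 3 3 <| ki 3 6 <| ki 3 0 <|
  ki 3 6 <| ki 3 2 <| ki 3 0 <| ki 7 9 <| ki 0 0 <| ki 3 1 <| ki 3 5 <| ki 3 0 <| ki 3 11 <| ki 3
  3 <| ki 0 0 <| ki 3 0 <| ki 3 3 <| ki 5 13 <| ki 3 0 <| ki 3 0 <| ki 0 0 <| ki 3 2 <| ki 3 6 <|
  ki 5 6 <| dn) <| ki 2 2 <| ki 2 6 <| ki 4 5 <| dn) <| ki 0 8 <| ki 0 16 <| ki 1 16 <| su (nd 1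
  (-1) (-1) (-2) 1 1 1 0 <| ki 1 6 <| ki 1 5 <| ki 1 19 <| ki 0 1 <| ki 0 16 <| ki 0 0 <| ki 0 2
  <| ki 0 4 <| ki 1 1 <| ki 0 2 <| ki 0 2 <| ki 0 2 <| ki 1 5 <| ki 1 16 <| ki 1 19 <| ki 0 2 <|
  ki 2 1 <| ki 0 0 <| ki 0 1 <| ki 1 15 <| ki 1 2 <| ki 0 1 <| ki 0 5 <| ki 2 14 <| dn) <| ki 1
  13 <| ki 0 0 <| ki 0 0 <| ki 0 13 <| ki 1 12 <| ki 1 17 <| ki 0 2 <| ki 1 3 <| ki 0 8 <| ki 1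
  11 <| ki 1 1 <| su (nd 1 (-1) (-1) (-2) 1 1 1 0 <| ki 1 6 <| ki 1 5 <| ki 1 19 <| ki 0 1 <| ki
  0 16 <| ki 0 0 <| ki 0 2 <| ki 0 4 <| ki 1 1 <| ki 0 2 <| ki 0 2 <| ki 0 2 <| ki 1 5 <| ki 1 16
  <| ki 1 19 <| ki 0 2 <| ki 2 1 <| ki 0 0 <| ki 0 1 <| ki 1 15 <| ki 1 2 <| ki 0 1 <| ki 0 5 <|
  ki 2 14 <| dn) <| ki 1 13 <| ki 0 0 <| ki 0 2 <| ki 0 13 <| ki 1 12 <| ki 1 4 <| dn) <| dn) <|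
  dn) <| ki 1 0 <| ki 1 1 <| dn) <| su (nd 0 (-1) 1 (-1) 3 0 0 2 <| ki 2 0 <| ki 2 2 <| ki 2 4 <|
  ki 0 0 <| ki 2 2 <| ki 2 2 <| ki 2 2 <| ki 2 8 <| ki 2 0 <| ki 0 0 <| ki 2 1 <| ki 2 16 <| ki 2
  0 <| ki 2 1 <| ki 2 4 <| ki 0 2 <| ki 2 1 <| ki 2 5 <| ki 2 0 <| ki 2 8 <| ki 2 2 <| ki 0 0 <|
  ki 2 2 <| ki 2 6 <| dn) <| su (nd (-1) 2 0 1 3 2 1 1 <| ki 1 8 <| ki 1 8 <| ki 2 8 <| ki 2 1 <|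
  ki 1 0 <| ki 2 1 <| ki 1 4 <| ki 2 4 <| ki 1 4 <| su (nd (-1) 1 0 1 4 3 3 3 <| ki 3 8 <| ki 1 8
  <| ki 3 1 <| ki 3 3 <| ki 3 7 <| ki 3 6 <| ki 1 4 <| ki 0 0 <| ki 1 2 <| ki 3 0 <| ki 3 4 <| su
  (nd (-2) 1 0 1 4 4 4 0 <| ki 4 8 <| ki 2 9 <| ki 2 1 <| ki 4 3 <| ki 4 7 <| ki 4 6 <| ki 2 5 <|
  ki 1 2 <| ki 2 2 <| ki 4 0 <| ki 4 2 <| ki 0 0 <| ki 4 8 <| ki 2 9 <| ki 2 0 <| ki 4 3 <| ki 4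
  7 <| ki 4 5 <| ki 2 5 <| ki 4 1 <| ki 2 1 <| ki 4 0 <| ki 4 3 <| ki 0 0 <| dn) <| ki 3 8 <| ki
  1 8 <| ki 1 1 <| ki 3 3 <| ki 3 7 <| ki 3 4 <| ki 1 4 <| ki 3 3 <| ki 1 1 <| ki 3 0 <| ki 3 3
  <| su (nd (-2) 1 0 1 4 4 4 0 <| ki 4 8 <| ki 2 9 <| ki 2 1 <| ki 4 3 <| ki 4 7 <| ki 4 6 <| ki
  2 5 <| ki 1 2 <| ki 2 2 <| ki 4 0 <| ki 4 2 <| ki 0 0 <| ki 4 8 <| ki 2 9 <| ki 2 0 <| ki 4 3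
  <| ki 4 7 <| ki 4 5 <| ki 2 5 <| ki 4 1 <| ki 2 1 <| ki 4 0 <| ki 4 3 <| ki 0 0 <| dn) <| dn)
  <| ki 1 0 <| ki 1 2 <| ki 1 8 <| ki 1 8 <| ki 2 8 <| ki 2 3 <| ki 1 0 <| ki 1 4 <| ki 1 4 <| ki
  2 4 <| ki 1 3 <| su (nd (-1) 1 0 1 4 3 3 3 <| ki 3 8 <| ki 1 8 <| ki 3 1 <| ki 3 3 <| ki 3 7 <|
  ki 3 6 <| ki 1 4 <| ki 0 0 <| ki 1 2 <| ki 3 0 <| ki 3 4 <| su (nd (-2) 1 0 1 4 4 4 0 <| ki 4 8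
  <| ki 2 9 <| ki 2 1 <| ki 4 3 <| ki 4 7 <| ki 4 6 <| ki 2 5 <| ki 1 2 <| ki 2 2 <| ki 4 0 <| ki
  4 2 <| ki 0 0 <| ki 4 8 <| ki 2 9 <| ki 2 0 <| ki 4 3 <| ki 4 7 <| ki 4 5 <| ki 2 5 <| ki 4 1
  <| ki 2 1 <| ki 4 0 <| ki 4 3 <| ki 0 0 <| dn) <| ki 3 8 <| ki 1 8 <| ki 1 1 <| ki 3 3 <| ki 3
  7 <| ki 3 4 <| ki 1 4 <| ki 3 3 <| ki 1 1 <| ki 3 0 <| ki 3 3 <| su (nd (-2) 1 0 1 4 4 4 0 <|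
  ki 4 8 <| ki 2 9 <| ki 2 1 <| ki 4 3 <| ki 4 7 <| ki 4 6 <| ki 2 5 <| ki 1 2 <| ki 2 2 <| ki 4
  0 <| ki 4 2 <| ki 0 0 <| ki 4 8 <| ki 2 9 <| ki 2 0 <| ki 4 3 <| ki 4 7 <| ki 4 5 <| ki 2 5 <|
  ki 4 1 <| ki 2 1 <| ki 4 0 <| ki 4 3 <| ki 0 0 <| dn) <| dn) <| ki 1 0 <| ki 1 1 <| dn) <| ki 1
  4 <| su (nd 2 (-1) 1 0 2 0 0 0 <| ki 2 1 <| ki 2 0 <| ki 2 3 <| ki 2 0 <| ki 2 8 <| ki 2 2 <|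
  ki 2 4 <| ki 2 0 <| ki 2 0 <| ki 2 1 <| ki 2 0 <| ki 2 3 <| ki 2 2 <| ki 2 0 <| ki 2 7 <| ki 2
  0 <| ki 2 8 <| ki 2 1 <| ki 2 7 <| ki 2 0 <| ki 2 0 <| ki 2 3 <| ki 2 0 <| ki 2 1 <| dn) <| su
  (nd (-2) 1 (-1) 0 0 1 2 2 <| ki 1 4 <| ki 2 13 <| ki 1 12 <| ki 1 13 <| ki 2 0 <| ki 2 2 <| ki
  0 1 <| ki 2 8 <| ki 2 5 <| ki 1 1 <| ki 2 2 <| ki 2 6 <| ki 2 5 <| ki 2 13 <| ki 2 15 <| ki 1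
  13 <| ki 2 0 <| ki 2 0 <| ki 0 2 <| ki 2 8 <| ki 2 16 <| ki 1 16 <| ki 2 1 <| su (nd 0 (-1)
  (-1) (-1) 1 0 3 1 <| ki 2 4 <| ki 0 4 <| ki 0 0 <| ki 1 9 <| ki 1 0 <| ki 0 2 <| ki 1 1 <| ki 2
  8 <| ki 3 1 <| ki 1 5 <| ki 2 1 <| ki 1 6 <| ki 2 4 <| ki 0 6 <| ki 0 0 <| ki 1 9 <| ki 1 1 <|
  ki 0 1 <| ki 1 2 <| ki 2 8 <| ki 2 0 <| ki 1 5 <| ki 1 7 <| ki 1 12 <| dn) <| dn) <| su (nd 0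
  (-1) (-1) 0 1 0 0 0 <| ki 2 0 <| ki 2 4 <| ki 2 2 <| ki 2 3 <| ki 0 2 <| ki 2 8 <| ki 0 10 <|
  ki 2 0 <| ki 2 0 <| ki 2 0 <| ki 2 1 <| ki 2 4 <| ki 2 0 <| ki 2 7 <| ki 2 1 <| ki 2 3 <| ki 2
  7 <| ki 2 8 <| ki 0 10 <| ki 2 0 <| ki 2 0 <| ki 2 0 <| ki 2 4 <| ki 0 12 <| dn) <| ki 1 1 <|
  su (nd (-1) 2 0 1 3 2 1 1 <| ki 1 8 <| ki 1 8 <| ki 2 8 <| ki 2 1 <| ki 1 0 <| ki 2 1 <| ki 1 4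
  <| ki 2 4 <| ki 1 4 <| su (nd (-1) 0 1 0 4 1 1 3 <| ki 3 1 <| ki 1 8 <| ki 1 2 <| ki 3 5 <| ki
  3 12 <| ki 3 6 <| ki 1 4 <| ki 0 9 <| ki 1 0 <| ki 3 9 <| ki 3 0 <| su (nd (-2) 0 1 0 4 2 2 0
  <| ki 4 1 <| ki 2 0 <| ki 2 0 <| ki 4 5 <| ki 2 1 <| ki 4 6 <| ki 2 3 <| ki 1 9 <| ki 2 0 <| ki
  4 9 <| ki 4 0 <| ki 0 0 <| ki 4 2 <| ki 2 0 <| ki 2 1 <| ki 4 5 <| ki 4 7 <| ki 4 18 <| ki 2 3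
  <| ki 2 6 <| ki 2 0 <| ki 4 9 <| ki 4 1 <| ki 0 0 <| dn) <| ki 3 2 <| ki 1 8 <| ki 1 0 <| ki 3
  5 <| ki 3 7 <| ki 3 12 <| ki 1 4 <| ki 0 8 <| ki 1 0 <| ki 3 9 <| ki 3 1 <| su (nd (-2) 0 1 0 4
  2 2 0 <| ki 4 1 <| ki 2 0 <| ki 2 0 <| ki 4 5 <| ki 2 1 <| ki 4 6 <| ki 2 3 <| ki 1 9 <| ki 2 0
  <| ki 4 9 <| ki 4 0 <| ki 0 0 <| ki 4 2 <| ki 2 0 <| ki 2 1 <| ki 4 5 <| ki 4 7 <| ki 4 18 <|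
  ki 2 3 <| ki 2 6 <| ki 2 0 <| ki 4 9 <| ki 4 1 <| ki 0 0 <| dn) <| dn) <| ki 1 0 <| ki 1 2 <|
  ki 1 8 <| ki 1 8 <| ki 2 8 <| ki 2 3 <| ki 1 0 <| ki 1 4 <| ki 1 4 <| ki 2 4 <| ki 1 3 <| su
  (nd (-1) 0 1 0 4 1 1 3 <| ki 3 1 <| ki 1 8 <| ki 1 2 <| ki 3 5 <| ki 3 12 <| ki 3 6 <| ki 1 4
  <| ki 0 9 <| ki 1 0 <| ki 3 9 <| ki 3 0 <| su (nd (-2) 0 1 0 4 2 2 0 <| ki 4 1 <| ki 2 0 <| ki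
  2 0 <| ki 4 5 <| ki 2 1 <| ki 4 6 <| ki 2 3 <| ki 1 9 <| ki 2 0 <| ki 4 9 <| ki 4 0 <| ki 0 0
  <| ki 4 2 <| ki 2 0 <| ki 2 1 <| ki 4 5 <| ki 4 7 <| ki 4 18 <| ki 2 3 <| ki 2 6 <| ki 2 0 <|
  ki 4 9 <| ki 4 1 <| ki 0 0 <| dn) <| ki 3 2 <| ki 1 8 <| ki 1 0 <| ki 3 5 <| ki 3 7 <| ki 3 12
  <| ki 1 4 <| ki 0 8 <| ki 1 0 <| ki 3 9 <| ki 3 1 <| su (nd (-2) 0 1 0 4 2 2 0 <| ki 4 1 <| ki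
  2 0 <| ki 2 0 <| ki 4 5 <| ki 2 1 <| ki 4 6 <| ki 2 3 <| ki 1 9 <| ki 2 0 <| ki 4 9 <| ki 4 0
  <| ki 0 0 <| ki 4 2 <| ki 2 0 <| ki 2 1 <| ki 4 5 <| ki 4 7 <| ki 4 18 <| ki 2 3 <| ki 2 6 <|
  ki 2 0 <| ki 4 9 <| ki 4 1 <| ki 0 0 <| dn) <| dn) <| ki 1 0 <| ki 1 1 <| dn) <| su (nd (-1) 2
  0 1 3 2 1 1 <| ki 1 8 <| ki 1 8 <| ki 2 8 <| ki 2 1 <| ki 1 0 <| ki 2 1 <| ki 1 4 <| ki 2 4 <|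
  ki 1 4 <| su (nd 0 0 0 1 2 1 1 1 <| ki 0 0 <| ki 3 0 <| ki 3 4 <| ki 3 0 <| ki 3 0 <| ki 3 2 <|
  ki 3 6 <| ki 3 2 <| ki 3 2 <| ki 3 3 <| ki 3 1 <| ki 3 0 <| ki 0 0 <| ki 3 0 <| ki 3 4 <| ki 3
  0 <| ki 3 0 <| ki 3 1 <| ki 3 5 <| ki 3 1 <| ki 3 3 <| ki 3 1 <| ki 3 2 <| ki 3 0 <| dn) <| ki
  1 0 <| ki 1 2 <| ki 1 8 <| ki 1 8 <| ki 2 8 <| ki 2 3 <| ki 1 0 <| ki 1 4 <| ki 1 4 <| ki 2 4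
  <| ki 1 3 <| su (nd 0 0 0 1 2 1 1 1 <| ki 0 0 <| ki 3 0 <| ki 3 4 <| ki 3 0 <| ki 3 0 <| ki 3 2
  <| ki 3 6 <| ki 3 2 <| ki 3 2 <| ki 3 3 <| ki 3 1 <| ki 3 0 <| ki 0 0 <| ki 3 0 <| ki 3 4 <| ki
  3 0 <| ki 3 0 <| ki 3 1 <| ki 3 5 <| ki 3 1 <| ki 3 3 <| ki 3 1 <| ki 3 2 <| ki 3 0 <| dn) <|
  ki 1 0 <| ki 1 1 <| dn) <| ki 1 8 <| ki 1 3 <| dn)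

def pat_T1b : List Sp := [⟨0, ⟨0, 1, 0, 0⟩⟩, ⟨0, ⟨0, 0, 0, 0⟩⟩]
def goal_T1b : List Sp := [⟨0, ⟨0, -1, 0, 0⟩⟩]

theorem chk_T1b : chk KT goal_T1b tree_T1b pat_T1b [] ⟨0, 0, 0, 0⟩ = true := by decide +kernel

def tree_T2a : Tr :=
  (nd (-1) 2 0 0 3 1 0 0 <| ki 0 8 <| ki 0 8 <| ki 2 9 <| ki 2 0 <| ki 0 0 <| ki 1 1 <| ki 0 4 <|
  ki 2 5 <| ki 0 4 <| ki 2 2 <| ki 0 0 <| ki 0 2 <| ki 0 8 <| ki 0 8 <| ki 2 9 <| ki 2 0 <| ki 0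
  0 <| ki 0 4 <| ki 0 4 <| ki 2 6 <| ki 0 3 <| ki 2 1 <| ki 0 0 <| ki 0 1 <| dn)

def pat_T2a : List Sp := [⟨0, ⟨0, 1, 0, -1⟩⟩, ⟨0, ⟨0, 0, 0, -1⟩⟩, ⟨0, ⟨0, 0, 0, 0⟩⟩]
def goal_T2a : List Sp := []

theorem chk_T2a : chk KT goal_T2a tree_T2a pat_T2a [] ⟨0, 0, 0, 0⟩ = true := by decide +kernel

def tree_T2b : Tr :=
  (nd (-1) 1 0 1 5 1 1 1 <| su gl <| ki 1 1 <| ki 1 4 <| ki 1 3 <| ki 1 7 <| ki 1 8 <| su (nd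
  (-1) 0 (-2) 0 0 1 1 2 <| ki 2 17 <| ki 1 1 <| su (nd 0 (-1) 1 (-1) 3 0 0 3 <| ki 3 0 <| ki 3 2
  <| ki 3 4 <| ki 1 6 <| ki 3 2 <| ki 3 2 <| ki 3 2 <| ki 3 8 <| ki 3 0 <| ki 1 11 <| ki 3 1 <|
  ki 3 16 <| ki 3 0 <| ki 3 1 <| ki 3 4 <| ki 1 5 <| ki 3 1 <| ki 3 5 <| ki 3 0 <| ki 3 8 <| ki 3
  2 <| ki 1 15 <| ki 3 2 <| ki 3 6 <| dn) <| ki 1 8 <| ki 1 16 <| ki 2 16 <| su (nd 0 (-1) 1 (-2)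
  3 0 0 2 <| ki 3 2 <| ki 2 2 <| ki 3 0 <| ki 0 1 <| ki 3 13 <| ki 3 15 <| ki 3 0 <| ki 3 1 <| ki
  2 0 <| ki 3 8 <| ki 3 16 <| ki 2 16 <| ki 3 1 <| ki 2 1 <| ki 3 0 <| ki 3 4 <| ki 3 13 <| ki 3
  1 <| ki 2 0 <| ki 3 2 <| ki 3 6 <| ki 3 8 <| ki 3 5 <| ki 2 6 <| dn) <| ki 2 13 <| ki 1 0 <| ki
  1 0 <| ki 1 13 <| ki 2 12 <| ki 2 4 <| ki 1 2 <| ki 2 3 <| ki 1 8 <| ki 2 11 <| ki 2 1 <| su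
  (nd 0 (-1) 1 (-2) 3 0 0 2 <| ki 3 2 <| ki 2 2 <| ki 3 0 <| ki 0 1 <| ki 3 13 <| ki 3 15 <| ki 3
  0 <| ki 3 1 <| ki 2 0 <| ki 3 8 <| ki 3 16 <| ki 2 16 <| ki 3 1 <| ki 2 1 <| ki 3 0 <| ki 3 4
  <| ki 3 13 <| ki 3 1 <| ki 2 0 <| ki 3 2 <| ki 3 6 <| ki 3 8 <| ki 3 5 <| ki 2 6 <| dn) <| ki 2
  13 <| ki 1 0 <| ki 1 2 <| ki 1 13 <| ki 2 12 <| dn) <| su (nd (-1) 0 (-2) 0 0 1 1 2 <| ki 2 17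
  <| ki 1 1 <| su (nd 0 (-1) 1 (-1) 3 0 0 3 <| ki 3 0 <| ki 3 2 <| ki 3 4 <| su (nd (-1) (-2) 0
  (-1) 4 1 1 0 <| ki 2 5 <| ki 0 2 <| ki 1 3 <| ki 1 5 <| ki 0 6 <| ki 0 3 <| ki 0 0 <| ki 0 2 <|
  su (nd 0 (-3) (-2) 0 1 1 1 0 <| ki 2 0 <| ki 2 4 <| ki 5 5 <| ki 2 3 <| ki 0 0 <| ki 2 8 <| ki
  0 0 <| ki 2 2 <| ki 2 6 <| ki 2 0 <| ki 5 9 <| ki 2 1 <| ki 2 0 <| ki 0 1 <| ki 5 16 <| ki 2 3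
  <| ki 2 7 <| ki 2 8 <| ki 0 0 <| ki 2 1 <| ki 1 0 <| ki 2 0 <| ki 2 0 <| ki 0 5 <| dn) <| ki 0
  0 <| ki 4 8 <| ki 0 8 <| ki 2 6 <| ki 0 1 <| su (nd 0 (-1) 0 0 3 1 1 1 <| ki 3 1 <| ki 5 0 <|
  ki 5 4 <| ki 1 1 <| ki 5 2 <| ki 5 6 <| ki 3 0 <| ki 5 8 <| ki 5 0 <| su (nd 1 (-1) 1 0 3 0 0 2
  <| ki 6 1 <| ki 6 0 <| ki 6 5 <| ki 2 1 <| ki 6 3 <| ki 6 6 <| ki 4 2 <| ki 6 9 <| ki 6 0 <| ki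
  0 0 <| ki 6 0 <| ki 6 1 <| ki 6 2 <| ki 6 0 <| ki 6 6 <| ki 0 0 <| ki 6 3 <| ki 6 12 <| ki 6 0
  <| ki 6 9 <| ki 6 0 <| ki 0 0 <| ki 6 0 <| ki 6 2 <| dn) <| ki 5 1 <| ki 5 2 <| ki 3 2 <| ki 5
  0 <| ki 5 4 <| su (nd (-1) 0 (-1) 1 3 0 0 2 <| ki 6 1 <| ki 6 0 <| ki 6 7 <| ki 4 7 <| ki 6 2
  <| ki 6 6 <| ki 6 2 <| ki 6 9 <| ki 6 0 <| su (nd 0 0 0 1 3 0 0 7 <| ki 5 0 <| ki 7 0 <| ki 7 4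
  <| ki 5 7 <| ki 7 2 <| ki 7 6 <| ki 5 0 <| ki 7 8 <| ki 7 2 <| ki 0 0 <| ki 7 1 <| ki 7 0 <| ki
  5 0 <| ki 7 0 <| ki 7 4 <| ki 5 7 <| ki 7 1 <| ki 7 5 <| ki 7 3 <| ki 7 8 <| ki 7 0 <| ki 0 0
  <| ki 7 2 <| ki 7 0 <| dn) <| ki 6 0 <| ki 6 2 <| ki 6 2 <| ki 6 0 <| ki 6 6 <| ki 4 7 <| ki 6
  1 <| ki 6 5 <| ki 6 1 <| ki 6 9 <| ki 6 0 <| su (nd 0 0 0 1 3 0 0 7 <| ki 5 0 <| ki 7 0 <| ki 7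
  4 <| ki 5 7 <| ki 7 2 <| ki 7 6 <| ki 5 0 <| ki 7 8 <| ki 7 2 <| ki 0 0 <| ki 7 1 <| ki 7 0 <|
  ki 5 0 <| ki 7 0 <| ki 7 4 <| ki 5 7 <| ki 7 1 <| ki 7 5 <| ki 7 3 <| ki 7 8 <| ki 7 0 <| ki 0
  0 <| ki 7 2 <| ki 7 0 <| dn) <| ki 6 0 <| ki 6 3 <| dn) <| ki 5 1 <| ki 5 5 <| ki 5 1 <| ki 5 8
  <| ki 5 0 <| su (nd 1 (-1) 1 0 3 0 0 2 <| ki 6 1 <| ki 6 0 <| ki 6 5 <| ki 2 1 <| ki 6 3 <| ki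
  6 6 <| ki 4 2 <| ki 6 9 <| ki 6 0 <| ki 0 0 <| ki 6 0 <| ki 6 1 <| ki 6 2 <| ki 6 0 <| ki 6 6
  <| ki 0 0 <| ki 6 3 <| ki 6 12 <| ki 6 0 <| ki 6 9 <| ki 6 0 <| ki 0 0 <| ki 6 0 <| ki 6 2 <|
  dn) <| ki 5 2 <| ki 5 6 <| dn) <| ki 1 6 <| ki 0 3 <| ki 0 4 <| ki 0 0 <| ki 0 0 <| su (nd 0
  (-3) (-2) 0 1 1 1 0 <| ki 2 0 <| ki 2 4 <| ki 5 5 <| ki 2 3 <| ki 0 0 <| ki 2 8 <| ki 0 0 <| ki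
  2 2 <| ki 2 6 <| ki 2 0 <| ki 5 9 <| ki 2 1 <| ki 2 0 <| ki 0 1 <| ki 5 16 <| ki 2 3 <| ki 2 7
  <| ki 2 8 <| ki 0 0 <| ki 2 1 <| ki 1 0 <| ki 2 0 <| ki 2 0 <| ki 0 5 <| dn) <| ki 0 0 <| ki 4
  8 <| ki 0 8 <| dn) <| ki 3 2 <| ki 3 2 <| ki 3 2 <| ki 3 8 <| ki 3 0 <| su (nd 1 (-1) 2 (-1) 3
  0 0 4 <| ki 4 0 <| ki 4 13 <| ki 4 3 <| ki 4 6 <| ki 4 0 <| ki 4 6 <| ki 4 2 <| ki 4 0 <| ki 4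
  1 <| ki 0 0 <| ki 4 1 <| ki 4 5 <| ki 4 0 <| ki 4 11 <| ki 4 3 <| ki 0 0 <| ki 4 0 <| ki 4 3 <|
  ki 4 0 <| ki 4 0 <| ki 4 0 <| ki 0 0 <| ki 4 2 <| ki 4 6 <| dn) <| ki 3 1 <| ki 3 16 <| ki 3 0
  <| ki 3 1 <| ki 3 4 <| su (nd (-1) (-1) (-1) 0 0 0 0 0 <| ki 1 1 <| ki 4 4 <| ki 1 5 <| ki 1 0
  <| ki 1 4 <| ki 0 1 <| ki 1 0 <| ki 0 8 <| ki 4 8 <| ki 4 11 <| ki 1 8 <| ki 4 1 <| ki 1 6 <|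
  ki 4 4 <| ki 1 6 <| ki 1 0 <| ki 1 4 <| ki 0 2 <| ki 1 0 <| ki 0 8 <| ki 4 8 <| ki 4 2 <| ki 1
  8 <| ki 1 0 <| dn) <| ki 3 1 <| ki 3 5 <| ki 3 0 <| ki 3 8 <| ki 3 2 <| su (nd 1 (-1) 2 (-1) 3
  0 0 4 <| ki 4 0 <| ki 4 13 <| ki 4 3 <| ki 4 6 <| ki 4 0 <| ki 4 6 <| ki 4 2 <| ki 4 0 <| ki 4
  1 <| ki 0 0 <| ki 4 1 <| ki 4 5 <| ki 4 0 <| ki 4 11 <| ki 4 3 <| ki 0 0 <| ki 4 0 <| ki 4 3 <|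
  ki 4 0 <| ki 4 0 <| ki 4 0 <| ki 0 0 <| ki 4 2 <| ki 4 6 <| dn) <| ki 3 2 <| ki 3 6 <| dn) <|
  ki 1 8 <| ki 1 16 <| ki 2 16 <| su (nd 0 (-1) 1 (-2) 3 0 0 2 <| ki 3 2 <| ki 2 2 <| ki 3 0 <|
  ki 0 1 <| ki 3 13 <| ki 3 15 <| ki 3 0 <| ki 3 1 <| ki 2 0 <| ki 3 8 <| ki 3 16 <| ki 2 16 <|
  ki 3 1 <| ki 2 1 <| ki 3 0 <| ki 3 4 <| ki 3 13 <| ki 3 1 <| ki 2 0 <| ki 3 2 <| ki 3 6 <| ki 3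
  8 <| ki 3 5 <| ki 2 6 <| dn) <| ki 2 13 <| ki 1 0 <| ki 1 0 <| ki 1 13 <| ki 2 12 <| ki 2 4 <|
  ki 1 2 <| ki 2 3 <| ki 1 8 <| ki 2 11 <| ki 2 1 <| su (nd 0 (-1) 1 (-2) 3 0 0 2 <| ki 3 2 <| ki
  2 2 <| ki 3 0 <| ki 0 1 <| ki 3 13 <| ki 3 15 <| ki 3 0 <| ki 3 1 <| ki 2 0 <| ki 3 8 <| ki 3
  16 <| ki 2 16 <| ki 3 1 <| ki 2 1 <| ki 3 0 <| ki 3 4 <| ki 3 13 <| ki 3 1 <| ki 2 0 <| ki 3 2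
  <| ki 3 6 <| ki 3 8 <| ki 3 5 <| ki 2 6 <| dn) <| ki 2 13 <| ki 1 0 <| ki 1 2 <| ki 1 13 <| ki
  2 12 <| dn) <| su (nd (-1) 0 (-2) 0 0 1 1 2 <| ki 2 17 <| ki 1 1 <| su (nd (-1) 0 (-1) 1 0 3 1
  1 <| ki 3 1 <| ki 3 4 <| su (nd (-1) (-1) (-1) 0 0 0 0 0 <| ki 1 1 <| ki 4 4 <| ki 1 5 <| ki 1
  0 <| ki 2 9 <| ki 2 0 <| ki 1 0 <| ki 0 8 <| ki 4 8 <| ki 4 11 <| ki 2 12 <| ki 4 1 <| ki 1 6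
  <| ki 4 4 <| ki 1 6 <| ki 1 0 <| ki 2 9 <| ki 2 0 <| ki 1 0 <| ki 0 8 <| ki 4 8 <| ki 4 2 <| ki
  2 7 <| ki 1 0 <| dn) <| ki 3 0 <| ki 3 6 <| ki 1 1 <| ki 0 2 <| ki 1 1 <| ki 3 8 <| ki 3 0 <|
  ki 3 9 <| ki 3 0 <| ki 1 4 <| ki 3 4 <| ki 1 1 <| ki 3 0 <| ki 1 0 <| ki 1 2 <| ki 0 1 <| ki 1
  2 <| ki 3 8 <| ki 3 0 <| ki 3 9 <| ki 3 0 <| dn) <| ki 1 8 <| ki 1 16 <| ki 2 16 <| su (nd 0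
  (-1) 1 (-2) 3 0 0 2 <| ki 3 2 <| ki 2 2 <| ki 3 0 <| ki 0 1 <| ki 3 13 <| ki 3 15 <| ki 3 0 <|
  ki 3 1 <| ki 2 0 <| ki 3 8 <| ki 3 16 <| ki 2 16 <| ki 3 1 <| ki 2 1 <| ki 3 0 <| ki 3 4 <| ki
  3 13 <| ki 3 1 <| ki 2 0 <| ki 3 2 <| ki 3 6 <| ki 3 8 <| ki 3 5 <| ki 2 6 <| dn) <| ki 2 13 <|
  ki 1 0 <| ki 1 0 <| ki 2 20 <| ki 2 12 <| ki 2 4 <| ki 1 2 <| ki 2 3 <| ki 1 8 <| ki 2 11 <| ki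
  2 1 <| su (nd 0 (-1) 1 (-2) 3 0 0 2 <| ki 3 2 <| ki 2 2 <| ki 3 0 <| ki 0 1 <| ki 3 13 <| ki 3
  15 <| ki 3 0 <| ki 3 1 <| ki 2 0 <| ki 3 8 <| ki 3 16 <| ki 2 16 <| ki 3 1 <| ki 2 1 <| ki 3 0
  <| ki 3 4 <| ki 3 13 <| ki 3 1 <| ki 2 0 <| ki 3 2 <| ki 3 6 <| ki 3 8 <| ki 3 5 <| ki 2 6 <|
  dn) <| ki 2 13 <| ki 1 0 <| ki 1 2 <| ki 2 21 <| ki 2 12 <| dn) <| su (nd (-1) 0 (-2) 0 0 1 1 2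
  <| ki 2 17 <| ki 1 1 <| su (nd 0 (-1) 1 (-1) 3 0 0 3 <| ki 3 0 <| ki 3 2 <| ki 3 4 <| su (nd
  (-2) 1 0 1 4 4 4 2 <| ki 4 8 <| ki 2 4 <| ki 0 1 <| ki 4 3 <| ki 4 7 <| ki 4 6 <| ki 2 8 <| ki
  2 0 <| ki 0 2 <| ki 4 0 <| ki 4 2 <| ki 2 0 <| ki 4 8 <| ki 2 4 <| ki 0 0 <| ki 4 3 <| ki 4 7
  <| ki 4 5 <| ki 2 8 <| ki 4 1 <| ki 0 1 <| ki 4 0 <| ki 4 3 <| ki 2 0 <| dn) <| ki 3 2 <| ki 3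
  2 <| ki 3 2 <| ki 3 8 <| ki 3 0 <| su (nd 1 (-1) 2 (-1) 3 0 0 4 <| ki 4 0 <| ki 4 13 <| ki 4 3
  <| ki 4 6 <| ki 4 0 <| ki 4 6 <| ki 4 2 <| ki 4 0 <| ki 4 1 <| ki 0 0 <| ki 4 1 <| ki 4 5 <| ki
  4 0 <| ki 4 11 <| ki 4 3 <| ki 0 0 <| ki 4 0 <| ki 4 3 <| ki 4 0 <| ki 4 0 <| ki 4 0 <| ki 0 0
  <| ki 4 2 <| ki 4 6 <| dn) <| ki 3 1 <| ki 3 16 <| ki 3 0 <| ki 3 1 <| ki 3 4 <| su (nd (-1)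
  (-1) (-1) 0 0 0 0 0 <| ki 1 1 <| ki 4 4 <| ki 1 5 <| ki 1 0 <| ki 1 4 <| ki 0 1 <| ki 1 0 <| ki
  0 8 <| ki 4 8 <| ki 4 11 <| ki 1 8 <| ki 4 1 <| ki 1 6 <| ki 4 4 <| ki 1 6 <| ki 1 0 <| ki 1 4
  <| ki 0 2 <| ki 1 0 <| ki 0 8 <| ki 4 8 <| ki 4 2 <| ki 1 8 <| ki 1 0 <| dn) <| ki 3 1 <| ki 3
  5 <| ki 3 0 <| ki 3 8 <| ki 3 2 <| su (nd 1 (-1) 2 (-1) 3 0 0 4 <| ki 4 0 <| ki 4 13 <| ki 4 3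
  <| ki 4 6 <| ki 4 0 <| ki 4 6 <| ki 4 2 <| ki 4 0 <| ki 4 1 <| ki 0 0 <| ki 4 1 <| ki 4 5 <| ki
  4 0 <| ki 4 11 <| ki 4 3 <| ki 0 0 <| ki 4 0 <| ki 4 3 <| ki 4 0 <| ki 4 0 <| ki 4 0 <| ki 0 0
  <| ki 4 2 <| ki 4 6 <| dn) <| ki 3 2 <| ki 3 6 <| dn) <| ki 1 8 <| ki 1 16 <| ki 2 16 <| su (nd
  0 (-1) 1 (-2) 3 0 0 2 <| ki 3 2 <| ki 2 2 <| ki 3 0 <| ki 0 1 <| ki 3 13 <| ki 3 15 <| ki 3 0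
  <| ki 3 1 <| ki 2 0 <| ki 3 8 <| ki 3 16 <| ki 2 16 <| ki 3 1 <| ki 2 1 <| ki 3 0 <| ki 3 4 <|
  ki 3 13 <| ki 3 1 <| ki 2 0 <| ki 3 2 <| ki 3 6 <| ki 3 8 <| ki 3 5 <| ki 2 6 <| dn) <| ki 2 13
  <| ki 1 0 <| ki 1 0 <| ki 2 20 <| ki 2 12 <| ki 2 4 <| ki 1 2 <| ki 2 3 <| ki 1 8 <| ki 2 11 <|
  ki 2 1 <| su (nd 0 (-1) 1 (-2) 3 0 0 2 <| ki 3 2 <| ki 2 2 <| ki 3 0 <| ki 0 1 <| ki 3 13 <| ki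
  3 15 <| ki 3 0 <| ki 3 1 <| ki 2 0 <| ki 3 8 <| ki 3 16 <| ki 2 16 <| ki 3 1 <| ki 2 1 <| ki 3
  0 <| ki 3 4 <| ki 3 13 <| ki 3 1 <| ki 2 0 <| ki 3 2 <| ki 3 6 <| ki 3 8 <| ki 3 5 <| ki 2 6 <|
  dn) <| ki 2 13 <| ki 1 0 <| ki 1 2 <| ki 2 21 <| ki 2 12 <| dn) <| ki 1 0 <| ki 1 2 <| su gl <|
  su (nd (-2) 0 (-1) 0 0 2 0 0 <| ki 2 4 <| ki 2 21 <| ki 2 12 <| ki 2 13 <| ki 0 0 <| ki 0 2 <|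
  su (nd 1 (-2) 0 (-1) 2 1 1 0 <| ki 3 1 <| ki 3 3 <| ki 0 0 <| ki 3 8 <| ki 2 2 <| ki 3 2 <| ki
  3 6 <| ki 3 0 <| ki 3 8 <| ki 3 1 <| ki 3 0 <| ki 3 4 <| ki 3 2 <| ki 3 3 <| ki 3 7 <| ki 3 8
  <| ki 2 1 <| ki 3 1 <| ki 1 0 <| ki 3 0 <| ki 3 0 <| ki 2 0 <| ki 3 0 <| ki 0 1 <| dn) <| ki 0
  8 <| ki 2 11 <| ki 2 1 <| ki 0 2 <| ki 2 3 <| ki 2 17 <| ki 2 20 <| ki 2 12 <| ki 2 13 <| ki 0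
  0 <| ki 0 0 <| su (nd 1 (-2) 0 (-1) 2 1 1 0 <| ki 3 1 <| ki 3 3 <| ki 0 0 <| ki 3 8 <| ki 2 2
  <| ki 3 2 <| ki 3 6 <| ki 3 0 <| ki 3 8 <| ki 3 1 <| ki 3 0 <| ki 3 4 <| ki 3 2 <| ki 3 3 <| ki
  3 7 <| ki 3 8 <| ki 2 1 <| ki 3 1 <| ki 1 0 <| ki 3 0 <| ki 3 0 <| ki 2 0 <| ki 3 0 <| ki 0 1
  <| dn) <| ki 0 8 <| ki 1 9 <| ki 2 16 <| ki 0 1 <| su (nd 1 (-1) 0 (-1) 2 3 3 0 <| ki 3 0 <| ki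
  3 6 <| ki 2 3 <| ki 2 0 <| ki 2 8 <| ki 3 8 <| ki 3 2 <| ki 2 0 <| ki 3 0 <| ki 2 1 <| ki 3 4
  <| ki 2 4 <| ki 3 0 <| ki 2 0 <| ki 2 7 <| ki 2 0 <| ki 2 8 <| ki 3 8 <| ki 3 0 <| ki 2 0 <| ki
  3 2 <| ki 2 2 <| ki 3 4 <| ki 2 1 <| dn) <| dn) <| ki 1 6 <| ki 1 3 <| ki 1 7 <| ki 1 8 <| su
  (nd (-1) 0 (-2) 0 0 1 1 2 <| ki 2 17 <| ki 1 1 <| su (nd 0 (-1) 1 (-1) 3 0 0 3 <| ki 3 0 <| ki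
  3 2 <| ki 3 4 <| ki 1 6 <| ki 3 2 <| ki 3 2 <| ki 3 2 <| ki 3 8 <| ki 3 0 <| ki 1 0 <| ki 3 1
  <| ki 3 16 <| ki 3 0 <| ki 3 1 <| ki 3 4 <| ki 1 5 <| ki 3 1 <| ki 3 5 <| ki 3 0 <| ki 3 8 <|
  ki 3 2 <| ki 1 0 <| ki 3 2 <| ki 3 6 <| dn) <| ki 1 8 <| ki 1 16 <| ki 2 16 <| su (nd 0 (-1) 1
  (-2) 3 0 0 2 <| ki 3 2 <| ki 2 2 <| ki 3 0 <| ki 0 1 <| ki 3 13 <| ki 3 15 <| ki 3 0 <| ki 3 1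
  <| ki 2 0 <| ki 3 8 <| ki 3 16 <| ki 2 16 <| ki 3 1 <| ki 2 1 <| ki 3 0 <| ki 3 4 <| ki 3 13 <|
  ki 3 1 <| ki 2 0 <| ki 3 2 <| ki 3 6 <| ki 3 8 <| ki 3 5 <| ki 2 6 <| dn) <| ki 2 13 <| ki 1 0
  <| ki 1 0 <| ki 2 20 <| ki 2 12 <| ki 2 4 <| ki 1 2 <| ki 2 3 <| ki 1 8 <| ki 2 11 <| ki 2 1 <|
  su (nd 0 (-1) 1 (-2) 3 0 0 2 <| ki 3 2 <| ki 2 2 <| ki 3 0 <| ki 0 1 <| ki 3 13 <| ki 3 15 <|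
  ki 3 0 <| ki 3 1 <| ki 2 0 <| ki 3 8 <| ki 3 16 <| ki 2 16 <| ki 3 1 <| ki 2 1 <| ki 3 0 <| ki
  3 4 <| ki 3 13 <| ki 3 1 <| ki 2 0 <| ki 3 2 <| ki 3 6 <| ki 3 8 <| ki 3 5 <| ki 2 6 <| dn) <|
  ki 2 13 <| ki 1 0 <| ki 1 2 <| ki 2 21 <| ki 2 12 <| dn) <| ki 1 3 <| su (nd (-1) 0 (-2) 0 0 1
  1 2 <| ki 2 17 <| ki 1 1 <| su (nd (-1) 0 (-1) 1 0 3 1 1 <| ki 3 1 <| ki 3 4 <| su (nd (-1)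
  (-1) (-1) 0 0 0 0 0 <| ki 1 1 <| ki 4 4 <| ki 1 5 <| ki 1 0 <| ki 1 4 <| ki 2 15 <| ki 1 0 <|
  ki 0 8 <| ki 4 8 <| ki 4 11 <| ki 2 18 <| ki 4 1 <| ki 1 6 <| ki 4 4 <| ki 1 6 <| ki 1 0 <| ki
  1 4 <| ki 2 0 <| ki 1 0 <| ki 0 8 <| ki 4 8 <| ki 4 2 <| ki 2 7 <| ki 1 0 <| dn) <| ki 3 0 <|
  ki 3 6 <| ki 1 1 <| ki 0 2 <| ki 1 1 <| ki 3 8 <| ki 3 0 <| ki 3 9 <| ki 3 0 <| ki 1 4 <| ki 3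
  4 <| ki 1 1 <| ki 3 0 <| ki 1 0 <| ki 1 2 <| ki 0 1 <| ki 1 2 <| ki 3 8 <| ki 3 0 <| ki 3 9 <|
  ki 3 0 <| dn) <| ki 1 8 <| ki 1 16 <| ki 2 16 <| su (nd 0 (-1) 1 (-2) 3 0 0 2 <| ki 3 2 <| ki 2
  2 <| ki 3 0 <| ki 0 1 <| ki 3 13 <| ki 3 15 <| ki 3 0 <| ki 3 1 <| ki 2 0 <| ki 3 8 <| ki 3 16
  <| ki 2 16 <| ki 3 1 <| ki 2 1 <| ki 3 0 <| ki 3 4 <| ki 3 13 <| ki 3 1 <| ki 2 0 <| ki 3 2 <|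
  ki 3 6 <| ki 3 8 <| ki 3 5 <| ki 2 6 <| dn) <| ki 2 13 <| ki 1 0 <| ki 1 0 <| ki 2 20 <| ki 2
  12 <| ki 2 4 <| ki 1 2 <| ki 2 3 <| ki 1 8 <| ki 2 11 <| ki 2 1 <| su (nd 0 (-1) 1 (-2) 3 0 0 2
  <| ki 3 2 <| ki 2 2 <| ki 3 0 <| ki 0 1 <| ki 3 13 <| ki 3 15 <| ki 3 0 <| ki 3 1 <| ki 2 0 <|
  ki 3 8 <| ki 3 16 <| ki 2 16 <| ki 3 1 <| ki 2 1 <| ki 3 0 <| ki 3 4 <| ki 3 13 <| ki 3 1 <| ki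
  2 0 <| ki 3 2 <| ki 3 6 <| ki 3 8 <| ki 3 5 <| ki 2 6 <| dn) <| ki 2 13 <| ki 1 0 <| ki 1 2 <|
  ki 2 21 <| ki 2 12 <| dn) <| su (nd (-1) 0 (-2) 0 0 1 1 2 <| ki 2 17 <| ki 1 1 <| su (nd 0 (-1)
  1 (-1) 3 0 0 3 <| ki 3 0 <| ki 3 2 <| ki 3 4 <| su (nd (-2) 1 0 1 4 4 4 2 <| ki 4 8 <| ki 2 4
  <| ki 0 1 <| ki 4 3 <| ki 4 7 <| ki 4 6 <| ki 2 8 <| ki 2 0 <| ki 0 2 <| ki 4 0 <| ki 4 2 <| ki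
  2 0 <| ki 4 8 <| ki 2 4 <| ki 0 0 <| ki 4 3 <| ki 4 7 <| ki 4 5 <| ki 2 8 <| ki 4 1 <| ki 0 1
  <| ki 4 0 <| ki 4 3 <| ki 2 0 <| dn) <| ki 3 2 <| ki 3 2 <| ki 3 2 <| ki 3 8 <| ki 3 0 <| su
  (nd 1 (-1) 2 (-1) 3 0 0 4 <| ki 4 0 <| ki 4 13 <| ki 4 3 <| ki 4 6 <| ki 4 0 <| ki 4 6 <| ki 4
  2 <| ki 4 0 <| ki 4 1 <| ki 0 0 <| ki 4 1 <| ki 4 5 <| ki 4 0 <| ki 4 11 <| ki 4 3 <| ki 0 0 <|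
  ki 4 0 <| ki 4 3 <| ki 4 0 <| ki 4 0 <| ki 4 0 <| ki 0 0 <| ki 4 2 <| ki 4 6 <| dn) <| ki 3 1
  <| ki 3 16 <| ki 3 0 <| ki 3 1 <| ki 3 4 <| su (nd (-1) (-1) (-1) 0 0 0 0 0 <| ki 1 1 <| ki 4 4
  <| ki 1 5 <| ki 1 0 <| ki 1 4 <| ki 0 1 <| ki 1 0 <| ki 0 8 <| ki 4 8 <| ki 4 11 <| ki 1 8 <|
  ki 4 1 <| ki 1 6 <| ki 4 4 <| ki 1 6 <| ki 1 0 <| ki 1 4 <| ki 0 2 <| ki 1 0 <| ki 0 8 <| ki 4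
  8 <| ki 4 2 <| ki 1 8 <| ki 1 0 <| dn) <| ki 3 1 <| ki 3 5 <| ki 3 0 <| ki 3 8 <| ki 3 2 <| su
  (nd 1 (-1) 2 (-1) 3 0 0 4 <| ki 4 0 <| ki 4 13 <| ki 4 3 <| ki 4 6 <| ki 4 0 <| ki 4 6 <| ki 4
  2 <| ki 4 0 <| ki 4 1 <| ki 0 0 <| ki 4 1 <| ki 4 5 <| ki 4 0 <| ki 4 11 <| ki 4 3 <| ki 0 0 <|
  ki 4 0 <| ki 4 3 <| ki 4 0 <| ki 4 0 <| ki 4 0 <| ki 0 0 <| ki 4 2 <| ki 4 6 <| dn) <| ki 3 2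
  <| ki 3 6 <| dn) <| ki 1 8 <| ki 1 16 <| ki 2 16 <| su (nd 0 (-1) 1 (-2) 3 0 0 2 <| ki 3 2 <|
  ki 2 2 <| ki 3 0 <| ki 0 1 <| ki 3 13 <| ki 3 15 <| ki 3 0 <| ki 3 1 <| ki 2 0 <| ki 3 8 <| ki
  3 16 <| ki 2 16 <| ki 3 1 <| ki 2 1 <| ki 3 0 <| ki 3 4 <| ki 3 13 <| ki 3 1 <| ki 2 0 <| ki 3
  2 <| ki 3 6 <| ki 3 8 <| ki 3 5 <| ki 2 6 <| dn) <| ki 2 13 <| ki 1 0 <| ki 1 0 <| ki 2 20 <|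
  ki 2 12 <| ki 2 4 <| ki 1 2 <| ki 2 3 <| ki 1 8 <| ki 2 11 <| ki 2 1 <| su (nd 0 (-1) 1 (-2) 3
  0 0 2 <| ki 3 2 <| ki 2 2 <| ki 3 0 <| ki 0 1 <| ki 3 13 <| ki 3 15 <| ki 3 0 <| ki 3 1 <| ki 2
  0 <| ki 3 8 <| ki 3 16 <| ki 2 16 <| ki 3 1 <| ki 2 1 <| ki 3 0 <| ki 3 4 <| ki 3 13 <| ki 3 1
  <| ki 2 0 <| ki 3 2 <| ki 3 6 <| ki 3 8 <| ki 3 5 <| ki 2 6 <| dn) <| ki 2 13 <| ki 1 0 <| ki 1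
  2 <| ki 2 21 <| ki 2 12 <| dn) <| ki 1 0 <| ki 1 1 <| dn)

def pat_T2b : List Sp := [⟨0, ⟨0, 0, 0, -1⟩⟩, ⟨0, ⟨0, 0, 0, 0⟩⟩]
def goal_T2b : List Sp := [⟨0, ⟨0, 0, 0, 1⟩⟩, ⟨6, ⟨0, 0, 0, 1⟩⟩]

theorem chk_T2b : chk KT goal_T2b tree_T2b pat_T2b [] ⟨0, 0, 0, 0⟩ = true := by decide +kernel

def tree_TXX : Tr :=
  (nd (-2) 0 (-1) 1 0 1 0 0 <| ki 1 4 <| ki 2 6 <| ki 1 12 <| ki 2 15 <| ki 0 0 <| ki 0 2 <| su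
  (nd 1 (-2) 0 0 2 1 1 0 <| ki 2 1 <| ki 2 3 <| ki 0 0 <| ki 3 1 <| ki 3 2 <| ki 3 6 <| ki 2 6 <|
  ki 2 0 <| ki 2 8 <| ki 3 0 <| ki 3 9 <| ki 3 0 <| ki 2 2 <| ki 3 6 <| ki 2 7 <| ki 3 1 <| ki 3
  1 <| ki 2 1 <| ki 1 0 <| ki 2 0 <| ki 3 1 <| ki 3 0 <| ki 3 9 <| ki 0 1 <| dn) <| ki 0 8 <| ki
  2 9 <| ki 2 0 <| ki 0 2 <| ki 2 8 <| ki 0 5 <| ki 2 5 <| ki 1 12 <| ki 1 13 <| ki 0 0 <| ki 0 0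
  <| su (nd 1 (-2) 0 0 2 1 1 0 <| ki 2 1 <| ki 2 3 <| ki 0 0 <| ki 3 1 <| ki 3 2 <| ki 3 6 <| ki
  2 6 <| ki 2 0 <| ki 2 8 <| ki 3 0 <| ki 3 9 <| ki 3 0 <| ki 2 2 <| ki 3 6 <| ki 2 7 <| ki 3 1
  <| ki 3 1 <| ki 2 1 <| ki 1 0 <| ki 2 0 <| ki 3 1 <| ki 3 0 <| ki 3 9 <| ki 0 1 <| dn) <| ki 0
  8 <| ki 2 9 <| ki 2 0 <| ki 0 1 <| su (nd 1 (-1) 0 0 2 2 2 0 <| ki 3 1 <| ki 3 0 <| ki 3 3 <|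
  ki 3 0 <| ki 3 8 <| ki 3 0 <| ki 3 6 <| ki 3 0 <| ki 3 2 <| ki 3 1 <| ki 3 0 <| ki 3 4 <| ki 3
  2 <| ki 3 0 <| ki 3 7 <| ki 3 0 <| ki 3 8 <| ki 3 0 <| ki 3 4 <| ki 3 0 <| ki 3 0 <| ki 3 2 <|
  ki 3 0 <| ki 3 1 <| dn) <| dn)

def pat_TXX : List Sp := [⟨6, ⟨0, -1, 0, 1⟩⟩, ⟨6, ⟨0, 0, 0, 1⟩⟩, ⟨0, ⟨0, 0, 0, 0⟩⟩]
def goal_TXX : List Sp := []

theorem chk_TXX : chk KT goal_TXX tree_TXX pat_TXX [] ⟨0, 0, 0, 0⟩ = true := by decide +kernel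

def tree_TA : Tr :=
  (nd 0 0 (-1) 0 1 2 2 2 <| ki 1 0 <| ki 1 4 <| ki 1 2 <| ki 2 8 <| ki 2 3 <| ki 1 8 <| su (nd
  (-2) 0 (-1) 0 0 3 1 1 <| ki 3 4 <| ki 0 1 <| ki 0 5 <| ki 0 1 <| ki 1 0 <| ki 1 2 <| ki 0 0 <|
  ki 1 8 <| ki 1 5 <| ki 3 1 <| ki 1 2 <| ki 3 3 <| ki 1 5 <| ki 0 2 <| ki 0 6 <| ki 0 2 <| ki 1
  0 <| ki 1 0 <| ki 0 0 <| ki 1 8 <| ki 0 1 <| ki 0 5 <| ki 1 1 <| ki 0 0 <| dn) <| ki 1 0 <| ki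
  2 1 <| ki 2 4 <| ki 1 1 <| ki 1 4 <| ki 1 0 <| ki 2 1 <| ki 1 1 <| ki 2 8 <| ki 2 3 <| ki 1 8
  <| su (nd (-2) 0 (-1) 0 0 3 1 1 <| ki 3 4 <| ki 0 1 <| ki 0 5 <| ki 0 1 <| ki 1 0 <| ki 1 2 <|
  ki 0 0 <| ki 1 8 <| ki 1 5 <| ki 3 1 <| ki 1 2 <| ki 3 3 <| ki 1 5 <| ki 0 2 <| ki 0 6 <| ki 0
  2 <| ki 1 0 <| ki 1 0 <| ki 0 0 <| ki 1 8 <| ki 0 1 <| ki 0 5 <| ki 1 1 <| ki 0 0 <| dn) <| ki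
  1 0 <| ki 1 0 <| ki 2 4 <| ki 1 4 <| su gl <| dn)

def pat_TA : List Sp := [⟨0, ⟨0, -1, 0, 0⟩⟩, ⟨0, ⟨0, 1, 0, 0⟩⟩, ⟨0, ⟨0, 0, 0, 0⟩⟩]
def goal_TA : List Sp := [⟨11, ⟨-1, 0, 0, -2⟩⟩]

theorem chk_TA : chk KT goal_TA tree_TA pat_TA [] ⟨0, 0, 0, 0⟩ = true := by decide +kernel

def tree_TB : Tr :=
  (nd (-1) 0 0 0 5 2 2 2 <| ki 1 0 <| ki 2 1 <| su gl <| ki 2 4 <| ki 1 4 <| su (nd (-1) 0 (-2) 0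
  0 1 1 3 <| ki 1 5 <| ki 1 1 <| ki 0 0 <| ki 1 8 <| ki 0 1 <| ki 0 5 <| ki 0 0 <| ki 0 2 <| ki 1
  0 <| ki 1 0 <| ki 0 2 <| ki 0 6 <| ki 3 4 <| ki 1 2 <| ki 3 3 <| ki 1 8 <| ki 1 5 <| ki 3 1 <|
  ki 0 0 <| ki 0 1 <| ki 1 0 <| ki 1 2 <| ki 0 1 <| ki 0 5 <| dn) <| ki 1 0 <| ki 1 0 <| ki 1 8
  <| ki 1 1 <| ki 2 8 <| ki 2 3 <| ki 1 0 <| ki 1 4 <| ki 1 4 <| ki 2 4 <| ki 1 1 <| su (nd (-1)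
  0 (-2) 0 0 1 1 3 <| ki 1 5 <| ki 1 1 <| ki 0 0 <| ki 1 8 <| ki 0 1 <| ki 0 5 <| ki 0 0 <| ki 0
  2 <| ki 1 0 <| ki 1 0 <| ki 2 12 <| ki 3 12 <| ki 3 4 <| ki 1 2 <| ki 3 3 <| ki 1 8 <| ki 3 11
  <| ki 3 1 <| ki 0 0 <| ki 0 1 <| ki 1 0 <| ki 1 2 <| ki 2 12 <| ki 3 12 <| dn) <| ki 1 0 <| ki
  2 1 <| ki 1 8 <| ki 1 2 <| ki 2 8 <| ki 2 3 <| dn)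

def pat_TB : List Sp := [⟨0, ⟨0, 0, 0, -1⟩⟩, ⟨0, ⟨0, 0, 0, 1⟩⟩, ⟨0, ⟨0, 0, 0, 0⟩⟩]
def goal_TB : List Sp := [⟨1, ⟨0, -2, -1, 0⟩⟩]

theorem chk_TB : chk KT goal_TB tree_TB pat_TB [] ⟨0, 0, 0, 0⟩ = true := by decide +kernel

def tree_TS : Tr :=
  (nd (-1) 2 0 1 3 1 0 0 <| ki 0 8 <| ki 0 8 <| ki 1 8 <| ki 1 1 <| ki 0 0 <| ki 1 1 <| ki 0 4 <|
  ki 1 4 <| ki 0 4 <| su gl <| ki 0 0 <| ki 0 2 <| ki 0 8 <| ki 0 8 <| ki 1 8 <| ki 1 3 <| ki 0 0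
  <| ki 0 4 <| ki 0 4 <| ki 1 4 <| ki 0 3 <| su gl <| ki 0 0 <| ki 0 1 <| dn)

def pat_TS : List Sp := [⟨0, ⟨0, 1, 0, 0⟩⟩, ⟨0, ⟨0, 0, 0, 0⟩⟩]
def goal_TS : List Sp := [⟨11, ⟨-1, 2, 0, 2⟩⟩, ⟨5, ⟨-1, 2, 0, 2⟩⟩]

theorem chk_TS : chk KT goal_TS tree_TS pat_TS [] ⟨0, 0, 0, 0⟩ = true := by decide +kernel

def tree_D0 : Tr :=
  (nd 0 1 (-1) 1 1 0 0 0 <| su gl <| su gl <| su (nd 0 1 (-2) 1 1 0 0 1 <| ki 0 4 <| su (nd (-1)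
  1 (-1) 0 0 0 0 2 <| ki 0 0 <| ki 2 9 <| ki 2 0 <| ki 0 0 <| ki 2 8 <| ki 2 0 <| ki 0 8 <| ki 2
  0 <| ki 0 0 <| ki 0 4 <| ki 2 4 <| ki 0 2 <| ki 2 1 <| ki 2 9 <| ki 2 0 <| ki 0 0 <| ki 2 8 <|
  ki 2 0 <| ki 0 8 <| ki 2 0 <| ki 2 6 <| ki 0 4 <| ki 2 4 <| ki 0 1 <| dn) <| ki 0 0 <| ki 1 15
  <| ki 1 2 <| su (nd 1 1 (-2) 1 1 1 1 0 <| ki 1 3 <| ki 0 0 <| ki 1 0 <| ki 2 15 <| ki 2 2 <| ki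
  0 0 <| ki 2 10 <| ki 1 0 <| ki 1 0 <| ki 2 5 <| ki 1 1 <| ki 2 6 <| ki 1 3 <| ki 1 6 <| ki 1 0
  <| ki 2 20 <| ki 2 1 <| ki 0 0 <| ki 2 10 <| ki 1 0 <| ki 1 1 <| ki 2 6 <| ki 2 7 <| ki 2 18 <|
  dn) <| ki 1 10 <| ki 0 8 <| ki 0 2 <| ki 1 5 <| ki 1 12 <| ki 1 6 <| ki 0 4 <| su (nd (-1) 0
  (-2) 0 0 0 0 2 <| ki 2 17 <| ki 0 1 <| su (nd 0 (-1) 1 (-1) 3 0 0 3 <| ki 3 0 <| ki 3 2 <| ki 3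
  4 <| su (nd (-1) (-2) 0 (-1) 4 1 1 0 <| ki 0 0 <| ki 0 2 <| ki 1 3 <| ki 1 5 <| ki 0 6 <| ki 0
  3 <| ki 0 0 <| ki 0 2 <| su (nd 0 (-3) (-2) 0 1 1 1 0 <| ki 2 0 <| ki 2 4 <| ki 5 5 <| ki 2 3
  <| ki 0 0 <| ki 2 8 <| ki 0 0 <| ki 2 2 <| ki 2 6 <| ki 2 0 <| ki 5 9 <| ki 2 1 <| ki 2 0 <| ki
  0 1 <| ki 5 16 <| ki 2 3 <| ki 2 7 <| ki 2 8 <| ki 0 0 <| ki 2 1 <| ki 1 0 <| ki 2 0 <| ki 2 0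
  <| ki 0 5 <| dn) <| ki 0 0 <| ki 4 8 <| ki 0 8 <| ki 0 0 <| ki 0 1 <| su (nd 0 (-3) (-2) (-1) 1
  2 2 0 <| ki 2 4 <| su (nd (-1) (-3) (-1) (-2) 0 0 0 1 <| ki 0 0 <| ki 1 9 <| ki 1 0 <| ki 0 0
  <| ki 1 8 <| ki 1 0 <| ki 0 8 <| ki 1 0 <| ki 0 0 <| ki 0 4 <| ki 1 4 <| ki 0 2 <| ki 1 1 <| ki
  1 9 <| ki 1 0 <| ki 0 0 <| ki 1 8 <| ki 3 1 <| ki 0 8 <| ki 1 0 <| ki 1 6 <| ki 0 4 <| ki 1 4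
  <| ki 0 1 <| dn) <| ki 3 5 <| ki 2 6 <| ki 0 2 <| su (nd 1 (-3) (-2) (-1) 1 3 3 0 <| ki 3 3 <|
  ki 0 0 <| ki 4 6 <| ki 3 6 <| ki 1 2 <| ki 0 0 <| ki 1 10 <| ki 3 0 <| ki 3 0 <| ki 1 5 <| ki 4
  13 <| ki 3 5 <| ki 3 3 <| ki 3 6 <| ki 3 0 <| ki 3 5 <| ki 1 1 <| ki 0 0 <| ki 1 10 <| ki 3 0
  <| ki 6 9 <| ki 1 6 <| ki 3 2 <| ki 1 18 <| dn) <| ki 0 10 <| ki 2 8 <| ki 2 2 <| ki 0 5 <| ki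
  3 9 <| ki 0 6 <| ki 2 4 <| su (nd (-1) (-4) (-2) (-2) 0 0 0 1 <| ki 1 17 <| ki 0 1 <| su (nd 0
  (-5) 1 (-3) 3 0 0 2 <| ki 3 16 <| ki 2 2 <| ki 2 4 <| su (nd (-1) (-6) 0 (-3) 4 1 1 0 <| ki 0 0
  <| ki 0 2 <| ki 1 3 <| ki 1 5 <| ki 0 6 <| ki 0 3 <| ki 0 0 <| ki 0 2 <| su (nd (-1) (-6) 1
  (-3) 4 0 0 1 <| ki 1 0 <| ki 1 5 <| ki 1 16 <| ki 2 5 <| ki 1 3 <| ki 1 4 <| ki 1 15 <| ki 1 2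
  <| ki 0 0 <| ki 1 0 <| ki 4 9 <| ki 1 19 <| ki 1 0 <| ki 1 6 <| ki 1 5 <| ki 2 6 <| ki 1 7 <|
  ki 1 5 <| ki 1 21 <| ki 1 1 <| ki 0 0 <| ki 1 0 <| ki 4 19 <| ki 1 19 <| dn) <| ki 0 0 <| ki 3
  8 <| ki 0 8 <| ki 0 0 <| ki 0 1 <| su (nd (-1) 2 0 1 3 9 8 8 <| su (nd 0 2 0 1 2 0 0 9 <| ki 0
  0 <| ki 9 0 <| ki 9 4 <| ki 9 1 <| ki 9 0 <| ki 9 3 <| ki 9 7 <| ki 9 0 <| ki 9 2 <| ki 9 0 <|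
  ki 9 0 <| ki 9 1 <| ki 0 0 <| ki 9 0 <| ki 9 4 <| ki 9 2 <| ki 9 0 <| ki 9 3 <| ki 9 7 <| ki 9
  0 <| ki 9 1 <| ki 9 0 <| ki 9 0 <| ki 9 2 <| dn) <| ki 8 0 <| ki 9 8 <| ki 9 1 <| ki 8 3 <| ki
  9 1 <| ki 8 6 <| ki 9 4 <| ki 8 2 <| su (nd 0 (-1) 0 0 3 6 6 6 <| ki 0 4 <| ki 10 0 <| ki 10 4
  <| ki 6 1 <| ki 10 2 <| ki 10 6 <| ki 6 6 <| ki 10 8 <| ki 10 0 <| su (nd 1 (-1) 1 0 3 0 0 7 <|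
  ki 11 1 <| ki 11 0 <| ki 11 5 <| ki 7 1 <| ki 11 3 <| ki 11 6 <| ki 7 6 <| ki 11 9 <| ki 11 0
  <| ki 0 0 <| ki 11 0 <| ki 11 1 <| ki 11 2 <| ki 11 0 <| ki 11 6 <| ki 0 0 <| ki 11 3 <| ki 11
  12 <| ki 11 0 <| ki 11 9 <| ki 11 0 <| ki 0 0 <| ki 11 0 <| ki 11 2 <| dn) <| ki 10 1 <| ki 10
  2 <| ki 0 4 <| ki 10 0 <| ki 10 4 <| su (nd (-1) 0 (-1) 1 3 0 0 7 <| ki 11 1 <| ki 11 0 <| ki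
  11 7 <| ki 7 1 <| ki 11 2 <| ki 11 6 <| ki 11 2 <| ki 11 9 <| ki 11 0 <| su (nd 0 (-1) 0 1 3 1
  1 1 <| ki 2 4 <| ki 12 1 <| ki 0 0 <| ki 1 1 <| ki 12 6 <| ki 1 12 <| ki 1 6 <| ki 0 0 <| ki 12
  8 <| ki 0 1 <| ki 8 9 <| ki 12 1 <| ki 2 4 <| ki 12 2 <| ki 0 0 <| ki 0 4 <| ki 12 5 <| ki 1 7
  <| ki 2 9 <| ki 0 0 <| ki 12 9 <| ki 0 2 <| ki 8 9 <| ki 12 2 <| dn) <| ki 11 0 <| ki 11 2 <|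
  ki 11 2 <| ki 11 0 <| ki 11 6 <| ki 0 0 <| ki 11 1 <| ki 11 5 <| ki 11 1 <| ki 11 9 <| ki 11 0
  <| su (nd 0 (-1) 0 1 3 1 1 1 <| ki 2 4 <| ki 12 1 <| ki 0 0 <| ki 1 1 <| ki 12 6 <| ki 1 12 <|
  ki 1 6 <| ki 0 0 <| ki 12 8 <| ki 0 1 <| ki 8 9 <| ki 12 1 <| ki 2 4 <| ki 12 2 <| ki 0 0 <| ki
  0 4 <| ki 12 5 <| ki 1 7 <| ki 2 9 <| ki 0 0 <| ki 12 9 <| ki 0 2 <| ki 8 9 <| ki 12 2 <| dn)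
  <| ki 11 0 <| ki 11 3 <| dn) <| ki 10 1 <| ki 10 5 <| ki 10 1 <| ki 10 8 <| ki 10 0 <| su (nd 1
  (-1) 1 0 3 0 0 7 <| ki 11 1 <| ki 11 0 <| ki 11 5 <| ki 7 1 <| ki 11 3 <| ki 11 6 <| ki 7 6 <|
  ki 11 9 <| ki 11 0 <| ki 0 0 <| ki 11 0 <| ki 11 1 <| ki 11 2 <| ki 11 0 <| ki 11 6 <| ki 0 0
  <| ki 11 3 <| ki 11 12 <| ki 11 0 <| ki 11 9 <| ki 11 0 <| ki 0 0 <| ki 11 0 <| ki 11 2 <| dn)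
  <| ki 10 2 <| ki 10 6 <| dn) <| ki 8 0 <| ki 8 1 <| su (nd 0 2 0 1 2 0 0 9 <| ki 0 0 <| ki 9 0
  <| ki 9 4 <| ki 9 1 <| ki 9 0 <| ki 9 3 <| ki 9 7 <| ki 9 0 <| ki 9 2 <| ki 9 0 <| ki 9 0 <| ki
  9 1 <| ki 0 0 <| ki 9 0 <| ki 9 4 <| ki 9 2 <| ki 9 0 <| ki 9 3 <| ki 9 7 <| ki 9 0 <| ki 9 1
  <| ki 9 0 <| ki 9 0 <| ki 9 2 <| dn) <| ki 8 0 <| ki 9 8 <| ki 9 3 <| ki 8 3 <| ki 8 7 <| ki 8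
  5 <| ki 9 4 <| ki 8 1 <| su (nd 0 (-1) 0 0 3 6 6 6 <| ki 0 4 <| ki 10 0 <| ki 10 4 <| ki 6 1 <|
  ki 10 2 <| ki 10 6 <| ki 6 6 <| ki 10 8 <| ki 10 0 <| su (nd 1 (-1) 1 0 3 0 0 7 <| ki 11 1 <|
  ki 11 0 <| ki 11 5 <| ki 7 1 <| ki 11 3 <| ki 11 6 <| ki 7 6 <| ki 11 9 <| ki 11 0 <| ki 0 0 <|
  ki 11 0 <| ki 11 1 <| ki 11 2 <| ki 11 0 <| ki 11 6 <| ki 0 0 <| ki 11 3 <| ki 11 12 <| ki 11 0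
  <| ki 11 9 <| ki 11 0 <| ki 0 0 <| ki 11 0 <| ki 11 2 <| dn) <| ki 10 1 <| ki 10 2 <| ki 0 4 <|
  ki 10 0 <| ki 10 4 <| su (nd (-1) 0 (-1) 1 3 0 0 7 <| ki 11 1 <| ki 11 0 <| ki 11 7 <| ki 7 1
  <| ki 11 2 <| ki 11 6 <| ki 11 2 <| ki 11 9 <| ki 11 0 <| su (nd 0 (-1) 0 1 3 1 1 1 <| ki 2 5
  <| ki 12 1 <| ki 0 0 <| ki 1 1 <| ki 12 6 <| ki 1 12 <| ki 1 6 <| ki 0 0 <| ki 12 8 <| ki 0 1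
  <| ki 8 9 <| ki 12 1 <| ki 2 6 <| ki 12 2 <| ki 0 0 <| ki 0 4 <| ki 12 5 <| ki 1 7 <| ki 2 9 <|
  ki 0 0 <| ki 12 9 <| ki 0 2 <| ki 8 9 <| ki 12 2 <| dn) <| ki 11 0 <| ki 11 2 <| ki 11 2 <| ki
  11 0 <| ki 11 6 <| ki 0 0 <| ki 11 1 <| ki 11 5 <| ki 11 1 <| ki 11 9 <| ki 11 0 <| su (nd 0
  (-1) 0 1 3 1 1 1 <| ki 2 5 <| ki 12 1 <| ki 0 0 <| ki 1 1 <| ki 12 6 <| ki 1 12 <| ki 1 6 <| ki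
  0 0 <| ki 12 8 <| ki 0 1 <| ki 8 9 <| ki 12 1 <| ki 2 6 <| ki 12 2 <| ki 0 0 <| ki 0 4 <| ki 12
  5 <| ki 1 7 <| ki 2 9 <| ki 0 0 <| ki 12 9 <| ki 0 2 <| ki 8 9 <| ki 12 2 <| dn) <| ki 11 0 <|
  ki 11 3 <| dn) <| ki 10 1 <| ki 10 5 <| ki 10 1 <| ki 10 8 <| ki 10 0 <| su (nd 1 (-1) 1 0 3 0
  0 7 <| ki 11 1 <| ki 11 0 <| ki 11 5 <| ki 7 1 <| ki 11 3 <| ki 11 6 <| ki 7 6 <| ki 11 9 <| ki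
  11 0 <| ki 0 0 <| ki 11 0 <| ki 11 1 <| ki 11 2 <| ki 11 0 <| ki 11 6 <| ki 0 0 <| ki 11 3 <|
  ki 11 12 <| ki 11 0 <| ki 11 9 <| ki 11 0 <| ki 0 0 <| ki 11 0 <| ki 11 2 <| dn) <| ki 10 2 <|
  ki 10 6 <| dn) <| ki 8 0 <| ki 8 2 <| dn) <| ki 1 6 <| ki 0 3 <| ki 0 4 <| ki 0 0 <| ki 0 0 <|
  su (nd (-1) (-6) 1 (-3) 4 0 0 1 <| ki 1 0 <| ki 1 5 <| ki 1 16 <| ki 2 5 <| ki 1 3 <| ki 1 4 <|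
  ki 1 15 <| ki 1 2 <| ki 0 0 <| ki 1 0 <| ki 4 9 <| ki 1 19 <| ki 1 0 <| ki 1 6 <| ki 1 5 <| ki
  2 6 <| ki 1 7 <| ki 1 5 <| ki 1 21 <| ki 1 1 <| ki 0 0 <| ki 1 0 <| ki 4 19 <| ki 1 19 <| dn)
  <| ki 0 0 <| ki 3 8 <| ki 0 8 <| dn) <| ki 2 2 <| ki 2 2 <| ki 3 13 <| ki 2 8 <| ki 2 0 <| su
  (nd 1 (-5) 2 (-3) 3 0 0 3 <| ki 3 0 <| ki 5 6 <| ki 3 3 <| ki 3 6 <| ki 3 0 <| ki 3 6 <| ki 3 2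
  <| ki 3 0 <| ki 5 9 <| ki 0 0 <| ki 3 1 <| ki 3 5 <| ki 4 6 <| ki 3 11 <| ki 3 3 <| ki 0 0 <|
  ki 3 0 <| ki 3 3 <| ki 4 13 <| ki 3 0 <| ki 3 0 <| ki 0 0 <| ki 3 2 <| ki 3 6 <| dn) <| ki 2 1
  <| ki 2 16 <| ki 3 5 <| ki 2 1 <| ki 2 4 <| su (nd (-1) (-5) (-1) (-2) 0 0 0 0 <| ki 1 1 <| ki
  3 4 <| ki 1 5 <| ki 1 0 <| ki 1 4 <| ki 0 1 <| ki 1 0 <| ki 0 8 <| ki 3 8 <| ki 3 11 <| ki 1 8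
  <| ki 3 1 <| ki 1 6 <| ki 3 4 <| ki 1 6 <| ki 1 0 <| ki 1 4 <| ki 0 2 <| ki 1 0 <| ki 0 8 <| ki
  3 8 <| ki 3 2 <| ki 1 8 <| ki 1 0 <| dn) <| ki 2 1 <| ki 2 5 <| ki 3 9 <| ki 2 8 <| ki 2 2 <|
  su (nd 1 (-5) 2 (-3) 3 0 0 3 <| ki 3 0 <| ki 5 6 <| ki 3 3 <| ki 3 6 <| ki 3 0 <| ki 3 6 <| ki
  3 2 <| ki 3 0 <| ki 5 9 <| ki 0 0 <| ki 3 1 <| ki 3 5 <| ki 4 6 <| ki 3 11 <| ki 3 3 <| ki 0 0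
  <| ki 3 0 <| ki 3 3 <| ki 4 13 <| ki 3 0 <| ki 3 0 <| ki 0 0 <| ki 3 2 <| ki 3 6 <| dn) <| ki 2
  2 <| ki 2 6 <| dn) <| ki 0 8 <| ki 0 16 <| ki 1 16 <| su (nd 0 (-5) 1 (-4) 3 0 0 1 <| ki 4 16
  <| ki 1 2 <| ki 2 0 <| ki 0 1 <| ki 2 13 <| ki 2 15 <| ki 4 13 <| ki 2 1 <| ki 1 0 <| ki 2 8 <|
  ki 2 16 <| ki 1 16 <| ki 4 5 <| ki 1 1 <| ki 2 0 <| ki 2 4 <| ki 2 13 <| ki 2 1 <| ki 4 9 <| ki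
  2 2 <| ki 2 6 <| ki 2 8 <| ki 2 5 <| ki 1 6 <| dn) <| ki 1 13 <| ki 0 0 <| ki 0 0 <| ki 1 20 <|
  ki 1 12 <| ki 1 4 <| ki 0 2 <| ki 1 3 <| ki 0 8 <| ki 1 11 <| ki 1 1 <| su (nd 0 (-5) 1 (-4) 3
  0 0 1 <| ki 4 16 <| ki 1 2 <| ki 2 0 <| ki 0 1 <| ki 2 13 <| ki 2 15 <| ki 4 13 <| ki 2 1 <| ki
  1 0 <| ki 2 8 <| ki 2 16 <| ki 1 16 <| ki 4 5 <| ki 1 1 <| ki 2 0 <| ki 2 4 <| ki 2 13 <| ki 2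
  1 <| ki 4 9 <| ki 2 2 <| ki 2 6 <| ki 2 8 <| ki 2 5 <| ki 1 6 <| dn) <| ki 1 13 <| ki 0 0 <| ki
  0 2 <| ki 1 21 <| ki 1 12 <| dn) <| ki 3 16 <| ki 0 11 <| ki 0 1 <| su (nd 1 (-3) (-2) (-1) 1 3
  3 0 <| ki 3 3 <| ki 0 0 <| ki 4 6 <| ki 3 6 <| ki 1 2 <| ki 0 0 <| ki 1 10 <| ki 3 0 <| ki 3 0
  <| ki 1 5 <| ki 4 13 <| ki 3 5 <| ki 3 3 <| ki 3 6 <| ki 3 0 <| ki 3 5 <| ki 1 1 <| ki 0 0 <|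
  ki 1 10 <| ki 3 0 <| ki 6 9 <| ki 1 6 <| ki 3 2 <| ki 1 18 <| dn) <| ki 0 10 <| ki 2 8 <| ki 2
  0 <| ki 0 6 <| ki 2 2 <| ki 0 12 <| dn) <| ki 1 6 <| ki 0 3 <| ki 0 4 <| ki 0 0 <| ki 0 0 <| su
  (nd 0 (-3) (-2) 0 1 1 1 0 <| ki 2 0 <| ki 2 4 <| ki 5 5 <| ki 2 3 <| ki 0 0 <| ki 2 8 <| ki 0 0
  <| ki 2 2 <| ki 2 6 <| ki 2 0 <| ki 5 9 <| ki 2 1 <| ki 2 0 <| ki 0 1 <| ki 5 16 <| ki 2 3 <|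
  ki 2 7 <| ki 2 8 <| ki 0 0 <| ki 2 1 <| ki 1 0 <| ki 2 0 <| ki 2 0 <| ki 0 5 <| dn) <| ki 0 0
  <| ki 4 8 <| ki 0 8 <| dn) <| ki 3 2 <| ki 3 2 <| ki 3 2 <| ki 3 8 <| ki 3 0 <| su (nd 1 (-1) 2
  (-1) 3 0 0 4 <| ki 4 0 <| ki 4 13 <| ki 4 3 <| ki 4 6 <| ki 4 0 <| ki 4 6 <| ki 4 2 <| ki 4 0
  <| ki 4 1 <| ki 0 0 <| ki 4 1 <| ki 4 5 <| ki 4 0 <| ki 4 11 <| ki 4 3 <| ki 0 0 <| ki 4 0 <|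
  ki 4 3 <| ki 4 0 <| ki 4 0 <| ki 4 0 <| ki 0 0 <| ki 4 2 <| ki 4 6 <| dn) <| ki 3 1 <| ki 3 16
  <| ki 3 0 <| ki 3 1 <| ki 3 4 <| su (nd (-1) (-1) (-1) 0 0 0 0 0 <| ki 1 1 <| ki 4 4 <| ki 1 5
  <| ki 1 0 <| ki 1 4 <| ki 0 1 <| ki 1 0 <| ki 0 8 <| ki 4 8 <| ki 4 11 <| ki 1 8 <| ki 4 1 <|
  ki 1 6 <| ki 4 4 <| ki 1 6 <| ki 1 0 <| ki 1 4 <| ki 0 2 <| ki 1 0 <| ki 0 8 <| ki 4 8 <| ki 4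
  2 <| ki 1 8 <| ki 1 0 <| dn) <| ki 3 1 <| ki 3 5 <| ki 3 0 <| ki 3 8 <| ki 3 2 <| su (nd 1 (-1)
  2 (-1) 3 0 0 4 <| ki 4 0 <| ki 4 13 <| ki 4 3 <| ki 4 6 <| ki 4 0 <| ki 4 6 <| ki 4 2 <| ki 4 0
  <| ki 4 1 <| ki 0 0 <| ki 4 1 <| ki 4 5 <| ki 4 0 <| ki 4 11 <| ki 4 3 <| ki 0 0 <| ki 4 0 <|
  ki 4 3 <| ki 4 0 <| ki 4 0 <| ki 4 0 <| ki 0 0 <| ki 4 2 <| ki 4 6 <| dn) <| ki 3 2 <| ki 3 6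
  <| dn) <| ki 0 8 <| ki 0 16 <| ki 2 16 <| su (nd 0 (-1) 1 (-2) 3 0 0 1 <| ki 3 2 <| ki 1 2 <|
  ki 3 0 <| ki 0 1 <| ki 3 13 <| ki 3 15 <| ki 3 0 <| ki 3 1 <| ki 1 0 <| ki 3 8 <| ki 3 16 <| ki
  1 16 <| ki 3 1 <| ki 1 1 <| ki 3 0 <| ki 3 4 <| ki 3 13 <| ki 3 1 <| ki 2 9 <| ki 3 2 <| ki 3 6
  <| ki 3 8 <| ki 3 5 <| ki 1 6 <| dn) <| ki 2 13 <| ki 0 0 <| ki 0 0 <| ki 2 20 <| ki 2 12 <| ki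
  2 4 <| ki 0 2 <| ki 2 3 <| ki 0 8 <| ki 2 11 <| ki 2 1 <| su (nd 0 (-1) 1 (-2) 3 0 0 1 <| ki 3
  2 <| ki 1 2 <| ki 3 0 <| ki 0 1 <| ki 3 13 <| ki 3 15 <| ki 3 0 <| ki 3 1 <| ki 1 0 <| ki 3 8
  <| ki 3 16 <| ki 1 16 <| ki 3 1 <| ki 1 1 <| ki 3 0 <| ki 3 4 <| ki 3 13 <| ki 3 1 <| ki 2 9 <|
  ki 3 2 <| ki 3 6 <| ki 3 8 <| ki 3 5 <| ki 1 6 <| dn) <| ki 2 13 <| ki 0 0 <| ki 0 2 <| ki 2 21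
  <| ki 2 12 <| dn) <| ki 0 0 <| ki 1 11 <| ki 1 1 <| su (nd 1 1 (-2) 1 1 1 1 0 <| ki 1 3 <| ki 0
  0 <| ki 1 0 <| ki 2 15 <| ki 2 2 <| ki 0 0 <| ki 2 10 <| ki 1 0 <| ki 1 0 <| ki 2 5 <| ki 1 1
  <| ki 2 6 <| ki 1 3 <| ki 1 6 <| ki 1 0 <| ki 2 20 <| ki 2 1 <| ki 0 0 <| ki 2 10 <| ki 1 0 <|
  ki 1 1 <| ki 2 6 <| ki 2 7 <| ki 2 18 <| dn) <| ki 1 10 <| ki 0 8 <| ki 0 0 <| ki 1 6 <| ki 1 7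
  <| ki 1 12 <| dn) <| ki 0 0 <| ki 0 1 <| su (nd (-1) 1 (-1) 0 0 0 0 1 <| ki 0 4 <| ki 1 9 <| ki
  1 0 <| ki 0 2 <| ki 1 8 <| ki 1 0 <| su (nd 1 (-1) 0 (-1) 2 2 2 0 <| ki 2 0 <| ki 2 6 <| ki 0 0
  <| ki 1 0 <| ki 0 0 <| ki 2 8 <| ki 2 2 <| ki 1 9 <| ki 2 0 <| ki 1 0 <| ki 2 4 <| ki 0 2 <| ki
  2 0 <| ki 1 6 <| ki 0 0 <| ki 1 0 <| ki 0 0 <| ki 2 8 <| ki 2 0 <| ki 1 9 <| ki 2 2 <| ki 1 2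
  <| ki 2 4 <| ki 0 0 <| dn) <| ki 1 0 <| ki 0 0 <| ki 0 2 <| ki 1 4 <| ki 0 1 <| ki 1 1 <| ki 1
  9 <| ki 1 0 <| ki 0 1 <| ki 1 8 <| ki 1 0 <| su (nd 1 (-1) 0 (-1) 2 2 2 0 <| ki 2 0 <| ki 2 6
  <| ki 0 0 <| ki 1 0 <| ki 0 0 <| ki 2 8 <| ki 2 2 <| ki 1 9 <| ki 2 0 <| ki 1 0 <| ki 2 4 <| ki
  0 2 <| ki 2 0 <| ki 1 6 <| ki 0 0 <| ki 1 0 <| ki 0 0 <| ki 2 8 <| ki 2 0 <| ki 1 9 <| ki 2 2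
  <| ki 1 2 <| ki 2 4 <| ki 0 0 <| dn) <| ki 1 0 <| ki 1 6 <| ki 0 1 <| ki 1 4 <| su (nd 0 0 (-1)
  0 0 0 2 2 <| ki 2 17 <| ki 2 8 <| ki 2 3 <| ki 0 0 <| ki 2 25 <| ki 2 2 <| su (nd 1 (-1) 1 (-2)
  3 0 0 1 <| ki 3 2 <| ki 2 2 <| ki 3 8 <| ki 1 6 <| ki 3 9 <| ki 3 0 <| ki 3 0 <| ki 3 4 <| ki 2
  0 <| ki 3 0 <| ki 3 6 <| ki 1 0 <| ki 3 1 <| ki 2 1 <| ki 3 8 <| ki 3 3 <| ki 3 9 <| ki 3 0 <|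
  ki 2 0 <| ki 3 4 <| ki 2 2 <| ki 3 0 <| ki 3 6 <| ki 2 6 <| dn) <| ki 2 13 <| ki 2 4 <| ki 1 0
  <| ki 2 15 <| ki 2 12 <| ki 2 3 <| ki 2 8 <| ki 2 3 <| ki 0 0 <| ki 2 11 <| ki 2 1 <| su (nd 1
  (-1) 1 (-2) 3 0 0 1 <| ki 3 2 <| ki 2 2 <| ki 3 8 <| ki 1 6 <| ki 3 9 <| ki 3 0 <| ki 3 0 <| ki
  3 4 <| ki 2 0 <| ki 3 0 <| ki 3 6 <| ki 1 0 <| ki 3 1 <| ki 2 1 <| ki 3 8 <| ki 3 3 <| ki 3 9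
  <| ki 3 0 <| ki 2 0 <| ki 3 4 <| ki 2 2 <| ki 3 0 <| ki 3 6 <| ki 2 6 <| dn) <| ki 2 13 <| ki 2
  4 <| ki 1 0 <| ki 2 6 <| ki 2 12 <| dn) <| dn) <| ki 0 8 <| su (nd 0 0 (-1) 0 0 0 1 1 <| ki 1
  17 <| ki 1 8 <| ki 1 3 <| su (nd (-1) 0 (-2) 0 0 0 0 2 <| ki 2 17 <| ki 1 6 <| su (nd (-1) 0
  (-1) (-1) 0 1 1 0 <| ki 1 4 <| ki 1 3 <| ki 1 7 <| ki 1 2 <| ki 3 8 <| ki 3 2 <| su (nd 1 (-2)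
  0 (-2) 2 1 1 0 <| ki 4 4 <| ki 2 5 <| ki 0 0 <| ki 2 0 <| ki 0 0 <| ki 4 8 <| ki 4 2 <| ki 2 9
  <| ki 4 1 <| ki 2 0 <| ki 4 4 <| ki 1 12 <| ki 4 4 <| ki 2 6 <| ki 0 0 <| ki 2 0 <| ki 0 0 <|
  ki 4 8 <| ki 4 1 <| ki 2 9 <| ki 3 8 <| ki 2 2 <| ki 4 4 <| ki 1 6 <| dn) <| ki 0 0 <| ki 1 0
  <| ki 2 1 <| ki 3 4 <| ki 1 1 <| ki 1 6 <| ki 1 3 <| ki 3 1 <| ki 1 1 <| ki 3 8 <| ki 3 11 <|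
  su (nd 1 (-2) 0 (-2) 2 1 1 0 <| ki 4 4 <| ki 2 5 <| ki 0 0 <| ki 2 0 <| ki 0 0 <| ki 4 8 <| ki
  4 2 <| ki 2 9 <| ki 4 1 <| ki 2 0 <| ki 4 4 <| ki 1 12 <| ki 4 4 <| ki 2 6 <| ki 0 0 <| ki 2 0
  <| ki 0 0 <| ki 4 8 <| ki 4 1 <| ki 2 9 <| ki 3 8 <| ki 2 2 <| ki 4 4 <| ki 1 6 <| dn) <| ki 0
  0 <| ki 1 0 <| ki 1 1 <| ki 3 4 <| ki 0 7 <| dn) <| ki 0 0 <| ki 2 25 <| ki 2 16 <| su (nd (-1)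
  0 (-3) 0 0 1 1 0 <| ki 1 5 <| ki 2 6 <| ki 0 0 <| ki 1 0 <| ki 1 6 <| ki 0 16 <| ki 0 0 <| ki 0
  2 <| ki 1 0 <| ki 2 1 <| ki 0 2 <| ki 1 1 <| ki 3 14 <| ki 2 5 <| ki 1 6 <| ki 1 0 <| ki 1 5 <|
  ki 3 1 <| ki 0 0 <| ki 0 1 <| ki 1 0 <| ki 2 2 <| ki 0 1 <| ki 1 2 <| dn) <| ki 2 13 <| ki 0 8
  <| ki 1 0 <| ki 2 20 <| ki 2 12 <| ki 2 4 <| ki 1 5 <| ki 2 3 <| ki 0 0 <| ki 2 11 <| ki 2 1 <|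
  su (nd (-1) 0 (-3) 0 0 1 1 0 <| ki 1 5 <| ki 2 6 <| ki 0 0 <| ki 1 0 <| ki 1 6 <| ki 0 16 <| ki
  0 0 <| ki 0 2 <| ki 1 0 <| ki 2 1 <| ki 0 2 <| ki 1 1 <| ki 3 14 <| ki 2 5 <| ki 1 6 <| ki 1 0
  <| ki 1 5 <| ki 3 1 <| ki 0 0 <| ki 0 1 <| ki 1 0 <| ki 2 2 <| ki 0 1 <| ki 1 2 <| dn) <| ki 2
  13 <| ki 0 8 <| ki 1 2 <| ki 2 21 <| ki 2 12 <| dn) <| ki 1 25 <| ki 1 2 <| su (nd 0 0 (-2) 0 0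
  1 1 0 <| ki 0 2 <| ki 1 16 <| ki 0 0 <| su (nd (-1) 0 (-3) 0 0 0 0 1 <| ki 1 2 <| ki 2 6 <| ki
  1 1 <| ki 0 0 <| ki 1 1 <| ki 1 5 <| ki 1 0 <| ki 1 13 <| ki 1 3 <| ki 2 1 <| ki 1 0 <| ki 1 6
  <| ki 3 14 <| ki 2 5 <| ki 1 0 <| ki 0 0 <| ki 1 2 <| ki 3 1 <| ki 1 0 <| ki 1 11 <| ki 1 3 <|
  ki 2 2 <| ki 1 0 <| ki 1 3 <| dn) <| ki 0 1 <| ki 2 2 <| ki 0 0 <| ki 0 2 <| ki 2 14 <| ki 1 3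
  <| ki 2 21 <| ki 2 17 <| ki 2 14 <| ki 1 5 <| ki 0 2 <| su (nd (-1) 0 (-3) 0 0 0 0 1 <| ki 1 2
  <| ki 2 6 <| ki 1 1 <| ki 0 0 <| ki 1 1 <| ki 1 5 <| ki 1 0 <| ki 1 13 <| ki 1 3 <| ki 2 1 <|
  ki 1 0 <| ki 1 6 <| ki 3 14 <| ki 2 5 <| ki 1 0 <| ki 0 0 <| ki 1 2 <| ki 3 1 <| ki 1 0 <| ki 1
  11 <| ki 1 3 <| ki 2 2 <| ki 1 0 <| ki 1 3 <| dn) <| ki 0 2 <| ki 2 1 <| ki 0 0 <| ki 0 1 <| ki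
  0 4 <| ki 1 21 <| ki 2 6 <| ki 2 18 <| dn) <| ki 1 13 <| ki 1 4 <| ki 0 1 <| ki 1 15 <| ki 1 12
  <| ki 1 3 <| ki 1 8 <| ki 1 3 <| su (nd (-1) 0 (-2) 0 0 0 0 2 <| ki 2 17 <| ki 1 6 <| su (nd
  (-1) 0 (-1) (-1) 0 1 1 0 <| ki 1 4 <| ki 1 3 <| ki 1 7 <| ki 1 2 <| ki 3 8 <| ki 3 2 <| su (nd
  1 (-2) 0 (-2) 2 1 1 0 <| ki 4 4 <| ki 2 5 <| ki 0 0 <| ki 2 0 <| ki 0 0 <| ki 4 8 <| ki 4 2 <|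
  ki 2 9 <| ki 4 1 <| ki 2 0 <| ki 4 4 <| ki 1 12 <| ki 4 4 <| ki 2 6 <| ki 0 0 <| ki 2 0 <| ki 0
  0 <| ki 4 8 <| ki 4 1 <| ki 2 9 <| ki 3 8 <| ki 2 2 <| ki 4 4 <| ki 1 6 <| dn) <| ki 0 0 <| ki
  1 0 <| ki 2 1 <| ki 3 4 <| ki 1 1 <| ki 1 6 <| ki 1 3 <| ki 3 1 <| ki 1 1 <| ki 3 8 <| ki 3 11
  <| su (nd 1 (-2) 0 (-2) 2 1 1 0 <| ki 4 4 <| ki 2 5 <| ki 0 0 <| ki 2 0 <| ki 0 0 <| ki 4 8 <|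
  ki 4 2 <| ki 2 9 <| ki 4 1 <| ki 2 0 <| ki 4 4 <| ki 1 12 <| ki 4 4 <| ki 2 6 <| ki 0 0 <| ki 2
  0 <| ki 0 0 <| ki 4 8 <| ki 4 1 <| ki 2 9 <| ki 3 8 <| ki 2 2 <| ki 4 4 <| ki 1 6 <| dn) <| ki
  0 0 <| ki 1 0 <| ki 1 1 <| ki 3 4 <| ki 0 7 <| dn) <| ki 0 0 <| ki 2 25 <| ki 2 16 <| su (nd
  (-1) 0 (-3) 0 0 1 1 0 <| ki 1 5 <| ki 2 6 <| ki 0 0 <| ki 1 0 <| ki 1 6 <| ki 0 16 <| ki 0 0 <|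
  ki 0 2 <| ki 1 0 <| ki 2 1 <| ki 0 2 <| ki 1 1 <| ki 3 14 <| ki 2 5 <| ki 1 6 <| ki 1 0 <| ki 1
  5 <| ki 3 1 <| ki 0 0 <| ki 0 1 <| ki 1 0 <| ki 2 2 <| ki 0 1 <| ki 1 2 <| dn) <| ki 2 13 <| ki
  0 8 <| ki 1 0 <| ki 2 20 <| ki 2 12 <| ki 2 4 <| ki 1 5 <| ki 2 3 <| ki 0 0 <| ki 2 11 <| ki 2
  1 <| su (nd (-1) 0 (-3) 0 0 1 1 0 <| ki 1 5 <| ki 2 6 <| ki 0 0 <| ki 1 0 <| ki 1 6 <| ki 0 16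
  <| ki 0 0 <| ki 0 2 <| ki 1 0 <| ki 2 1 <| ki 0 2 <| ki 1 1 <| ki 3 14 <| ki 2 5 <| ki 1 6 <|
  ki 1 0 <| ki 1 5 <| ki 3 1 <| ki 0 0 <| ki 0 1 <| ki 1 0 <| ki 2 2 <| ki 0 1 <| ki 1 2 <| dn)
  <| ki 2 13 <| ki 0 8 <| ki 1 2 <| ki 2 21 <| ki 2 12 <| dn) <| ki 1 11 <| ki 1 1 <| su (nd 0 0
  (-2) 0 0 1 1 0 <| ki 0 2 <| ki 1 16 <| ki 0 0 <| su (nd (-1) 0 (-3) 0 0 0 0 1 <| ki 1 2 <| ki 2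
  6 <| ki 1 1 <| ki 0 0 <| ki 1 1 <| ki 1 5 <| ki 1 0 <| ki 1 13 <| ki 1 3 <| ki 2 1 <| ki 1 0 <|
  ki 1 6 <| ki 3 14 <| ki 2 5 <| ki 1 0 <| ki 0 0 <| ki 1 2 <| ki 3 1 <| ki 1 0 <| ki 1 11 <| ki
  1 3 <| ki 2 2 <| ki 1 0 <| ki 1 3 <| dn) <| ki 0 1 <| ki 2 2 <| ki 0 0 <| ki 0 2 <| ki 2 14 <|
  ki 1 3 <| ki 2 21 <| ki 2 17 <| ki 2 14 <| ki 1 5 <| ki 0 2 <| su (nd (-1) 0 (-3) 0 0 0 0 1 <|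
  ki 1 2 <| ki 2 6 <| ki 1 1 <| ki 0 0 <| ki 1 1 <| ki 1 5 <| ki 1 0 <| ki 1 13 <| ki 1 3 <| ki 2
  1 <| ki 1 0 <| ki 1 6 <| ki 3 14 <| ki 2 5 <| ki 1 0 <| ki 0 0 <| ki 1 2 <| ki 3 1 <| ki 1 0 <|
  ki 1 11 <| ki 1 3 <| ki 2 2 <| ki 1 0 <| ki 1 3 <| dn) <| ki 0 2 <| ki 2 1 <| ki 0 0 <| ki 0 1
  <| ki 0 4 <| ki 1 21 <| ki 2 6 <| ki 2 18 <| dn) <| ki 1 13 <| ki 1 4 <| ki 0 3 <| ki 1 6 <| ki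
  1 12 <| dn) <| su (nd 0 0 (-1) 0 1 1 1 1 <| ki 0 4 <| su (nd 1 (-1) 0 (-1) 2 2 2 0 <| ki 2 0 <|
  ki 2 6 <| ki 0 0 <| ki 0 0 <| ki 0 0 <| ki 2 8 <| ki 2 2 <| ki 1 9 <| ki 2 0 <| ki 1 1 <| ki 2
  4 <| ki 0 2 <| ki 2 0 <| ki 0 0 <| ki 0 3 <| ki 0 0 <| ki 0 0 <| ki 2 8 <| ki 2 0 <| ki 1 9 <|
  ki 2 2 <| ki 0 4 <| ki 2 4 <| ki 0 0 <| dn) <| ki 0 15 <| ki 1 8 <| ki 1 3 <| su (nd 1 0 (-1) 0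
  1 2 2 0 <| ki 1 4 <| ki 0 0 <| ki 1 15 <| ki 2 19 <| ki 0 16 <| ki 0 0 <| ki 0 2 <| ki 1 8 <|
  ki 1 1 <| ki 2 12 <| ki 1 1 <| ki 0 2 <| ki 1 4 <| ki 0 2 <| ki 1 20 <| ki 2 19 <| ki 0 6 <| ki
  0 0 <| ki 0 1 <| ki 1 8 <| ki 1 2 <| ki 2 12 <| ki 0 5 <| ki 0 0 <| dn) <| su (nd 1 0 (-1) 0 1
  2 2 0 <| ki 1 4 <| su (nd 1 (-2) 1 (-3) 3 1 1 0 <| ki 3 6 <| ki 0 2 <| ki 1 0 <| ki 1 3 <| ki 3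
  9 <| ki 1 0 <| ki 3 1 <| ki 1 0 <| ki 1 4 <| ki 3 1 <| ki 1 3 <| ki 0 16 <| ki 1 1 <| ki 0 1 <|
  ki 1 0 <| ki 1 4 <| ki 3 9 <| ki 3 0 <| ki 0 0 <| ki 1 0 <| ki 1 6 <| ki 3 2 <| ki 1 3 <| ki 1
  7 <| dn) <| ki 1 15 <| ki 2 19 <| ki 0 1 <| su (nd 0 0 (-2) 0 0 0 0 1 <| ki 1 2 <| ki 1 8 <| ki
  1 0 <| ki 0 0 <| ki 1 1 <| ki 3 2 <| ki 1 0 <| ki 1 2 <| ki 3 14 <| ki 0 2 <| ki 3 21 <| ki 3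
  17 <| ki 3 14 <| ki 1 8 <| ki 1 2 <| ki 0 0 <| ki 1 2 <| ki 3 1 <| ki 1 0 <| ki 1 1 <| ki 1 4
  <| ki 0 0 <| ki 3 6 <| ki 3 18 <| dn) <| ki 0 1 <| ki 1 8 <| ki 1 1 <| ki 2 12 <| ki 1 1 <| su
  (nd 1 0 0 (-1) 0 0 0 0 <| ki 1 2 <| ki 1 9 <| ki 1 0 <| ki 0 8 <| ki 3 19 <| ki 3 2 <| ki 1 1
  <| ki 1 0 <| ki 1 7 <| ki 0 2 <| ki 3 12 <| ki 1 6 <| ki 1 1 <| ki 1 9 <| ki 1 0 <| ki 0 8 <|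
  ki 3 19 <| ki 3 1 <| ki 1 2 <| ki 3 15 <| ki 1 6 <| ki 0 1 <| ki 3 6 <| ki 1 5 <| dn) <| ki 1 4
  <| ki 0 1 <| ki 1 20 <| ki 2 19 <| ki 0 2 <| su (nd 0 0 (-2) 0 0 0 0 1 <| ki 1 2 <| ki 1 8 <|
  ki 1 0 <| ki 0 0 <| ki 1 1 <| ki 3 2 <| ki 1 0 <| ki 1 2 <| ki 3 14 <| ki 0 2 <| ki 3 21 <| ki
  3 17 <| ki 3 14 <| ki 1 8 <| ki 1 2 <| ki 0 0 <| ki 1 2 <| ki 3 1 <| ki 1 0 <| ki 1 1 <| ki 1 4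
  <| ki 0 0 <| ki 3 6 <| ki 3 18 <| dn) <| ki 0 2 <| ki 1 8 <| ki 1 2 <| ki 2 12 <| su (nd 2 0 1
  (-1) 3 0 0 0 <| ki 3 2 <| ki 0 8 <| ki 3 0 <| ki 3 2 <| ki 3 9 <| ki 3 1 <| ki 3 1 <| ki 3 3 <|
  ki 3 26 <| ki 3 0 <| ki 3 6 <| ki 0 1 <| ki 3 1 <| ki 0 8 <| ki 3 0 <| ki 3 1 <| ki 3 9 <| ki 3
  0 <| ki 2 2 <| ki 3 3 <| ki 3 7 <| ki 3 0 <| ki 3 5 <| ki 2 7 <| dn) <| su (nd 1 (-1) 1 (-2) 3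
  1 1 0 <| ki 3 2 <| ki 0 0 <| ki 3 8 <| ki 1 0 <| ki 3 9 <| ki 3 0 <| ki 3 0 <| ki 3 4 <| ki 0 2
  <| ki 3 0 <| ki 3 6 <| ki 0 0 <| ki 3 1 <| ki 0 0 <| ki 3 8 <| ki 3 3 <| ki 3 9 <| ki 3 0 <| ki
  2 8 <| ki 3 4 <| ki 1 6 <| ki 3 0 <| ki 3 6 <| ki 0 3 <| dn) <| dn) <| ki 0 8 <| ki 1 1 <| ki 1
  4 <| ki 0 1 <| su (nd 0 0 0 (-1) 0 0 0 0 <| ki 0 4 <| ki 0 3 <| ki 2 2 <| ki 0 8 <| ki 2 8 <|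
  ki 2 2 <| su (nd (-1) 0 0 (-1) 0 0 1 1 <| ki 1 5 <| ki 1 3 <| ki 1 7 <| ki 1 8 <| ki 3 0 <| ki
  3 4 <| ki 0 0 <| ki 3 8 <| ki 1 0 <| ki 1 3 <| ki 3 3 <| ki 3 7 <| ki 3 5 <| ki 1 3 <| ki 1 7
  <| ki 1 8 <| ki 3 0 <| ki 3 1 <| ki 0 0 <| ki 3 8 <| ki 1 0 <| ki 1 2 <| ki 3 3 <| ki 0 0 <|
  dn) <| ki 2 0 <| ki 0 0 <| ki 0 2 <| ki 2 4 <| ki 0 1 <| ki 0 6 <| ki 0 3 <| ki 2 1 <| ki 0 8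
  <| ki 2 8 <| ki 2 1 <| su (nd (-1) 0 0 (-1) 0 0 1 1 <| ki 1 5 <| ki 1 3 <| ki 1 7 <| ki 1 8 <|
  ki 3 0 <| ki 3 4 <| ki 0 0 <| ki 3 8 <| ki 1 0 <| ki 1 3 <| ki 3 3 <| ki 3 7 <| ki 3 5 <| ki 1
  3 <| ki 1 7 <| ki 1 8 <| ki 3 0 <| ki 3 1 <| ki 0 0 <| ki 3 8 <| ki 1 0 <| ki 1 2 <| ki 3 3 <|
  ki 0 0 <| dn) <| ki 2 0 <| ki 2 6 <| ki 0 1 <| ki 2 4 <| su (nd 1 (-1) 0 (-1) 0 0 1 3 <| ki 0 1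
  <| ki 1 4 <| ki 0 7 <| ki 0 0 <| ki 3 25 <| ki 3 16 <| su (nd 2 (-2) 2 (-3) 3 0 0 1 <| ki 4 6
  <| ki 2 2 <| ki 2 4 <| ki 1 6 <| ki 4 9 <| ki 4 0 <| ki 4 1 <| ki 2 8 <| ki 2 0 <| ki 4 1 <| ki
  4 7 <| ki 1 0 <| ki 4 5 <| ki 2 1 <| ki 2 4 <| ki 1 12 <| ki 4 9 <| ki 4 0 <| ki 3 9 <| ki 2 8
  <| ki 2 2 <| ki 4 2 <| ki 2 2 <| ki 2 6 <| dn) <| ki 3 13 <| ki 1 8 <| ki 1 0 <| ki 0 9 <| ki 1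
  1 <| ki 0 6 <| ki 1 4 <| ki 0 7 <| ki 0 0 <| ki 3 11 <| ki 3 27 <| su (nd 2 (-2) 2 (-3) 3 0 0 1
  <| ki 4 6 <| ki 2 2 <| ki 2 4 <| ki 1 6 <| ki 4 9 <| ki 4 0 <| ki 4 1 <| ki 2 8 <| ki 2 0 <| ki
  4 1 <| ki 4 7 <| ki 1 0 <| ki 4 5 <| ki 2 1 <| ki 2 4 <| ki 1 12 <| ki 4 9 <| ki 4 0 <| ki 3 9
  <| ki 2 8 <| ki 2 2 <| ki 4 2 <| ki 2 2 <| ki 2 6 <| dn) <| ki 3 13 <| ki 1 8 <| ki 1 0 <| ki 0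
  9 <| ki 0 0 <| dn) <| dn) <| ki 0 4 <| ki 1 1 <| ki 0 11 <| ki 1 8 <| ki 1 3 <| su (nd 1 0 (-1)
  0 1 2 2 0 <| ki 1 4 <| ki 0 0 <| ki 1 15 <| ki 2 19 <| ki 0 16 <| ki 0 0 <| ki 0 2 <| ki 1 8 <|
  ki 1 1 <| ki 2 12 <| ki 1 1 <| ki 0 2 <| ki 1 4 <| ki 0 2 <| ki 1 20 <| ki 2 19 <| ki 0 6 <| ki
  0 0 <| ki 0 1 <| ki 1 8 <| ki 1 2 <| ki 2 12 <| ki 0 5 <| ki 0 0 <| dn) <| su (nd 1 0 (-1) 0 1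
  2 2 0 <| ki 1 4 <| su (nd 1 (-2) (-1) (-2) 1 1 1 1 <| ki 0 0 <| ki 0 4 <| ki 0 2 <| ki 1 15 <|
  ki 1 2 <| ki 0 8 <| ki 1 10 <| ki 0 0 <| ki 1 1 <| ki 1 5 <| ki 1 12 <| ki 1 6 <| ki 0 0 <| ki
  0 7 <| ki 0 1 <| ki 1 11 <| ki 1 3 <| ki 0 8 <| ki 1 10 <| ki 0 0 <| ki 0 0 <| ki 1 6 <| ki 1 7
  <| ki 1 12 <| dn) <| ki 1 15 <| ki 2 19 <| ki 0 1 <| su (nd 0 0 (-2) 0 0 0 0 1 <| ki 1 2 <| ki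
  1 8 <| ki 1 0 <| ki 0 0 <| ki 1 1 <| ki 3 2 <| ki 1 0 <| ki 1 2 <| ki 3 14 <| ki 0 2 <| ki 3 21
  <| ki 3 17 <| ki 3 14 <| ki 1 8 <| ki 1 2 <| ki 0 0 <| ki 1 2 <| ki 3 1 <| ki 1 0 <| ki 1 1 <|
  ki 1 4 <| ki 0 0 <| ki 3 6 <| ki 3 18 <| dn) <| ki 0 1 <| ki 1 8 <| ki 1 1 <| ki 2 12 <| ki 1 1
  <| su (nd 1 0 0 (-1) 0 0 0 0 <| ki 1 2 <| ki 1 9 <| ki 1 0 <| ki 0 8 <| ki 3 19 <| ki 3 2 <| ki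
  1 1 <| ki 1 0 <| ki 1 7 <| ki 0 2 <| ki 3 12 <| ki 1 6 <| ki 1 1 <| ki 1 9 <| ki 1 0 <| ki 0 8
  <| ki 3 19 <| ki 3 1 <| ki 1 2 <| ki 3 15 <| ki 1 6 <| ki 0 1 <| ki 3 6 <| ki 1 5 <| dn) <| ki
  1 4 <| ki 0 1 <| ki 1 20 <| ki 2 19 <| ki 0 2 <| su (nd 0 0 (-2) 0 0 0 0 1 <| ki 1 2 <| ki 1 8
  <| ki 1 0 <| ki 0 0 <| ki 1 1 <| ki 3 2 <| ki 1 0 <| ki 1 2 <| ki 3 14 <| ki 0 2 <| ki 3 21 <|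
  ki 3 17 <| ki 3 14 <| ki 1 8 <| ki 1 2 <| ki 0 0 <| ki 1 2 <| ki 3 1 <| ki 1 0 <| ki 1 1 <| ki
  1 4 <| ki 0 0 <| ki 3 6 <| ki 3 18 <| dn) <| ki 0 2 <| ki 1 8 <| ki 1 2 <| ki 2 12 <| su (nd 2
  0 1 (-1) 3 0 0 0 <| ki 3 2 <| ki 0 8 <| ki 3 0 <| ki 3 2 <| ki 3 9 <| ki 3 1 <| ki 3 1 <| ki 3
  3 <| ki 3 26 <| ki 3 0 <| ki 3 6 <| ki 0 1 <| ki 3 1 <| ki 0 8 <| ki 3 0 <| ki 3 1 <| ki 3 9 <|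
  ki 3 0 <| ki 2 2 <| ki 3 3 <| ki 3 7 <| ki 3 0 <| ki 3 5 <| ki 2 7 <| dn) <| su (nd 1 (-1) 1
  (-2) 3 1 1 0 <| ki 3 2 <| ki 0 0 <| ki 3 8 <| ki 1 0 <| ki 3 9 <| ki 3 0 <| ki 3 0 <| ki 3 4 <|
  ki 0 2 <| ki 3 0 <| ki 3 6 <| ki 0 0 <| ki 3 1 <| ki 0 0 <| ki 3 8 <| ki 3 3 <| ki 3 9 <| ki 3
  0 <| ki 2 8 <| ki 3 4 <| ki 1 6 <| ki 3 0 <| ki 3 6 <| ki 0 3 <| dn) <| dn) <| ki 0 8 <| ki 0 2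
  <| ki 1 4 <| su (nd 1 0 1 (-1) 3 0 0 0 <| ki 2 2 <| ki 0 8 <| ki 2 0 <| ki 2 2 <| ki 2 9 <| ki
  2 0 <| ki 2 1 <| ki 2 3 <| ki 2 12 <| ki 2 0 <| ki 2 6 <| ki 0 1 <| ki 2 1 <| ki 0 8 <| ki 2 0
  <| ki 2 1 <| ki 2 9 <| ki 2 0 <| ki 1 2 <| ki 2 3 <| ki 2 6 <| ki 2 0 <| ki 2 5 <| ki 1 6 <|
  dn) <| su (nd 0 0 0 (-1) 2 0 0 0 <| ki 1 0 <| ki 1 6 <| ki 0 1 <| su (nd 1 0 1 (-1) 2 1 1 0 <|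
  ki 3 2 <| ki 2 6 <| ki 1 2 <| ki 0 0 <| ki 1 8 <| ki 3 9 <| ki 3 0 <| ki 1 3 <| ki 2 1 <| ki 2
  5 <| ki 3 6 <| ki 0 0 <| ki 3 1 <| ki 2 5 <| ki 1 3 <| ki 0 0 <| ki 1 8 <| ki 3 9 <| ki 3 0 <|
  ki 1 3 <| ki 2 2 <| ki 1 5 <| ki 3 5 <| ki 2 6 <| dn) <| ki 0 8 <| ki 2 8 <| ki 2 0 <| ki 0 3
  <| ki 2 1 <| ki 0 6 <| ki 2 4 <| su (nd (-1) 1 (-1) 0 1 2 3 1 <| ki 1 8 <| ki 1 0 <| su (nd 0 1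
  0 (-1) 2 1 1 1 <| ki 0 0 <| ki 1 0 <| ki 2 8 <| ki 0 2 <| ki 1 8 <| ki 0 0 <| ki 4 9 <| ki 1 3
  <| ki 1 7 <| ki 1 6 <| ki 3 6 <| ki 0 4 <| ki 0 0 <| ki 1 0 <| ki 2 1 <| ki 0 1 <| ki 1 8 <| ki
  0 0 <| ki 3 2 <| ki 1 3 <| ki 1 7 <| ki 1 4 <| ki 3 5 <| ki 1 1 <| dn) <| ki 3 9 <| ki 3 0 <|
  ki 0 0 <| ki 1 0 <| ki 1 4 <| ki 2 1 <| ki 1 2 <| ki 1 6 <| ki 0 0 <| ki 1 8 <| ki 1 0 <| su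
  (nd 0 1 0 (-1) 2 1 1 1 <| ki 0 0 <| ki 1 0 <| ki 2 8 <| ki 0 2 <| ki 1 8 <| ki 0 0 <| ki 4 9 <|
  ki 1 3 <| ki 1 7 <| ki 1 6 <| ki 3 6 <| ki 0 4 <| ki 0 0 <| ki 1 0 <| ki 2 1 <| ki 0 1 <| ki 1
  8 <| ki 0 0 <| ki 3 2 <| ki 1 3 <| ki 1 7 <| ki 1 4 <| ki 3 5 <| ki 1 1 <| dn) <| ki 3 9 <| ki
  3 0 <| ki 0 0 <| ki 1 0 <| ki 1 4 <| ki 0 7 <| ki 3 6 <| ki 1 5 <| ki 1 1 <| dn) <| ki 1 0 <|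
  ki 0 0 <| ki 0 2 <| su (nd 1 0 1 (-1) 2 1 1 0 <| ki 3 2 <| ki 2 6 <| ki 1 2 <| ki 0 0 <| ki 1 8
  <| ki 3 9 <| ki 3 0 <| ki 1 3 <| ki 2 1 <| ki 2 5 <| ki 3 6 <| ki 0 0 <| ki 3 1 <| ki 2 5 <| ki
  1 3 <| ki 0 0 <| ki 1 8 <| ki 3 9 <| ki 3 0 <| ki 1 3 <| ki 2 2 <| ki 1 5 <| ki 3 5 <| ki 2 6
  <| dn) <| ki 0 8 <| ki 2 8 <| ki 2 0 <| ki 0 3 <| ki 1 2 <| ki 0 4 <| ki 2 4 <| ki 0 1 <| dn)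
  <| dn) <| ki 0 3 <| ki 0 7 <| ki 0 6 <| su (nd (-1) 2 0 1 3 1 0 0 <| ki 0 10 <| ki 0 0 <| ki 1
  8 <| ki 1 1 <| ki 0 3 <| ki 1 1 <| ki 0 6 <| ki 1 4 <| ki 0 2 <| su (nd (-2) 1 (-1) 0 0 1 2 2
  <| ki 1 4 <| ki 2 13 <| ki 2 21 <| ki 1 13 <| ki 2 0 <| ki 2 2 <| su (nd 1 (-1) 0 (-1) 2 3 3 0
  <| ki 3 0 <| ki 3 6 <| ki 0 0 <| ki 2 8 <| ki 0 0 <| ki 3 8 <| ki 3 2 <| ki 2 0 <| ki 3 0 <| ki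
  2 1 <| ki 3 4 <| ki 2 4 <| ki 3 0 <| ki 2 3 <| ki 2 7 <| ki 2 8 <| ki 0 0 <| ki 3 8 <| ki 3 0
  <| ki 2 0 <| ki 3 2 <| ki 0 5 <| ki 3 4 <| ki 0 1 <| dn) <| ki 2 8 <| ki 2 5 <| ki 1 1 <| ki 2
  2 <| ki 2 6 <| ki 2 5 <| ki 2 13 <| ki 2 15 <| ki 1 13 <| ki 2 0 <| ki 2 0 <| su (nd 1 (-1) 0
  (-1) 2 3 3 0 <| ki 3 0 <| ki 3 6 <| ki 0 0 <| ki 2 8 <| ki 0 0 <| ki 3 8 <| ki 3 2 <| ki 2 0 <|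
  ki 3 0 <| ki 2 1 <| ki 3 4 <| ki 2 4 <| ki 3 0 <| ki 2 3 <| ki 2 7 <| ki 2 8 <| ki 0 0 <| ki 3
  8 <| ki 3 0 <| ki 2 0 <| ki 3 2 <| ki 0 5 <| ki 3 4 <| ki 0 1 <| dn) <| ki 2 8 <| ki 2 16 <| ki
  1 16 <| ki 2 1 <| su (nd 1 0 0 (-1) 2 2 2 0 <| ki 2 0 <| ki 2 6 <| ki 0 2 <| su (nd 2 0 1 (-1)
  2 3 3 0 <| ki 4 2 <| ki 3 6 <| ki 1 2 <| ki 0 0 <| ki 1 10 <| ki 4 9 <| ki 4 1 <| ki 1 5 <| ki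
  3 1 <| ki 3 5 <| ki 4 6 <| ki 0 0 <| ki 4 1 <| ki 3 5 <| ki 1 1 <| ki 0 0 <| ki 1 10 <| ki 4 9
  <| ki 4 0 <| ki 1 6 <| ki 3 2 <| ki 1 18 <| ki 4 5 <| ki 3 6 <| dn) <| ki 0 10 <| ki 2 8 <| ki
  3 0 <| ki 0 5 <| ki 2 0 <| ki 0 6 <| ki 3 6 <| su (nd (-1) 1 (-1) (-1) 0 0 0 0 <| ki 1 6 <| ki
  1 8 <| ki 1 0 <| ki 0 8 <| ki 3 8 <| ki 4 8 <| ki 1 0 <| ki 1 0 <| ki 1 4 <| ki 0 2 <| ki 3 4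
  <| ki 1 6 <| ki 1 1 <| ki 1 8 <| ki 3 1 <| ki 0 8 <| ki 3 8 <| ki 4 8 <| ki 1 0 <| ki 1 0 <| ki
  1 4 <| ki 0 1 <| ki 3 4 <| ki 1 5 <| dn) <| ki 2 0 <| ki 0 11 <| ki 0 1 <| su (nd 2 0 1 (-1) 2
  3 3 0 <| ki 4 2 <| ki 3 6 <| ki 1 2 <| ki 0 0 <| ki 1 10 <| ki 4 9 <| ki 4 1 <| ki 1 5 <| ki 3
  1 <| ki 3 5 <| ki 4 6 <| ki 0 0 <| ki 4 1 <| ki 3 5 <| ki 1 1 <| ki 0 0 <| ki 1 10 <| ki 4 9 <|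
  ki 4 0 <| ki 1 6 <| ki 3 2 <| ki 1 18 <| ki 4 5 <| ki 3 6 <| dn) <| ki 0 10 <| ki 2 8 <| ki 3 2
  <| ki 0 6 <| ki 2 2 <| ki 0 12 <| ki 3 5 <| su (nd 0 0 (-1) (-2) 1 0 0 1 <| ki 0 1 <| su (nd
  (-2) 0 0 (-3) 4 0 0 2 <| ki 2 2 <| ki 2 4 <| su (nd (-2) (-1) (-1) (-4) 0 1 0 0 <| ki 1 4 <| ki
  1 21 <| ki 1 12 <| ki 1 13 <| ki 0 0 <| ki 0 2 <| su (nd 1 (-3) 0 (-5) 2 1 1 0 <| ki 4 5 <| ki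
  2 3 <| ki 0 0 <| ki 2 8 <| ki 0 0 <| ki 2 2 <| ki 2 6 <| ki 2 0 <| ki 4 9 <| ki 2 1 <| ki 2 0
  <| ki 2 4 <| ki 4 16 <| ki 2 3 <| ki 2 7 <| ki 2 8 <| ki 0 0 <| ki 2 1 <| ki 1 0 <| ki 2 0 <|
  ki 2 0 <| ki 0 5 <| ki 2 0 <| ki 0 1 <| dn) <| ki 0 8 <| ki 1 11 <| ki 1 1 <| ki 0 2 <| ki 1 3
  <| ki 1 17 <| ki 1 20 <| ki 1 12 <| ki 1 13 <| ki 0 0 <| ki 0 0 <| su (nd 1 (-3) 0 (-5) 2 1 1 0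
  <| ki 4 5 <| ki 2 3 <| ki 0 0 <| ki 2 8 <| ki 0 0 <| ki 2 2 <| ki 2 6 <| ki 2 0 <| ki 4 9 <| ki
  2 1 <| ki 2 0 <| ki 2 4 <| ki 4 16 <| ki 2 3 <| ki 2 7 <| ki 2 8 <| ki 0 0 <| ki 2 1 <| ki 1 0
  <| ki 2 0 <| ki 2 0 <| ki 0 5 <| ki 2 0 <| ki 0 1 <| dn) <| ki 0 8 <| ki 1 25 <| ki 1 16 <| ki
  0 1 <| su (nd 1 (-2) 0 (-5) 2 2 2 0 <| ki 3 5 <| ki 2 6 <| ki 0 2 <| su (nd 2 (-2) 1 (-5) 2 3 3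
  0 <| ki 4 6 <| ki 3 6 <| ki 1 2 <| ki 0 0 <| ki 1 10 <| ki 3 0 <| ki 3 0 <| ki 1 5 <| ki 4 13
  <| ki 3 5 <| ki 3 3 <| ki 0 0 <| ki 3 0 <| ki 3 5 <| ki 1 1 <| ki 0 0 <| ki 1 10 <| ki 3 0 <|
  ki 5 9 <| ki 1 6 <| ki 3 2 <| ki 1 18 <| ki 5 33 <| ki 3 6 <| dn) <| ki 0 10 <| ki 2 8 <| ki 2
  2 <| ki 0 5 <| ki 3 9 <| ki 0 6 <| ki 2 4 <| su (nd (-1) (-1) (-1) (-5) 0 0 0 0 <| ki 1 6 <| ki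
  1 8 <| ki 1 0 <| ki 0 8 <| ki 3 8 <| ki 3 2 <| ki 1 0 <| ki 1 0 <| ki 1 4 <| ki 0 2 <| ki 3 4
  <| ki 1 6 <| ki 1 1 <| ki 1 8 <| ki 3 1 <| ki 0 8 <| ki 3 8 <| ki 3 11 <| ki 1 0 <| ki 1 0 <|
  ki 1 4 <| ki 0 1 <| ki 3 4 <| ki 1 5 <| dn) <| ki 3 16 <| ki 0 11 <| ki 0 1 <| su (nd 2 (-2) 1
  (-5) 2 3 3 0 <| ki 4 6 <| ki 3 6 <| ki 1 2 <| ki 0 0 <| ki 1 10 <| ki 3 0 <| ki 3 0 <| ki 1 5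
  <| ki 4 13 <| ki 3 5 <| ki 3 3 <| ki 0 0 <| ki 3 0 <| ki 3 5 <| ki 1 1 <| ki 0 0 <| ki 1 10 <|
  ki 3 0 <| ki 5 9 <| ki 1 6 <| ki 3 2 <| ki 1 18 <| ki 5 33 <| ki 3 6 <| dn) <| ki 0 10 <| ki 2
  8 <| ki 2 0 <| ki 0 6 <| ki 2 2 <| ki 0 12 <| ki 2 4 <| su (nd 0 (-2) (-1) (-6) 1 0 0 1 <| ki 0
  1 <| su (nd 0 2 (-1) 2 3 7 7 8 <| su (nd 0 2 0 2 2 8 8 8 <| ki 0 0 <| ki 9 0 <| ki 10 2 <| ki 0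
  2 <| ki 9 0 <| ki 9 5 <| ki 8 1 <| ki 10 5 <| ki 9 6 <| ki 9 6 <| ki 9 9 <| ki 9 0 <| ki 0 0 <|
  ki 9 0 <| ki 10 1 <| ki 0 1 <| ki 9 0 <| ki 9 6 <| ki 0 5 <| ki 10 6 <| ki 9 5 <| ki 9 1 <| ki
  9 9 <| ki 9 0 <| dn) <| su (nd 0 1 0 (-1) 2 6 6 6 <| ki 0 4 <| ki 6 0 <| ki 7 8 <| su (nd 1 1 1
  (-1) 2 7 7 0 <| ki 10 2 <| ki 7 0 <| ki 8 19 <| ki 0 0 <| ki 7 8 <| ki 10 9 <| ki 10 0 <| ki 7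
  3 <| ki 7 7 <| ki 7 6 <| ki 10 6 <| ki 0 0 <| ki 10 1 <| ki 7 0 <| ki 8 1 <| ki 0 0 <| ki 7 8
  <| ki 10 9 <| ki 10 0 <| ki 7 3 <| ki 7 7 <| ki 7 5 <| ki 10 5 <| ki 7 1 <| dn) <| ki 6 8 <| ki
  9 8 <| ki 10 9 <| ki 6 3 <| ki 9 1 <| ki 6 6 <| ki 9 4 <| su (nd (-1) 2 (-1) 0 2 10 7 0 <| ki
  10 2 <| ki 7 8 <| ki 8 9 <| su (nd 0 2 0 (-1) 2 1 1 1 <| ki 2 6 <| ki 1 0 <| ki 8 8 <| ki 0 2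
  <| ki 1 8 <| ki 0 0 <| ki 11 9 <| ki 1 3 <| ki 1 7 <| ki 1 6 <| ki 0 0 <| ki 0 4 <| ki 2 5 <|
  ki 1 0 <| ki 8 1 <| ki 0 1 <| ki 1 8 <| ki 0 0 <| ki 11 8 <| ki 1 3 <| ki 1 7 <| ki 1 4 <| ki 0
  0 <| ki 1 1 <| dn) <| ki 0 0 <| ki 10 9 <| ki 10 0 <| ki 7 4 <| ki 1 9 <| ki 0 6 <| ki 10 6 <|
  ki 0 0 <| ki 10 1 <| ki 7 8 <| ki 8 9 <| su (nd 0 2 0 (-1) 2 1 1 1 <| ki 2 6 <| ki 1 0 <| ki 8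
  8 <| ki 0 2 <| ki 1 8 <| ki 0 0 <| ki 11 9 <| ki 1 3 <| ki 1 7 <| ki 1 6 <| ki 0 0 <| ki 0 4 <|
  ki 2 5 <| ki 1 0 <| ki 8 1 <| ki 0 1 <| ki 1 8 <| ki 0 0 <| ki 11 8 <| ki 1 3 <| ki 1 7 <| ki 1
  4 <| ki 0 0 <| ki 1 1 <| dn) <| ki 0 0 <| ki 10 9 <| ki 10 0 <| ki 7 4 <| ki 1 9 <| ki 0 1 <|
  ki 10 7 <| ki 7 1 <| dn) <| ki 0 4 <| ki 6 0 <| ki 7 1 <| su (nd 1 1 1 (-1) 2 7 7 0 <| ki 10 2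
  <| ki 7 0 <| ki 8 19 <| ki 0 0 <| ki 7 8 <| ki 10 9 <| ki 10 0 <| ki 7 3 <| ki 7 7 <| ki 7 6 <|
  ki 10 6 <| ki 0 0 <| ki 10 1 <| ki 7 0 <| ki 8 1 <| ki 0 0 <| ki 7 8 <| ki 10 9 <| ki 10 0 <|
  ki 7 3 <| ki 7 7 <| ki 7 5 <| ki 10 5 <| ki 7 1 <| dn) <| ki 6 8 <| ki 9 8 <| ki 9 0 <| ki 6 3
  <| ki 6 7 <| ki 6 4 <| ki 9 4 <| ki 6 1 <| dn) <| ki 7 0 <| ki 9 1 <| ki 8 4 <| ki 7 1 <| ki 7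
  5 <| ki 9 6 <| ki 7 7 <| ki 7 0 <| ki 8 8 <| ki 8 3 <| su (nd 0 2 0 2 2 8 8 8 <| ki 0 0 <| ki 9
  0 <| ki 10 2 <| ki 0 2 <| ki 9 0 <| ki 9 5 <| ki 8 1 <| ki 10 5 <| ki 9 6 <| ki 9 6 <| ki 9 9
  <| ki 9 0 <| ki 0 0 <| ki 9 0 <| ki 10 1 <| ki 0 1 <| ki 9 0 <| ki 9 6 <| ki 0 5 <| ki 10 6 <|
  ki 9 5 <| ki 9 1 <| ki 9 9 <| ki 9 0 <| dn) <| su (nd 0 1 0 (-1) 2 6 6 6 <| ki 0 4 <| ki 6 0 <|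
  ki 7 8 <| su (nd 1 1 1 (-1) 2 7 7 0 <| ki 10 2 <| ki 7 0 <| ki 8 19 <| ki 0 0 <| ki 7 8 <| ki
  10 9 <| ki 10 0 <| ki 7 3 <| ki 7 7 <| ki 7 6 <| ki 10 6 <| ki 0 0 <| ki 10 1 <| ki 7 0 <| ki 8
  1 <| ki 0 0 <| ki 7 8 <| ki 10 9 <| ki 10 0 <| ki 7 3 <| ki 7 7 <| ki 7 5 <| ki 10 5 <| ki 7 1
  <| dn) <| ki 6 8 <| ki 9 8 <| ki 10 9 <| ki 6 3 <| ki 9 1 <| ki 6 6 <| ki 9 4 <| su (nd (-1) 2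
  (-1) 0 2 10 7 0 <| ki 10 2 <| ki 7 8 <| ki 8 9 <| su (nd 0 2 0 (-1) 2 1 1 1 <| ki 2 4 <| ki 1 0
  <| ki 8 8 <| ki 0 2 <| ki 1 8 <| ki 0 0 <| ki 11 9 <| ki 1 3 <| ki 1 7 <| ki 1 6 <| ki 0 0 <|
  ki 0 4 <| ki 2 4 <| ki 1 0 <| ki 8 1 <| ki 0 1 <| ki 1 8 <| ki 0 0 <| ki 11 8 <| ki 1 3 <| ki 1
  7 <| ki 1 4 <| ki 0 0 <| ki 1 1 <| dn) <| ki 0 0 <| ki 10 9 <| ki 10 0 <| ki 7 4 <| ki 1 9 <|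
  ki 0 6 <| ki 10 6 <| ki 0 0 <| ki 10 1 <| ki 7 8 <| ki 8 9 <| su (nd 0 2 0 (-1) 2 1 1 1 <| ki 2
  4 <| ki 1 0 <| ki 8 8 <| ki 0 2 <| ki 1 8 <| ki 0 0 <| ki 11 9 <| ki 1 3 <| ki 1 7 <| ki 1 6 <|
  ki 0 0 <| ki 0 4 <| ki 2 4 <| ki 1 0 <| ki 8 1 <| ki 0 1 <| ki 1 8 <| ki 0 0 <| ki 11 8 <| ki 1
  3 <| ki 1 7 <| ki 1 4 <| ki 0 0 <| ki 1 1 <| dn) <| ki 0 0 <| ki 10 9 <| ki 10 0 <| ki 7 4 <|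
  ki 1 9 <| ki 0 1 <| ki 10 7 <| ki 7 1 <| dn) <| ki 0 4 <| ki 6 0 <| ki 7 1 <| su (nd 1 1 1 (-1)
  2 7 7 0 <| ki 10 2 <| ki 7 0 <| ki 8 19 <| ki 0 0 <| ki 7 8 <| ki 10 9 <| ki 10 0 <| ki 7 3 <|
  ki 7 7 <| ki 7 6 <| ki 10 6 <| ki 0 0 <| ki 10 1 <| ki 7 0 <| ki 8 1 <| ki 0 0 <| ki 7 8 <| ki
  10 9 <| ki 10 0 <| ki 7 3 <| ki 7 7 <| ki 7 5 <| ki 10 5 <| ki 7 1 <| dn) <| ki 6 8 <| ki 9 8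
  <| ki 9 0 <| ki 6 3 <| ki 6 7 <| ki 6 4 <| ki 9 4 <| ki 6 1 <| dn) <| ki 7 0 <| ki 9 2 <| ki 8
  4 <| ki 7 2 <| ki 7 6 <| ki 7 3 <| ki 8 1 <| ki 7 0 <| ki 8 8 <| ki 8 1 <| dn) <| ki 0 8 <| ki
  1 25 <| ki 1 16 <| su (nd 1 (-2) (-1) (-6) 1 1 1 0 <| ki 1 6 <| ki 1 5 <| ki 1 19 <| ki 0 1 <|
  ki 0 16 <| ki 0 0 <| ki 0 2 <| ki 1 21 <| ki 1 1 <| ki 0 2 <| ki 2 26 <| ki 1 27 <| ki 1 5 <|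
  ki 1 16 <| ki 1 19 <| ki 1 27 <| ki 2 1 <| ki 0 0 <| ki 0 1 <| ki 1 15 <| ki 1 2 <| ki 0 1 <|
  ki 2 26 <| ki 2 14 <| dn) <| ki 1 13 <| ki 0 0 <| ki 0 0 <| ki 1 20 <| ki 1 12 <| ki 1 17 <| ki
  0 2 <| ki 1 3 <| ki 0 8 <| ki 1 11 <| ki 1 1 <| su (nd 1 (-2) (-1) (-6) 1 1 1 0 <| ki 1 6 <| ki
  1 5 <| ki 1 19 <| ki 0 1 <| ki 0 16 <| ki 0 0 <| ki 0 2 <| ki 1 21 <| ki 1 1 <| ki 0 2 <| ki 2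
  26 <| ki 1 27 <| ki 1 5 <| ki 1 16 <| ki 1 19 <| ki 1 27 <| ki 2 1 <| ki 0 0 <| ki 0 1 <| ki 1
  15 <| ki 1 2 <| ki 0 1 <| ki 2 26 <| ki 2 14 <| dn) <| ki 1 13 <| ki 0 0 <| ki 0 2 <| ki 1 21
  <| ki 1 12 <| ki 1 4 <| dn) <| dn) <| dn) <| ki 2 2 <| ki 2 2 <| ki 5 13 <| ki 2 8 <| ki 2 0 <|
  su (nd (-2) 0 1 (-3) 4 0 0 3 <| ki 5 6 <| ki 5 33 <| ki 3 6 <| ki 3 0 <| ki 3 6 <| ki 3 2 <| ki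
  3 0 <| ki 5 9 <| ki 0 0 <| ki 3 1 <| ki 3 5 <| ki 3 0 <| ki 3 11 <| ki 3 3 <| ki 0 0 <| ki 3 0
  <| ki 3 3 <| ki 6 13 <| ki 3 0 <| ki 3 0 <| ki 0 0 <| ki 3 2 <| ki 3 6 <| ki 6 6 <| dn) <| ki 2
  1 <| ki 2 16 <| ki 5 16 <| ki 2 1 <| ki 2 4 <| su (nd (-1) (-1) (-1) (-3) 0 1 0 0 <| ki 1 1 <|
  ki 1 4 <| ki 0 1 <| ki 1 0 <| ki 1 6 <| ki 0 4 <| ki 0 8 <| ki 0 0 <| ki 1 8 <| ki 3 1 <| ki 1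
  9 <| ki 1 0 <| ki 0 0 <| ki 1 4 <| ki 0 2 <| ki 1 0 <| ki 0 0 <| ki 0 4 <| ki 0 8 <| ki 0 0 <|
  ki 1 8 <| ki 1 0 <| ki 1 9 <| ki 1 0 <| dn) <| ki 2 1 <| ki 2 5 <| ki 5 9 <| ki 2 8 <| ki 2 2
  <| su (nd (-2) 0 1 (-3) 4 0 0 3 <| ki 5 6 <| ki 5 33 <| ki 3 6 <| ki 3 0 <| ki 3 6 <| ki 3 2 <|
  ki 3 0 <| ki 5 9 <| ki 0 0 <| ki 3 1 <| ki 3 5 <| ki 3 0 <| ki 3 11 <| ki 3 3 <| ki 0 0 <| ki 3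
  0 <| ki 3 3 <| ki 6 13 <| ki 3 0 <| ki 3 0 <| ki 0 0 <| ki 3 2 <| ki 3 6 <| ki 6 6 <| dn) <| ki
  2 2 <| ki 2 6 <| ki 5 5 <| dn) <| ki 0 8 <| ki 1 25 <| ki 1 16 <| su (nd 1 0 (-1) (-2) 1 1 1 0
  <| ki 1 6 <| ki 1 5 <| ki 1 19 <| ki 0 1 <| ki 0 16 <| ki 0 0 <| ki 0 2 <| ki 1 21 <| ki 1 1 <|
  ki 0 2 <| ki 2 26 <| ki 1 27 <| ki 1 5 <| ki 1 16 <| ki 1 19 <| ki 1 27 <| ki 2 1 <| ki 0 0 <|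
  ki 0 1 <| ki 1 15 <| ki 1 2 <| ki 0 1 <| ki 2 26 <| ki 2 14 <| dn) <| ki 1 13 <| ki 0 0 <| ki 0
  0 <| ki 1 20 <| ki 1 12 <| ki 1 17 <| ki 0 2 <| ki 1 3 <| ki 0 8 <| ki 1 11 <| ki 1 1 <| su (nd
  1 0 (-1) (-2) 1 1 1 0 <| ki 1 6 <| ki 1 5 <| ki 1 19 <| ki 0 1 <| ki 0 16 <| ki 0 0 <| ki 0 2
  <| ki 1 21 <| ki 1 1 <| ki 0 2 <| ki 2 26 <| ki 1 27 <| ki 1 5 <| ki 1 16 <| ki 1 19 <| ki 1 27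
  <| ki 2 1 <| ki 0 0 <| ki 0 1 <| ki 1 15 <| ki 1 2 <| ki 0 1 <| ki 2 26 <| ki 2 14 <| dn) <| ki
  1 13 <| ki 0 0 <| ki 0 2 <| ki 1 21 <| ki 1 12 <| ki 1 4 <| dn) <| dn) <| dn) <| ki 0 0 <| ki 0
  2 <| ki 0 10 <| ki 0 0 <| ki 1 8 <| ki 1 3 <| ki 0 3 <| ki 0 7 <| ki 0 4 <| ki 1 4 <| ki 0 3 <|
  su (nd (-2) 1 (-1) 0 0 1 2 2 <| ki 1 4 <| ki 2 13 <| ki 2 21 <| ki 1 13 <| ki 2 0 <| ki 2 2 <|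
  su (nd 1 (-1) 0 (-1) 2 3 3 0 <| ki 3 0 <| ki 3 6 <| ki 0 0 <| ki 2 8 <| ki 0 0 <| ki 3 8 <| ki
  3 2 <| ki 2 0 <| ki 3 0 <| ki 2 1 <| ki 3 4 <| ki 2 4 <| ki 3 0 <| ki 2 3 <| ki 2 7 <| ki 2 8
  <| ki 0 0 <| ki 3 8 <| ki 3 0 <| ki 2 0 <| ki 3 2 <| ki 0 5 <| ki 3 4 <| ki 0 1 <| dn) <| ki 2
  8 <| ki 2 5 <| ki 1 1 <| ki 2 2 <| ki 2 6 <| ki 2 5 <| ki 2 13 <| ki 2 15 <| ki 1 13 <| ki 2 0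
  <| ki 2 0 <| su (nd 1 (-1) 0 (-1) 2 3 3 0 <| ki 3 0 <| ki 3 6 <| ki 0 0 <| ki 2 8 <| ki 0 0 <|
  ki 3 8 <| ki 3 2 <| ki 2 0 <| ki 3 0 <| ki 2 1 <| ki 3 4 <| ki 2 4 <| ki 3 0 <| ki 2 3 <| ki 2
  7 <| ki 2 8 <| ki 0 0 <| ki 3 8 <| ki 3 0 <| ki 2 0 <| ki 3 2 <| ki 0 5 <| ki 3 4 <| ki 0 1 <|
  dn) <| ki 2 8 <| ki 2 16 <| ki 1 16 <| ki 2 1 <| su (nd 1 0 0 (-1) 2 2 2 0 <| ki 2 0 <| ki 2 6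
  <| ki 0 2 <| su (nd 2 0 1 (-1) 2 3 3 0 <| ki 4 2 <| ki 3 6 <| ki 1 2 <| ki 0 0 <| ki 1 10 <| ki
  4 9 <| ki 4 1 <| ki 1 5 <| ki 3 1 <| ki 3 5 <| ki 4 6 <| ki 0 0 <| ki 4 1 <| ki 3 5 <| ki 1 1
  <| ki 0 0 <| ki 1 10 <| ki 4 9 <| ki 4 0 <| ki 1 6 <| ki 3 2 <| ki 1 18 <| ki 4 5 <| ki 3 6 <|
  dn) <| ki 0 10 <| ki 2 8 <| ki 3 0 <| ki 0 5 <| ki 2 0 <| ki 0 6 <| ki 3 6 <| su (nd (-1) 1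
  (-1) (-1) 0 0 0 0 <| ki 1 6 <| ki 1 8 <| ki 1 0 <| ki 0 8 <| ki 3 8 <| ki 4 8 <| ki 1 0 <| ki 1
  0 <| ki 1 4 <| ki 0 2 <| ki 3 4 <| ki 1 6 <| ki 1 1 <| ki 1 8 <| ki 3 1 <| ki 0 8 <| ki 3 8 <|
  ki 4 8 <| ki 1 0 <| ki 1 0 <| ki 1 4 <| ki 0 1 <| ki 3 4 <| ki 1 5 <| dn) <| ki 2 0 <| ki 0 11
  <| ki 0 1 <| su (nd 2 0 1 (-1) 2 3 3 0 <| ki 4 2 <| ki 3 6 <| ki 1 2 <| ki 0 0 <| ki 1 10 <| ki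
  4 9 <| ki 4 1 <| ki 1 5 <| ki 3 1 <| ki 3 5 <| ki 4 6 <| ki 0 0 <| ki 4 1 <| ki 3 5 <| ki 1 1
  <| ki 0 0 <| ki 1 10 <| ki 4 9 <| ki 4 0 <| ki 1 6 <| ki 3 2 <| ki 1 18 <| ki 4 5 <| ki 3 6 <|
  dn) <| ki 0 10 <| ki 2 8 <| ki 3 2 <| ki 0 6 <| ki 2 2 <| ki 0 12 <| ki 3 5 <| su (nd 0 0 (-1)
  (-2) 1 0 0 1 <| ki 0 1 <| su (nd (-2) 0 0 (-3) 4 0 0 2 <| ki 2 2 <| ki 2 4 <| su (nd (-2) (-1)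
  (-1) (-4) 0 1 0 0 <| ki 1 4 <| ki 1 21 <| ki 1 12 <| ki 1 13 <| ki 0 0 <| ki 0 2 <| su (nd 1
  (-3) 0 (-5) 2 1 1 0 <| ki 4 5 <| ki 2 3 <| ki 0 0 <| ki 2 8 <| ki 0 0 <| ki 2 2 <| ki 2 6 <| ki
  2 0 <| ki 4 9 <| ki 2 1 <| ki 2 0 <| ki 2 4 <| ki 4 16 <| ki 2 3 <| ki 2 7 <| ki 2 8 <| ki 0 0
  <| ki 2 1 <| ki 1 0 <| ki 2 0 <| ki 2 0 <| ki 0 5 <| ki 2 0 <| ki 0 1 <| dn) <| ki 0 8 <| ki 1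
  11 <| ki 1 1 <| ki 0 2 <| ki 1 3 <| ki 1 17 <| ki 1 20 <| ki 1 12 <| ki 1 13 <| ki 0 0 <| ki 0
  0 <| su (nd 1 (-3) 0 (-5) 2 1 1 0 <| ki 4 5 <| ki 2 3 <| ki 0 0 <| ki 2 8 <| ki 0 0 <| ki 2 2
  <| ki 2 6 <| ki 2 0 <| ki 4 9 <| ki 2 1 <| ki 2 0 <| ki 2 4 <| ki 4 16 <| ki 2 3 <| ki 2 7 <|
  ki 2 8 <| ki 0 0 <| ki 2 1 <| ki 1 0 <| ki 2 0 <| ki 2 0 <| ki 0 5 <| ki 2 0 <| ki 0 1 <| dn)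
  <| ki 0 8 <| ki 1 25 <| ki 1 16 <| ki 0 1 <| su (nd 1 (-2) 0 (-5) 2 2 2 0 <| ki 3 5 <| ki 2 6
  <| ki 0 2 <| su (nd 2 (-2) 1 (-5) 2 3 3 0 <| ki 4 6 <| ki 3 6 <| ki 1 2 <| ki 0 0 <| ki 1 10 <|
  ki 3 0 <| ki 3 0 <| ki 1 5 <| ki 4 13 <| ki 3 5 <| ki 3 3 <| ki 0 0 <| ki 3 0 <| ki 3 5 <| ki 1
  1 <| ki 0 0 <| ki 1 10 <| ki 3 0 <| ki 5 9 <| ki 1 6 <| ki 3 2 <| ki 1 18 <| ki 5 33 <| ki 3 6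
  <| dn) <| ki 0 10 <| ki 2 8 <| ki 2 2 <| ki 0 5 <| ki 3 9 <| ki 0 6 <| ki 2 4 <| su (nd (-1)
  (-1) (-1) (-5) 0 0 0 0 <| ki 1 6 <| ki 1 8 <| ki 1 0 <| ki 0 8 <| ki 3 8 <| ki 3 2 <| ki 1 0 <|
  ki 1 0 <| ki 1 4 <| ki 0 2 <| ki 3 4 <| ki 1 6 <| ki 1 1 <| ki 1 8 <| ki 3 1 <| ki 0 8 <| ki 3
  8 <| ki 3 11 <| ki 1 0 <| ki 1 0 <| ki 1 4 <| ki 0 1 <| ki 3 4 <| ki 1 5 <| dn) <| ki 3 16 <|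
  ki 0 11 <| ki 0 1 <| su (nd 2 (-2) 1 (-5) 2 3 3 0 <| ki 4 6 <| ki 3 6 <| ki 1 2 <| ki 0 0 <| ki
  1 10 <| ki 3 0 <| ki 3 0 <| ki 1 5 <| ki 4 13 <| ki 3 5 <| ki 3 3 <| ki 0 0 <| ki 3 0 <| ki 3 5
  <| ki 1 1 <| ki 0 0 <| ki 1 10 <| ki 3 0 <| ki 5 9 <| ki 1 6 <| ki 3 2 <| ki 1 18 <| ki 5 33 <|
  ki 3 6 <| dn) <| ki 0 10 <| ki 2 8 <| ki 2 0 <| ki 0 6 <| ki 2 2 <| ki 0 12 <| ki 2 4 <| su (nd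
  0 (-2) (-1) (-6) 1 0 0 1 <| ki 0 1 <| su (nd 0 2 (-1) 2 3 7 7 8 <| su (nd 0 2 0 2 2 8 8 8 <| ki
  0 0 <| ki 9 0 <| ki 10 2 <| ki 0 2 <| ki 9 0 <| ki 9 5 <| ki 8 1 <| ki 10 5 <| ki 9 6 <| ki 9 6
  <| ki 9 9 <| ki 9 0 <| ki 0 0 <| ki 9 0 <| ki 10 1 <| ki 0 1 <| ki 9 0 <| ki 9 6 <| ki 0 5 <|
  ki 10 6 <| ki 9 5 <| ki 9 1 <| ki 9 9 <| ki 9 0 <| dn) <| su (nd 0 1 0 (-1) 2 6 6 6 <| ki 0 4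
  <| ki 6 0 <| ki 7 8 <| su (nd 1 1 1 (-1) 2 7 7 0 <| ki 10 2 <| ki 7 0 <| ki 8 19 <| ki 0 0 <|
  ki 7 8 <| ki 10 9 <| ki 10 0 <| ki 7 3 <| ki 7 7 <| ki 7 6 <| ki 10 6 <| ki 0 0 <| ki 10 1 <|
  ki 7 0 <| ki 8 1 <| ki 0 0 <| ki 7 8 <| ki 10 9 <| ki 10 0 <| ki 7 3 <| ki 7 7 <| ki 7 5 <| ki
  10 5 <| ki 7 1 <| dn) <| ki 6 8 <| ki 9 8 <| ki 10 9 <| ki 6 3 <| ki 9 1 <| ki 6 6 <| ki 9 4 <|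
  su (nd (-1) 2 (-1) 0 2 10 7 0 <| ki 10 2 <| ki 7 8 <| ki 8 9 <| su (nd 0 2 0 (-1) 2 1 1 1 <| ki
  2 6 <| ki 1 0 <| ki 8 8 <| ki 0 2 <| ki 1 8 <| ki 0 0 <| ki 11 9 <| ki 1 3 <| ki 1 7 <| ki 1 6
  <| ki 0 0 <| ki 0 4 <| ki 2 5 <| ki 1 0 <| ki 8 1 <| ki 0 1 <| ki 1 8 <| ki 0 0 <| ki 11 8 <|
  ki 1 3 <| ki 1 7 <| ki 1 4 <| ki 0 0 <| ki 1 1 <| dn) <| ki 0 0 <| ki 10 9 <| ki 10 0 <| ki 7 4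
  <| ki 1 9 <| ki 0 6 <| ki 10 6 <| ki 0 0 <| ki 10 1 <| ki 7 8 <| ki 8 9 <| su (nd 0 2 0 (-1) 2
  1 1 1 <| ki 2 6 <| ki 1 0 <| ki 8 8 <| ki 0 2 <| ki 1 8 <| ki 0 0 <| ki 11 9 <| ki 1 3 <| ki 1
  7 <| ki 1 6 <| ki 0 0 <| ki 0 4 <| ki 2 5 <| ki 1 0 <| ki 8 1 <| ki 0 1 <| ki 1 8 <| ki 0 0 <|
  ki 11 8 <| ki 1 3 <| ki 1 7 <| ki 1 4 <| ki 0 0 <| ki 1 1 <| dn) <| ki 0 0 <| ki 10 9 <| ki 10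
  0 <| ki 7 4 <| ki 1 9 <| ki 0 1 <| ki 10 7 <| ki 7 1 <| dn) <| ki 0 4 <| ki 6 0 <| ki 7 1 <| su
  (nd 1 1 1 (-1) 2 7 7 0 <| ki 10 2 <| ki 7 0 <| ki 8 19 <| ki 0 0 <| ki 7 8 <| ki 10 9 <| ki 10
  0 <| ki 7 3 <| ki 7 7 <| ki 7 6 <| ki 10 6 <| ki 0 0 <| ki 10 1 <| ki 7 0 <| ki 8 1 <| ki 0 0
  <| ki 7 8 <| ki 10 9 <| ki 10 0 <| ki 7 3 <| ki 7 7 <| ki 7 5 <| ki 10 5 <| ki 7 1 <| dn) <| ki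
  6 8 <| ki 9 8 <| ki 9 0 <| ki 6 3 <| ki 6 7 <| ki 6 4 <| ki 9 4 <| ki 6 1 <| dn) <| ki 7 0 <|
  ki 9 1 <| ki 8 4 <| ki 7 1 <| ki 7 5 <| ki 9 6 <| ki 7 7 <| ki 7 0 <| ki 8 8 <| ki 8 3 <| su
  (nd 0 2 0 2 2 8 8 8 <| ki 0 0 <| ki 9 0 <| ki 10 2 <| ki 0 2 <| ki 9 0 <| ki 9 5 <| ki 8 1 <|
  ki 10 5 <| ki 9 6 <| ki 9 6 <| ki 9 9 <| ki 9 0 <| ki 0 0 <| ki 9 0 <| ki 10 1 <| ki 0 1 <| ki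
  9 0 <| ki 9 6 <| ki 0 5 <| ki 10 6 <| ki 9 5 <| ki 9 1 <| ki 9 9 <| ki 9 0 <| dn) <| su (nd 0 1
  0 (-1) 2 6 6 6 <| ki 0 4 <| ki 6 0 <| ki 7 8 <| su (nd 1 1 1 (-1) 2 7 7 0 <| ki 10 2 <| ki 7 0
  <| ki 8 19 <| ki 0 0 <| ki 7 8 <| ki 10 9 <| ki 10 0 <| ki 7 3 <| ki 7 7 <| ki 7 6 <| ki 10 6
  <| ki 0 0 <| ki 10 1 <| ki 7 0 <| ki 8 1 <| ki 0 0 <| ki 7 8 <| ki 10 9 <| ki 10 0 <| ki 7 3 <|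
  ki 7 7 <| ki 7 5 <| ki 10 5 <| ki 7 1 <| dn) <| ki 6 8 <| ki 9 8 <| ki 10 9 <| ki 6 3 <| ki 9 1
  <| ki 6 6 <| ki 9 4 <| su (nd (-1) 2 (-1) 0 2 10 7 0 <| ki 10 2 <| ki 7 8 <| ki 8 9 <| su (nd 0
  2 0 (-1) 2 1 1 1 <| ki 2 4 <| ki 1 0 <| ki 8 8 <| ki 0 2 <| ki 1 8 <| ki 0 0 <| ki 11 9 <| ki 1
  3 <| ki 1 7 <| ki 1 6 <| ki 0 0 <| ki 0 4 <| ki 2 4 <| ki 1 0 <| ki 8 1 <| ki 0 1 <| ki 1 8 <|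
  ki 0 0 <| ki 11 8 <| ki 1 3 <| ki 1 7 <| ki 1 4 <| ki 0 0 <| ki 1 1 <| dn) <| ki 0 0 <| ki 10 9
  <| ki 10 0 <| ki 7 4 <| ki 1 9 <| ki 0 6 <| ki 10 6 <| ki 0 0 <| ki 10 1 <| ki 7 8 <| ki 8 9 <|
  su (nd 0 2 0 (-1) 2 1 1 1 <| ki 2 4 <| ki 1 0 <| ki 8 8 <| ki 0 2 <| ki 1 8 <| ki 0 0 <| ki 11
  9 <| ki 1 3 <| ki 1 7 <| ki 1 6 <| ki 0 0 <| ki 0 4 <| ki 2 4 <| ki 1 0 <| ki 8 1 <| ki 0 1 <|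
  ki 1 8 <| ki 0 0 <| ki 11 8 <| ki 1 3 <| ki 1 7 <| ki 1 4 <| ki 0 0 <| ki 1 1 <| dn) <| ki 0 0
  <| ki 10 9 <| ki 10 0 <| ki 7 4 <| ki 1 9 <| ki 0 1 <| ki 10 7 <| ki 7 1 <| dn) <| ki 0 4 <| ki
  6 0 <| ki 7 1 <| su (nd 1 1 1 (-1) 2 7 7 0 <| ki 10 2 <| ki 7 0 <| ki 8 19 <| ki 0 0 <| ki 7 8
  <| ki 10 9 <| ki 10 0 <| ki 7 3 <| ki 7 7 <| ki 7 6 <| ki 10 6 <| ki 0 0 <| ki 10 1 <| ki 7 0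
  <| ki 8 1 <| ki 0 0 <| ki 7 8 <| ki 10 9 <| ki 10 0 <| ki 7 3 <| ki 7 7 <| ki 7 5 <| ki 10 5 <|
  ki 7 1 <| dn) <| ki 6 8 <| ki 9 8 <| ki 9 0 <| ki 6 3 <| ki 6 7 <| ki 6 4 <| ki 9 4 <| ki 6 1
  <| dn) <| ki 7 0 <| ki 9 2 <| ki 8 4 <| ki 7 2 <| ki 7 6 <| ki 7 3 <| ki 8 1 <| ki 7 0 <| ki 8
  8 <| ki 8 1 <| dn) <| ki 0 8 <| ki 1 25 <| ki 1 16 <| su (nd 1 (-2) (-1) (-6) 1 1 1 0 <| ki 1 6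
  <| ki 1 5 <| ki 1 19 <| ki 0 1 <| ki 0 16 <| ki 0 0 <| ki 0 2 <| ki 1 21 <| ki 1 1 <| ki 0 2 <|
  ki 2 26 <| ki 1 27 <| ki 1 5 <| ki 1 16 <| ki 1 19 <| ki 1 27 <| ki 2 1 <| ki 0 0 <| ki 0 1 <|
  ki 1 15 <| ki 1 2 <| ki 0 1 <| ki 2 26 <| ki 2 14 <| dn) <| ki 1 13 <| ki 0 0 <| ki 0 0 <| ki 1
  20 <| ki 1 12 <| ki 1 17 <| ki 0 2 <| ki 1 3 <| ki 0 8 <| ki 1 11 <| ki 1 1 <| su (nd 1 (-2)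
  (-1) (-6) 1 1 1 0 <| ki 1 6 <| ki 1 5 <| ki 1 19 <| ki 0 1 <| ki 0 16 <| ki 0 0 <| ki 0 2 <| ki
  1 21 <| ki 1 1 <| ki 0 2 <| ki 2 26 <| ki 1 27 <| ki 1 5 <| ki 1 16 <| ki 1 19 <| ki 1 27 <| ki
  2 1 <| ki 0 0 <| ki 0 1 <| ki 1 15 <| ki 1 2 <| ki 0 1 <| ki 2 26 <| ki 2 14 <| dn) <| ki 1 13
  <| ki 0 0 <| ki 0 2 <| ki 1 21 <| ki 1 12 <| ki 1 4 <| dn) <| dn) <| dn) <| ki 2 2 <| ki 2 2 <|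
  ki 5 13 <| ki 2 8 <| ki 2 0 <| su (nd (-2) 0 1 (-3) 4 0 0 3 <| ki 5 6 <| ki 5 33 <| ki 3 6 <|
  ki 3 0 <| ki 3 6 <| ki 3 2 <| ki 3 0 <| ki 5 9 <| ki 0 0 <| ki 3 1 <| ki 3 5 <| ki 3 0 <| ki 3
  11 <| ki 3 3 <| ki 0 0 <| ki 3 0 <| ki 3 3 <| ki 6 13 <| ki 3 0 <| ki 3 0 <| ki 0 0 <| ki 3 2
  <| ki 3 6 <| ki 6 6 <| dn) <| ki 2 1 <| ki 2 16 <| ki 5 16 <| ki 2 1 <| ki 2 4 <| su (nd (-1)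
  (-1) (-1) (-3) 0 1 0 0 <| ki 1 1 <| ki 1 4 <| ki 0 1 <| ki 1 0 <| ki 1 6 <| ki 0 4 <| ki 0 8 <|
  ki 0 0 <| ki 1 8 <| ki 3 1 <| ki 1 9 <| ki 1 0 <| ki 0 0 <| ki 1 4 <| ki 0 2 <| ki 1 0 <| ki 0
  0 <| ki 0 4 <| ki 0 8 <| ki 0 0 <| ki 1 8 <| ki 1 0 <| ki 1 9 <| ki 1 0 <| dn) <| ki 2 1 <| ki
  2 5 <| ki 5 9 <| ki 2 8 <| ki 2 2 <| su (nd (-2) 0 1 (-3) 4 0 0 3 <| ki 5 6 <| ki 5 33 <| ki 3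
  6 <| ki 3 0 <| ki 3 6 <| ki 3 2 <| ki 3 0 <| ki 5 9 <| ki 0 0 <| ki 3 1 <| ki 3 5 <| ki 3 0 <|
  ki 3 11 <| ki 3 3 <| ki 0 0 <| ki 3 0 <| ki 3 3 <| ki 6 13 <| ki 3 0 <| ki 3 0 <| ki 0 0 <| ki
  3 2 <| ki 3 6 <| ki 6 6 <| dn) <| ki 2 2 <| ki 2 6 <| ki 5 5 <| dn) <| ki 0 8 <| ki 1 25 <| ki
  1 16 <| su (nd 1 0 (-1) (-2) 1 1 1 0 <| ki 1 6 <| ki 1 5 <| ki 1 19 <| ki 0 1 <| ki 0 16 <| ki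
  0 0 <| ki 0 2 <| ki 1 21 <| ki 1 1 <| ki 0 2 <| ki 2 26 <| ki 1 27 <| ki 1 5 <| ki 1 16 <| ki 1
  19 <| ki 1 27 <| ki 2 1 <| ki 0 0 <| ki 0 1 <| ki 1 15 <| ki 1 2 <| ki 0 1 <| ki 2 26 <| ki 2
  14 <| dn) <| ki 1 13 <| ki 0 0 <| ki 0 0 <| ki 1 20 <| ki 1 12 <| ki 1 17 <| ki 0 2 <| ki 1 3
  <| ki 0 8 <| ki 1 11 <| ki 1 1 <| su (nd 1 0 (-1) (-2) 1 1 1 0 <| ki 1 6 <| ki 1 5 <| ki 1 19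
  <| ki 0 1 <| ki 0 16 <| ki 0 0 <| ki 0 2 <| ki 1 21 <| ki 1 1 <| ki 0 2 <| ki 2 26 <| ki 1 27
  <| ki 1 5 <| ki 1 16 <| ki 1 19 <| ki 1 27 <| ki 2 1 <| ki 0 0 <| ki 0 1 <| ki 1 15 <| ki 1 2
  <| ki 0 1 <| ki 2 26 <| ki 2 14 <| dn) <| ki 1 13 <| ki 0 0 <| ki 0 2 <| ki 1 21 <| ki 1 12 <|
  ki 1 4 <| dn) <| dn) <| dn) <| ki 0 0 <| ki 0 1 <| dn) <| ki 0 1 <| su (nd 0 1 (-2) 1 1 0 0 1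
  <| ki 0 4 <| su (nd (-1) 1 (-1) 0 0 0 0 2 <| ki 0 0 <| ki 2 9 <| ki 2 0 <| ki 0 0 <| ki 2 8 <|
  ki 2 0 <| ki 0 8 <| ki 2 0 <| ki 0 0 <| ki 0 4 <| ki 2 4 <| ki 0 2 <| ki 2 1 <| ki 2 9 <| ki 2
  0 <| ki 0 0 <| ki 2 8 <| ki 2 0 <| ki 0 8 <| ki 2 0 <| ki 2 6 <| ki 0 4 <| ki 2 4 <| ki 0 1 <|
  dn) <| ki 0 0 <| ki 1 15 <| ki 1 2 <| su (nd 1 1 (-2) 1 1 1 1 0 <| ki 1 3 <| ki 0 0 <| ki 1 0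
  <| ki 2 15 <| ki 2 2 <| ki 0 0 <| ki 2 10 <| ki 1 0 <| ki 1 0 <| ki 2 5 <| ki 2 26 <| ki 2 6 <|
  ki 1 3 <| ki 1 6 <| ki 1 0 <| ki 2 20 <| ki 2 1 <| ki 0 0 <| ki 2 10 <| ki 1 0 <| ki 1 1 <| ki
  2 6 <| ki 2 7 <| ki 2 18 <| dn) <| ki 1 10 <| ki 0 8 <| ki 0 2 <| ki 1 5 <| ki 1 12 <| ki 1 6
  <| ki 0 4 <| su (nd (-1) 0 (-2) 0 0 0 0 2 <| ki 2 17 <| ki 0 1 <| su (nd 0 (-1) 1 (-1) 3 0 0 3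
  <| ki 3 0 <| ki 3 2 <| ki 3 4 <| su (nd (-1) (-2) 0 (-1) 4 1 1 0 <| ki 0 0 <| ki 0 2 <| ki 1 3
  <| ki 1 5 <| ki 0 6 <| ki 0 3 <| ki 0 0 <| ki 0 2 <| su (nd 0 (-3) (-2) 0 1 1 1 0 <| ki 2 0 <|
  ki 2 4 <| ki 5 5 <| ki 2 3 <| ki 0 0 <| ki 2 8 <| ki 0 0 <| ki 2 2 <| ki 2 6 <| ki 2 0 <| ki 5
  9 <| ki 2 1 <| ki 2 0 <| ki 0 1 <| ki 5 16 <| ki 2 3 <| ki 2 7 <| ki 2 8 <| ki 0 0 <| ki 2 1 <|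
  ki 1 0 <| ki 2 0 <| ki 2 0 <| ki 0 5 <| dn) <| ki 0 0 <| ki 4 8 <| ki 0 8 <| ki 0 0 <| ki 0 1
  <| su (nd 0 (-3) (-2) (-1) 1 2 2 0 <| ki 2 4 <| su (nd (-1) (-3) (-1) (-2) 0 0 0 1 <| ki 0 0 <|
  ki 1 9 <| ki 1 0 <| ki 0 0 <| ki 1 8 <| ki 1 0 <| ki 0 8 <| ki 1 0 <| ki 0 0 <| ki 0 4 <| ki 1
  4 <| ki 0 2 <| ki 1 1 <| ki 1 9 <| ki 1 0 <| ki 0 0 <| ki 1 8 <| ki 3 1 <| ki 0 8 <| ki 1 0 <|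
  ki 1 6 <| ki 0 4 <| ki 1 4 <| ki 0 1 <| dn) <| ki 3 5 <| ki 2 6 <| ki 0 2 <| su (nd 1 (-3) (-2)
  (-1) 1 3 3 0 <| ki 3 3 <| ki 0 0 <| ki 4 6 <| ki 3 6 <| ki 1 2 <| ki 0 0 <| ki 1 10 <| ki 3 0
  <| ki 3 0 <| ki 1 5 <| ki 4 13 <| ki 3 5 <| ki 6 33 <| ki 3 6 <| ki 3 0 <| ki 3 5 <| ki 1 1 <|
  ki 0 0 <| ki 1 10 <| ki 3 0 <| ki 6 9 <| ki 1 6 <| ki 3 2 <| ki 1 18 <| dn) <| ki 0 10 <| ki 2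
  8 <| ki 2 2 <| ki 0 5 <| ki 3 9 <| ki 0 6 <| ki 2 4 <| su (nd (-1) (-4) (-2) (-2) 0 0 0 1 <| ki
  1 17 <| ki 0 1 <| su (nd 0 (-5) 1 (-3) 3 0 0 2 <| ki 3 16 <| ki 2 2 <| ki 2 4 <| su (nd (-1)
  (-6) 0 (-3) 4 1 1 0 <| ki 0 0 <| ki 0 2 <| ki 1 3 <| ki 1 5 <| ki 0 6 <| ki 0 3 <| ki 0 0 <| ki
  0 2 <| su (nd (-1) (-6) 1 (-3) 4 0 0 1 <| ki 1 0 <| ki 1 5 <| ki 1 16 <| ki 2 5 <| ki 1 3 <| ki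
  1 4 <| ki 1 15 <| ki 1 2 <| ki 0 0 <| ki 1 0 <| ki 4 9 <| ki 1 19 <| ki 1 0 <| ki 1 6 <| ki 1 5
  <| ki 2 6 <| ki 1 7 <| ki 1 5 <| ki 1 21 <| ki 1 1 <| ki 0 0 <| ki 1 0 <| ki 4 19 <| ki 1 19 <|
  dn) <| ki 0 0 <| ki 3 8 <| ki 0 8 <| ki 0 0 <| ki 0 1 <| su (nd (-1) 2 0 1 3 9 8 8 <| su (nd 0
  2 0 1 2 0 0 9 <| ki 0 0 <| ki 9 0 <| ki 9 4 <| ki 9 1 <| ki 9 0 <| ki 9 3 <| ki 9 7 <| ki 9 0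
  <| ki 9 2 <| ki 9 2 <| ki 9 0 <| ki 9 1 <| ki 0 0 <| ki 9 0 <| ki 9 4 <| ki 9 2 <| ki 9 0 <| ki
  9 3 <| ki 9 7 <| ki 9 0 <| ki 9 4 <| ki 9 0 <| ki 9 0 <| ki 9 2 <| dn) <| ki 8 0 <| ki 9 8 <|
  ki 9 1 <| ki 8 3 <| ki 9 1 <| ki 8 6 <| ki 9 4 <| ki 8 2 <| su (nd 0 (-1) 0 0 3 6 6 6 <| ki 0 4
  <| ki 10 0 <| ki 10 4 <| ki 6 1 <| ki 10 2 <| ki 10 6 <| ki 6 6 <| ki 10 8 <| ki 10 0 <| su (nd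
  1 (-1) 1 0 3 0 0 7 <| ki 11 1 <| ki 11 0 <| ki 11 5 <| ki 7 1 <| ki 11 3 <| ki 11 6 <| ki 7 6
  <| ki 11 9 <| ki 11 0 <| ki 0 0 <| ki 11 0 <| ki 11 1 <| ki 11 2 <| ki 11 0 <| ki 11 6 <| ki 0
  0 <| ki 11 3 <| ki 11 12 <| ki 11 0 <| ki 11 9 <| ki 11 0 <| ki 0 0 <| ki 11 0 <| ki 11 2 <|
  dn) <| ki 10 1 <| ki 10 2 <| ki 0 4 <| ki 10 0 <| ki 10 4 <| su (nd (-1) 0 (-1) 1 3 0 0 7 <| ki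
  11 1 <| ki 11 0 <| ki 11 7 <| ki 7 1 <| ki 11 2 <| ki 11 6 <| ki 11 2 <| ki 11 9 <| ki 11 0 <|
  su (nd 0 (-1) 0 1 3 1 1 1 <| ki 2 4 <| ki 12 1 <| ki 0 0 <| ki 1 1 <| ki 12 6 <| ki 1 12 <| ki
  1 6 <| ki 0 0 <| ki 12 8 <| ki 0 1 <| ki 8 9 <| ki 12 1 <| ki 2 4 <| ki 12 2 <| ki 0 0 <| ki 0
  4 <| ki 12 5 <| ki 1 7 <| ki 2 9 <| ki 0 0 <| ki 12 9 <| ki 0 2 <| ki 8 9 <| ki 12 2 <| dn) <|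
  ki 11 0 <| ki 11 2 <| ki 11 2 <| ki 11 0 <| ki 11 6 <| ki 0 0 <| ki 11 1 <| ki 11 5 <| ki 11 1
  <| ki 11 9 <| ki 11 0 <| su (nd 0 (-1) 0 1 3 1 1 1 <| ki 2 4 <| ki 12 1 <| ki 0 0 <| ki 1 1 <|
  ki 12 6 <| ki 1 12 <| ki 1 6 <| ki 0 0 <| ki 12 8 <| ki 0 1 <| ki 8 9 <| ki 12 1 <| ki 2 4 <|
  ki 12 2 <| ki 0 0 <| ki 0 4 <| ki 12 5 <| ki 1 7 <| ki 2 9 <| ki 0 0 <| ki 12 9 <| ki 0 2 <| ki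
  8 9 <| ki 12 2 <| dn) <| ki 11 0 <| ki 11 3 <| dn) <| ki 10 1 <| ki 10 5 <| ki 10 1 <| ki 10 8
  <| ki 10 0 <| su (nd 1 (-1) 1 0 3 0 0 7 <| ki 11 1 <| ki 11 0 <| ki 11 5 <| ki 7 1 <| ki 11 3
  <| ki 11 6 <| ki 7 6 <| ki 11 9 <| ki 11 0 <| ki 0 0 <| ki 11 0 <| ki 11 1 <| ki 11 2 <| ki 11
  0 <| ki 11 6 <| ki 0 0 <| ki 11 3 <| ki 11 12 <| ki 11 0 <| ki 11 9 <| ki 11 0 <| ki 0 0 <| ki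
  11 0 <| ki 11 2 <| dn) <| ki 10 2 <| ki 10 6 <| dn) <| ki 8 0 <| ki 8 1 <| su (nd 0 2 0 1 2 0 0
  9 <| ki 0 0 <| ki 9 0 <| ki 9 4 <| ki 9 1 <| ki 9 0 <| ki 9 3 <| ki 9 7 <| ki 9 0 <| ki 9 2 <|
  ki 9 2 <| ki 9 0 <| ki 9 1 <| ki 0 0 <| ki 9 0 <| ki 9 4 <| ki 9 2 <| ki 9 0 <| ki 9 3 <| ki 9
  7 <| ki 9 0 <| ki 9 4 <| ki 9 0 <| ki 9 0 <| ki 9 2 <| dn) <| ki 8 0 <| ki 9 8 <| ki 9 3 <| ki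
  8 3 <| ki 8 7 <| ki 8 5 <| ki 9 4 <| ki 8 1 <| su (nd 0 (-1) 0 0 3 6 6 6 <| ki 0 4 <| ki 10 0
  <| ki 10 4 <| ki 6 1 <| ki 10 2 <| ki 10 6 <| ki 6 6 <| ki 10 8 <| ki 10 0 <| su (nd 1 (-1) 1 0
  3 0 0 7 <| ki 11 1 <| ki 11 0 <| ki 11 5 <| ki 7 1 <| ki 11 3 <| ki 11 6 <| ki 7 6 <| ki 11 9
  <| ki 11 0 <| ki 0 0 <| ki 11 0 <| ki 11 1 <| ki 11 2 <| ki 11 0 <| ki 11 6 <| ki 0 0 <| ki 11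
  3 <| ki 11 12 <| ki 11 0 <| ki 11 9 <| ki 11 0 <| ki 0 0 <| ki 11 0 <| ki 11 2 <| dn) <| ki 10
  1 <| ki 10 2 <| ki 0 4 <| ki 10 0 <| ki 10 4 <| su (nd (-1) 0 (-1) 1 3 0 0 7 <| ki 11 1 <| ki
  11 0 <| ki 11 7 <| ki 7 1 <| ki 11 2 <| ki 11 6 <| ki 11 2 <| ki 11 9 <| ki 11 0 <| su (nd 0
  (-1) 0 1 3 1 1 1 <| ki 2 5 <| ki 12 1 <| ki 0 0 <| ki 1 1 <| ki 12 6 <| ki 1 12 <| ki 1 6 <| ki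
  0 0 <| ki 12 8 <| ki 0 1 <| ki 8 9 <| ki 12 1 <| ki 2 6 <| ki 12 2 <| ki 0 0 <| ki 0 4 <| ki 12
  5 <| ki 1 7 <| ki 2 9 <| ki 0 0 <| ki 12 9 <| ki 0 2 <| ki 8 9 <| ki 12 2 <| dn) <| ki 11 0 <|
  ki 11 2 <| ki 11 2 <| ki 11 0 <| ki 11 6 <| ki 0 0 <| ki 11 1 <| ki 11 5 <| ki 11 1 <| ki 11 9
  <| ki 11 0 <| su (nd 0 (-1) 0 1 3 1 1 1 <| ki 2 5 <| ki 12 1 <| ki 0 0 <| ki 1 1 <| ki 12 6 <|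
  ki 1 12 <| ki 1 6 <| ki 0 0 <| ki 12 8 <| ki 0 1 <| ki 8 9 <| ki 12 1 <| ki 2 6 <| ki 12 2 <|
  ki 0 0 <| ki 0 4 <| ki 12 5 <| ki 1 7 <| ki 2 9 <| ki 0 0 <| ki 12 9 <| ki 0 2 <| ki 8 9 <| ki
  12 2 <| dn) <| ki 11 0 <| ki 11 3 <| dn) <| ki 10 1 <| ki 10 5 <| ki 10 1 <| ki 10 8 <| ki 10 0
  <| su (nd 1 (-1) 1 0 3 0 0 7 <| ki 11 1 <| ki 11 0 <| ki 11 5 <| ki 7 1 <| ki 11 3 <| ki 11 6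
  <| ki 7 6 <| ki 11 9 <| ki 11 0 <| ki 0 0 <| ki 11 0 <| ki 11 1 <| ki 11 2 <| ki 11 0 <| ki 11
  6 <| ki 0 0 <| ki 11 3 <| ki 11 12 <| ki 11 0 <| ki 11 9 <| ki 11 0 <| ki 0 0 <| ki 11 0 <| ki
  11 2 <| dn) <| ki 10 2 <| ki 10 6 <| dn) <| ki 8 0 <| ki 8 2 <| dn) <| ki 1 6 <| ki 0 3 <| ki 0
  4 <| ki 0 0 <| ki 0 0 <| su (nd (-1) (-6) 1 (-3) 4 0 0 1 <| ki 1 0 <| ki 1 5 <| ki 1 16 <| ki 2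
  5 <| ki 1 3 <| ki 1 4 <| ki 1 15 <| ki 1 2 <| ki 0 0 <| ki 1 0 <| ki 4 9 <| ki 1 19 <| ki 1 0
  <| ki 1 6 <| ki 1 5 <| ki 2 6 <| ki 1 7 <| ki 1 5 <| ki 1 21 <| ki 1 1 <| ki 0 0 <| ki 1 0 <|
  ki 4 19 <| ki 1 19 <| dn) <| ki 0 0 <| ki 3 8 <| ki 0 8 <| dn) <| ki 2 2 <| ki 2 2 <| ki 3 13
  <| ki 2 8 <| ki 2 0 <| su (nd 1 (-5) 2 (-3) 3 0 0 3 <| ki 3 0 <| ki 5 6 <| ki 5 33 <| ki 3 6 <|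
  ki 3 0 <| ki 3 6 <| ki 3 2 <| ki 3 0 <| ki 5 9 <| ki 0 0 <| ki 3 1 <| ki 3 5 <| ki 4 6 <| ki 3
  11 <| ki 3 3 <| ki 0 0 <| ki 3 0 <| ki 3 3 <| ki 4 13 <| ki 3 0 <| ki 3 0 <| ki 0 0 <| ki 3 2
  <| ki 3 6 <| dn) <| ki 2 1 <| ki 2 16 <| ki 3 5 <| ki 2 1 <| ki 2 4 <| su (nd (-1) (-5) (-1)
  (-2) 0 0 0 0 <| ki 1 1 <| ki 3 4 <| ki 1 5 <| ki 1 0 <| ki 1 4 <| ki 0 1 <| ki 1 0 <| ki 0 8 <|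
  ki 3 8 <| ki 3 11 <| ki 1 8 <| ki 3 1 <| ki 1 6 <| ki 3 4 <| ki 1 6 <| ki 1 0 <| ki 1 4 <| ki 0
  2 <| ki 1 0 <| ki 0 8 <| ki 3 8 <| ki 3 2 <| ki 1 8 <| ki 1 0 <| dn) <| ki 2 1 <| ki 2 5 <| ki
  3 9 <| ki 2 8 <| ki 2 2 <| su (nd 1 (-5) 2 (-3) 3 0 0 3 <| ki 3 0 <| ki 5 6 <| ki 5 33 <| ki 3
  6 <| ki 3 0 <| ki 3 6 <| ki 3 2 <| ki 3 0 <| ki 5 9 <| ki 0 0 <| ki 3 1 <| ki 3 5 <| ki 4 6 <|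
  ki 3 11 <| ki 3 3 <| ki 0 0 <| ki 3 0 <| ki 3 3 <| ki 4 13 <| ki 3 0 <| ki 3 0 <| ki 0 0 <| ki
  3 2 <| ki 3 6 <| dn) <| ki 2 2 <| ki 2 6 <| dn) <| ki 0 8 <| ki 1 25 <| ki 1 16 <| su (nd 0
  (-5) 1 (-4) 3 0 0 1 <| ki 4 16 <| ki 1 2 <| ki 2 0 <| ki 0 1 <| ki 2 13 <| ki 2 15 <| ki 4 13
  <| ki 2 1 <| ki 1 0 <| ki 2 8 <| ki 2 16 <| ki 1 16 <| ki 4 5 <| ki 1 1 <| ki 2 0 <| ki 2 4 <|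
  ki 2 13 <| ki 2 1 <| ki 4 9 <| ki 2 2 <| ki 2 6 <| ki 2 8 <| ki 2 5 <| ki 1 6 <| dn) <| ki 1 13
  <| ki 0 0 <| ki 0 0 <| ki 1 20 <| ki 1 12 <| ki 1 4 <| ki 0 2 <| ki 1 3 <| ki 0 8 <| ki 1 11 <|
  ki 1 1 <| su (nd 0 (-5) 1 (-4) 3 0 0 1 <| ki 4 16 <| ki 1 2 <| ki 2 0 <| ki 0 1 <| ki 2 13 <|
  ki 2 15 <| ki 4 13 <| ki 2 1 <| ki 1 0 <| ki 2 8 <| ki 2 16 <| ki 1 16 <| ki 4 5 <| ki 1 1 <|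
  ki 2 0 <| ki 2 4 <| ki 2 13 <| ki 2 1 <| ki 4 9 <| ki 2 2 <| ki 2 6 <| ki 2 8 <| ki 2 5 <| ki 1
  6 <| dn) <| ki 1 13 <| ki 0 0 <| ki 0 2 <| ki 1 21 <| ki 1 12 <| dn) <| ki 3 16 <| ki 0 11 <|
  ki 0 1 <| su (nd 1 (-3) (-2) (-1) 1 3 3 0 <| ki 3 3 <| ki 0 0 <| ki 4 6 <| ki 3 6 <| ki 1 2 <|
  ki 0 0 <| ki 1 10 <| ki 3 0 <| ki 3 0 <| ki 1 5 <| ki 4 13 <| ki 3 5 <| ki 6 33 <| ki 3 6 <| ki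
  3 0 <| ki 3 5 <| ki 1 1 <| ki 0 0 <| ki 1 10 <| ki 3 0 <| ki 6 9 <| ki 1 6 <| ki 3 2 <| ki 1 18
  <| dn) <| ki 0 10 <| ki 2 8 <| ki 2 0 <| ki 0 6 <| ki 2 2 <| ki 0 12 <| dn) <| ki 1 6 <| ki 0 3
  <| ki 0 4 <| ki 0 0 <| ki 0 0 <| su (nd 0 (-3) (-2) 0 1 1 1 0 <| ki 2 0 <| ki 2 4 <| ki 5 5 <|
  ki 2 3 <| ki 0 0 <| ki 2 8 <| ki 0 0 <| ki 2 2 <| ki 2 6 <| ki 2 0 <| ki 5 9 <| ki 2 1 <| ki 2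
  0 <| ki 0 1 <| ki 5 16 <| ki 2 3 <| ki 2 7 <| ki 2 8 <| ki 0 0 <| ki 2 1 <| ki 1 0 <| ki 2 0 <|
  ki 2 0 <| ki 0 5 <| dn) <| ki 0 0 <| ki 4 8 <| ki 0 8 <| dn) <| ki 3 2 <| ki 3 2 <| ki 3 2 <|
  ki 3 8 <| ki 3 0 <| su (nd 1 (-1) 2 (-1) 3 0 0 4 <| ki 4 0 <| ki 4 13 <| ki 4 3 <| ki 4 6 <| ki
  4 0 <| ki 4 6 <| ki 4 2 <| ki 4 0 <| ki 4 1 <| ki 0 0 <| ki 4 1 <| ki 4 5 <| ki 4 0 <| ki 4 11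
  <| ki 4 3 <| ki 0 0 <| ki 4 0 <| ki 4 3 <| ki 4 0 <| ki 4 0 <| ki 4 0 <| ki 0 0 <| ki 4 2 <| ki
  4 6 <| dn) <| ki 3 1 <| ki 3 16 <| ki 3 0 <| ki 3 1 <| ki 3 4 <| su (nd (-1) (-1) (-1) 0 0 0 0
  0 <| ki 1 1 <| ki 4 4 <| ki 1 5 <| ki 1 0 <| ki 1 4 <| ki 0 1 <| ki 1 0 <| ki 0 8 <| ki 4 8 <|
  ki 4 11 <| ki 1 8 <| ki 4 1 <| ki 1 6 <| ki 4 4 <| ki 1 6 <| ki 1 0 <| ki 1 4 <| ki 0 2 <| ki 1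
  0 <| ki 0 8 <| ki 4 8 <| ki 4 2 <| ki 1 8 <| ki 1 0 <| dn) <| ki 3 1 <| ki 3 5 <| ki 3 0 <| ki
  3 8 <| ki 3 2 <| su (nd 1 (-1) 2 (-1) 3 0 0 4 <| ki 4 0 <| ki 4 13 <| ki 4 3 <| ki 4 6 <| ki 4
  0 <| ki 4 6 <| ki 4 2 <| ki 4 0 <| ki 4 1 <| ki 0 0 <| ki 4 1 <| ki 4 5 <| ki 4 0 <| ki 4 11 <|
  ki 4 3 <| ki 0 0 <| ki 4 0 <| ki 4 3 <| ki 4 0 <| ki 4 0 <| ki 4 0 <| ki 0 0 <| ki 4 2 <| ki 4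
  6 <| dn) <| ki 3 2 <| ki 3 6 <| dn) <| ki 0 8 <| ki 2 25 <| ki 2 16 <| su (nd 0 (-1) 1 (-2) 3 0
  0 1 <| ki 3 2 <| ki 1 2 <| ki 3 0 <| ki 0 1 <| ki 3 13 <| ki 3 15 <| ki 3 0 <| ki 3 1 <| ki 1 0
  <| ki 3 8 <| ki 3 16 <| ki 1 16 <| ki 3 1 <| ki 1 1 <| ki 3 0 <| ki 3 4 <| ki 3 13 <| ki 3 1 <|
  ki 2 9 <| ki 3 2 <| ki 3 6 <| ki 3 8 <| ki 3 5 <| ki 1 6 <| dn) <| ki 2 13 <| ki 0 0 <| ki 0 0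
  <| ki 2 20 <| ki 2 12 <| ki 2 4 <| ki 0 2 <| ki 2 3 <| ki 0 8 <| ki 2 11 <| ki 2 1 <| su (nd 0
  (-1) 1 (-2) 3 0 0 1 <| ki 3 2 <| ki 1 2 <| ki 3 0 <| ki 0 1 <| ki 3 13 <| ki 3 15 <| ki 3 0 <|
  ki 3 1 <| ki 1 0 <| ki 3 8 <| ki 3 16 <| ki 1 16 <| ki 3 1 <| ki 1 1 <| ki 3 0 <| ki 3 4 <| ki
  3 13 <| ki 3 1 <| ki 2 9 <| ki 3 2 <| ki 3 6 <| ki 3 8 <| ki 3 5 <| ki 1 6 <| dn) <| ki 2 13 <|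
  ki 0 0 <| ki 0 2 <| ki 2 21 <| ki 2 12 <| dn) <| ki 0 0 <| ki 1 11 <| ki 1 1 <| su (nd 1 1 (-2)
  1 1 1 1 0 <| ki 1 3 <| ki 0 0 <| ki 1 0 <| ki 2 15 <| ki 2 2 <| ki 0 0 <| ki 2 10 <| ki 1 0 <|
  ki 1 0 <| ki 2 5 <| ki 2 26 <| ki 2 6 <| ki 1 3 <| ki 1 6 <| ki 1 0 <| ki 2 20 <| ki 2 1 <| ki
  0 0 <| ki 2 10 <| ki 1 0 <| ki 1 1 <| ki 2 6 <| ki 2 7 <| ki 2 18 <| dn) <| ki 1 10 <| ki 0 8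
  <| ki 0 0 <| ki 1 6 <| ki 1 7 <| ki 1 12 <| dn) <| ki 0 0 <| ki 0 2 <| su (nd (-1) 1 (-1) 0 0 0
  0 1 <| ki 0 4 <| ki 1 9 <| ki 1 0 <| ki 0 2 <| ki 1 8 <| ki 1 0 <| su (nd 1 (-1) 0 (-1) 2 2 2 0
  <| ki 2 0 <| ki 2 6 <| ki 0 0 <| ki 1 0 <| ki 0 0 <| ki 2 8 <| ki 2 2 <| ki 1 9 <| ki 2 0 <| ki
  1 0 <| ki 2 4 <| ki 0 2 <| ki 2 0 <| ki 1 6 <| ki 0 0 <| ki 1 0 <| ki 0 0 <| ki 2 8 <| ki 2 0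
  <| ki 1 9 <| ki 2 2 <| ki 1 2 <| ki 2 4 <| ki 0 0 <| dn) <| ki 1 0 <| ki 0 0 <| ki 0 2 <| ki 1
  4 <| ki 0 1 <| ki 1 1 <| ki 1 9 <| ki 1 0 <| ki 0 1 <| ki 1 8 <| ki 1 0 <| su (nd 1 (-1) 0 (-1)
  2 2 2 0 <| ki 2 0 <| ki 2 6 <| ki 0 0 <| ki 1 0 <| ki 0 0 <| ki 2 8 <| ki 2 2 <| ki 1 9 <| ki 2
  0 <| ki 1 0 <| ki 2 4 <| ki 0 2 <| ki 2 0 <| ki 1 6 <| ki 0 0 <| ki 1 0 <| ki 0 0 <| ki 2 8 <|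
  ki 2 0 <| ki 1 9 <| ki 2 2 <| ki 1 2 <| ki 2 4 <| ki 0 0 <| dn) <| ki 1 0 <| ki 1 6 <| ki 0 1
  <| ki 1 4 <| su (nd 0 0 (-1) 0 0 0 2 2 <| ki 2 17 <| ki 2 8 <| ki 2 3 <| ki 0 0 <| ki 2 25 <|
  ki 2 2 <| su (nd 1 (-1) 1 (-2) 3 0 0 1 <| ki 3 2 <| ki 2 2 <| ki 3 8 <| ki 1 6 <| ki 3 9 <| ki
  3 0 <| ki 3 0 <| ki 3 4 <| ki 2 0 <| ki 3 0 <| ki 3 6 <| ki 2 1 <| ki 3 1 <| ki 2 1 <| ki 3 8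
  <| ki 3 3 <| ki 3 9 <| ki 3 0 <| ki 2 0 <| ki 3 4 <| ki 2 2 <| ki 3 0 <| ki 3 6 <| ki 2 2 <|
  dn) <| ki 2 13 <| ki 2 4 <| ki 1 0 <| ki 2 15 <| ki 2 12 <| ki 2 3 <| ki 2 8 <| ki 2 3 <| ki 0
  0 <| ki 2 11 <| ki 2 1 <| su (nd 1 (-1) 1 (-2) 3 0 0 1 <| ki 3 2 <| ki 2 2 <| ki 3 8 <| ki 1 6
  <| ki 3 9 <| ki 3 0 <| ki 3 0 <| ki 3 4 <| ki 2 0 <| ki 3 0 <| ki 3 6 <| ki 2 1 <| ki 3 1 <| ki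
  2 1 <| ki 3 8 <| ki 3 3 <| ki 3 9 <| ki 3 0 <| ki 2 0 <| ki 3 4 <| ki 2 2 <| ki 3 0 <| ki 3 6
  <| ki 2 2 <| dn) <| ki 2 13 <| ki 2 4 <| ki 1 0 <| ki 2 6 <| ki 2 12 <| dn) <| dn) <| ki 0 8 <|
  su (nd (-1) 2 0 1 3 1 0 0 <| su (nd (-1) 2 1 1 3 2 2 0 <| ki 0 0 <| ki 0 2 <| ki 1 14 <| ki 2 3
  <| ki 1 21 <| ki 1 17 <| ki 0 2 <| ki 2 16 <| ki 0 0 <| su (nd 0 2 2 1 3 0 0 1 <| ki 1 0 <| ki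
  1 13 <| ki 1 3 <| ki 3 1 <| ki 1 0 <| ki 2 26 <| ki 1 2 <| ki 3 6 <| ki 1 1 <| ki 0 0 <| ki 1 1
  <| ki 1 5 <| ki 1 0 <| ki 1 11 <| ki 1 3 <| ki 3 2 <| ki 1 0 <| ki 2 26 <| ki 2 14 <| ki 3 5 <|
  ki 1 0 <| ki 0 0 <| ki 1 2 <| ki 2 1 <| dn) <| ki 0 1 <| ki 1 2 <| ki 0 0 <| ki 0 1 <| ki 0 4
  <| ki 2 21 <| ki 1 6 <| ki 1 18 <| ki 1 14 <| ki 2 5 <| ki 0 2 <| su (nd 0 2 2 1 3 0 0 1 <| ki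
  1 0 <| ki 1 13 <| ki 1 3 <| ki 3 1 <| ki 1 0 <| ki 2 26 <| ki 1 2 <| ki 3 6 <| ki 1 1 <| ki 0 0
  <| ki 1 1 <| ki 1 5 <| ki 1 0 <| ki 1 11 <| ki 1 3 <| ki 3 2 <| ki 1 0 <| ki 2 26 <| ki 2 14 <|
  ki 3 5 <| ki 1 0 <| ki 0 0 <| ki 1 2 <| ki 2 1 <| dn) <| ki 0 2 <| ki 1 1 <| dn) <| ki 0 13 <|
  ki 1 8 <| ki 1 1 <| ki 0 15 <| ki 1 1 <| ki 0 17 <| ki 1 4 <| ki 0 3 <| su (nd 0 2 1 1 3 0 0 1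
  <| su (nd 0 2 2 1 3 1 1 0 <| ki 0 0 <| ki 0 2 <| ki 1 0 <| ki 3 1 <| ki 0 2 <| ki 2 26 <| ki 1
  5 <| ki 3 6 <| ki 0 0 <| ki 1 0 <| ki 1 6 <| ki 0 16 <| ki 0 0 <| ki 0 1 <| ki 1 0 <| ki 3 2 <|
  ki 0 1 <| ki 2 26 <| ki 2 14 <| ki 3 5 <| ki 1 6 <| ki 1 0 <| ki 1 5 <| ki 2 1 <| dn) <| ki 1
  13 <| ki 0 8 <| ki 2 0 <| ki 1 20 <| ki 1 12 <| ki 1 17 <| ki 2 6 <| su (nd 0 2 0 2 2 1 1 1 <|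
  su (nd 0 3 1 2 3 1 1 1 <| ki 0 2 <| ki 1 8 <| ki 0 0 <| ki 2 0 <| ki 1 3 <| ki 1 7 <| ki 1 6 <|
  ki 2 6 <| ki 0 4 <| ki 0 0 <| ki 1 0 <| ki 1 1 <| ki 0 1 <| ki 1 8 <| ki 0 0 <| ki 2 2 <| ki 1
  3 <| ki 1 7 <| ki 1 4 <| ki 2 5 <| ki 1 1 <| ki 0 0 <| ki 1 0 <| ki 1 2 <| dn) <| ki 2 9 <| ki
  3 2 <| ki 0 0 <| ki 2 0 <| ki 2 4 <| ki 1 1 <| ki 3 5 <| ki 2 17 <| ki 0 0 <| ki 2 8 <| ki 2 2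
  <| su (nd 0 3 1 2 3 1 1 1 <| ki 0 2 <| ki 1 8 <| ki 0 0 <| ki 2 0 <| ki 1 3 <| ki 1 7 <| ki 1 6
  <| ki 2 6 <| ki 0 4 <| ki 0 0 <| ki 1 0 <| ki 1 1 <| ki 0 1 <| ki 1 8 <| ki 0 0 <| ki 2 2 <| ki
  1 3 <| ki 1 7 <| ki 1 4 <| ki 2 5 <| ki 1 1 <| ki 0 0 <| ki 1 0 <| ki 1 2 <| dn) <| ki 2 9 <|
  ki 3 1 <| ki 0 0 <| ki 2 0 <| ki 2 4 <| ki 0 7 <| ki 3 6 <| ki 2 14 <| ki 2 3 <| ki 2 8 <| ki 2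
  11 <| dn) <| ki 0 0 <| ki 1 25 <| ki 1 16 <| su (nd 0 2 2 1 3 1 1 0 <| ki 0 0 <| ki 0 2 <| ki 1
  0 <| ki 3 1 <| ki 0 2 <| ki 2 26 <| ki 1 5 <| ki 3 6 <| ki 0 0 <| ki 1 0 <| ki 1 6 <| ki 0 16
  <| ki 0 0 <| ki 0 1 <| ki 1 0 <| ki 3 2 <| ki 0 1 <| ki 2 26 <| ki 2 14 <| ki 3 5 <| ki 1 6 <|
  ki 1 0 <| ki 1 5 <| ki 2 1 <| dn) <| ki 1 13 <| ki 0 8 <| ki 2 2 <| ki 1 21 <| ki 1 12 <| ki 1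
  4 <| ki 2 5 <| ki 1 3 <| ki 0 0 <| ki 1 11 <| ki 1 1 <| dn) <| ki 0 25 <| ki 0 2 <| su (nd (-1)
  2 1 1 3 2 2 0 <| ki 0 0 <| ki 0 2 <| ki 1 14 <| ki 2 3 <| ki 1 21 <| ki 1 17 <| ki 0 2 <| ki 2
  16 <| ki 0 0 <| su (nd 0 2 2 1 3 0 0 1 <| ki 1 0 <| ki 1 13 <| ki 1 3 <| ki 3 1 <| ki 1 0 <| ki
  2 26 <| ki 1 2 <| ki 3 6 <| ki 1 1 <| ki 0 0 <| ki 1 1 <| ki 1 5 <| ki 1 0 <| ki 1 11 <| ki 1 3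
  <| ki 3 2 <| ki 1 0 <| ki 2 26 <| ki 2 14 <| ki 3 5 <| ki 1 0 <| ki 0 0 <| ki 1 2 <| ki 2 1 <|
  dn) <| ki 0 1 <| ki 1 2 <| ki 0 0 <| ki 0 1 <| ki 0 4 <| ki 2 21 <| ki 1 6 <| ki 1 18 <| ki 1
  14 <| ki 2 5 <| ki 0 2 <| su (nd 0 2 2 1 3 0 0 1 <| ki 1 0 <| ki 1 13 <| ki 1 3 <| ki 3 1 <| ki
  1 0 <| ki 2 26 <| ki 1 2 <| ki 3 6 <| ki 1 1 <| ki 0 0 <| ki 1 1 <| ki 1 5 <| ki 1 0 <| ki 1 11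
  <| ki 1 3 <| ki 3 2 <| ki 1 0 <| ki 2 26 <| ki 2 14 <| ki 3 5 <| ki 1 0 <| ki 0 0 <| ki 1 2 <|
  ki 2 1 <| dn) <| ki 0 2 <| ki 1 1 <| dn) <| ki 0 13 <| ki 1 8 <| ki 1 3 <| ki 0 6 <| ki 0 12 <|
  ki 0 3 <| ki 1 4 <| ki 0 3 <| su (nd 0 2 1 1 3 0 0 1 <| su (nd 0 2 2 1 3 1 1 0 <| ki 0 0 <| ki
  0 2 <| ki 1 0 <| ki 3 1 <| ki 0 2 <| ki 2 26 <| ki 1 5 <| ki 3 6 <| ki 0 0 <| ki 1 0 <| ki 1 6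
  <| ki 0 16 <| ki 0 0 <| ki 0 1 <| ki 1 0 <| ki 3 2 <| ki 0 1 <| ki 2 26 <| ki 2 14 <| ki 3 5 <|
  ki 1 6 <| ki 1 0 <| ki 1 5 <| ki 2 1 <| dn) <| ki 1 13 <| ki 0 8 <| ki 2 0 <| ki 1 20 <| ki 1
  12 <| ki 1 17 <| ki 2 6 <| su (nd 0 2 0 2 2 1 1 1 <| su (nd 0 3 1 2 3 1 1 1 <| ki 0 2 <| ki 1 8
  <| ki 0 0 <| ki 2 0 <| ki 1 3 <| ki 1 7 <| ki 1 6 <| ki 2 6 <| ki 0 4 <| ki 0 0 <| ki 1 0 <| ki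
  1 1 <| ki 0 1 <| ki 1 8 <| ki 0 0 <| ki 2 2 <| ki 1 3 <| ki 1 7 <| ki 1 4 <| ki 2 5 <| ki 1 1
  <| ki 0 0 <| ki 1 0 <| ki 1 2 <| dn) <| ki 2 9 <| ki 3 2 <| ki 0 0 <| ki 2 0 <| ki 2 4 <| ki 1
  1 <| ki 3 5 <| ki 2 17 <| ki 0 0 <| ki 2 8 <| ki 2 2 <| su (nd 0 3 1 2 3 1 1 1 <| ki 0 2 <| ki
  1 8 <| ki 0 0 <| ki 2 0 <| ki 1 3 <| ki 1 7 <| ki 1 6 <| ki 2 6 <| ki 0 4 <| ki 0 0 <| ki 1 0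
  <| ki 1 1 <| ki 0 1 <| ki 1 8 <| ki 0 0 <| ki 2 2 <| ki 1 3 <| ki 1 7 <| ki 1 4 <| ki 2 5 <| ki
  1 1 <| ki 0 0 <| ki 1 0 <| ki 1 2 <| dn) <| ki 2 9 <| ki 3 1 <| ki 0 0 <| ki 2 0 <| ki 2 4 <|
  ki 0 7 <| ki 3 6 <| ki 2 14 <| ki 2 3 <| ki 2 8 <| ki 2 11 <| dn) <| ki 0 0 <| ki 1 25 <| ki 1
  16 <| su (nd 0 2 2 1 3 1 1 0 <| ki 0 0 <| ki 0 2 <| ki 1 0 <| ki 3 1 <| ki 0 2 <| ki 2 26 <| ki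
  1 5 <| ki 3 6 <| ki 0 0 <| ki 1 0 <| ki 1 6 <| ki 0 16 <| ki 0 0 <| ki 0 1 <| ki 1 0 <| ki 3 2
  <| ki 0 1 <| ki 2 26 <| ki 2 14 <| ki 3 5 <| ki 1 6 <| ki 1 0 <| ki 1 5 <| ki 2 1 <| dn) <| ki
  1 13 <| ki 0 8 <| ki 2 2 <| ki 1 21 <| ki 1 12 <| ki 1 4 <| ki 2 5 <| ki 1 3 <| ki 0 0 <| ki 1
  11 <| ki 1 1 <| dn) <| ki 0 11 <| ki 0 1 <| dn) <| su (nd (-1) 2 0 1 3 1 0 0 <| ki 0 8 <| ki 0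
  0 <| ki 1 8 <| ki 1 1 <| ki 0 0 <| ki 1 1 <| ki 0 4 <| ki 1 4 <| ki 0 1 <| su (nd 0 2 0 2 2 0 0
  0 <| su (nd 1 2 0 2 2 0 0 2 <| ki 0 0 <| ki 2 0 <| ki 3 2 <| ki 2 8 <| ki 2 0 <| ki 2 2 <| ki 2
  6 <| ki 3 5 <| ki 2 6 <| ki 2 3 <| ki 2 0 <| ki 2 2 <| ki 0 0 <| ki 2 0 <| ki 3 1 <| ki 2 8 <|
  ki 2 0 <| ki 2 1 <| ki 0 0 <| ki 3 6 <| ki 2 3 <| ki 2 4 <| ki 2 0 <| ki 2 0 <| dn) <| ki 1 0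
  <| ki 2 2 <| ki 1 0 <| ki 1 0 <| ki 1 4 <| ki 0 1 <| ki 2 5 <| ki 1 6 <| ki 1 6 <| ki 1 8 <| ki
  1 0 <| su (nd 1 2 0 2 2 0 0 2 <| ki 0 0 <| ki 2 0 <| ki 3 2 <| ki 2 8 <| ki 2 0 <| ki 2 2 <| ki
  2 6 <| ki 3 5 <| ki 2 6 <| ki 2 3 <| ki 2 0 <| ki 2 2 <| ki 0 0 <| ki 2 0 <| ki 3 1 <| ki 2 8
  <| ki 2 0 <| ki 2 1 <| ki 0 0 <| ki 3 6 <| ki 2 3 <| ki 2 4 <| ki 2 0 <| ki 2 0 <| dn) <| ki 1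
  0 <| ki 2 1 <| ki 1 0 <| ki 1 0 <| ki 1 4 <| su (nd (-1) 3 0 2 2 0 0 2 <| su (nd 0 3 0 3 2 1 1
  1 <| ki 0 1 <| ki 3 9 <| ki 3 0 <| ki 0 0 <| ki 3 0 <| ki 3 4 <| ki 1 1 <| ki 3 6 <| ki 3 17 <|
  ki 1 6 <| ki 3 8 <| ki 3 2 <| ki 0 2 <| ki 3 9 <| ki 4 19 <| ki 0 0 <| ki 3 0 <| ki 3 4 <| ki 0
  4 <| ki 3 5 <| ki 3 14 <| ki 3 3 <| ki 3 8 <| ki 3 11 <| dn) <| ki 2 0 <| ki 2 0 <| ki 2 13 <|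
  ki 2 0 <| ki 2 15 <| ki 2 12 <| ki 2 3 <| ki 2 7 <| ki 2 6 <| ki 2 25 <| ki 2 2 <| su (nd 0 3 0
  3 2 1 1 1 <| ki 0 1 <| ki 3 9 <| ki 3 0 <| ki 0 0 <| ki 3 0 <| ki 3 4 <| ki 1 1 <| ki 3 6 <| ki
  3 17 <| ki 1 6 <| ki 3 8 <| ki 3 2 <| ki 0 2 <| ki 3 9 <| ki 4 19 <| ki 0 0 <| ki 3 0 <| ki 3 4
  <| ki 0 4 <| ki 3 5 <| ki 3 14 <| ki 3 3 <| ki 3 8 <| ki 3 11 <| dn) <| ki 2 0 <| ki 2 0 <| ki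
  2 13 <| ki 2 0 <| ki 2 6 <| ki 2 12 <| ki 2 3 <| ki 2 7 <| ki 2 5 <| ki 2 11 <| ki 2 1 <| dn)
  <| ki 2 6 <| ki 1 5 <| ki 1 1 <| ki 1 8 <| ki 1 0 <| dn) <| ki 0 0 <| ki 0 4 <| ki 0 8 <| ki 0
  0 <| ki 1 8 <| ki 1 3 <| ki 0 0 <| ki 0 4 <| ki 0 0 <| ki 1 4 <| ki 0 2 <| su (nd 0 2 0 2 2 0 0
  0 <| su (nd 1 2 0 2 2 0 0 2 <| ki 0 0 <| ki 2 0 <| ki 3 2 <| ki 2 8 <| ki 2 0 <| ki 2 2 <| ki 2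
  6 <| ki 3 5 <| ki 2 6 <| ki 2 3 <| ki 2 0 <| ki 2 2 <| ki 0 0 <| ki 2 0 <| ki 3 1 <| ki 2 8 <|
  ki 2 0 <| ki 2 1 <| ki 0 0 <| ki 3 6 <| ki 2 3 <| ki 2 4 <| ki 2 0 <| ki 2 0 <| dn) <| ki 1 0
  <| ki 2 2 <| ki 1 0 <| ki 1 0 <| ki 1 4 <| ki 0 1 <| ki 2 5 <| ki 1 6 <| ki 1 6 <| ki 1 8 <| ki
  1 0 <| su (nd 1 2 0 2 2 0 0 2 <| ki 0 0 <| ki 2 0 <| ki 3 2 <| ki 2 8 <| ki 2 0 <| ki 2 2 <| ki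
  2 6 <| ki 3 5 <| ki 2 6 <| ki 2 3 <| ki 2 0 <| ki 2 2 <| ki 0 0 <| ki 2 0 <| ki 3 1 <| ki 2 8
  <| ki 2 0 <| ki 2 1 <| ki 0 0 <| ki 3 6 <| ki 2 3 <| ki 2 4 <| ki 2 0 <| ki 2 0 <| dn) <| ki 1
  0 <| ki 2 1 <| ki 1 0 <| ki 1 0 <| ki 1 4 <| su (nd (-1) 3 0 2 2 0 0 2 <| su (nd 0 3 0 3 2 1 1
  1 <| ki 0 1 <| ki 3 9 <| ki 3 0 <| ki 0 0 <| ki 3 0 <| ki 3 4 <| ki 1 1 <| ki 3 6 <| ki 3 17 <|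
  ki 1 6 <| ki 3 8 <| ki 3 2 <| ki 0 2 <| ki 3 9 <| ki 4 19 <| ki 0 0 <| ki 3 0 <| ki 3 4 <| ki 0
  4 <| ki 3 5 <| ki 3 14 <| ki 3 3 <| ki 3 8 <| ki 3 11 <| dn) <| ki 2 0 <| ki 2 0 <| ki 2 13 <|
  ki 2 0 <| ki 2 15 <| ki 2 12 <| ki 2 3 <| ki 2 7 <| ki 2 6 <| ki 2 25 <| ki 2 2 <| su (nd 0 3 0
  3 2 1 1 1 <| ki 0 1 <| ki 3 9 <| ki 3 0 <| ki 0 0 <| ki 3 0 <| ki 3 4 <| ki 1 1 <| ki 3 6 <| ki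
  3 17 <| ki 1 6 <| ki 3 8 <| ki 3 2 <| ki 0 2 <| ki 3 9 <| ki 4 19 <| ki 0 0 <| ki 3 0 <| ki 3 4
  <| ki 0 4 <| ki 3 5 <| ki 3 14 <| ki 3 3 <| ki 3 8 <| ki 3 11 <| dn) <| ki 2 0 <| ki 2 0 <| ki
  2 13 <| ki 2 0 <| ki 2 6 <| ki 2 12 <| ki 2 3 <| ki 2 7 <| ki 2 5 <| ki 2 11 <| ki 2 1 <| dn)
  <| ki 2 6 <| ki 1 5 <| ki 1 1 <| ki 1 8 <| ki 1 0 <| dn) <| ki 0 0 <| ki 0 4 <| dn) <| ki 0 3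
  <| ki 0 7 <| ki 0 4 <| dn)

def pat_D0 : List Sp := [⟨0, ⟨0, 0, 0, 0⟩⟩]
def goal_D0 : List Sp := [⟨0, ⟨0, 1, 0, 0⟩⟩, ⟨0, ⟨0, 0, 0, -1⟩⟩]

theorem chk_D0 : chk KT goal_D0 tree_D0 pat_D0 [] ⟨0, 0, 0, 0⟩ = true := by decide +kernel

end Pool.Agent.H181R2
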